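import Mathlib

/-!
# Solving linear equations with a matrix of corank one
-/

namespace Pool.Agent.HSI

theorem exists_adj {A : Type*} [CommRing A] {ι : Type*} [Fintype ι] [DecidableEq ι]
    (H : Matrix ι ι A) (a b : ι) : ∃ M : Matrix ι ι A, ∀ (y : ι → A) (j : ι),
      H.adjugate a b * y j = H.adjugate j b * y a + ∑ i, M j i * (H.mulVec y) i := by
  let Hb : Matrix ι ι A := H.updateRow b (Pi.single a 1)
  let M : Matrix ι ι A := Matrix.of fun j i => if i = b then 0 else Hb.adjugate j i
  refine ⟨M, fun y j => ?_⟩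
  have hdet : Hb.det = H.adjugate a b := (Matrix.adjugate_apply H a b).symm
  have hcol : ∀ j, Hb.adjugate j b = H.adjugate j b := by
    intro j
    rw [Matrix.adjugate_apply, Matrix.adjugate_apply, Matrix.updateRow_idem]
  have h1 : (Hb.adjugate.mulVec (Hb.mulVec y)) j = H.adjugate a b * y j := by
    rw [Matrix.mulVec_mulVec, Matrix.adjugate_mul, hdet, Matrix.smul_mulVec, Matrix.one_mulVec]
    rfl
  rw [← h1]
  have hb : (Hb.mulVec y) b = y a := by
    show ∑ k, Hb b k * y k = y a
    simp only [Hb, Matrix.updateRow_self, Pi.single_apply, ite_mul, one_mul, zero_mul,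
      Finset.sum_ite_eq', Finset.mem_univ, if_true]
  have hne : ∀ i, i ≠ b → (Hb.mulVec y) i = (H.mulVec y) i := by
    intro i hi
    show ∑ k, Hb i k * y k = ∑ k, H i k * y k
    simp only [Hb, Matrix.updateRow_ne hi]
  show ∑ i, Hb.adjugate j i * (Hb.mulVec y) i = _
  rw [← Finset.add_sum_erase _ _ (Finset.mem_univ b), hb, hcol]
  congr 1
  rw [← Finset.add_sum_erase Finset.univ (fun i => M j i * (H.mulVec y) i) (Finset.mem_univ b)]
  have hM : M j b * (H.mulVec y) b = 0 := by simp [M]
  rw [hM, zero_add]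
  refine Finset.sum_congr rfl fun i hi => ?_
  have hi' : i ≠ b := (Finset.mem_erase.1 hi).1
  rw [hne i hi']
  simp [M, hi']

end Pool.Agent.HSI
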