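import Pool.Agent.HSI.Tools

/-!
# Derivations of values of polynomials, Euler's identity

The chain rule for derivations of values of polynomials, Euler's identity and homogeneity.
-/

open MvPolynomial

namespace Pool.Agent.HSI

theorem der_aeval {k₀ A σ : Type*} [CommRing k₀] [CommRing A] [Algebra k₀ A] [Fintype σ]
    (D : Derivation k₀ A A) (g : MvPolynomial σ k₀) (x : σ → A) :
    D (aeval x g) = ∑ j, aeval x (pderiv j g) * D (x j) := by
  classical
  induction g using MvPolynomial.induction_on with
  | C a =>
    rw [aeval_C, D.map_algebraMap]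
    symm
    refine Finset.sum_eq_zero fun j _ => ?_
    rw [pderiv_C, map_zero, zero_mul]
  | add p q hp hq =>
    rw [map_add, map_add, hp, hq, ← Finset.sum_add_distrib]
    refine Finset.sum_congr rfl fun j _ => ?_
    rw [map_add, map_add, add_mul]
  | mul_X p i hp =>
    rw [map_mul, D.leibniz, aeval_X, hp, smul_eq_mul, smul_eq_mul]
    have h1 : ∀ j, aeval x (pderiv j (p * X i)) * D (x j) =
        x i * (aeval x (pderiv j p) * D (x j)) +
          (if j = i then aeval x p * D (x i) else 0) := by
      intro j
      rw [pderiv_mul, map_add, map_mul, map_mul, aeval_X, pderiv_X]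
      by_cases h : j = i
      · subst h
        rw [Pi.single_eq_same, map_one, if_pos rfl]
        ring
      · rw [Pi.single_eq_of_ne (Ne.symm h), map_zero, if_neg h]
        ring
    rw [Finset.sum_congr rfl fun j _ => h1 j, Finset.sum_add_distrib, ← Finset.mul_sum,
      Finset.sum_ite_eq' Finset.univ i, if_pos (Finset.mem_univ i), add_comm]

theorem euler {k₀ A σ : Type*} [CommRing k₀] [CommRing A] [Algebra k₀ A] [Fintype σ] {r : ℕ}
    {g : MvPolynomial σ k₀} (hg : g.IsHomogeneous r) (x : σ → A) :
    ∑ j, x j * aeval x (pderiv j g) = r * aeval x g := by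
  have h := congrArg (aeval x) hg.sum_X_mul_pderiv
  rw [map_sum, nsmul_eq_mul, map_mul, map_natCast] at h
  rw [← h]
  refine Finset.sum_congr rfl fun j _ => ?_
  rw [map_mul, aeval_X]

theorem aeval_smul {k₀ A σ : Type*} [CommRing k₀] [CommRing A] [Algebra k₀ A] [Fintype σ] {r : ℕ}
    {g : MvPolynomial σ k₀} (hg : g.IsHomogeneous r) (c : A) (x : σ → A) :
    aeval (fun j => c * x j) g = c ^ r * aeval x g := by
  rw [aeval_def, aeval_def, eval₂_eq', eval₂_eq', Finset.mul_sum]
  refine Finset.sum_congr rfl fun d hd => ?_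
  have h1 : ∑ i, d i = r := by
    have h2 := hg (mem_support_iff.1 hd)
    have h4 : Finsupp.degree d = r := by
      rw [Finsupp.degree_eq_weight_one]
      exact h2
    rw [Finsupp.degree_eq_sum] at h4
    exact h4
  have h3 : ∏ i, (c * x i) ^ d i = c ^ r * ∏ i, x i ^ d i := by
    rw [← h1, ← Finset.prod_pow_eq_pow_sum, ← Finset.prod_mul_distrib]
    exact Finset.prod_congr rfl fun i _ => mul_pow _ _ _
  rw [h3]
  ring

end Pool.Agent.HSI
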