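import Pool.Agent.HSI.AEnd

/-!
# Transport of `ND` along a curve in characteristic `p`

The greatest common divisor of the coordinates is removed.
-/

open MvPolynomial

universe u

namespace Pool.Agent.HSI

theorem core {k₀ κ : Type u} [Field k₀] [Field κ] [Algebra k₀ κ] {N p : ℕ} (hN : 2 ≤ N)
    (hp : 1 ≤ p) (hpN : p ≤ N + 2) (hκ : (p : κ) = 0) {f : MvPolynomial (Fin (N + 2)) k₀}
    (hf : Good f) (D : Fin N → Derivation k₀ κ κ) (x : Fin (N + 2) → Polynomial κ)
    (w : Polynomial κ) (h : x 0 ^ (N + 2 - p) * w ^ p + aeval x f = 0) (e : ℕ)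
    (he : ∀ i, (x i).natDegree ≤ e) (h0 : (∃ i, (x i).coeff 0 ≠ 0) ∨ w.coeff 0 ≠ 0)
    (hlead : ND D fun i => (x i).coeff e) : ND D fun i => (x i).coeff 0 := by
  obtain ⟨i₀, hi₀⟩ : ∃ i, (x i).coeff e ≠ 0 := by
    by_contra hne
    push Not at hne
    obtain ⟨i, hi⟩ := hlead
    apply hi
    have h1 : (fun i => (x i).coeff e) = fun _ => (0 : κ) := funext hne
    rw [h1]
    exact mnr_zero D i
  have hx0 : x i₀ ≠ 0 := by
    intro h1
    rw [h1, Polynomial.coeff_zero] at hi₀
    exact hi₀ rfl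
  obtain ⟨y, hyn, hys⟩ : ∃ y : Option (Fin (N + 2)) → Polynomial κ, y none = w ∧ ∀ i, y (some i) = x i :=
    ⟨fun o => o.elim w x, rfl, fun _ => rfl⟩
  obtain ⟨g, hg⟩ : ∃ g : Polynomial κ, Ideal.span (Set.range y) = Ideal.span {g} :=
    (IsPrincipalIdealRing.principal (Ideal.span (Set.range y))).principal
  have hdv : ∀ j, g ∣ y j := by
    intro j
    have h1 : y j ∈ Ideal.span (Set.range y) := Ideal.subset_span ⟨j, rfl⟩
    rw [hg, Ideal.mem_span_singleton] at h1
    exact h1
  have hgd : ∀ q : Polynomial κ, (∀ j, q ∣ y j) → q ∣ g := by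
    intro q hq
    have h1 : g ∈ Ideal.span (Set.range y) := by
      rw [hg]
      exact Ideal.mem_span_singleton_self g
    have h2 : Ideal.span (Set.range y) ≤ Ideal.span {q} := by
      rw [Ideal.span_le]
      rintro _ ⟨j, rfl⟩
      exact Ideal.mem_span_singleton.2 (hq j)
    exact Ideal.mem_span_singleton.1 (h2 h1)
  have hg0 : g ≠ 0 := by
    rintro rfl
    apply hx0
    rw [← hys i₀]
    exact zero_dvd_iff.1 (hdv _)
  choose y' hy' using hdv
  obtain ⟨x', hx'⟩ : ∃ x' : Fin (N + 2) → Polynomial κ, ∀ i, y' (some i) = x' i := ⟨_, fun _ => rfl⟩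
  obtain ⟨w', hw'⟩ : ∃ w' : Polynomial κ, y' none = w' := ⟨_, rfl⟩
  have ex : ∀ i, x i = g * x' i := fun i => by rw [← hys, hy', hx']
  have ew : w = g * w' := by rw [← hyn, hy', hw']
  have hcop : ∀ θ : Polynomial κ, Irreducible θ → ¬ ((∀ i, θ ∣ x' i) ∧ θ ∣ w') := by
    rintro θ hθ ⟨h1, h2⟩
    have h3 : g * θ ∣ g := by
      apply hgd
      intro j
      rw [hy']
      refine mul_dvd_mul_left g ?_
      cases j with
      | none => rw [hw']; exact h2
      | some i => rw [hx']; exact h1 i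
    apply hθ.not_isUnit
    rw [← mul_one g, mul_assoc, one_mul] at h3
    exact isUnit_of_dvd_one ((mul_dvd_mul_iff_left hg0).1 (by simpa using h3))
  have heq : x' 0 ^ (N + 2 - p) * w' ^ p + aeval x' f = 0 := by
    have h1 : x = fun j => g * x' j := funext ex
    have h2 : aeval x f = g ^ (N + 2) * aeval x' f := by
      rw [h1]
      exact aeval_smul hf.hom g x'
    have h3 : g ^ (N + 2 - p) * g ^ p = g ^ (N + 2) := by
      rw [← pow_add]
      congr 1
      omega
    have h4 : g ^ (N + 2) * (x' 0 ^ (N + 2 - p) * w' ^ p + aeval x' f) = 0 := by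
      rw [← h, h2, ex 0, ew, mul_pow, mul_pow, ← h3]
      ring
    exact (mul_eq_zero.1 h4).resolve_left (pow_ne_zero _ hg0)
  have hgx : ∀ i, x' i ≠ 0 → (x i).natDegree = g.natDegree + (x' i).natDegree := by
    intro i hi
    rw [ex i, Polynomial.natDegree_mul hg0 hi]
  have hxi : x' i₀ ≠ 0 := by
    intro h1
    apply hx0
    rw [ex, h1, mul_zero]
  have hge : g.natDegree ≤ e := by
    have h1 := hgx i₀ hxi
    have h2 := he i₀
    omega
  have he' : ∀ i, (x' i).natDegree ≤ e - g.natDegree := by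
    intro i
    by_cases h1 : x' i = 0
    · rw [h1, Polynomial.natDegree_zero]
      exact Nat.zero_le _
    · have h2 := hgx i h1
      have h3 := he i
      omega
  have hce : ∀ i, (x i).coeff e = g.coeff g.natDegree * (x' i).coeff (e - g.natDegree) := by
    intro i
    have h1 : e = g.natDegree + (e - g.natDegree) := by omega
    conv_lhs => rw [h1, ex i]
    exact Polynomial.coeff_mul_add_eq_of_natDegree_le le_rfl (he' i)
  have hlead' : ND D fun i => (x' i).coeff (e - g.natDegree) := by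
    refine (ND_smul D (g.coeff g.natDegree) ?_ _).1 ?_
    · rw [Polynomial.coeff_natDegree]
      exact Polynomial.leadingCoeff_ne_zero.2 hg0
    · have h1 : (fun i => (x i).coeff e) =
          fun i => g.coeff g.natDegree * (x' i).coeff (e - g.natDegree) := funext hce
      rw [← h1]
      exact hlead
  have hfin := core_coprime hN hp hpN hκ hf D x' w' heq (e - g.natDegree) he' hcop hlead'
  have hc0 : ∀ i, (x i).coeff 0 = g.coeff 0 * (x' i).coeff 0 := by
    intro i
    rw [ex i, Polynomial.mul_coeff_zero]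
  have hg00 : g.coeff 0 ≠ 0 := by
    intro h1
    rcases h0 with ⟨i, hi⟩ | hi
    · rw [hc0 i, h1, zero_mul] at hi
      exact hi rfl
    · rw [ew, Polynomial.mul_coeff_zero, h1, zero_mul] at hi
      exact hi rfl
  have h1 : (fun i => (x i).coeff 0) = fun i => g.coeff 0 * (x' i).coeff 0 := funext hc0
  rw [h1]
  exact (ND_smul D (g.coeff 0) hg00 _).2 hfin

end Pool.Agent.HSI
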