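import Pool.Agent.HSI.AChn

/-!
# Critical points modulo an irreducible polynomial

The conditions `Good.crit` and `Good.inf` applied in the residue field of an irreducible polynomial.
-/

open MvPolynomial

universe u

namespace Pool.Agent.HSI

private noncomputable def acHom {k₀ κ : Type u} [Field k₀] [Field κ] [Algebra k₀ κ]
    (θ : Polynomial κ) : Polynomial κ →ₐ[k₀] AdjoinRoot θ :=
  (AdjoinRoot.mkₐ θ).restrictScalars k₀

private theorem ac_zero {k₀ κ : Type u} [Field k₀] [Field κ] [Algebra k₀ κ]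
    (θ P : Polynomial κ) : acHom (k₀ := k₀) θ P = 0 ↔ θ ∣ P :=
  AdjoinRoot.mk_eq_zero

private theorem ac_aeval {k₀ κ : Type u} [Field k₀] [Field κ] [Algebra k₀ κ] {N : ℕ}
    (θ : Polynomial κ) (x : Fin (N + 2) → Polynomial κ) (g : MvPolynomial (Fin (N + 2)) k₀) :
    acHom (k₀ := k₀) θ (aeval x g) = aeval (fun i => acHom (k₀ := k₀) θ (x i)) g := by
  rw [comp_aeval_apply]

theorem crit_mod {k₀ κ : Type u} [Field k₀] [Field κ] [Algebra k₀ κ] {N : ℕ}
    {f : MvPolynomial (Fin (N + 2)) k₀} (hf : Good f) (x : Fin (N + 2) → Polynomial κ)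
    (θ : Polynomial κ) (hθ : Irreducible θ) (h0 : ¬ θ ∣ x 0)
    (hv : ∀ j, j ≠ 0 → θ ∣ aeval x (pderiv j f)) :
    (∃ (ζ : Fin (N + 2) → k₀) (u : Fin (N + 2) → Polynomial κ),
      ∀ i, x i = algebraMap k₀ (Polynomial κ) (ζ i) * x 0 + θ * u i) ∧
      ∃ a b, ¬ θ ∣ (hess f x).adjugate a b := by
  have : Fact (Irreducible θ) := ⟨hθ⟩
  set φ := acHom (k₀ := k₀) θ with hφ
  set c := φ (x 0) with hc
  have hc0 : c ≠ 0 := fun h => h0 ((ac_zero (k₀ := k₀) θ (x 0)).1 h)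
  have hyd : ∀ j, j ≠ 0 → aeval (fun i => φ (x i)) (pderiv j f) = 0 := by
    intro j hj
    rw [hφ, ← ac_aeval]
    exact (ac_zero θ _).2 (hv j hj)
  have hder : ∀ j, (pderiv j f).IsHomogeneous (N + 1) := fun j => hf.hom.pderiv
  have hξ0 : (fun i => c⁻¹ * φ (x i)) 0 = 1 := inv_mul_cancel₀ hc0
  obtain ⟨⟨ζ, hζ⟩, a, b, hab⟩ := hf.crit (AdjoinRoot θ) (fun i => c⁻¹ * φ (x i)) hξ0 (by
    intro j hj
    rw [aeval_smul (hder j) c⁻¹ (fun i => φ (x i)), hyd j hj, mul_zero])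
  refine ⟨⟨ζ, ?_⟩, a, b, ?_⟩
  · have h1 : ∀ i, θ ∣ x i - algebraMap k₀ (Polynomial κ) (ζ i) * x 0 := by
      intro i
      rw [← ac_zero (k₀ := k₀), map_sub, map_mul, AlgHom.commutes, ← hζ i, ← hφ, ← hc]
      rw [mul_comm c⁻¹, mul_assoc, inv_mul_cancel₀ hc0, mul_one, sub_self]
    choose u hu using h1
    refine ⟨u, fun i => ?_⟩
    rw [← hu i]
    ring
  · intro hdiv
    apply hab
    have h1 : (hess f fun i => φ (x i)).adjugate a b = 0 := by
      have h2 : (hess f fun i => φ (x i)) = (φ : Polynomial κ →+* AdjoinRoot θ).mapMatrix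
          (hess f x) := by
        ext i j
        exact (ac_aeval θ x _).symm
      rw [h2, ← RingHom.map_adjugate]
      exact (ac_zero (k₀ := k₀) θ _).2 hdiv
    have h2 : (hess f fun i => c⁻¹ * φ (x i)) = (c⁻¹ ^ N) • hess f fun i => φ (x i) := by
      ext i j
      have h3 : (pderiv j.succ (pderiv i.succ f)).IsHomogeneous N := (hder i.succ).pderiv
      exact aeval_smul h3 c⁻¹ (fun i => φ (x i))
    rw [h2, Matrix.adjugate_smul, Matrix.smul_apply, h1, smul_zero]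

theorem inf_mod {k₀ κ : Type u} [Field k₀] [Field κ] [Algebra k₀ κ] {N : ℕ}
    {f : MvPolynomial (Fin (N + 2)) k₀} (hf : Good f) (x : Fin (N + 2) → Polynomial κ)
    (θ : Polynomial κ) (hθ : Irreducible θ) (h0 : θ ∣ x 0) (i₁ : Fin (N + 2)) (h1 : ¬ θ ∣ x i₁) :
    (∃ j, j ≠ 0 ∧ ¬ θ ∣ aeval x (pderiv j f)) ∨
      (¬ θ ∣ aeval x (pderiv 0 f) ∧ ¬ θ ∣ aeval x f ∧ ((N + 2 : ℕ) : κ) = 0) := by
  have : Fact (Irreducible θ) := ⟨hθ⟩
  set φ := acHom (k₀ := k₀) θ with hφ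
  by_cases hex : ∃ j, j ≠ 0 ∧ ¬ θ ∣ aeval x (pderiv j f)
  · exact Or.inl hex
  · right
    push Not at hex
    have hyd : ∀ j, j ≠ 0 → aeval (fun i => φ (x i)) (pderiv j f) = 0 := by
      intro j hj
      rw [hφ, ← ac_aeval]
      exact (ac_zero θ _).2 (hex j hj)
    have hy0 : φ (x 0) = 0 := (ac_zero θ _).2 h0
    have hyne : (fun i => φ (x i)) ≠ 0 := by
      intro h
      exact h1 ((ac_zero (k₀ := k₀) θ _).1 (congrFun h i₁))
    obtain ⟨ha, hb, -⟩ := hf.inf (AdjoinRoot θ) (fun i => φ (x i)) hyne hy0 hyd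
    refine ⟨?_, ?_, ?_⟩
    · intro hd
      apply ha
      rw [hφ, ← ac_aeval]
      exact (ac_zero θ _).2 hd
    · intro hd
      apply hb
      rw [hφ, ← ac_aeval]
      exact (ac_zero θ _).2 hd
    · have he := euler hf.hom (fun i => φ (x i))
      have hl : ∑ j, φ (x j) * aeval (fun i => φ (x i)) (pderiv j f) = 0 := by
        refine Finset.sum_eq_zero fun j _ => ?_
        by_cases hj : j = 0
        · rw [hj, hy0, zero_mul]
        · rw [hyd j hj, mul_zero]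
      rw [hl] at he
      have h3 : ((N + 2 : ℕ) : AdjoinRoot θ) = 0 := by
        rcases mul_eq_zero.1 he.symm with h | h
        · exact h
        · exact absurd h hb
      apply (AdjoinRoot.of θ).injective
      rw [map_natCast, map_zero]
      exact h3

end Pool.Agent.HSI
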