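import Pool.Agent.HSI.Tools

/-!
# Maximal minors with two special rows

The maximal minors are bilinear and alternating in two rows.
-/

namespace Pool.Agent.HSI

private theorem br_ex {A : Type*} [CommRing A] {M : ℕ} (R : Fin M → Fin (M + 1) → A) (l₁ l₂ : Fin M)
    (h12 : l₁ ≠ l₂) (i : Fin (M + 1)) :
    ∃ B : (Fin (M + 1) → A) → (Fin (M + 1) → A) → A,
      (∀ y y' z, B (y + y') z = B y z + B y' z) ∧ (∀ (c : A) y z, B (c • y) z = c * B y z) ∧
      (∀ y z z', B y (z + z') = B y z + B y z') ∧ (∀ (c : A) y z, B y (c • z) = c * B y z) ∧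
      (∀ y, B y y = 0) ∧ ∀ μ₁ μ₂ : A, μ₁ * μ₂ * GEL.mnr R i = B (μ₁ • R l₁) (μ₂ • R l₂) := by
  set r : Fin (M + 1) → Fin (M + 1) → A := Fin.cons (Pi.single i (1 : A)) R with hr
  have hab : l₁.succ ≠ l₂.succ := fun h => h12 (Fin.succ_injective _ h)
  set f : (Fin (M + 1) → A) [⋀^Fin (M + 1)]→ₗ[A] A := Matrix.detRowAlternating with hf
  have hB1 : ∀ y y' z, f (Function.update (Function.update r l₁.succ (y + y')) l₂.succ z) =
      f (Function.update (Function.update r l₁.succ y) l₂.succ z) +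
      f (Function.update (Function.update r l₁.succ y') l₂.succ z) := by
    intro y y' z
    rw [Function.update_comm hab, Function.update_comm hab, Function.update_comm hab,
      f.map_update_add]
  have hB2 : ∀ (c : A) y z, f (Function.update (Function.update r l₁.succ (c • y)) l₂.succ z) =
      c * f (Function.update (Function.update r l₁.succ y) l₂.succ z) := by
    intro c y z
    rw [Function.update_comm hab, Function.update_comm hab, f.map_update_smul, smul_eq_mul]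
  refine ⟨fun y z => f (Function.update (Function.update r l₁.succ y) l₂.succ z), hB1, hB2, ?_, ?_,
    ?_, ?_⟩
  · intro y z z'
    exact f.map_update_add _ _ _ _
  · intro c y z
    show f _ = c * f _
    rw [f.map_update_smul, smul_eq_mul]
  · intro y
    refine f.map_eq_zero_of_eq _ ?_ hab
    rw [Function.update_self, Function.update_of_ne hab, Function.update_self]
  · intro μ₁ μ₂
    have h1 : f (Function.update (Function.update r l₁.succ (R l₁)) l₂.succ (R l₂)) = GEL.mnr R i := by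
      have e1 : R l₁ = r l₁.succ := by rw [hr, Fin.cons_succ]
      have e2 : R l₂ = r l₂.succ := by rw [hr, Fin.cons_succ]
      rw [e1, e2, Function.update_eq_self, Function.update_eq_self]
      rfl
    show μ₁ * μ₂ * GEL.mnr R i =
      f (Function.update (Function.update r l₁.succ (μ₁ • R l₁)) l₂.succ (μ₂ • R l₂))
    rw [hB2, f.map_update_smul, smul_eq_mul, h1, mul_assoc]

theorem det_two {A : Type*} [CommRing A] {M : ℕ} (R : Fin M → Fin (M + 1) → A) (l₁ l₂ : Fin M)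
    (h12 : l₁ ≠ l₂) (μ₁ μ₂ c₁ c₂ b₁ b₂ t θ : A) (P W Z₁ Z₂ : Fin (M + 1) → A)
    (e₁ : ∀ i, μ₁ * R l₁ i = c₁ * P i + t * (b₁ * W i) + t * θ * Z₁ i)
    (e₂ : ∀ i, μ₂ * R l₂ i = c₂ * P i + t * (b₂ * W i) + t * θ * Z₂ i)
    (hc : θ ∣ c₁ * b₂ - c₂ * b₁) (i : Fin (M + 1)) : t * θ ∣ μ₁ * μ₂ * GEL.mnr R i := by
  obtain ⟨B, b1, b2, b3, b4, b5, b6⟩ := br_ex R l₁ l₂ h12 i
  have h1 : μ₁ • R l₁ = c₁ • P + (t * b₁) • W + (t * θ) • Z₁ := by
    funext j
    simp only [Pi.smul_apply, Pi.add_apply, smul_eq_mul]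
    rw [e₁ j]
    ring
  have h2 : μ₂ • R l₂ = c₂ • P + (t * b₂) • W + (t * θ) • Z₂ := by
    funext j
    simp only [Pi.smul_apply, Pi.add_apply, smul_eq_mul]
    rw [e₂ j]
    ring
  have hsw : B W P = -B P W := by
    have h3 := b5 (P + W)
    rw [b1, b3, b3, b5, b5, zero_add, add_zero] at h3
    exact (neg_eq_of_add_eq_zero_right h3).symm
  obtain ⟨k, hk⟩ := hc
  rw [b6, h1, h2]
  simp only [b1, b2, b3, b4, b5]
  rw [hsw]
  refine ⟨k * B P W + c₁ * B P Z₂ + c₂ * B Z₁ P + t * b₁ * B W Z₂ + t * b₂ * B Z₁ W +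
    t * θ * B Z₁ Z₂, ?_⟩
  linear_combination (t * B P W) * hk

theorem det_two' {A : Type*} [CommRing A] {M : ℕ} (R : Fin M → Fin (M + 1) → A) (l₁ l₂ : Fin M)
    (h12 : l₁ ≠ l₂) (μ₁ μ₂ c₁ c₂ q r : A) (P Z₁ Z₂ : Fin (M + 1) → A)
    (e₁ : ∀ i, μ₁ * R l₁ i = c₁ * P i + q * Z₁ i) (e₂ : ∀ i, μ₂ * R l₂ i = c₂ * P i + q * Z₂ i)
    (h₁ : r ∣ c₁) (h₂ : r ∣ c₂) (hq : r ∣ q) (i : Fin (M + 1)) :
    r * q ∣ μ₁ * μ₂ * GEL.mnr R i := by
  obtain ⟨B, b1, b2, b3, b4, b5, b6⟩ := br_ex R l₁ l₂ h12 i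
  have e1 : μ₁ • R l₁ = c₁ • P + q • Z₁ := by
    funext j
    simp only [Pi.smul_apply, Pi.add_apply, smul_eq_mul]
    exact e₁ j
  have e2 : μ₂ • R l₂ = c₂ • P + q • Z₂ := by
    funext j
    simp only [Pi.smul_apply, Pi.add_apply, smul_eq_mul]
    exact e₂ j
  obtain ⟨k₁, hk₁⟩ := h₁
  obtain ⟨k₂, hk₂⟩ := h₂
  obtain ⟨k, hk⟩ := hq
  rw [b6, e1, e2]
  simp only [b1, b2, b3, b4, b5]
  refine ⟨k₁ * B P Z₂ + k₂ * B Z₁ P + k * B Z₁ Z₂, ?_⟩
  linear_combination (q * B P Z₂) * hk₁ + (q * B Z₁ P) * hk₂ + (q * B Z₁ Z₂) * hk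

end Pool.Agent.HSI
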