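import Pool.Agent.HSI.APsi

/-!
# Transport of `ND` along a coprime curve in characteristic `p`

PLAN. `D' l = polyD (D l)`, `m i = mnr (rows D' x) i = C c * v i`, `v i = grd p f x w i` (`psi_const`), `f_j(x) = aeval x (pderiv j f)`, `μ = N + 2 - p`. Suppose `¬ ND` at `0`: by
`mnr_eval_zero` all `(m i).coeff 0 = 0`, so `X ∣ v i` for all `i` (`X ∣ C c * v i`, `c ≠ 0`).
Case 1: `¬ X ∣ x 0`. `exists_content` for `v` (`v ≠ 0` since `m ≠ 0` by `hlead`, as in APsi, or: if `v = 0` then `m = 0`, but the top coefficient of some `m i` is not `0`): `v = X^b v'`, some `v' i` not divisible by `X`; `b ≥ 1`.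
`loc_aff_X` with `r = b`: `X^(b+1) ∣ m i`, so `X^(b+1) ∣ v i`, `X ∣ v' i` for all `i`: contradiction.
Case 2: `X ∣ x 0`, some `x i₁` with `(x i₁).coeff 0 ≠ 0`. Evaluate at `0`: `ξ i = (x i).coeff 0`, `ξ ≠ 0`, `ξ 0 = 0`, `f_j(ξ) = 0` for `j ≠ 0`; `hf.inf κ ξ`: `f_0(ξ) ≠ 0`, `f(ξ) ≠ 0`. If `μ ≥ 1`, the
equation at `0` gives `f(ξ) = 0`; if `μ = 0`, `v 0` at `0` is `f_0(ξ) ≠ 0`: contradiction in both cases.
Case 3: `X ∣ x i` for all `i`; so `¬ X ∣ w` (`hcop`, `X` irreducible). `exists_content` for `x` (`x ≠ 0`, `mnr_zero`): `x = X^b x'`, `b ≥ 1`, some `(x' i₁).coeff 0 ≠ 0`. `μ ≥ 1` (otherwise `w^p = -f(x)` is divisible by `X`), and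
`x'_0^μ w^p = - X^(b p) f(x')` (`aeval_smul`, cancel `X^(b μ)`), so `X ∣ x' 0`. `ξ i = (x' i).coeff 0`, `ξ 0 = 0`, `ξ ≠ 0`. `m i = X^(b(N+1)) mnr (rows D' x') i` (`mnr_rows_smul`). For `j ≠ 0`:
`v j = f_j(x) = X^(b(N+1)) f_j(x')`, so `mnr (rows D' x') j = C c * f_j(x')`; at `0`: `mnr (rows D ξ) j = c f_j(ξ)`, and the left side is `0` (`mnr_hyp`), so `f_j(ξ) = 0`. `hf.inf κ ξ`: `f_0(ξ) ≠ 0`,
`f(ξ) ≠ 0`, `ξ = c' ζ`, so `mnr (rows D ξ) 0 = 0` (`mnr_cst`). Euler: `(N + 2) f(ξ) = ∑ ξ_j f_j(ξ) = 0`, so `(N + 2 : κ) = 0`, `(μ : κ) = 0`, `v 0 = f_0(x) = X^(b(N+1)) f_0(x')`,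
`mnr (rows D ξ) 0 = c f_0(ξ) ≠ 0`: contradiction.
-/

open MvPolynomial

universe u

namespace Pool.Agent.HSI

private theorem aend_coeff {k₀ κ σ : Type*} [Field k₀] [Field κ] [Algebra k₀ κ]
    (g : MvPolynomial σ k₀) (x : σ → Polynomial κ) :
    (aeval x g).coeff 0 = aeval (fun i => (x i).coeff 0) g := by
  induction g using MvPolynomial.induction_on with
  | C a =>
    rw [aeval_C, aeval_C, Polynomial.algebraMap_apply, Polynomial.coeff_C_zero]
  | add p q hp hq => rw [map_add, map_add, Polynomial.coeff_add, hp, hq]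
  | mul_X p i hp => rw [map_mul, map_mul, Polynomial.mul_coeff_zero, hp, aeval_X, aeval_X]

private theorem aend_dvd_iff {κ : Type*} [Field κ] (P : Polynomial κ) :
    Polynomial.X ∣ P ↔ P.coeff 0 = 0 := Polynomial.X_dvd_iff

private theorem aend_grd {k₀ A : Type*} [CommRing k₀] [CommRing A] [Algebra k₀ A] {N p : ℕ}
    (f : MvPolynomial (Fin (N + 2)) k₀) (x : Fin (N + 2) → A) (w : A) (j : Fin (N + 2))
    (hj : j ≠ 0) : grd p f x w j = aeval x (pderiv j f) := by
  unfold grd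
  rw [if_neg hj, add_zero]

private theorem aend_grd0 {k₀ A : Type*} [CommRing k₀] [CommRing A] [Algebra k₀ A] {N p : ℕ}
    (f : MvPolynomial (Fin (N + 2)) k₀) (x : Fin (N + 2) → A) (w : A)
    (h : ((N + 2 - p : ℕ) : A) = 0) : grd p f x w 0 = aeval x (pderiv 0 f) := by
  unfold grd
  rw [if_pos rfl, h, zero_mul, zero_mul, add_zero]

/-- Case 1 -/
private theorem aend_case1 {k₀ κ : Type u} [Field k₀] [Field κ] [Algebra k₀ κ] {N p : ℕ}
    (hN : 2 ≤ N) {f : MvPolynomial (Fin (N + 2)) k₀}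
    (hf : Good f) (D : Fin N → Derivation k₀ κ κ) (x : Fin (N + 2) → Polynomial κ)
    (w : Polynomial κ) (c : κ) (hc : c ≠ 0)
    (hm : ∀ i, GEL.mnr (rows (fun l => polyD (D l)) x) i = Polynomial.C c * grd p f x w i)
    (hv0 : (fun i => grd p f x w i) ≠ 0) (h0 : ¬ Polynomial.X ∣ x 0)
    (hX : ∀ i, Polynomial.X ∣ grd p f x w i) : False := by
  obtain ⟨b, v', hv', i₁, hi₁⟩ := exists_content (fun i => grd p f x w i) Polynomial.X
    Polynomial.irreducible_X hv0
  have hb : 1 ≤ b := by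
    rcases Nat.eq_zero_or_pos b with hb | hb
    · exfalso
      apply hi₁
      have := hX i₁
      rw [show grd p f x w i₁ = _ from hv' i₁, hb, pow_zero, one_mul] at this
      exact this
    · exact hb
  have h1 := loc_aff_X hN hf (fun l => polyD (D l)) (fun l => polyD_X (D l)) x h0 b hb
    (fun j hj => by
      rw [← aend_grd (p := p) f x w j hj, show grd p f x w j = _ from hv' j]
      exact dvd_mul_right _ _) i₁
  rw [hm i₁, show grd p f x w i₁ = _ from hv' i₁] at h1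
  have hu : IsUnit (Polynomial.C c) := Polynomial.isUnit_C.2 (isUnit_iff_ne_zero.2 hc)
  rw [hu.dvd_mul_left, pow_succ] at h1
  exact hi₁ ((mul_dvd_mul_iff_left (pow_ne_zero b Polynomial.X_ne_zero)).1 h1)

/-- Case 2 -/
private theorem aend_case2 {k₀ κ : Type u} [Field k₀] [Field κ] [Algebra k₀ κ] {N p : ℕ}
    {f : MvPolynomial (Fin (N + 2)) k₀}
    (hf : Good f) (x : Fin (N + 2) → Polynomial κ)
    (w : Polynomial κ) (h : x 0 ^ (N + 2 - p) * w ^ p + aeval x f = 0)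
    (h0 : Polynomial.X ∣ x 0) (hne : (fun i => (x i).coeff 0) ≠ 0)
    (hX : ∀ i, Polynomial.X ∣ grd p f x w i) : False := by
  have h0' : (x 0).coeff 0 = 0 := Polynomial.X_dvd_iff.1 h0
  obtain ⟨h1, h2, -⟩ := hf.inf κ (fun i => (x i).coeff 0) hne h0' (by
    intro j hj
    rw [← aend_coeff, ← aend_grd (p := p) f x w j hj]
    exact Polynomial.X_dvd_iff.1 (hX j))
  rcases Nat.eq_zero_or_pos (N + 2 - p) with hμ | hμ
  · apply h1
    rw [← aend_coeff, ← aend_grd0 (p := p) f x w (by rw [hμ, Nat.cast_zero])]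
    exact Polynomial.X_dvd_iff.1 (hX 0)
  · apply h2
    rw [← aend_coeff]
    have h3 : aeval x f = -(x 0 ^ (N + 2 - p) * w ^ p) := (neg_eq_of_add_eq_zero_right h).symm
    rw [h3, Polynomial.coeff_neg, Polynomial.mul_coeff_zero, Polynomial.coeff_zero_eq_eval_zero (x 0 ^ _),
      Polynomial.eval_pow, ← Polynomial.coeff_zero_eq_eval_zero, h0', zero_pow (by omega), zero_mul,
      neg_zero]

/-- Case 3 -/
private theorem aend_case3 {k₀ κ : Type u} [Field k₀] [Field κ] [Algebra k₀ κ] {N p : ℕ}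
    (hN : 2 ≤ N) (hp : 1 ≤ p) (hpN : p ≤ N + 2) (hκ : (p : κ) = 0)
    {f : MvPolynomial (Fin (N + 2)) k₀}
    (hf : Good f) (D : Fin N → Derivation k₀ κ κ) (x : Fin (N + 2) → Polynomial κ)
    (w : Polynomial κ) (h : x 0 ^ (N + 2 - p) * w ^ p + aeval x f = 0) (c : κ) (hc : c ≠ 0)
    (hm : ∀ i, GEL.mnr (rows (fun l => polyD (D l)) x) i = Polynomial.C c * grd p f x w i)
    (hx0 : x ≠ 0) (hall : ∀ i, Polynomial.X ∣ x i) (hw : ¬ Polynomial.X ∣ w) : False := by
  obtain ⟨b, x', hx', i₁, hi₁⟩ := exists_content x Polynomial.X Polynomial.irreducible_X hx0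
  have hpr : Prime (Polynomial.X : Polynomial κ) := Polynomial.prime_X
  have hb : 1 ≤ b := by
    rcases Nat.eq_zero_or_pos b with hb | hb
    · exfalso
      apply hi₁
      have := hall i₁
      rw [hx' i₁, hb, pow_zero, one_mul] at this
      exact this
    · exact hb
  have hxe : x = fun i => Polynomial.X ^ b * x' i := funext hx'
  have hXb : (Polynomial.X ^ b : Polynomial κ) ≠ 0 := pow_ne_zero _ Polynomial.X_ne_zero
  have hfx : aeval x f = (Polynomial.X ^ b) ^ (N + 2) * aeval x' f := by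
    rw [hxe]
    exact aeval_smul hf.hom _ _
  have hfj : ∀ j, aeval x (pderiv j f) = (Polynomial.X ^ b) ^ (N + 1) * aeval x' (pderiv j f) := by
    intro j
    rw [hxe]
    have h1 : (pderiv j f).IsHomogeneous (N + 1) := by
      have := hf.hom.pderiv (i := j)
      exact this
    exact aeval_smul h1 _ _
  have hXd : Polynomial.X ∣ (Polynomial.X ^ b : Polynomial κ) := dvd_pow_self _ (by omega)
  have hμ : 1 ≤ N + 2 - p := by
    rcases Nat.eq_zero_or_pos (N + 2 - p) with hμ | hμ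
    · exfalso
      rw [hμ, pow_zero, one_mul] at h
      have h3 : w ^ p = -(aeval x f) := eq_neg_of_add_eq_zero_left h
      apply hw
      apply hpr.dvd_of_dvd_pow (n := p)
      rw [h3, dvd_neg, hfx]
      exact Dvd.dvd.mul_right (dvd_pow hXd (by omega)) _
    · exact hμ
  have heq : x' 0 ^ (N + 2 - p) * w ^ p = -((Polynomial.X ^ b) ^ p * aeval x' f) := by
    have h3 : (Polynomial.X ^ b) ^ (N + 2 - p) * (x' 0 ^ (N + 2 - p) * w ^ p +
        (Polynomial.X ^ b) ^ p * aeval x' f) = 0 := by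
      rw [← h, hfx, hx' 0, mul_pow, mul_add, mul_assoc, ← mul_assoc (_ ^ (N + 2 - p)) (_ ^ p),
        ← pow_add, Nat.sub_add_cancel hpN]
    rcases mul_eq_zero.1 h3 with h4 | h4
    · exact absurd h4 (pow_ne_zero _ hXb)
    · exact eq_neg_of_add_eq_zero_left h4
  have hx'0 : Polynomial.X ∣ x' 0 := by
    have h3 : Polynomial.X ∣ x' 0 ^ (N + 2 - p) * w ^ p := by
      rw [heq, dvd_neg]
      exact Dvd.dvd.mul_right (dvd_pow hXd (by omega)) _
    rcases hpr.dvd_or_dvd h3 with h4 | h4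
    · exact hpr.dvd_of_dvd_pow h4
    · exact absurd (hpr.dvd_of_dvd_pow h4) hw
  have hξ0 : (x' 0).coeff 0 = 0 := Polynomial.X_dvd_iff.1 hx'0
  have hξne : (fun i => (x' i).coeff 0) ≠ 0 := by
    intro h3
    exact hi₁ (Polynomial.X_dvd_iff.2 (congrFun h3 i₁))
  have hm' : ∀ i, GEL.mnr (rows (fun l => polyD (D l)) x) i =
      (Polynomial.X ^ b) ^ (N + 1) * GEL.mnr (rows (fun l => polyD (D l)) x') i := by
    intro i
    rw [hxe]
    exact mnr_rows_smul _ _ _ _
  have hkey : ∀ j, grd p f x w j = aeval x (pderiv j f) →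
      GEL.mnr (rows D fun i => (x' i).coeff 0) j =
        c * aeval (fun i => (x' i).coeff 0) (pderiv j f) := by
    intro j hj
    have h3 := hm j
    rw [hm' j, hj, hfj j, mul_left_comm] at h3
    have h4 := mul_left_cancel₀ (pow_ne_zero _ hXb) h3
    rw [← mnr_eval_zero, h4, Polynomial.coeff_C_mul, aend_coeff]
  have hfj0 : ∀ j, j ≠ 0 → aeval (fun i => (x' i).coeff 0) (pderiv j f) = 0 := by
    intro j hj
    have h3 := hkey j (aend_grd f x w j hj)
    rw [mnr_hyp D _ hξ0 j hj] at h3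
    rcases mul_eq_zero.1 h3.symm with h4 | h4
    · exact absurd h4 hc
    · exact h4
  obtain ⟨h1, h2, c', ζ, hζ⟩ := hf.inf κ _ hξne hξ0 hfj0
  have hcst : GEL.mnr (rows D fun i => (x' i).coeff 0) 0 = 0 := by
    have h3 : (fun i => (x' i).coeff 0) = fun j => c' * algebraMap k₀ κ (ζ j) := funext hζ
    rw [h3]
    exact mnr_cst (by omega) D c' ζ 0
  have heu := euler hf.hom (fun i => (x' i).coeff 0)
  rw [Finset.sum_eq_zero] at heu
  · have h3 : ((N + 2 : ℕ) : κ) = 0 := by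
      rcases mul_eq_zero.1 heu.symm with h4 | h4
      · exact h4
      · exact absurd h4 h2
    have h4 : ((N + 2 - p : ℕ) : κ) = 0 := by
      rw [Nat.cast_sub hpN, h3, hκ, sub_zero]
    have h5 : ((N + 2 - p : ℕ) : Polynomial κ) = 0 := by
      rw [← Polynomial.C_eq_natCast, h4, Polynomial.C_0]
    have h6 := hkey 0 (aend_grd0 f x w h5)
    rw [hcst] at h6
    rcases mul_eq_zero.1 h6.symm with h7 | h7
    · exact hc h7
    · exact h1 h7
  · intro j _
    by_cases hj : j = 0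
    · rw [hj]
      show (x' 0).coeff 0 * _ = 0
      rw [hξ0, zero_mul]
    · rw [hfj0 j hj, mul_zero]

theorem core_coprime {k₀ κ : Type u} [Field k₀] [Field κ] [Algebra k₀ κ] {N p : ℕ} (hN : 2 ≤ N)
    (hp : 1 ≤ p) (hpN : p ≤ N + 2) (hκ : (p : κ) = 0) {f : MvPolynomial (Fin (N + 2)) k₀}
    (hf : Good f) (D : Fin N → Derivation k₀ κ κ) (x : Fin (N + 2) → Polynomial κ)
    (w : Polynomial κ) (h : x 0 ^ (N + 2 - p) * w ^ p + aeval x f = 0) (e : ℕ)
    (he : ∀ i, (x i).natDegree ≤ e)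
    (hcop : ∀ θ : Polynomial κ, Irreducible θ → ¬ ((∀ i, θ ∣ x i) ∧ θ ∣ w))
    (hlead : ND D fun i => (x i).coeff e) : ND D fun i => (x i).coeff 0 := by
  by_contra hND
  obtain ⟨c, hc, hm⟩ := psi_const hN hp hpN hκ hf D x w h e he hcop hlead
  have hX : ∀ i, Polynomial.X ∣ grd p f x w i := by
    intro i
    rw [Polynomial.X_dvd_iff]
    have h1 : (GEL.mnr (rows (fun l => polyD (D l)) x) i).coeff 0 = 0 := by
      rw [mnr_eval_zero]
      by_contra h2
      exact hND ⟨i, h2⟩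
    rw [hm i, Polynomial.coeff_C_mul] at h1
    rcases mul_eq_zero.1 h1 with h2 | h2
    · exact absurd h2 hc
    · exact h2
  obtain ⟨i₀, hi₀⟩ := hlead
  have hm0 : GEL.mnr (rows (fun l => polyD (D l)) x) i₀ ≠ 0 := by
    intro h1
    apply hi₀
    have h2 := mnr_coeff_top (rows (fun l => polyD (D l)) x) e (rows_natDegree_le D x e he) i₀
    rw [rows_coeff, h1, Polynomial.coeff_zero] at h2
    exact h2.symm
  have hv0 : (fun i => grd p f x w i) ≠ 0 := by
    intro h1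
    apply hm0
    rw [hm i₀, show grd p f x w i₀ = 0 from congrFun h1 i₀, mul_zero]
  by_cases h0 : Polynomial.X ∣ x 0
  · by_cases hne : (fun i => (x i).coeff 0) = 0
    · have hall : ∀ i, Polynomial.X ∣ x i := fun i => Polynomial.X_dvd_iff.2 (congrFun hne i)
      have hw : ¬ Polynomial.X ∣ w := fun h1 =>
        hcop Polynomial.X Polynomial.irreducible_X ⟨hall, h1⟩
      have hx0 : x ≠ 0 := by
        intro h1
        apply hm0
        rw [h1]
        exact mnr_zero _ _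
      exact aend_case3 hN hp hpN hκ hf D x w h c hc hm hx0 hall hw
    · exact aend_case2 hf x w h h0 hne hX
  · exact aend_case1 hN hf D x w c hc hm hv0 h0 hX

end Pool.Agent.HSI
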