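import Pool.Agent.HSI.AScl
import Pool.Agent.HSI.ACrt

/-!
# The curve at infinity

PLAN. Write `m = N + 2 - p`, `f_j(x) = aeval x (pderiv j f)`. `exists_content`: multiplicities of `θ` (`x ≠ 0`; take `b` = the minimum of the multiplicities of the nonzero `x i`, or the
largest `b` with `θ^b ∣ x i` for all `i`: `Nat.findGreatest` up to the degree of a nonzero `x i`).
`loc_inf`: Case A: some `x i₁` is not divisible by `θ`: `inf_mod`. First alternative: `grd j = f_j(x)` (`j ≠ 0`) is not divisible by `θ`, so `r = 0`. Second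
alternative: `m = 0`: `grd 0 = f_0(x)` (`((0 : ℕ) : κ[X]) = 0`), so `r = 0`; `m ≥ 1`: `θ ∣ x_0^m w^p`, so `θ ∣ f(x)` by the equation: contradiction.
Case B: `θ ∣ x i` for all `i`, so `¬ θ ∣ w` (`hcop`). `x = θ^b x'`, `b ≥ 1` (`exists_content`). `m ≥ 1`: otherwise `w^p = -f(x)` is divisible by `θ`
(`aeval_smul`: `f(x) = θ^(b (N+2)) f(x')`). The equation gives `θ^(b m) x'_0^m w^p = - θ^(b (N + 2)) f(x')`, `x'_0^m w^p = - θ^(b p) f(x')`, so `θ ∣ x' 0`. `inf_mod` for `x'`: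
first alternative: `grd j = f_j(x) = θ^(b (N+1)) f_j(x')` (`j ≠ 0`), so `r ≤ b (N + 1)`; second alternative: `(N + 2 : κ) = 0`, so `(m : κ) = 0` (`(p : κ) = 0`,
`m + p = N + 2`), `grd 0 = f_0(x) = θ^(b (N+1)) f_0(x')`, again `r ≤ b (N + 1)` (`pow_dvd_pow_iff`-like; `θ` is prime). Finally
`mnr (rows D x) i = θ^(b (N+1)) mnr (rows D x') i` (`mnr_rows_smul` with `lam = θ^b`).
-/

open MvPolynomial

universe u

namespace Pool.Agent.HSI

theorem exists_content {κ : Type*} [Field κ] {M : ℕ} (x : Fin M → Polynomial κ) (θ : Polynomial κ)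
    (hθ : Irreducible θ) (hx : x ≠ 0) :
    ∃ (b : ℕ) (x' : Fin M → Polynomial κ), (∀ i, x i = θ ^ b * x' i) ∧ ∃ i, ¬ θ ∣ x' i := by
  classical
  obtain ⟨i₁, hi₁⟩ := Function.ne_iff.1 hx
  have hθd : 0 < θ.natDegree := hθ.natDegree_pos
  have hex : ∃ b : ℕ, ¬ ∀ i, θ ^ b ∣ x i := by
    refine ⟨(x i₁).natDegree + 1, fun hall => ?_⟩
    have h1 := Polynomial.natDegree_le_of_dvd (hall i₁) hi₁
    rw [Polynomial.natDegree_pow] at h1
    have h2 : (x i₁).natDegree + 1 ≤ ((x i₁).natDegree + 1) * θ.natDegree :=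
      Nat.le_mul_of_pos_right _ hθd
    omega
  have hb0 : Nat.find hex ≠ 0 := by
    intro h0
    have h1 := Nat.find_spec hex
    rw [h0] at h1
    exact h1 fun i => by rw [pow_zero]; exact one_dvd _
  obtain ⟨b, hb⟩ : ∃ b, Nat.find hex = b + 1 := Nat.exists_eq_succ_of_ne_zero hb0
  have hPb : ∀ i, θ ^ b ∣ x i := by
    by_contra hne
    have h1 := Nat.find_min' hex hne
    omega
  choose x' hx' using hPb
  refine ⟨b, x', hx', ?_⟩
  by_contra hne
  push Not at hne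
  have h1 := Nat.find_spec hex
  rw [hb] at h1
  apply h1
  intro i
  obtain ⟨y, hy⟩ := hne i
  refine ⟨y, ?_⟩
  rw [hx' i, hy, pow_succ, mul_assoc]

theorem loc_inf {k₀ κ : Type u} [Field k₀] [Field κ] [Algebra k₀ κ] {N p : ℕ} (hp : 1 ≤ p)
    (hpN : p ≤ N + 2) (hκ : (p : κ) = 0) {f : MvPolynomial (Fin (N + 2)) k₀} (hf : Good f)
    (D : Fin N → Derivation k₀ (Polynomial κ) (Polynomial κ)) (x : Fin (N + 2) → Polynomial κ)
    (w : Polynomial κ) (h : x 0 ^ (N + 2 - p) * w ^ p + aeval x f = 0) (hx : x ≠ 0)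
    (θ : Polynomial κ) (hθ : Irreducible θ) (hcop : ¬ ((∀ i, θ ∣ x i) ∧ θ ∣ w)) (h0 : θ ∣ x 0)
    (r : ℕ) (hv : ∀ j, θ ^ r ∣ grd p f x w j) (i : Fin (N + 2)) :
    θ ^ r ∣ GEL.mnr (rows D x) i := by
  classical
  have hθp : Prime θ := hθ.prime
  have hgrd : ∀ j, j ≠ 0 → grd p f x w j = aeval x (pderiv j f) := by
    intro j hj
    unfold grd
    rw [if_neg hj, add_zero]
  have hgrd0 : ((N + 2 - p : ℕ) : Polynomial κ) = 0 → grd p f x w 0 = aeval x (pderiv 0 f) := by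
    intro h1
    unfold grd
    rw [if_pos rfl, h1, zero_mul, zero_mul, add_zero]
  have hr0 : ∀ z : Polynomial κ, θ ^ r ∣ z → ¬ θ ∣ z → r = 0 := by
    intro z h1 h2
    by_contra hr
    exact h2 ((dvd_pow_self θ hr).trans h1)
  by_cases hA : ∃ i₁, ¬ θ ∣ x i₁
  · obtain ⟨i₁, hi₁⟩ := hA
    have hr : r = 0 := by
      rcases inf_mod hf x θ hθ h0 i₁ hi₁ with ⟨j, hj, hj2⟩ | ⟨h1, h2, h3⟩
      · exact hr0 _ (by rw [← hgrd j hj]; exact hv j) hj2
      · rcases Nat.eq_zero_or_pos (N + 2 - p) with hm | hm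
        · refine hr0 _ ?_ h1
          rw [← hgrd0 (by rw [hm, Nat.cast_zero])]
          exact hv 0
        · exfalso
          apply h2
          have h4 : θ ∣ x 0 ^ (N + 2 - p) * w ^ p :=
            (h0.trans (dvd_pow_self _ (by omega))).mul_right _
          exact (dvd_add_right h4).1 (by rw [h]; exact dvd_zero _)
    rw [hr, pow_zero]
    exact one_dvd _
  · push Not at hA
    have hw : ¬ θ ∣ w := fun h1 => hcop ⟨hA, h1⟩
    obtain ⟨b, x', hx', i₁, hi₁⟩ := exists_content x θ hθ hx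
    have hxe : x = fun j => θ ^ b * x' j := funext hx'
    have hb : b ≠ 0 := by
      rintro rfl
      apply hi₁
      have h1 := hA i₁
      rw [hx' i₁, pow_zero, one_mul] at h1
      exact h1
    have hθb : θ ∣ (θ ^ b) ^ p := (dvd_pow_self θ hb).trans (dvd_pow_self _ (by omega))
    have hfe : aeval x f = (θ ^ b) ^ (N + 2) * aeval x' f := by
      conv_lhs => rw [hxe]
      exact aeval_smul hf.hom _ _
    have hpe : ∀ j, aeval x (pderiv j f) = (θ ^ b) ^ (N + 1) * aeval x' (pderiv j f) := by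
      intro j
      conv_lhs => rw [hxe]
      have h1 : (pderiv j f).IsHomogeneous (N + 1) := hf.hom.pderiv
      exact aeval_smul h1 _ _
    have hme : ∀ i, GEL.mnr (rows D x) i = (θ ^ b) ^ (N + 1) * GEL.mnr (rows D x') i := by
      intro i
      conv_lhs => rw [hxe]
      exact mnr_rows_smul D (θ ^ b) x' i
    have hb0 : θ ^ b ≠ 0 := pow_ne_zero _ hθ.ne_zero
    have hm : 1 ≤ N + 2 - p := by
      by_contra hne
      have hm0 : N + 2 - p = 0 := by omega
      rw [hm0, pow_zero, one_mul] at h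
      apply hw
      refine hθp.dvd_of_dvd_pow (n := p) ?_
      have h1 : θ ∣ aeval x f := by
        rw [hfe]
        exact ((dvd_pow_self θ hb).trans (dvd_pow_self _ (by omega))).mul_right _
      exact (dvd_add_left h1).1 (by rw [h]; exact dvd_zero _)
    have hkey : x' 0 ^ (N + 2 - p) * w ^ p + (θ ^ b) ^ p * aeval x' f = 0 := by
      have h1 : (θ ^ b) ^ (N + 2 - p) ≠ 0 := pow_ne_zero _ hb0
      apply mul_left_cancel₀ h1
      rw [mul_zero, ← h, hfe, hx' 0]
      have h2 : (θ ^ b) ^ (N + 2) = (θ ^ b) ^ (N + 2 - p) * (θ ^ b) ^ p := by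
        rw [← pow_add]
        congr 1
        omega
      rw [h2, mul_pow]
      ring
    have hx0 : θ ∣ x' 0 := by
      have h1 : θ ∣ x' 0 ^ (N + 2 - p) * w ^ p :=
        (dvd_add_left (hθb.mul_right (aeval x' f))).1 (by rw [hkey]; exact dvd_zero _)
      rcases hθp.dvd_or_dvd h1 with h2 | h2
      · exact hθp.dvd_of_dvd_pow h2
      · exact absurd (hθp.dvd_of_dvd_pow h2) hw
    have hfin : ∀ j, θ ^ r ∣ aeval x (pderiv j f) → ¬ θ ∣ aeval x' (pderiv j f) →
        θ ^ r ∣ (θ ^ b) ^ (N + 1) := by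
      intro j h1 h2
      rw [hpe j] at h1
      exact hθp.pow_dvd_of_dvd_mul_right r h2 h1
    have hres : θ ^ r ∣ (θ ^ b) ^ (N + 1) := by
      rcases inf_mod hf x' θ hθ hx0 i₁ hi₁ with ⟨j, hj, hj2⟩ | ⟨h1, h2, h3⟩
      · exact hfin j (by rw [← hgrd j hj]; exact hv j) hj2
      · refine hfin 0 ?_ h1
        rw [← hgrd0 ?_]
        · exact hv 0
        · have h4 : ((N + 2 - p : ℕ) : κ) = 0 := by
            rw [Nat.cast_sub hpN, h3, hκ, sub_zero]
          rw [← Polynomial.C_eq_natCast, h4, Polynomial.C_0]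
    rw [hme i]
    exact hres.mul_right _

end Pool.Agent.HSI
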