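import Pool.Agent.HSI.AChn
import Pool.Agent.HSI.AAdj

/-!
# The rows near a critical point

The rows `x 0 * D (x i) - D (x 0) * x i` near a critical point: linear algebra with the adjugate
of the Hessian matrix.
-/

open MvPolynomial

namespace Pool.Agent.HSI

private theorem row_hess {k₀ A : Type*} [Field k₀] [CommRing A] [Algebra k₀ A] {N : ℕ}
    {f : MvPolynomial (Fin (N + 2)) k₀} (hf : f.IsHomogeneous (N + 2)) (x : Fin (N + 2) → A)
    (D : Derivation k₀ A A) (i : Fin (N + 1)) :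
    ((hess f x).mulVec fun j => x 0 * D (x j.succ) - D (x 0) * x j.succ) i =
      x 0 * D (aeval x (pderiv i.succ f)) -
        D (x 0) * ((N + 1 : ℕ) * aeval x (pderiv i.succ f)) := by
  have h1 : (pderiv i.succ f).IsHomogeneous (N + 1) := by
    have h := hf.pderiv (i := i.succ)
    simpa using h
  have h2 : ∑ j : Fin (N + 2), aeval x (pderiv j (pderiv i.succ f)) *
      (x 0 * D (x j) - D (x 0) * x j) = x 0 * D (aeval x (pderiv i.succ f)) -
        D (x 0) * ((N + 1 : ℕ) * aeval x (pderiv i.succ f)) := by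
    rw [der_aeval, ← euler h1 x, Finset.mul_sum, Finset.mul_sum, ← Finset.sum_sub_distrib]
    refine Finset.sum_congr rfl fun j _ => ?_
    ring
  rw [← h2, Fin.sum_univ_succ]
  have h3 : aeval x (pderiv 0 (pderiv i.succ f)) * (x 0 * D (x 0) - D (x 0) * x 0) = 0 := by
    ring
  rw [h3, zero_add]
  rfl

theorem row_form {k₀ A : Type*} [Field k₀] [CommRing A] [Algebra k₀ A] {N : ℕ}
    {f : MvPolynomial (Fin (N + 2)) k₀} (hf : f.IsHomogeneous (N + 2)) (x : Fin (N + 2) → A)
    (ζ : Fin (N + 2) → k₀) (u : Fin (N + 2) → A) (θ : A)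
    (hx : ∀ i, x i = algebraMap k₀ A (ζ i) * x 0 + θ * u i) (r : ℕ) (hr : 1 ≤ r)
    (v' : Fin (N + 2) → A) (hv : ∀ j, j ≠ 0 → aeval x (pderiv j f) = θ ^ r * v' j)
    (a b : Fin (N + 1)) :
    ∃ P W : Fin (N + 2) → A, ∀ D : Derivation k₀ A A, ∃ (c' : A) (Z : Fin (N + 2) → A), ∀ i,
      (hess f x).adjugate a b * (x 0 * D (x i) - D (x 0) * x i) =
        (D θ * (x 0 * u a.succ) + θ * c') * P i + θ ^ (r - 1) * (D θ * W i) +
          θ ^ (r - 1) * θ * Z i := by
  obtain ⟨M, hM⟩ := exists_adj (hess f x) a b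
  refine ⟨Fin.cons 0 fun j => (hess f x).adjugate j b,
    Fin.cons 0 fun j => ∑ i, M j i * ((r : A) * x 0 * v' i.succ), fun D => ?_⟩
  refine ⟨x 0 * D (u a.succ) - D (x 0) * u a.succ,
    Fin.cons 0 fun j => ∑ i, M j i * (x 0 * D (v' i.succ) - (N + 1 : ℕ) * D (x 0) * v' i.succ),
    fun i => ?_⟩
  have hya : x 0 * D (x a.succ) - D (x 0) * x a.succ =
      D θ * (x 0 * u a.succ) + θ * (x 0 * D (u a.succ) - D (x 0) * u a.succ) := by
    have h1 : D (x a.succ) = algebraMap k₀ A (ζ a.succ) * D (x 0) +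
        (θ * D (u a.succ) + u a.succ * D θ) := by
      conv_lhs => rw [hx a.succ]
      rw [map_add, D.leibniz, D.leibniz, D.map_algebraMap, smul_zero, add_zero, smul_eq_mul,
        smul_eq_mul, smul_eq_mul]
    rw [h1]
    conv_lhs => rw [hx a.succ]
    ring
  have hH : ∀ i : Fin (N + 1),
      ((hess f x).mulVec fun j => x 0 * D (x j.succ) - D (x 0) * x j.succ) i =
        θ ^ (r - 1) * (D θ * ((r : A) * x 0 * v' i.succ)) +
          θ ^ (r - 1) * θ * (x 0 * D (v' i.succ) - (N + 1 : ℕ) * D (x 0) * v' i.succ) := by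
    intro i
    rw [row_hess hf x D i, hv i.succ (Fin.succ_ne_zero i), D.leibniz, D.leibniz_pow,
      ← Nat.cast_smul_eq_nsmul A r, smul_eq_mul, smul_eq_mul, smul_eq_mul, smul_eq_mul]
    have h1 : θ ^ r = θ ^ (r - 1) * θ := by
      rw [← pow_succ, Nat.sub_add_cancel hr]
    rw [h1]
    ring
  refine Fin.cases ?_ (fun j => ?_) i
  · rw [Fin.cons_zero, Fin.cons_zero, Fin.cons_zero]
    ring
  · rw [Fin.cons_succ, Fin.cons_succ, Fin.cons_succ]
    have h1 := hM (fun j => x 0 * D (x j.succ) - D (x 0) * x j.succ) j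
    rw [h1]
    have h2 : ∑ i, M j i *
        ((hess f x).mulVec fun j => x 0 * D (x j.succ) - D (x 0) * x j.succ) i =
          θ ^ (r - 1) * (D θ * ∑ i, M j i * ((r : A) * x 0 * v' i.succ)) +
            θ ^ (r - 1) * θ *
              ∑ i, M j i * (x 0 * D (v' i.succ) - (N + 1 : ℕ) * D (x 0) * v' i.succ) := by
      rw [Finset.mul_sum, Finset.mul_sum, Finset.mul_sum, ← Finset.sum_add_distrib]
      refine Finset.sum_congr rfl fun i _ => ?_
      rw [hH]
      ring
    rw [h2]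
    simp only [hya]
    ring

end Pool.Agent.HSI
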