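import Pool.Agent.HSI.Tools

/-!
# Row operations on the rows `x, D_1 x, …, D_N x`
-/

open MvPolynomial

namespace Pool.Agent.HSI

private theorem scl_scale {A : Type*} [CommRing A] {N : ℕ} (y : Fin (N + 2) → A)
    (Z : Fin N → Fin (N + 2) → A) (i : Fin (N + 2)) (a b : A) :
    (Matrix.of (Fin.cons (Pi.single i (1 : A)) (Fin.cons (fun j => a * y j) (fun l j => b * Z l j)) :
      Fin (N + 2) → Fin (N + 2) → A)).det = a * b ^ N *
        (Matrix.of (Fin.cons (Pi.single i (1 : A)) (Fin.cons y Z) : Fin (N + 2) → Fin (N + 2) → A)).det := by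
  have h1 : (Matrix.of (Fin.cons (Pi.single i (1 : A)) (Fin.cons (fun j => a * y j) (fun l j => b * Z l j)) :
      Fin (N + 2) → Fin (N + 2) → A)) =
      Matrix.of fun r j => (Fin.cons 1 (Fin.cons a fun _ => b) : Fin (N + 2) → A) r *
        (Matrix.of (Fin.cons (Pi.single i (1 : A)) (Fin.cons y Z) : Fin (N + 2) → Fin (N + 2) → A)) r j := by
    ext r j
    refine Fin.cases ?_ (fun r => Fin.cases ?_ (fun r => ?_) r) r
    · simp [Matrix.of_apply]
    · simp [Matrix.of_apply]
    · simp [Matrix.of_apply]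
  rw [h1, Matrix.det_mul_column]
  congr 1
  rw [Fin.prod_univ_succ, Fin.prod_univ_succ]
  simp

private theorem scl_add {A : Type*} [CommRing A] {N : ℕ} (y : Fin (N + 2) → A)
    (Z : Fin N → Fin (N + 2) → A) (i : Fin (N + 2)) (a : Fin N → A) :
    (Matrix.of (Fin.cons (Pi.single i (1 : A)) (Fin.cons y (fun l j => a l * y j + Z l j)) :
      Fin (N + 2) → Fin (N + 2) → A)).det =
        (Matrix.of (Fin.cons (Pi.single i (1 : A)) (Fin.cons y Z) : Fin (N + 2) → Fin (N + 2) → A)).det := by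
  refine Matrix.det_eq_of_forall_row_eq_smul_add_const (Fin.cons 0 (Fin.cons 0 a) : Fin (N + 2) → A)
    (Fin.succ 0) ?_ ?_
  · simp
  · intro r j
    refine Fin.cases ?_ (fun r => Fin.cases ?_ (fun r => ?_) r) r
    · simp [Matrix.of_apply]
    · simp [Matrix.of_apply]
    · simp only [Matrix.of_apply, Fin.cons_succ, Fin.cons_zero]
      ring

private theorem scl_key {A : Type*} [CommRing A] {N : ℕ} (y : Fin (N + 2) → A)
    (Z : Fin N → Fin (N + 2) → A) (i : Fin (N + 2)) (a : Fin N → A) (b : A) :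
    GEL.mnr (Fin.cons y (fun l j => a l * y j + b * Z l j) : Fin (N + 1) → Fin (N + 2) → A) i =
      b ^ N * GEL.mnr (Fin.cons y Z : Fin (N + 1) → Fin (N + 2) → A) i := by
  have h1 := scl_add y (fun l j => b * Z l j) i a
  have h2 := scl_scale y Z i 1 b
  simp only [one_mul] at h2
  exact h1.trans h2

theorem mnr_rows_smul {k₀ A : Type*} [CommRing k₀] [CommRing A] [Algebra k₀ A] {N : ℕ}
    (D : Fin N → Derivation k₀ A A) (lam : A) (x : Fin (N + 2) → A) (i : Fin (N + 2)) :
    GEL.mnr (rows D fun j => lam * x j) i = lam ^ (N + 1) * GEL.mnr (rows D x) i := by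
  have h1 := scl_key x (fun l j => D l (x j)) i (fun l => D l lam) lam
  have h2 := scl_scale x (fun l j => D l (lam * x j)) i lam 1
  simp only [one_mul, one_pow, mul_one] at h2
  have h3 : (fun (l : Fin N) (j : Fin (N + 2)) => D l lam * x j + lam * D l (x j)) =
      fun l j => D l (lam * x j) := by
    funext l j
    rw [Derivation.leibniz, smul_eq_mul, smul_eq_mul]
    ring
  rw [h3] at h1
  have h4 : GEL.mnr (rows D fun j => lam * x j) i = lam *
      GEL.mnr (Fin.cons x (fun l j => D l (lam * x j)) : Fin (N + 1) → Fin (N + 2) → A) i := h2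
  rw [h4, h1, pow_succ']
  exact (mul_assoc _ _ _).symm

theorem mnr_aff {k₀ A : Type*} [CommRing k₀] [CommRing A] [Algebra k₀ A] {N : ℕ}
    (D : Fin N → Derivation k₀ A A) (x : Fin (N + 2) → A) (i : Fin (N + 2)) :
    GEL.mnr (Fin.cons x fun l j => x 0 * D l (x j) - D l (x 0) * x j) i =
      x 0 ^ N * GEL.mnr (rows D x) i := by
  have h1 := scl_key x (fun l j => D l (x j)) i (fun l => - D l (x 0)) (x 0)
  have h3 : (fun (l : Fin N) (j : Fin (N + 2)) => - D l (x 0) * x j + x 0 * D l (x j)) =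
      fun l j => x 0 * D l (x j) - D l (x 0) * x j := by
    funext l j
    ring
  rw [h3] at h1
  exact h1

private theorem mnr_zero' {k₀ A : Type*} [CommRing k₀] [CommRing A] [Algebra k₀ A] {N : ℕ}
    (D : Fin N → Derivation k₀ A A) (i : Fin (N + 2)) : GEL.mnr (rows D fun _ => 0) i = 0 := by
  unfold GEL.mnr
  refine Matrix.det_eq_zero_of_row_eq_zero (Fin.succ 0) fun j => ?_
  rw [Matrix.of_apply, Fin.cons_succ]
  rfl

theorem mnr_cst {k₀ κ : Type*} [CommRing k₀] [Field κ] [Algebra k₀ κ] {N : ℕ} (hN : 1 ≤ N)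
    (D : Fin N → Derivation k₀ κ κ) (c : κ) (ζ : Fin (N + 2) → k₀) (i : Fin (N + 2)) :
    GEL.mnr (rows D fun j => c * algebraMap k₀ κ (ζ j)) i = 0 := by
  by_cases hc : c = 0
  · have h0 : (fun j => c * algebraMap k₀ κ (ζ j)) = fun _ : Fin (N + 2) => (0 : κ) := by
      funext j
      rw [hc, zero_mul]
    rw [h0]
    exact mnr_zero' D i
  · have h1 := scl_key (fun j => c * algebraMap k₀ κ (ζ j)) (fun _ _ => (0 : κ)) i
      (fun l => D l c * c⁻¹) 0
    have h3 : (fun (l : Fin N) (j : Fin (N + 2)) => D l c * c⁻¹ * (c * algebraMap k₀ κ (ζ j)) + 0 * (0 : κ)) =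
        fun l j => D l (c * algebraMap k₀ κ (ζ j)) := by
      funext l j
      rw [Derivation.leibniz, Derivation.map_algebraMap, smul_zero, zero_add, smul_eq_mul]
      field_simp
      ring
    rw [h3, zero_pow (by omega), zero_mul] at h1
    exact h1

theorem ND_smul {k₀ κ : Type*} [CommRing k₀] [Field κ] [Algebra k₀ κ] {N : ℕ}
    (D : Fin N → Derivation k₀ κ κ) (c : κ) (hc : c ≠ 0) (x : Fin (N + 2) → κ) :
    ND D (fun j => c * x j) ↔ ND D x := by
  unfold ND
  refine exists_congr fun i => ?_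
  rw [mnr_rows_smul]
  exact ⟨fun h => (mul_ne_zero_iff.1 h).2, fun h => mul_ne_zero (pow_ne_zero _ hc) h⟩

theorem mnr_hyp {k₀ A : Type*} [CommRing k₀] [CommRing A] [Algebra k₀ A] {N : ℕ}
    (D : Fin N → Derivation k₀ A A) (x : Fin (N + 2) → A) (hx : x 0 = 0) (i : Fin (N + 2))
    (hi : i ≠ 0) : GEL.mnr (rows D x) i = 0 := by
  unfold GEL.mnr
  refine Matrix.det_eq_zero_of_column_eq_zero 0 fun r => ?_
  rw [Matrix.of_apply]
  refine Fin.cases ?_ (fun r => Fin.cases ?_ (fun r => ?_) r) r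
  · rw [Fin.cons_zero]
    exact Pi.single_eq_of_ne (Ne.symm hi) _
  · rw [Fin.cons_succ]
    exact hx
  · rw [Fin.cons_succ]
    show D r (x 0) = 0
    rw [hx, map_zero]

theorem mnr_zero {k₀ A : Type*} [CommRing k₀] [CommRing A] [Algebra k₀ A] {N : ℕ}
    (D : Fin N → Derivation k₀ A A) (i : Fin (N + 2)) : GEL.mnr (rows D fun _ => 0) i = 0 := by
  exact mnr_zero' D i

end Pool.Agent.HSI
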