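import Pool.Agent.HSI.ADet
import Pool.Agent.HSI.AScl
import Pool.Agent.HSI.ACrt
import Pool.Agent.HSI.ARow

/-! Local estimate of the minors at a critical point (project HSI). -/

open MvPolynomial

universe u

namespace Pool.Agent.HSI

theorem loc_aff {k₀ κ : Type u} [Field k₀] [Field κ] [Algebra k₀ κ] {N : ℕ} (hN : 2 ≤ N)
    {f : MvPolynomial (Fin (N + 2)) k₀} (hf : Good f)
    (D : Fin N → Derivation k₀ (Polynomial κ) (Polynomial κ)) (x : Fin (N + 2) → Polynomial κ)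
    (θ : Polynomial κ) (hθ : Irreducible θ) (h0 : ¬ θ ∣ x 0) (r : ℕ)
    (hv : ∀ j, j ≠ 0 → θ ^ r ∣ aeval x (pderiv j f)) (i : Fin (N + 2)) :
    θ ^ r ∣ GEL.mnr (rows D x) i := by
  rcases Nat.eq_zero_or_pos r with rfl | hr
  · rw [pow_zero]
    exact one_dvd _
  have hp := hθ.prime
  obtain ⟨⟨ζ, u, hx⟩, a, b, hμ⟩ := crit_mod hf x θ hθ h0
    (fun j hj => (dvd_pow_self θ hr.ne').trans (hv j hj))
  have hv0 : ∀ j, ∃ w, j ≠ 0 → aeval x (pderiv j f) = θ ^ r * w := by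
    intro j
    by_cases hj : j = 0
    · exact ⟨0, fun h => absurd hj h⟩
    · obtain ⟨w, hw⟩ := hv j hj
      exact ⟨w, fun _ => hw⟩
  choose v' hv' using hv0
  obtain ⟨P, W, hPW⟩ := row_form hf.hom x ζ u θ hx r hr v' hv' a b
  obtain ⟨c0, Z0, e0⟩ := hPW (D ⟨0, by omega⟩)
  obtain ⟨c1, Z1, e1⟩ := hPW (D ⟨1, by omega⟩)
  have h12 : (Fin.succ ⟨0, by omega⟩ : Fin (N + 1)) ≠ Fin.succ (⟨1, by omega⟩ : Fin N) := by
    intro h
    have := congrArg Fin.val h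
    simp at this
  have key := det_two (Fin.cons x fun l j => x 0 * D l (x j) - D l (x 0) * x j)
    (Fin.succ ⟨0, by omega⟩) (Fin.succ (⟨1, by omega⟩ : Fin N)) h12
    ((hess f x).adjugate a b) ((hess f x).adjugate a b)
    (D ⟨0, by omega⟩ θ * (x 0 * u a.succ) + θ * c0) (D ⟨1, by omega⟩ θ * (x 0 * u a.succ) + θ * c1)
    (D ⟨0, by omega⟩ θ) (D ⟨1, by omega⟩ θ) (θ ^ (r - 1)) θ P W Z0 Z1
    (fun i => by rw [Fin.cons_succ]; exact e0 i) (fun i => by rw [Fin.cons_succ]; exact e1 i)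
    ⟨c0 * D ⟨1, by omega⟩ θ - c1 * D ⟨0, by omega⟩ θ, by ring⟩ i
  rw [mnr_aff, ← pow_succ, Nat.sub_add_cancel hr, ← mul_assoc] at key
  refine hp.pow_dvd_of_dvd_mul_left r ?_ key
  intro h
  rcases hp.dvd_or_dvd h with h | h
  · rcases hp.dvd_or_dvd h with h | h <;> exact hμ h
  · exact h0 (hp.dvd_of_dvd_pow h)

theorem loc_aff_X {k₀ κ : Type u} [Field k₀] [Field κ] [Algebra k₀ κ] {N : ℕ} (hN : 2 ≤ N)
    {f : MvPolynomial (Fin (N + 2)) k₀} (hf : Good f)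
    (D : Fin N → Derivation k₀ (Polynomial κ) (Polynomial κ)) (hD : ∀ l, D l Polynomial.X = 0)
    (x : Fin (N + 2) → Polynomial κ) (h0 : ¬ Polynomial.X ∣ x 0) (r : ℕ) (hr : 1 ≤ r)
    (hv : ∀ j, j ≠ 0 → Polynomial.X ^ r ∣ aeval x (pderiv j f)) (i : Fin (N + 2)) :
    Polynomial.X ^ (r + 1) ∣ GEL.mnr (rows D x) i := by
  have hθ : Irreducible (Polynomial.X : Polynomial κ) := Polynomial.irreducible_X
  have hp := hθ.prime
  obtain ⟨⟨ζ, u, hx⟩, a, b, hμ⟩ := crit_mod hf x Polynomial.X hθ h0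
    (fun j hj => (dvd_pow_self _ (by omega : r ≠ 0)).trans (hv j hj))
  have hv0 : ∀ j, ∃ w, j ≠ 0 → aeval x (pderiv j f) = Polynomial.X ^ r * w := by
    intro j
    by_cases hj : j = 0
    · exact ⟨0, fun h => absurd hj h⟩
    · obtain ⟨w, hw⟩ := hv j hj
      exact ⟨w, fun _ => hw⟩
  choose v' hv' using hv0
  obtain ⟨P, W, hPW⟩ := row_form hf.hom x ζ u Polynomial.X hx r hr v' hv' a b
  obtain ⟨c0, Z0, e0⟩ := hPW (D ⟨0, by omega⟩)
  obtain ⟨c1, Z1, e1⟩ := hPW (D ⟨1, by omega⟩)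
  have h12 : (Fin.succ ⟨0, by omega⟩ : Fin (N + 1)) ≠ Fin.succ (⟨1, by omega⟩ : Fin N) := by
    intro h
    have := congrArg Fin.val h
    simp at this
  have hr1 : (Polynomial.X : Polynomial κ) ^ (r - 1) * Polynomial.X = Polynomial.X ^ r := by
    rw [← pow_succ, Nat.sub_add_cancel hr]
  simp only [hD, zero_mul, zero_add, mul_zero, add_zero, hr1] at e0 e1
  have key := det_two' (Fin.cons x fun l j => x 0 * D l (x j) - D l (x 0) * x j)
    (Fin.succ ⟨0, by omega⟩) (Fin.succ (⟨1, by omega⟩ : Fin N)) h12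
    ((hess f x).adjugate a b) ((hess f x).adjugate a b)
    (Polynomial.X * c0) (Polynomial.X * c1) (Polynomial.X ^ r) Polynomial.X P Z0 Z1
    (fun i => by rw [Fin.cons_succ]; exact e0 i) (fun i => by rw [Fin.cons_succ]; exact e1 i)
    ⟨c0, rfl⟩ ⟨c1, rfl⟩ (dvd_pow_self _ (by omega)) i
  rw [mnr_aff, ← pow_succ', ← mul_assoc] at key
  refine hp.pow_dvd_of_dvd_mul_left (r + 1) ?_ key
  intro h
  rcases hp.dvd_or_dvd h with h | h
  · rcases hp.dvd_or_dvd h with h | h <;> exact hμ h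
  · exact h0 (hp.dvd_of_dvd_pow h)

end Pool.Agent.HSI
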