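import Pool.Agent.HSI.AOrt
import Pool.Agent.HSI.AScl

/-!
# The gradient does not vanish at points with independent rows

`grad_ne`: if all `f_j(x)`, `j ≠ 0`, vanish then `x` is proportional to a point over `k₀` (the condition `Good`), so all
the minors vanish (`mnr_cst`). `hyp_ne`: if `z 0 = 0` then the minors other than the minor `0` vanish (`mnr_hyp`) and the
gradient is proportional to the minors (`mnr_grd`): contradiction to `grad_ne`.
-/

open MvPolynomial

universe u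

namespace Pool.Agent.HSI

theorem grad_ne {k₀ κ : Type u} [Field k₀] [Field κ] [Algebra k₀ κ] {N : ℕ} (hN : 1 ≤ N)
    {f : MvPolynomial (Fin (N + 2)) k₀} (hf : Good f) (D : Fin N → Derivation k₀ κ κ)
    (x : Fin (N + 2) → κ) (h : ND D x) : ∃ j, j ≠ 0 ∧ aeval x (pderiv j f) ≠ 0 := by
  by_contra hc
  have hall : ∀ j, j ≠ 0 → aeval x (pderiv j f) = 0 := by
    intro j hj
    by_contra h1
    exact hc ⟨j, hj, h1⟩
  obtain ⟨i, hi⟩ := h
  by_cases h0 : x 0 = 0
  · have hx : x ≠ 0 := by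
      intro hx
      apply hi
      rw [hx]
      exact mnr_zero D i
    obtain ⟨-, -, c, ζ, hζ⟩ := hf.inf κ x hx h0 hall
    apply hi
    have h1 : x = fun j => c * algebraMap k₀ κ (ζ j) := funext hζ
    rw [h1]
    exact mnr_cst hN D c ζ i
  · obtain ⟨⟨ζ, hζ⟩, -⟩ := hf.crit κ (fun i => (x 0)⁻¹ * x i) (inv_mul_cancel₀ h0) (fun j hj => by
      rw [aeval_smul (r := N + 1) hf.hom.pderiv, hall j hj, mul_zero])
    apply hi
    have h1 : x = fun j => x 0 * algebraMap k₀ κ (ζ j) := by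
      funext j
      rw [← hζ j, mul_inv_cancel_left₀ h0]
    rw [h1]
    exact mnr_cst hN D _ ζ i

theorem hyp_ne {k₀ κ : Type u} [Field k₀] [Field κ] [Algebra k₀ κ] {N p : ℕ} (hN : 1 ≤ N)
    (hp : 1 ≤ p) (hpN : p ≤ N + 2) (hκ : (p : κ) = 0) {f : MvPolynomial (Fin (N + 2)) k₀}
    (hf : Good f) (D : Fin N → Derivation k₀ κ κ) (z : Fin (N + 2) → κ) (w : κ)
    (h : z 0 ^ (N + 2 - p) * w ^ p + aeval z f = 0) (hz : ND D z) : z 0 ≠ 0 := by
  intro h0
  obtain ⟨j, hj, hjf⟩ := grad_ne hN hf D z hz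
  obtain ⟨i, hi⟩ := hz
  have hi0 : i = 0 := by
    by_contra h1
    exact hi (mnr_hyp D z h0 i h1)
  subst hi0
  have h1 := mnr_grd hp hpN hκ hf.hom D z w h 0 j
  rw [mnr_hyp D z h0 j hj, zero_mul] at h1
  have h2 := (mul_eq_zero.1 h1).resolve_left hi
  unfold grd at h2
  rw [if_neg hj, add_zero] at h2
  exact hjf h2

end Pool.Agent.HSI
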