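import Pool.Agent.HSI.AChn
import Pool.Agent.GEL.MinA

/-!
# The gradient of the special fibre is orthogonal to the rows

Euler's identity and the chain rule.
-/

open MvPolynomial

namespace Pool.Agent.HSI

theorem aeval_spec_snoc {k₀ A : Type*} [CommRing k₀] [CommRing A] [Algebra k₀ A] {N : ℕ} (p : ℕ)
    (f : MvPolynomial (Fin (N + 2)) k₀) (x : Fin (N + 2) → A) (w : A) :
    aeval (Fin.snoc (α := fun _ => A) x w) (spec p f) = x 0 ^ (N + 2 - p) * w ^ p + aeval x f := by
  unfold spec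
  have h0 : (Fin.snoc (α := fun _ => A) x w : Fin (N + 3) → A) 0 = x 0 :=
    Fin.snoc_castSucc (α := fun _ => A) w x 0
  have h1 : (Fin.snoc (α := fun _ => A) x w : Fin (N + 3) → A) ∘ Fin.castSucc = x := by
    funext i
    exact Fin.snoc_castSucc (α := fun _ => A) w x i
  rw [map_add, map_mul, map_pow, map_pow, aeval_X, aeval_X, aeval_rename, h0, h1, Fin.snoc_last]

private theorem ort_pow {A : Type*} [CommRing A] (m : ℕ) (a : A) :
    a * ((m : A) * a ^ (m - 1)) = m * a ^ m := by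
  rcases m with _ | m
  · rw [Nat.cast_zero, zero_mul, mul_zero]
  · rw [Nat.add_sub_cancel, pow_succ]
    ring

private theorem ort_split {k₀ A : Type*} [CommRing k₀] [CommRing A] [Algebra k₀ A] {N p : ℕ}
    {f : MvPolynomial (Fin (N + 2)) k₀} (x : Fin (N + 2) → A) (w : A) (y : Fin (N + 2) → A) :
    ∑ i, y i * grd p f x w i = ∑ i, y i * aeval x (pderiv i f) +
      y 0 * (((N + 2 - p : ℕ) : A) * x 0 ^ (N + 2 - p - 1) * w ^ p) := by
  have h1 : ∀ i, y i * grd p f x w i = y i * aeval x (pderiv i f) +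
      if i = 0 then y i * (((N + 2 - p : ℕ) : A) * x 0 ^ (N + 2 - p - 1) * w ^ p) else 0 := by
    intro i
    unfold grd
    rw [mul_add, mul_ite, mul_zero]
  rw [Finset.sum_congr rfl fun i _ => h1 i, Finset.sum_add_distrib, Finset.sum_ite_eq' Finset.univ 0,
    if_pos (Finset.mem_univ _)]

theorem orth {k₀ A : Type*} [CommRing k₀] [CommRing A] [Algebra k₀ A] {N p : ℕ} (hp : 1 ≤ p)
    (hpN : p ≤ N + 2) (hA : (p : A) = 0) {f : MvPolynomial (Fin (N + 2)) k₀}
    (hf : f.IsHomogeneous (N + 2)) (D : Fin N → Derivation k₀ A A) (x : Fin (N + 2) → A) (w : A)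
    (h : x 0 ^ (N + 2 - p) * w ^ p + aeval x f = 0) (l : Fin (N + 1)) :
    ∑ i, rows D x l i * grd p f x w i = 0 := by
  rw [ort_split x w (rows D x l)]
  refine Fin.cases ?_ (fun l => ?_) l
  · show ∑ i, x i * aeval x (pderiv i f) +
      x 0 * (((N + 2 - p : ℕ) : A) * x 0 ^ (N + 2 - p - 1) * w ^ p) = 0
    have h1 : ((N + 2 : ℕ) : A) = ((N + 2 - p : ℕ) : A) := by
      have h2 : N + 2 = (N + 2 - p) + p := by omega
      conv_lhs => rw [h2]
      rw [Nat.cast_add, hA, add_zero]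
    rw [euler hf, h1, ← mul_assoc, ort_pow, mul_assoc, ← mul_add, add_comm (aeval x f), h, mul_zero]
  · show ∑ i, D l (x i) * aeval x (pderiv i f) +
      D l (x 0) * (((N + 2 - p : ℕ) : A) * x 0 ^ (N + 2 - p - 1) * w ^ p) = 0
    have h1 := congrArg (D l) h
    rw [map_zero, map_add, Derivation.leibniz, Derivation.leibniz_pow, Derivation.leibniz_pow,
      der_aeval, ← Nat.cast_smul_eq_nsmul A p, hA, zero_smul, smul_zero, zero_add,
      ← Nat.cast_smul_eq_nsmul A (N + 2 - p), smul_eq_mul, smul_eq_mul, smul_eq_mul] at h1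
    have h2 : ∑ i, D l (x i) * aeval x (pderiv i f) = ∑ i, aeval x (pderiv i f) * D l (x i) :=
      Finset.sum_congr rfl fun i _ => mul_comm _ _
    rw [h2, ← h1]
    ring

theorem mnr_grd {k₀ A : Type*} [CommRing k₀] [CommRing A] [Algebra k₀ A] {N p : ℕ} (hp : 1 ≤ p)
    (hpN : p ≤ N + 2) (hA : (p : A) = 0) {f : MvPolynomial (Fin (N + 2)) k₀}
    (hf : f.IsHomogeneous (N + 2)) (D : Fin N → Derivation k₀ A A) (x : Fin (N + 2) → A) (w : A)
    (h : x 0 ^ (N + 2 - p) * w ^ p + aeval x f = 0) (i j : Fin (N + 2)) :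
    GEL.mnr (rows D x) i * grd p f x w j = GEL.mnr (rows D x) j * grd p f x w i := by
  exact GEL.mnr_mul (rows D x) (grd p f x w) (orth hp hpN hA hf D x w h) i j

end Pool.Agent.HSI
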