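import Pool.Agent.HSI.Tools
import Pool.Agent.GEL.DerE
import Pool.Agent.GEL.MinA

/-!
# Derivations acting on the coefficients of polynomials
-/

open MvPolynomial

namespace Pool.Agent.HSI

/-- the derivation of `κ[X]` acting on the coefficients -/
noncomputable def polyD {k₀ κ : Type*} [Field k₀] [Field κ] [Algebra k₀ κ] (D : Derivation k₀ κ κ) :
    Derivation k₀ (Polynomial κ) (Polynomial κ) := Classical.choose (GEL.der_poly D)

theorem polyD_coeff {k₀ κ : Type*} [Field k₀] [Field κ] [Algebra k₀ κ] (D : Derivation k₀ κ κ)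
    (P : Polynomial κ) (i : ℕ) : (polyD D P).coeff i = D (P.coeff i) :=
  Classical.choose_spec (GEL.der_poly D) P i

theorem polyD_X {k₀ κ : Type*} [Field k₀] [Field κ] [Algebra k₀ κ] (D : Derivation k₀ κ κ) :
    polyD D Polynomial.X = 0 := by
  ext i
  rw [polyD_coeff, Polynomial.coeff_zero, Polynomial.coeff_X]
  split_ifs
  · rw [← map_one (algebraMap k₀ κ), Derivation.map_algebraMap]
  · rw [map_zero]

theorem polyD_natDegree_le {k₀ κ : Type*} [Field k₀] [Field κ] [Algebra k₀ κ]
    (D : Derivation k₀ κ κ) (P : Polynomial κ) (e : ℕ) (h : P.natDegree ≤ e) :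
    (polyD D P).natDegree ≤ e := by
  rw [Polynomial.natDegree_le_iff_coeff_eq_zero]
  intro i hi
  rw [polyD_coeff, Polynomial.coeff_eq_zero_of_natDegree_lt (lt_of_le_of_lt h hi), map_zero]

/-- evaluation of the minors at `0` -/
theorem mnr_eval_zero {k₀ κ : Type*} [Field k₀] [Field κ] [Algebra k₀ κ] {N : ℕ}
    (D : Fin N → Derivation k₀ κ κ) (x : Fin (N + 2) → Polynomial κ) (i : Fin (N + 2)) :
    (GEL.mnr (rows (fun l => polyD (D l)) x) i).coeff 0 =
      GEL.mnr (rows D fun j => (x j).coeff 0) i := by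
  rw [Polynomial.coeff_zero_eq_eval_zero]
  have h := GEL.mnr_map (Polynomial.evalRingHom (0 : κ)) (rows (fun l => polyD (D l)) x) i
  rw [Polynomial.coe_evalRingHom] at h
  rw [h]
  congr 1
  funext l j
  refine Fin.cases ?_ (fun l => ?_) l
  · show (x j).eval 0 = (x j).coeff 0
    rw [Polynomial.coeff_zero_eq_eval_zero]
  · show (polyD (D l) (x j)).eval 0 = D l ((x j).coeff 0)
    rw [← Polynomial.coeff_zero_eq_eval_zero, polyD_coeff]

theorem rows_natDegree_le {k₀ κ : Type*} [Field k₀] [Field κ] [Algebra k₀ κ] {N : ℕ}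
    (D : Fin N → Derivation k₀ κ κ) (x : Fin (N + 2) → Polynomial κ) (e : ℕ)
    (hx : ∀ i, (x i).natDegree ≤ e) (l : Fin (N + 1)) (j : Fin (N + 2)) :
    (rows (fun l => polyD (D l)) x l j).natDegree ≤ e := by
  refine Fin.cases ?_ (fun l => ?_) l
  · exact hx j
  · exact polyD_natDegree_le _ _ _ (hx j)

theorem rows_coeff {k₀ κ : Type*} [Field k₀] [Field κ] [Algebra k₀ κ] {N : ℕ}
    (D : Fin N → Derivation k₀ κ κ) (x : Fin (N + 2) → Polynomial κ) (e : ℕ) :
    (fun l j => (rows (fun l => polyD (D l)) x l j).coeff e) =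
      rows D fun j => (x j).coeff e := by
  funext l j
  refine Fin.cases ?_ (fun l => ?_) l
  · rfl
  · exact polyD_coeff _ _ _

end Pool.Agent.HSI
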