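import Pool.Agent.HSI.Tools
import Pool.Agent.GEL.MinA

/-!
# Top coefficients of values of forms and of minors
-/

open MvPolynomial

namespace Pool.Agent.HSI

private theorem atop_prod {κ ι : Type*} [Field κ] (s : Finset ι) (f : ι → Polynomial κ) (d : ι → ℕ)
    (h : ∀ i ∈ s, (f i).natDegree ≤ d i) :
    (∏ i ∈ s, f i).coeff (∑ i ∈ s, d i) = ∏ i ∈ s, (f i).coeff (d i) := by
  classical
  induction s using Finset.induction_on with
  | empty => simp
  | insert a s ha ih =>
    have h1 : (∏ i ∈ s, f i).natDegree ≤ ∑ i ∈ s, d i :=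
      (Polynomial.natDegree_prod_le _ _).trans
        (Finset.sum_le_sum fun i hi => h i (Finset.mem_insert_of_mem hi))
    rw [Finset.prod_insert ha, Finset.sum_insert ha, Finset.prod_insert ha,
      Polynomial.coeff_mul_add_eq_of_natDegree_le (h a (Finset.mem_insert_self _ _)) h1,
      ih fun i hi => h i (Finset.mem_insert_of_mem hi)]

private theorem atop_deg {k₀ σ : Type*} [CommRing k₀] [Fintype σ] {r : ℕ}
    {g : MvPolynomial σ k₀} (hg : g.IsHomogeneous r) {m : σ →₀ ℕ} (hm : m ∈ g.support) :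
    ∑ i, m i = r := by
  have h1 : m.degree = r := by
    by_contra h
    exact (MvPolynomial.mem_support_iff.1 hm) (hg.coeff_eq_zero h)
  rw [← h1, Finsupp.degree_eq_sum]

private theorem atop_term {κ σ : Type*} [Field κ] [Fintype σ] {r : ℕ} (m : σ →₀ ℕ)
    (hm : ∑ i, m i = r) (x : σ → Polynomial κ) (e : ℕ) (hx : ∀ i, (x i).natDegree ≤ e) :
    (∏ i, x i ^ m i).natDegree ≤ r * e ∧
      (∏ i, x i ^ m i).coeff (r * e) = ∏ i, (x i).coeff e ^ m i := by
  have h1 : ∀ i, (x i ^ m i).natDegree ≤ m i * e := fun i =>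
    Polynomial.natDegree_pow_le.trans (Nat.mul_le_mul_left _ (hx i))
  have h2 : ∑ i, m i * e = r * e := by rw [← Finset.sum_mul, hm]
  constructor
  · rw [← h2]
    exact (Polynomial.natDegree_prod_le _ _).trans (Finset.sum_le_sum fun i _ => h1 i)
  · rw [← h2, atop_prod _ _ _ fun i _ => h1 i]
    exact Finset.prod_congr rfl fun i _ => Polynomial.coeff_pow_of_natDegree_le (hx i)

theorem aeval_natDegree_le {k₀ κ σ : Type*} [CommRing k₀] [Field κ] [Algebra k₀ κ] [Fintype σ] {r : ℕ}
    {g : MvPolynomial σ k₀} (hg : g.IsHomogeneous r) (x : σ → Polynomial κ) (e : ℕ)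
    (hx : ∀ i, (x i).natDegree ≤ e) : (aeval x g).natDegree ≤ r * e := by
  rw [aeval_def, eval₂_eq']
  refine Polynomial.natDegree_sum_le_of_forall_le _ _ fun m hm => ?_
  rw [Polynomial.algebraMap_apply]
  exact (Polynomial.natDegree_C_mul_le _ _).trans (atop_term m (atop_deg hg hm) x e hx).1

theorem aeval_coeff_top {k₀ κ σ : Type*} [CommRing k₀] [Field κ] [Algebra k₀ κ] [Fintype σ] {r : ℕ}
    {g : MvPolynomial σ k₀} (hg : g.IsHomogeneous r) (x : σ → Polynomial κ) (e : ℕ)
    (hx : ∀ i, (x i).natDegree ≤ e) :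
    (aeval x g).coeff (r * e) = aeval (fun i => (x i).coeff e) g := by
  rw [aeval_def, aeval_def, eval₂_eq', eval₂_eq', Polynomial.finsetSum_coeff]
  refine Finset.sum_congr rfl fun m hm => ?_
  rw [Polynomial.algebraMap_apply, Polynomial.coeff_C_mul, (atop_term m (atop_deg hg hm) x e hx).2]

theorem mnr_coeff_top {κ : Type*} [Field κ] {M : ℕ} (R : Fin M → Fin (M + 1) → Polynomial κ) (e : ℕ)
    (h : ∀ l j, (R l j).natDegree ≤ e) (i : Fin (M + 1)) :
    (GEL.mnr R i).coeff (M * e) = GEL.mnr (fun l j => (R l j).coeff e) i := by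
  unfold GEL.mnr
  rw [Matrix.det_apply, Matrix.det_apply, Polynomial.finsetSum_coeff]
  refine Finset.sum_congr rfl fun σ _ => ?_
  rw [Polynomial.coeff_smul]
  congr 1
  obtain ⟨d, hd⟩ : ∃ d : Fin (M + 1) → ℕ, d = Fin.cons 0 (fun _ => e) := ⟨_, rfl⟩
  have hb : ∀ k j, ((Matrix.of (Fin.cons (Pi.single i (1 : Polynomial κ)) R :
      Fin (M + 1) → Fin (M + 1) → Polynomial κ)) k j).natDegree ≤ d k := by
    intro k j
    rw [hd]
    refine Fin.cases ?_ (fun l => ?_) k
    · change ((Pi.single i (1 : Polynomial κ) : Fin (M + 1) → Polynomial κ) j).natDegree ≤ 0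
      rw [Pi.single_apply]
      by_cases hm : j = i
      · rw [if_pos hm, Polynomial.natDegree_one]
      · rw [if_neg hm, Polynomial.natDegree_zero]
    · exact h l j
  have hc : ∀ k j, ((Matrix.of (Fin.cons (Pi.single i (1 : Polynomial κ)) R :
      Fin (M + 1) → Fin (M + 1) → Polynomial κ)) k j).coeff (d k) =
      (Matrix.of (Fin.cons (Pi.single i (1 : κ)) (fun l j => (R l j).coeff e) :
        Fin (M + 1) → Fin (M + 1) → κ)) k j := by
    intro k j
    rw [hd]
    refine Fin.cases ?_ (fun l => ?_) k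
    · change ((Pi.single i (1 : Polynomial κ) : Fin (M + 1) → Polynomial κ) j).coeff 0 =
        (Pi.single i (1 : κ) : Fin (M + 1) → κ) j
      rw [Pi.single_apply, Pi.single_apply]
      by_cases hm : j = i
      · rw [if_pos hm, if_pos hm, Polynomial.coeff_one_zero]
      · rw [if_neg hm, if_neg hm, Polynomial.coeff_zero]
    · rfl
  have hs : ∑ k, d (σ k) = M * e := by
    rw [Equiv.sum_comp σ d, hd, Fin.sum_univ_succ]
    simp
  rw [← hs, atop_prod _ _ _ fun k _ => hb (σ k) k]
  exact Finset.prod_congr rfl fun k _ => hc (σ k) k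

end Pool.Agent.HSI
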