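import Pool.Agent.HSI.ANdv
import Pool.Agent.HSI.ALoc
import Pool.Agent.HSI.AInf
import Pool.Agent.HSI.ATop
import Pool.Agent.HSI.ATl
import Pool.Agent.GEL.Fac

/-!
# The minors are a constant multiple of the gradient

PLAN. `D' l = polyD (D l)`, `m i = mnr (rows D' x) i`, `v i = grd p f x w i`. `(m i).natDegree ≤ (N + 1) e` (`GEL.mnr_natDegree_le`, `rows_natDegree_le`) and
`(m i).coeff ((N + 1) e) = mnr (rows D lead) i` (`mnr_coeff_top`, `rows_coeff`), not zero for some `i₀`; so `x ≠ 0` (`mnr_zero`).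
`grad_ne` for `lead`: `j ≠ 0` with `f_j(lead) ≠ 0`; `(v j).coeff ((N + 1) e) = f_j(lead)` (`aeval_coeff_top`), so `v ≠ 0`, `v j` has degree `≥ (N + 1) e`.
`GEL.exists_factor (N := N + 2) m v`: `hprop` from `mnr_grd` (with `A = κ[X]`, `(p : κ[X]) = C (p : κ) = 0`), `hloc`: if `θ ∣ x 0`: `loc_inf`, otherwise `loc_aff` (for `j ≠ 0`: `grd j = aeval x (pderiv j f)`).
So `m i = ψ v i`; `ψ ≠ 0` (`m i₀ ≠ 0`); `natDegree ψ + natDegree (v j) = natDegree (m j) ≤ (N + 1) e`, so `natDegree ψ = 0`, `ψ = C c`.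
-/

open MvPolynomial

universe u

namespace Pool.Agent.HSI

theorem psi_const {k₀ κ : Type u} [Field k₀] [Field κ] [Algebra k₀ κ] {N p : ℕ} (hN : 2 ≤ N)
    (hp : 1 ≤ p) (hpN : p ≤ N + 2) (hκ : (p : κ) = 0) {f : MvPolynomial (Fin (N + 2)) k₀}
    (hf : Good f) (D : Fin N → Derivation k₀ κ κ) (x : Fin (N + 2) → Polynomial κ)
    (w : Polynomial κ) (h : x 0 ^ (N + 2 - p) * w ^ p + aeval x f = 0) (e : ℕ)
    (he : ∀ i, (x i).natDegree ≤ e)
    (hcop : ∀ θ : Polynomial κ, Irreducible θ → ¬ ((∀ i, θ ∣ x i) ∧ θ ∣ w))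
    (hlead : ND D fun i => (x i).coeff e) :
    ∃ c : κ, c ≠ 0 ∧ ∀ i, GEL.mnr (rows (fun l => polyD (D l)) x) i =
      Polynomial.C c * grd p f x w i := by
  classical
  have hA : ((p : ℕ) : Polynomial κ) = 0 := by
    rw [← Polynomial.C_eq_natCast, hκ, Polynomial.C_0]
  obtain ⟨D', hD'⟩ : ∃ D' : Fin N → Derivation k₀ (Polynomial κ) (Polynomial κ),
      D' = fun l => polyD (D l) := ⟨_, rfl⟩
  rw [← hD']
  obtain ⟨i₀, hi₀⟩ := id hlead
  have hmd : ∀ i, (GEL.mnr (rows D' x) i).natDegree ≤ (N + 1) * e := by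
    intro i
    rw [hD']
    exact GEL.mnr_natDegree_le (rows (fun l => polyD (D l)) x) e
      (fun l j => rows_natDegree_le D x e he l j) i
  have hmt : (GEL.mnr (rows D' x) i₀).coeff ((N + 1) * e) ≠ 0 := by
    rw [hD', mnr_coeff_top (rows (fun l => polyD (D l)) x) e
      (fun l j => rows_natDegree_le D x e he l j) i₀, rows_coeff]
    exact hi₀
  have hm0 : GEL.mnr (rows D' x) i₀ ≠ 0 := by
    intro h0
    rw [h0, Polynomial.coeff_zero] at hmt
    exact hmt rfl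
  have hx : x ≠ 0 := by
    intro h0
    apply hm0
    have h1 : x = fun _ => 0 := h0
    rw [h1]
    exact mnr_zero D' i₀
  obtain ⟨j₁, hj₁, hf₁⟩ := grad_ne (by omega) hf D (fun i => (x i).coeff e) hlead
  have hgrd : ∀ j, j ≠ 0 → grd p f x w j = aeval x (pderiv j f) := by
    intro j hj
    unfold grd
    rw [if_neg hj, add_zero]
  have hvt : (grd p f x w j₁).coeff ((N + 1) * e) ≠ 0 := by
    rw [hgrd j₁ hj₁]
    have h1 : (pderiv j₁ f).IsHomogeneous (N + 1) := hf.hom.pderiv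
    rw [aeval_coeff_top h1 x e he]
    exact hf₁
  have hv0 : grd p f x w j₁ ≠ 0 := by
    intro h0
    rw [h0, Polynomial.coeff_zero] at hvt
    exact hvt rfl
  obtain ⟨ψ, hψ⟩ := GEL.exists_factor (fun i => GEL.mnr (rows D' x) i) (fun i => grd p f x w i)
    (fun h0 => hv0 (congrFun h0 j₁))
    (fun i j => mnr_grd hp hpN hA hf.hom D' x w h i j)
    (by
      intro θ hθ r hr i
      by_cases h0 : θ ∣ x 0
      · exact loc_inf hp hpN hκ hf D' x w h hx θ hθ (hcop θ hθ) h0 r hr i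
      · refine loc_aff hN hf D' x θ hθ h0 r ?_ i
        intro j hj
        rw [← hgrd j hj]
        exact hr j)
  have hψ' : ∀ i, GEL.mnr (rows D' x) i = ψ * grd p f x w i := hψ
  have hψ0 : ψ ≠ 0 := by
    intro h0
    apply hm0
    rw [hψ' i₀, h0, zero_mul]
  have hdeg : ψ.natDegree = 0 := by
    have h1 := hmd j₁
    rw [hψ' j₁, Polynomial.natDegree_mul hψ0 hv0] at h1
    have h2 : (N + 1) * e ≤ (grd p f x w j₁).natDegree := Polynomial.le_natDegree_of_ne_zero hvt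
    omega
  have hC := Polynomial.eq_C_of_natDegree_eq_zero hdeg
  refine ⟨ψ.coeff 0, ?_, ?_⟩
  · intro h0
    apply hψ0
    rw [hC, h0, Polynomial.C_0]
  · intro i
    rw [hψ' i, ← hC]

end Pool.Agent.HSI
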