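import Pool.Agent.HSI.Tools

/-! Roots in the value group; homogeneity of `scF`. -/

open MvPolynomial

universe u

namespace Pool.Agent.HSI

theorem roots {k : Type u} [Field k] [IsAlgClosed k] {L : Type u} [Field L] [Algebra k L]
    (V : ValuationSubring L)
    (hval : ∀ z : L, z ≠ 0 → ∃ a : k, a ≠ 0 ∧ V.valuation z = V.valuation (algebraMap k L a))
    (g : V.ValueGroup) (m : ℕ) (hm : 0 < m) : ∃ s : V.ValueGroup, s ^ m = g := by
  obtain ⟨z, rfl⟩ := V.valuation_surjective g
  rcases eq_or_ne z 0 with rfl | hz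
  · exact ⟨0, by rw [map_zero, zero_pow hm.ne']⟩
  · obtain ⟨a, ha, h1⟩ := hval z hz
    obtain ⟨b, hb⟩ := IsAlgClosed.exists_pow_nat_eq a hm
    refine ⟨V.valuation (algebraMap k L b), ?_⟩
    rw [h1, ← map_pow, ← map_pow, hb]

theorem exists_scalar {L : Type u} [Field L] (V : ValuationSubring L) (γ : V.ValueGroup)
    (hγ : γ ≠ 0) : ∃ c : L, c ≠ 0 ∧ V.valuation c = γ := by
  obtain ⟨z, rfl⟩ := V.valuation_surjective γ
  refine ⟨z, ?_, rfl⟩
  rintro rfl
  exact hγ (map_zero _)

theorem scF_hom (p : ℕ) {k : Type*} [Field k] {N : ℕ} {F : MvPolynomial (Fin (N + 3)) k}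
    (hF : F.IsHomogeneous (N + 2)) : (scF p F).IsHomogeneous (N + 2) := by
  unfold scF
  have h1 : (aeval (fun i => if i = Fin.last (N + 2) then C (p : k) * X i else X i) F :
      MvPolynomial (Fin (N + 3)) k).IsHomogeneous (1 * (N + 2)) := by
    refine MvPolynomial.IsHomogeneous.aeval hF _ ?_
    intro i
    split_ifs
    · simpa using (isHomogeneous_C (Fin (N + 3)) (p : k)).mul (isHomogeneous_X k i)
    · exact isHomogeneous_X k i
  have h2 := (isHomogeneous_C (Fin (N + 3)) (((p : k) ^ p)⁻¹)).mul h1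
  simpa using h2

theorem aeval_scF (p : ℕ) {k A : Type*} [Field k] [CommRing A] [Algebra k A] {N : ℕ}
    (F : MvPolynomial (Fin (N + 3)) k) (y : Fin (N + 3) → A) :
    aeval y (scF p F) = algebraMap k A (((p : k) ^ p)⁻¹) *
      aeval (fun i => if i = Fin.last (N + 2) then (p : A) * y i else y i) F := by
  unfold scF
  rw [map_mul, ← AlgHom.comp_apply, comp_aeval, aeval_C]
  congr 2
  refine MvPolynomial.algHom_ext fun i => ?_
  rw [aeval_X, aeval_X]
  split_ifs
  · rw [map_mul, aeval_C, aeval_X, map_natCast]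
  · rw [aeval_X]

end Pool.Agent.HSI
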