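import Pool.Agent.HSI.BRe
import Pool.Agent.HSI.BRt
import Pool.Agent.HSI.AChn
import Pool.Agent.HSI.AOrt

/-!
# The curve of an edge of the Newton polygon

Rescale the curve `Y` so that its coefficients lie in the valuation ring, reduce, and divide by
the power of the variable which divides the reduction.
-/

open MvPolynomial

universe u

namespace Pool.Agent.HSI

theorem spec_hom {p : ℕ} {k₀ : Type*} [CommRing k₀] {N : ℕ} (hpN : p ≤ N + 2)
    {f : MvPolynomial (Fin (N + 2)) k₀} (hf : f.IsHomogeneous (N + 2)) :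
    (spec p f).IsHomogeneous (N + 2) := by
  unfold spec
  refine IsHomogeneous.add ?_ hf.rename_isHomogeneous
  have h := ((isHomogeneous_X k₀ (0 : Fin (N + 3))).pow (N + 2 - p)).mul
    ((isHomogeneous_X k₀ (Fin.last (N + 2))).pow p)
  have h2 : 1 * (N + 2 - p) + 1 * p = N + 2 := by omega
  rwa [h2] at h

private theorem bed_lift {L : Type*} [Field L] (V : ValuationSubring L) (P : Polynomial L)
    (h : ∀ l, P.coeff l ∈ V) : ∃ Q : Polynomial V, Q.map V.subtype = P := by
  refine ⟨∑ l ∈ P.support, Polynomial.monomial l (⟨P.coeff l, h l⟩ : V), ?_⟩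
  rw [Polynomial.map_sum]
  conv_rhs => rw [P.as_sum_support]
  refine Finset.sum_congr rfl fun l _ => ?_
  rw [Polynomial.map_monomial]
  rfl

private theorem bed_shift {R : Type*} [Semiring R] (P : Polynomial R) (s : ℕ) :
    ∃ Q : Polynomial R, ∀ l, Q.coeff l = P.coeff (s + l) := by
  induction s with
  | zero => exact ⟨P, fun l => by rw [zero_add]⟩
  | succ s ih =>
    obtain ⟨Q, hQ⟩ := ih
    refine ⟨Q.divX, fun l => ?_⟩
    rw [Polynomial.coeff_divX, hQ]
    congr 1
    omega

private theorem bed_mul {R : Type*} [Semiring R] {P Q : Polynomial R} (s : ℕ)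
    (hQ : ∀ l, Q.coeff l = P.coeff (s + l)) (h0 : ∀ l < s, P.coeff l = 0) :
    P = Polynomial.X ^ s * Q := by
  ext l
  rw [Polynomial.coeff_X_pow_mul']
  split_ifs with h
  · rw [hQ]
    congr 1
    omega
  · exact h0 l (by omega)

private theorem bed_comp {k L σ : Type*} [Field k] [Field L] [Algebra k L]
    (G : MvPolynomial σ k) (Y : σ → Polynomial L) (q : Polynomial L) :
    aeval (fun j => (Y j).comp q) G = (aeval Y G).comp q := by
  let φ : Polynomial L →ₐ[k] Polynomial L :=
    { Polynomial.compRingHom q with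
      commutes' := fun r => by
        show (algebraMap k (Polynomial L) r).comp q = algebraMap k (Polynomial L) r
        rw [Polynomial.algebraMap_apply, Polynomial.C_comp] }
  have h := comp_aeval_apply Y φ G
  exact h.symm

theorem edge {k : Type u} [Field k] {N p : ℕ} (hpN : p ≤ N + 2)
    {F : MvPolynomial (Fin (N + 3)) k} (hF : F.IsHomogeneous (N + 2)) {L : Type u} [Field L]
    [Algebra k L] (M : Model p F L) (Y : Fin (N + 3) → Polynomial L)
    (hY : aeval Y (scF p F) = 0) (s t : ℕ) (hst : s ≤ t) (c₁ c : L) (hc : c ≠ 0)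
    (hle : ∀ i j, c₁ * c ^ i / c ^ t * (Y j).coeff i ∈ M.V)
    (hlt : ∀ i, i < s ∨ t < i → ∀ j, c₁ * c ^ i / c ^ t * (Y j).coeff i ∈ M.V.nonunits) :
    ∃ Q : Fin (N + 3) → Polynomial (IsLocalRing.ResidueField M.V), aeval Q (spec p M.f) = 0 ∧
      (∀ j, (Q j).natDegree ≤ t - s) ∧
      ∀ j i, (Q j).coeff i =
        IsLocalRing.residue M.V ⟨c₁ * c ^ (s + i) / c ^ t * (Y j).coeff (s + i), hle _ _⟩ := by
  have hZ : ∀ j i, (Polynomial.C (c₁ / c ^ t) *
      (Y j).comp (Polynomial.C c * Polynomial.X)).coeff i =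
        c₁ * c ^ i / c ^ t * (Y j).coeff i := by
    intro j i
    rw [Polynomial.coeff_C_mul, Polynomial.comp_C_mul_X_coeff]
    ring
  choose Z' hZ' using fun j => bed_lift M.V (Polynomial.C (c₁ / c ^ t) *
      (Y j).comp (Polynomial.C c * Polynomial.X)) (fun i => by rw [hZ]; exact hle i j)
  have hZ0 : aeval (fun j => (Z' j).map M.V.subtype : Fin (N + 3) → Polynomial L)
      (scF p F) = 0 := by
    have h1 : (fun j => (Z' j).map M.V.subtype) = fun j => Polynomial.C (c₁ / c ^ t) *
      (Y j).comp (Polynomial.C c * Polynomial.X) := funext hZ'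
    rw [h1, aeval_smul (scF_hom p hF), bed_comp, hY, Polynomial.zero_comp, mul_zero]
  have hred := reduce_eq M.V (scF p F) M.mem (spec p M.f) M.red Z' hZ0
  have hzc : ∀ j i, ((Z' j).map (IsLocalRing.residue M.V)).coeff i =
      IsLocalRing.residue M.V ⟨c₁ * c ^ i / c ^ t * (Y j).coeff i, hle i j⟩ := by
    intro j i
    rw [Polynomial.coeff_map]
    congr 1
    apply Subtype.ext
    show (((Z' j).coeff i : M.V) : L) = c₁ * c ^ i / c ^ t * (Y j).coeff i
    rw [← hZ j i, ← hZ' j, Polynomial.coeff_map]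
    rfl
  have hz0 : ∀ j i, i < s ∨ t < i → ((Z' j).map (IsLocalRing.residue M.V)).coeff i = 0 := by
    intro j i hi
    rw [hzc, IsLocalRing.residue_eq_zero_iff, ← ValuationSubring.coe_mem_nonunits_iff]
    exact hlt i hi j
  choose Q hQ using fun j => bed_shift ((Z' j).map (IsLocalRing.residue M.V)) s
  refine ⟨Q, ?_, ?_, ?_⟩
  · have h1 : (fun j => (Z' j).map (IsLocalRing.residue M.V)) =
        fun j => Polynomial.X ^ s * Q j :=
      funext fun j => bed_mul s (hQ j) fun l hl => hz0 j l (Or.inl hl)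
    rw [h1, aeval_smul (spec_hom hpN M.good.hom)] at hred
    exact (mul_eq_zero.1 hred).resolve_left
      (pow_ne_zero _ (pow_ne_zero _ Polynomial.X_ne_zero))
  · intro j
    rw [Polynomial.natDegree_le_iff_coeff_eq_zero]
    intro i hi
    rw [hQ]
    exact hz0 j _ (Or.inr (by omega))
  · intro j i
    rw [hQ, hzc]

end Pool.Agent.HSI
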