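import Pool.Agent.HSI.AChn

/-!
# Moebius transformations of curves

`revs b e P = s^e P(1 / s)` at `s = b + X`.
-/

open MvPolynomial

namespace Pool.Agent.HSI

/-- `(b + X)^e P(1 / (b + X))` for a polynomial `P` of degree `≤ e` -/
noncomputable def revs {L : Type*} [Field L] (b : L) (e : ℕ) (P : Polynomial L) : Polynomial L :=
  ∑ l ∈ Finset.range (e + 1),
    Polynomial.C (P.coeff l) * (Polynomial.C b + Polynomial.X) ^ (e - l)

private theorem revs_lin {L : Type*} [Field L] (b : L) :
    (Polynomial.C b + Polynomial.X : Polynomial L).natDegree ≤ 1 :=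
  (Polynomial.natDegree_add_le _ _).trans
    (max_le (by rw [Polynomial.natDegree_C]; exact Nat.zero_le 1) Polynomial.natDegree_X_le)

theorem revs_natDegree_le {L : Type*} [Field L] (b : L) (e : ℕ) (P : Polynomial L) :
    (revs b e P).natDegree ≤ e := by
  unfold revs
  refine Polynomial.natDegree_sum_le_of_forall_le _ _ fun l _ => ?_
  refine (Polynomial.natDegree_C_mul_le _ _).trans ?_
  have h := Polynomial.natDegree_pow_le_of_le (e - l) (revs_lin b)
  omega

theorem revs_coeff {L : Type*} [Field L] (b : L) (e : ℕ) (P : Polynomial L) :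
    (revs b e P).coeff e = P.coeff 0 := by
  unfold revs
  rw [Polynomial.finsetSum_coeff, Finset.sum_eq_single 0]
  · rw [Polynomial.coeff_C_mul, Nat.sub_zero, add_comm, Polynomial.coeff_X_add_C_pow, Nat.sub_self,
      pow_zero, one_mul, Nat.choose_self, Nat.cast_one, mul_one]
  · intro l hl h0
    have hl' : l ≤ e := Nat.lt_succ_iff.1 (Finset.mem_range.1 hl)
    have h := Polynomial.natDegree_pow_le_of_le (e - l) (revs_lin b)
    have h1 : ((Polynomial.C b + Polynomial.X) ^ (e - l)).coeff e = 0 :=
      Polynomial.coeff_eq_zero_of_natDegree_lt (by omega)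
    rw [Polynomial.coeff_C_mul, h1, mul_zero]
  · intro h
    exact absurd (Finset.mem_range.2 (Nat.succ_pos e)) h

private theorem revs_ev {L : Type*} [Field L] (b : L) (e : ℕ) (P : Polynomial L) (s : L) :
    (revs b e P).eval s = ∑ l ∈ Finset.range (e + 1), P.coeff l * (b + s) ^ (e - l) := by
  unfold revs
  rw [Polynomial.eval_finsetSum]
  refine Finset.sum_congr rfl fun l _ => ?_
  rw [Polynomial.eval_mul, Polynomial.eval_C, Polynomial.eval_pow, Polynomial.eval_add,
    Polynomial.eval_C, Polynomial.eval_X]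

theorem revs_zero {L : Type*} [Field L] (e : ℕ) (P : Polynomial L) :
    (revs 0 e P).coeff 0 = P.coeff e := by
  rw [Polynomial.coeff_zero_eq_eval_zero, revs_ev, Finset.sum_eq_single e]
  · rw [Nat.sub_self, pow_zero, mul_one]
  · intro l hl hle
    have hl' : l ≤ e := Nat.lt_succ_iff.1 (Finset.mem_range.1 hl)
    have h1 : e - l ≠ 0 := by omega
    rw [add_zero, zero_pow h1, mul_zero]
  · intro h
    exact absurd (Finset.mem_range.2 (Nat.lt_succ_self e)) h

theorem revs_one {L : Type*} [Field L] (e : ℕ) (P : Polynomial L) (hP : P.natDegree ≤ e) :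
    (revs 1 e P).coeff 0 = P.eval 1 := by
  rw [Polynomial.coeff_zero_eq_eval_zero, revs_ev,
    Polynomial.eval_eq_sum_range' (Nat.lt_succ_iff.2 hP)]
  refine Finset.sum_congr rfl fun l _ => ?_
  rw [add_zero, one_pow, one_pow]

private theorem revs_eval {L : Type*} [Field L] (b : L) (e : ℕ) (P : Polynomial L)
    (hP : P.natDegree ≤ e) (s : L) (hs : b + s ≠ 0) :
    (revs b e P).eval s = (b + s) ^ e * P.eval (b + s)⁻¹ := by
  rw [revs_ev, Polynomial.eval_eq_sum_range' (Nat.lt_succ_iff.2 hP), Finset.mul_sum]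
  refine Finset.sum_congr rfl fun l hl => ?_
  have hl' : l ≤ e := Nat.lt_succ_iff.1 (Finset.mem_range.1 hl)
  have h1 : (b + s) ^ e = (b + s) ^ (e - l) * (b + s) ^ l := by
    rw [← pow_add, Nat.sub_add_cancel hl']
  have h2 : (b + s) ^ l ≠ 0 := pow_ne_zero _ hs
  rw [h1, inv_pow]
  field_simp

private theorem revs_aev {k L σ : Type*} [Field k] [Field L] [Algebra k L]
    (G : MvPolynomial σ k) (Y : σ → Polynomial L) (s : L) :
    (aeval Y G : Polynomial L).eval s = aeval (fun i => (Y i).eval s) G :=
  comp_aeval_apply Y ((Polynomial.aeval s : Polynomial L →ₐ[L] L).restrictScalars k) G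

theorem revs_curve {k L σ : Type*} [Field k] [Field L] [Algebra k L] [Infinite L] [Fintype σ]
    {d : ℕ} {G : MvPolynomial σ k} (hG : G.IsHomogeneous d) (Y : σ → Polynomial L)
    (hY : aeval Y G = 0) (e : ℕ) (he : ∀ i, (Y i).natDegree ≤ e) (b : L) :
    aeval (fun i => revs b e (Y i)) G = 0 := by
  refine Polynomial.eq_zero_of_infinite_isRoot _ ?_
  refine Set.Infinite.mono ?_ (Set.finite_singleton (-b)).infinite_compl
  intro s hs
  have hs' : b + s ≠ 0 := by
    intro h0
    apply hs
    rw [Set.mem_singleton_iff]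
    linear_combination h0
  show Polynomial.eval s _ = 0
  rw [revs_aev]
  have h1 : (fun i => (revs b e (Y i)).eval s) =
      fun i => (b + s) ^ e * (Y i).eval (b + s)⁻¹ := by
    funext i
    exact revs_eval b e (Y i) (he i) s hs'
  rw [h1, aeval_smul hG, ← revs_aev, hY, Polynomial.eval_zero, mul_zero]

end Pool.Agent.HSI
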