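import Mathlib

/-!
# One step along the Newton polygon
-/

namespace Pool.Agent.HSI

theorem newton_step {Γ₀ : Type*} [LinearOrderedCommGroupWithZero Γ₀]
    (hroot : ∀ (g : Γ₀) (m : ℕ), 0 < m → ∃ s : Γ₀, s ^ m = g) (α : ℕ → Γ₀) (t : ℕ) (ht : 0 < t)
    (γ : Γ₀) (hγ : γ ≠ 0) (hαt : α t ≠ 0) (hα0 : α 0 ≠ 0)
    (hlt : ∀ i, i < t → α i * γ ^ i < α t * γ ^ t)
    (hgt : ∀ i, t < i → α i * γ ^ i ≤ α t * γ ^ t) :
    ∃ (γ' : Γ₀) (s : ℕ), γ' ≠ 0 ∧ s < t ∧ α s ≠ 0 ∧ α s * γ' ^ s = α t * γ' ^ t ∧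
      (∀ i, i < s → α i * γ' ^ i < α t * γ' ^ t) ∧ (∀ i, α i * γ' ^ i ≤ α t * γ' ^ t) ∧
      ∀ i, t < i → α i * γ' ^ i < α t * γ' ^ t := by
  classical
  have hg' : ∀ i, ∃ g : Γ₀, i < t → α t * g ^ (t - i) = α i := by
    intro i
    by_cases hi : i < t
    · obtain ⟨g, hg⟩ := hroot (α i / α t) (t - i) (by omega)
      exact ⟨g, fun _ => by rw [hg, mul_div_cancel₀ _ hαt]⟩
    · exact ⟨1, fun h => absurd h hi⟩
  choose g hg using hg'
  have hpos : ∀ a : Γ₀, a ≠ 0 → 0 < a := fun a ha => zero_lt_iff.2 ha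
  have hsplit : ∀ (c : Γ₀) (i : ℕ), i < t → α t * c ^ t = α t * c ^ (t - i) * c ^ i := by
    intro c i hi
    rw [mul_assoc, ← pow_add, Nat.sub_add_cancel hi.le]
  have hgγ : ∀ i, i < t → g i < γ := by
    intro i hi
    have h1 := hlt i hi
    rw [hsplit γ i hi, ← hg i hi] at h1
    have h2 : α t * g i ^ (t - i) < α t * γ ^ (t - i) := lt_of_mul_lt_mul_right h1 zero_le'
    have h3 : g i ^ (t - i) < γ ^ (t - i) := lt_of_mul_lt_mul_left h2 zero_le'
    exact lt_of_pow_lt_pow_left₀ _ zero_le' h3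
  obtain ⟨m, hmS, hmax⟩ := (Finset.range t).exists_max_image g ⟨0, Finset.mem_range.2 ht⟩
  have hmt : m < t := Finset.mem_range.1 hmS
  have hg0 : g 0 ≠ 0 := by
    intro h0
    have h1 := hg 0 ht
    rw [h0, zero_pow (by omega), mul_zero] at h1
    exact hα0 h1.symm
  have hm0 : g m ≠ 0 := by
    have h1 := hmax 0 (Finset.mem_range.2 ht)
    exact (lt_of_lt_of_le (hpos _ hg0) h1).ne'
  have hle : ∀ i, i < t → α i * g m ^ i ≤ α t * g m ^ t := by
    intro i hi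
    rw [hsplit _ i hi]
    refine mul_le_mul_left ?_ _
    rw [← hg i hi]
    refine mul_le_mul_right ?_ _
    exact pow_le_pow_left₀ zero_le' (hmax i (Finset.mem_range.2 hi)) _
  have heq : α m * g m ^ m = α t * g m ^ t := by
    rw [hsplit _ m hmt, hg m hmt]
  have hrhs : α t * g m ^ t ≠ 0 := mul_ne_zero hαt (pow_ne_zero _ hm0)
  have hgt' : ∀ i, t < i → α i * g m ^ i < α t * g m ^ t := by
    intro i hi
    by_cases h0 : α i = 0
    · rw [h0, zero_mul]
      exact hpos _ hrhs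
    · have hs2 : ∀ c : Γ₀, α i * c ^ i = α i * c ^ (i - t) * c ^ t := by
        intro c
        rw [mul_assoc, ← pow_add, Nat.sub_add_cancel hi.le]
      have h1 := hgt i hi
      rw [hs2 γ] at h1
      have h2 : α i * γ ^ (i - t) ≤ α t := le_of_mul_le_mul_right h1 (hpos _ (pow_ne_zero _ hγ))
      have h3 : g m ^ (i - t) < γ ^ (i - t) := pow_lt_pow_left₀ (hgγ m hmt) zero_le' (by omega)
      have h4 : α i * g m ^ (i - t) < α i * γ ^ (i - t) := mul_lt_mul_of_pos_left h3 (hpos _ h0)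
      rw [hs2 (g m)]
      exact mul_lt_mul_of_pos_right (h4.trans_le h2) (hpos _ (pow_ne_zero _ hm0))
  have hex : ∃ s, s < t ∧ α s * g m ^ s = α t * g m ^ t := ⟨m, hmt, heq⟩
  refine ⟨g m, Nat.find hex, hm0, (Nat.find_spec hex).1, ?_, (Nat.find_spec hex).2, ?_, ?_, hgt'⟩
  · intro h0
    have h1 := (Nat.find_spec hex).2
    rw [h0, zero_mul] at h1
    exact hrhs h1.symm
  · intro i hi
    have hit : i < t := hi.trans (Nat.find_spec hex).1
    refine lt_of_le_of_ne (hle i hit) fun h => Nat.find_min hex hi ⟨hit, h⟩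
  · intro i
    rcases lt_trichotomy i t with h | h | h
    · exact hle i h
    · rw [h]
    · exact (hgt' i h).le

end Pool.Agent.HSI
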