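import Pool.Agent.HSI.Tools

/-!
# Reduction of an equation

Lift the coefficients to the valuation ring, evaluate there and reduce.
-/

open MvPolynomial

universe u

namespace Pool.Agent.HSI

private theorem bre_gen {k κ A B T σ : Type*} [CommRing k] [CommRing κ] [CommRing A] [CommRing B]
    [CommRing T] [Algebra k B] [Algebra κ T] [Fintype σ] (G : MvPolynomial σ k)
    (Gb : MvPolynomial σ κ) (c : (σ →₀ ℕ) → A) (ψ : A →+* B) (hψ : Function.Injective ψ)
    (τ : A →+* T) (hc : ∀ m, ψ (c m) = algebraMap k B (coeff m G))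
    (hb : ∀ m, τ (c m) = algebraMap κ T (coeff m Gb)) (hs : Gb.support ⊆ G.support)
    (Q : σ → A) (hQ : aeval (fun i => ψ (Q i)) G = 0) : aeval (fun i => τ (Q i)) Gb = 0 := by
  have h1 : ψ (∑ m ∈ G.support, c m * ∏ i, Q i ^ m i) = 0 := by
    rw [aeval_def, eval₂_eq'] at hQ
    rw [map_sum, ← hQ]
    refine Finset.sum_congr rfl fun m _ => ?_
    rw [map_mul, hc, map_prod]
    congr 1
    exact Finset.prod_congr rfl fun i _ => map_pow _ _ _
  have h2 : ∑ m ∈ G.support, c m * ∏ i, Q i ^ m i = 0 := hψ (by rw [h1, map_zero])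
  have h3 := congrArg τ h2
  rw [map_zero, map_sum] at h3
  rw [aeval_def, eval₂_eq', ← h3]
  have h4 : ∑ m ∈ Gb.support, algebraMap κ T (coeff m Gb) * ∏ i, τ (Q i) ^ m i =
      ∑ m ∈ G.support, algebraMap κ T (coeff m Gb) * ∏ i, τ (Q i) ^ m i := by
    refine Finset.sum_subset hs fun m _ hm => ?_
    rw [notMem_support_iff.1 hm, map_zero, zero_mul]
  rw [h4]
  refine Finset.sum_congr rfl fun m _ => ?_
  rw [map_mul, hb, map_prod]
  congr 1
  exact (Finset.prod_congr rfl fun i _ => map_pow _ _ _).symm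

private theorem bre_supp {k L : Type u} [Field k] [Field L] [Algebra k L] {σ : Type*}
    (V : ValuationSubring L) (G : MvPolynomial σ k) (hG : ∀ m, algebraMap k L (coeff m G) ∈ V)
    (Gb : MvPolynomial σ (K0 k V))
    (hred : ∀ m, IsLocalRing.residue V ⟨algebraMap k L (coeff m G), hG m⟩ =
      algebraMap (K0 k V) (IsLocalRing.ResidueField V) (coeff m Gb)) :
    Gb.support ⊆ G.support := by
  intro m hm
  rw [mem_support_iff] at hm ⊢
  intro h0
  apply hm
  have h1 : (⟨algebraMap k L (coeff m G), hG m⟩ : V) = 0 := Subtype.ext (by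
    show algebraMap k L (coeff m G) = 0
    rw [h0, map_zero])
  have h2 := hred m
  rw [h1, map_zero] at h2
  exact (algebraMap (K0 k V) (IsLocalRing.ResidueField V)).injective (by rw [← h2, map_zero])

theorem reduce_eq {k L : Type u} [Field k] [Field L] [Algebra k L] {σ : Type*} [Fintype σ]
    (V : ValuationSubring L) (G : MvPolynomial σ k) (hG : ∀ m, algebraMap k L (coeff m G) ∈ V)
    (Gb : MvPolynomial σ (K0 k V))
    (hred : ∀ m, IsLocalRing.residue V ⟨algebraMap k L (coeff m G), hG m⟩ =
      algebraMap (K0 k V) (IsLocalRing.ResidueField V) (coeff m Gb))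
    (Q : σ → Polynomial V)
    (hQ : aeval (fun i => (Q i).map V.subtype : σ → Polynomial L) G = 0) :
    aeval (fun i => (Q i).map (IsLocalRing.residue V)) Gb = 0 := by
  refine bre_gen G Gb (fun m => Polynomial.C ⟨algebraMap k L (coeff m G), hG m⟩)
    (Polynomial.mapRingHom V.subtype) ?_ (Polynomial.mapRingHom (IsLocalRing.residue V)) ?_ ?_
    (bre_supp V G hG Gb hred) Q hQ
  · exact Polynomial.map_injective V.subtype Subtype.coe_injective
  · intro m
    rw [Polynomial.coe_mapRingHom, Polynomial.map_C, Polynomial.algebraMap_apply]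
    rfl
  · intro m
    rw [Polynomial.coe_mapRingHom, Polynomial.map_C, Polynomial.algebraMap_apply, hred]

theorem reduce_pt {k L : Type u} [Field k] [Field L] [Algebra k L] {σ : Type*} [Fintype σ]
    (V : ValuationSubring L) (G : MvPolynomial σ k) (hG : ∀ m, algebraMap k L (coeff m G) ∈ V)
    (Gb : MvPolynomial σ (K0 k V))
    (hred : ∀ m, IsLocalRing.residue V ⟨algebraMap k L (coeff m G), hG m⟩ =
      algebraMap (K0 k V) (IsLocalRing.ResidueField V) (coeff m Gb))
    (z : σ → V) (hz : aeval (fun i => ((z i : V) : L)) G = 0) :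
    aeval (fun i => IsLocalRing.residue V (z i)) Gb = 0 := by
  exact bre_gen G Gb (fun m => ⟨algebraMap k L (coeff m G), hG m⟩)
    V.subtype Subtype.coe_injective (IsLocalRing.residue V) (fun _ => rfl) hred
    (bre_supp V G hG Gb hred) z hz

end Pool.Agent.HSI
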