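import Pool.Agent.HSI.ACor
import Pool.Agent.HSI.BNw
import Pool.Agent.HSI.BEd

/-!
# Transport of `ND` along the Newton polygon

`transport`: descending along the edges of the Newton polygon of the coefficients; every edge gives a curve on the
special fibre, and `core` transports `ND` from its end to its beginning.
-/

open MvPolynomial

universe u

namespace Pool.Agent.HSI

private theorem bt_le {Γ₀ : Type*} [LinearOrderedCommGroupWithZero Γ₀] {a gi gt y αi αt : Γ₀} (h1 : y ≤ αi)
    (h2 : αi * gi ≤ αt * gt) (h3 : a * αt = 1) (hgt : gt ≠ 0) : a * gi / gt * y ≤ 1 := by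
  have h4 : a * gi / gt * y = a * (y * gi) / gt := by
    rw [div_mul_eq_mul_div, mul_assoc, mul_comm gi y]
  rw [h4, div_le_iff₀ (zero_lt_iff.2 hgt), one_mul]
  calc a * (y * gi) ≤ a * (αi * gi) := by gcongr
    _ ≤ a * (αt * gt) := by gcongr
    _ = gt := by rw [← mul_assoc, h3, one_mul]

private theorem bt_lt {Γ₀ : Type*} [LinearOrderedCommGroupWithZero Γ₀] {a gi gt y αi αt : Γ₀} (h1 : y ≤ αi)
    (h2 : αi * gi < αt * gt) (h3 : a * αt = 1) (hgt : gt ≠ 0) : a * gi / gt * y < 1 := by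
  have h4 : a * gi / gt * y = a * (y * gi) / gt := by
    rw [div_mul_eq_mul_div, mul_assoc, mul_comm gi y]
  have ha : a ≠ 0 := by
    rintro rfl
    rw [zero_mul] at h3
    exact zero_ne_one h3
  rw [h4, div_lt_iff₀ (zero_lt_iff.2 hgt), one_mul]
  calc a * (y * gi) ≤ a * (αi * gi) := by gcongr
    _ < a * (αt * gt) := mul_lt_mul_of_pos_left h2 (zero_lt_iff.2 ha)
    _ = gt := by rw [← mul_assoc, h3, one_mul]

private theorem bt_eq {Γ₀ : Type*} [LinearOrderedCommGroupWithZero Γ₀] {a gs gt αs αt : Γ₀}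
    (h2 : αs * gs = αt * gt) (h3 : a * αt = 1) (hgt : gt ≠ 0) : a * gs / gt * αs = 1 := by
  rw [div_mul_eq_mul_div, mul_assoc, mul_comm gs αs, h2, ← mul_assoc, h3, one_mul, div_self hgt]

private theorem bt_bound {Γ₀ : Type*} [LinearOrderedCommGroupWithZero Γ₀] (β : ℕ → Γ₀) (e : ℕ) :
    ∃ B : Γ₀, 1 ≤ B ∧ ∀ i, i < e → β i ≤ B := by
  induction e with
  | zero => exact ⟨1, le_refl _, fun i hi => absurd hi (Nat.not_lt_zero _)⟩
  | succ e ih =>
    obtain ⟨B, h1, h2⟩ := ih
    refine ⟨max B (β e), h1.trans (le_max_left _ _), fun i hi => ?_⟩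
    rcases Nat.lt_succ_iff_lt_or_eq.1 hi with h | rfl
    · exact (h2 i h).trans (le_max_left _ _)
    · exact le_max_right _ _

private theorem bt_start {Γ₀ : Type*} [LinearOrderedCommGroupWithZero Γ₀] (α : ℕ → Γ₀) (e : ℕ) (hα : α e ≠ 0)
    (π : Γ₀) (hπ : 1 < π) : ∃ γ : Γ₀, γ ≠ 0 ∧ ∀ i, i < e → α i * γ ^ i < α e * γ ^ e := by
  obtain ⟨B, h1, h2⟩ := bt_bound (fun i => α i / α e) e
  have hB : B < π * B := by
    have h3 : 0 < B := lt_of_lt_of_le zero_lt_one h1
    calc B = 1 * B := (one_mul B).symm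
      _ < π * B := mul_lt_mul_of_pos_right hπ h3
  have hγ1 : 1 ≤ π * B := h1.trans hB.le
  have hγ0 : π * B ≠ 0 := (lt_of_lt_of_le zero_lt_one hγ1).ne'
  refine ⟨π * B, hγ0, fun i hi => ?_⟩
  have h3 : α i / α e < (π * B) ^ (e - i) := by
    calc α i / α e ≤ B := h2 i hi
      _ < π * B := hB
      _ ≤ (π * B) ^ (e - i) := le_self_pow₀ hγ1 (by omega)
  rw [div_lt_iff₀ (zero_lt_iff.2 hα)] at h3
  have h4 : α e * (π * B) ^ e = (π * B) ^ (e - i) * α e * (π * B) ^ i := by
    rw [mul_comm ((π * B) ^ (e - i)), mul_assoc, ← pow_add, Nat.sub_add_cancel hi.le]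
  rw [h4]
  exact mul_lt_mul_of_pos_right h3 (zero_lt_iff.2 (pow_ne_zero _ hγ0))

private theorem bt_res {L : Type u} [Field L] (V : ValuationSubring L) (x : L) (hx : x ∈ V) :
    IsLocalRing.residue V ⟨x, hx⟩ ≠ 0 ↔ V.valuation x = 1 := by
  have h1 : IsLocalRing.residue V ⟨x, hx⟩ = 0 ↔ V.valuation x < 1 := by
    rw [IsLocalRing.residue_eq_zero_iff]
    exact V.valuation_lt_one_iff ⟨x, hx⟩
  rw [Ne, h1, not_lt]
  have h2 := (V.valuation_le_one_iff x).2 hx
  exact ⟨fun h => le_antisymm h2 h, fun h => h.ge⟩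

private theorem bt_lead {k : Type u} [Field k] {L : Type u} [Field L] [Algebra k L] {N : ℕ} (V : ValuationSubring L)
    (D : Fin N → Derivation (K0 k V) (IsLocalRing.ResidueField V) (IsLocalRing.ResidueField V))
    (ξ : Fin (N + 3) → L) (J : Fin (N + 3)) (hJ : ∀ j, V.valuation (ξ j) ≤ V.valuation (ξ J)) (c : L)
    (h : ∀ i, c * ξ i ∈ V)
    (hND : ND D fun i : Fin (N + 2) => IsLocalRing.residue V ⟨c * ξ i.castSucc, h i.castSucc⟩) :
    V.valuation c * V.valuation (ξ J) = 1 := by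
  obtain ⟨j, hj⟩ : ∃ j : Fin (N + 2), IsLocalRing.residue V ⟨c * ξ j.castSucc, h j.castSucc⟩ ≠ 0 := by
    by_contra hcon
    push Not at hcon
    have h1 : (fun i : Fin (N + 2) => IsLocalRing.residue V ⟨c * ξ i.castSucc, h i.castSucc⟩) = fun _ => 0 :=
      funext hcon
    rw [h1] at hND
    obtain ⟨i, hi⟩ := hND
    exact hi (mnr_zero D i)
  rw [bt_res, map_mul] at hj
  apply le_antisymm
  · rw [← map_mul]
    exact (V.valuation_le_one_iff _).2 (h J)
  · rw [← hj]
    exact mul_le_mul_right (hJ j.castSucc) _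

theorem transport {k : Type u} [Field k] [IsAlgClosed k] [CharZero k] {N p : ℕ} (hN : 2 ≤ N)
    (hp : p.Prime) (hpN : p ≤ N + 2) {F : MvPolynomial (Fin (N + 3)) k}
    (hF : F.IsHomogeneous (N + 2)) {L : Type u} [Field L] [Algebra k L] (M : Model p F L)
    (Y : Fin (N + 3) → Polynomial L) (hY : aeval Y (scF p F) = 0) (e : ℕ)
    (he : ∀ j, (Y j).natDegree ≤ e) (hlead : NDred M.V M.D fun j => (Y j).coeff e)
    (h0 : ∃ j, (Y j).coeff 0 ≠ 0) : NDred M.V M.D fun j => (Y j).coeff 0 := by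
  have hJ0 : ∀ i, ∃ J : Fin (N + 3), ∀ j, M.V.valuation ((Y j).coeff i) ≤ M.V.valuation ((Y J).coeff i) :=
    fun i => Finite.exists_max fun j => M.V.valuation ((Y j).coeff i)
  choose J hJ using hJ0
  obtain ⟨α, hα⟩ : ∃ α : ℕ → M.V.ValueGroup, ∀ i, α i = M.V.valuation ((Y (J i)).coeff i) := ⟨_, fun _ => rfl⟩
  have hJα : ∀ i j, M.V.valuation ((Y j).coeff i) ≤ α i := by
    intro i j
    rw [hα]
    exact hJ i j
  have hα0 : α 0 ≠ 0 := by
    obtain ⟨j, hj⟩ := h0
    have h1 : M.V.valuation ((Y j).coeff 0) ≠ 0 := (Valuation.ne_zero_iff _).2 hj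
    exact (lt_of_lt_of_le (zero_lt_iff.2 h1) (hJα 0 j)).ne'
  have hpκ : ((p : ℕ) : IsLocalRing.ResidueField M.V) = 0 := by
    have h1 : IsLocalRing.residue M.V ((p : ℕ) : M.V) = ((p : ℕ) : IsLocalRing.ResidueField M.V) := map_natCast _ _
    rw [← h1, IsLocalRing.residue_eq_zero_iff, ValuationSubring.valuation_lt_one_iff]
    have h2 := M.char
    rw [ValuationSubring.mem_nonunits_iff] at h2
    exact h2
  have key : ∀ t : ℕ, ∀ γ : M.V.ValueGroup, γ ≠ 0 → (∀ i, i < t → α i * γ ^ i < α t * γ ^ t) →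
      (∀ i, t < i → α i * γ ^ i ≤ α t * γ ^ t) → NDred M.V M.D (fun j => (Y j).coeff t) →
      NDred M.V M.D (fun j => (Y j).coeff 0) := by
    intro t
    induction t using Nat.strong_induction_on with
    | _ t ih =>
      intro γ hγ hlt hgt hND
      rcases Nat.eq_zero_or_pos t with ht | ht
      · subst ht
        exact hND
      obtain ⟨c₁, hV, hc₁, hND1⟩ := hND
      have hc1 : M.V.valuation c₁ * α t = 1 := by
        rw [hα]
        exact bt_lead M.V M.D (fun j => (Y j).coeff t) (J t) (hJ t) c₁ hV hND1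
      have hαt : α t ≠ 0 := by
        intro h
        rw [h, mul_zero] at hc1
        exact zero_ne_one hc1
      obtain ⟨γ', s, hγ', hst, hαs, hseq, hs1, hs2, hs3⟩ := newton_step (roots M.V M.val) α t ht γ hγ hαt hα0 hlt hgt
      obtain ⟨c, hc, hcv⟩ := exists_scalar M.V γ' hγ'
      have hγt : γ' ^ t ≠ 0 := pow_ne_zero _ hγ'
      have hval : ∀ i (y : L), M.V.valuation (c₁ * c ^ i / c ^ t * y) =
          M.V.valuation c₁ * γ' ^ i / γ' ^ t * M.V.valuation y := by
        intro i y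
        rw [map_mul, map_div₀, map_mul, map_pow, map_pow, hcv]
      have hle : ∀ i j, c₁ * c ^ i / c ^ t * (Y j).coeff i ∈ M.V := by
        intro i j
        rw [← ValuationSubring.valuation_le_one_iff, hval]
        exact bt_le (hJα i j) (hs2 i) hc1 hγt
      have hlt' : ∀ i, i < s ∨ t < i → ∀ j, c₁ * c ^ i / c ^ t * (Y j).coeff i ∈ M.V.nonunits := by
        intro i hi j
        rw [ValuationSubring.mem_nonunits_iff, hval]
        rcases hi with hi | hi
        · exact bt_lt (hJα i j) (hs1 i hi) hc1 hγt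
        · exact bt_lt (hJα i j) (hs3 i hi) hc1 hγt
      obtain ⟨Q, hQ0, hQd, hQc⟩ := edge hpN hF M Y hY s t hst.le c₁ c hc hle hlt'
      have hQs : (Fin.snoc (α := fun _ => Polynomial (IsLocalRing.ResidueField M.V))
          (fun j : Fin (N + 2) => Q j.castSucc) (Q (Fin.last (N + 2)))) = Q := by
        funext j
        refine Fin.lastCases ?_ (fun j => ?_) j
        · rw [Fin.snoc_last]
        · rw [Fin.snoc_castSucc]
      have heq : (Q (Fin.castSucc 0)) ^ (N + 2 - p) * (Q (Fin.last (N + 2))) ^ p +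
          aeval (fun j : Fin (N + 2) => Q j.castSucc) M.f = 0 := by
        have h1 := aeval_spec_snoc p M.f (fun j : Fin (N + 2) => Q j.castSucc) (Q (Fin.last (N + 2)))
        rw [hQs, hQ0] at h1
        exact h1.symm
      have hcore := core hN hp.one_le hpN hpκ M.good M.D (fun j : Fin (N + 2) => Q j.castSucc) (Q (Fin.last (N + 2)))
        heq (t - s) (fun i => hQd i.castSucc) ?_ ?_
      · -- the point at `s`
        have hc' : c₁ * c ^ s / c ^ t ≠ 0 := div_ne_zero (mul_ne_zero hc₁ (pow_ne_zero _ hc)) (pow_ne_zero _ hc)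
        refine ih s hst γ' hγ' ?_ ?_ ⟨c₁ * c ^ s / c ^ t, fun j => hle s j, hc', ?_⟩
        · intro i hi
          rw [hseq]
          exact hs1 i hi
        · intro i _
          rw [hseq]
          exact hs2 i
        · have h1 : (fun i : Fin (N + 2) => (Q i.castSucc).coeff 0) = fun i : Fin (N + 2) =>
              IsLocalRing.residue M.V ⟨c₁ * c ^ s / c ^ t * (Y i.castSucc).coeff s, hle s i.castSucc⟩ := by
            funext i
            exact hQc i.castSucc 0
          rw [h1] at hcore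
          exact hcore
      · -- not all constant coefficients vanish
        have h1 : (Q (J s)).coeff 0 ≠ 0 := by
          rw [hQc]
          rw [bt_res, hval, Nat.add_zero, ← hα]
          exact bt_eq hseq hc1 hγt
        generalize J s = j at h1
        revert h1
        refine Fin.lastCases (fun h1 => Or.inr h1) (fun j h1 => Or.inl ⟨j, h1⟩) j
      · -- the leading coefficients
        have h1 : (fun i : Fin (N + 2) => (Q i.castSucc).coeff (t - s)) = fun i : Fin (N + 2) =>
            IsLocalRing.residue M.V ⟨c₁ * (Y i.castSucc).coeff t, hV i.castSucc⟩ := by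
          funext i
          rw [hQc]
          congr 1
          apply Subtype.ext
          show c₁ * c ^ (s + (t - s)) / c ^ t * (Y i.castSucc).coeff (s + (t - s)) = c₁ * (Y i.castSucc).coeff t
          rw [Nat.add_sub_cancel' hst.le, mul_div_assoc, div_self (pow_ne_zero _ hc), mul_one]
        rw [h1]
        exact hND1
  have hαe : α e ≠ 0 := by
    obtain ⟨c₁, hV, hc₁, hND1⟩ := hlead
    have hc1 : M.V.valuation c₁ * α e = 1 := by
      rw [hα]
      exact bt_lead M.V M.D (fun j => (Y j).coeff e) (J e) (hJ e) c₁ hV hND1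
    intro h
    rw [h, mul_zero] at hc1
    exact zero_ne_one hc1
  have hπ : 1 < (M.V.valuation ((p : ℕ) : L))⁻¹ := by
    have h1 := M.char
    rw [ValuationSubring.mem_nonunits_iff] at h1
    have h2 : ((p : ℕ) : L) ≠ 0 := by
      have h3 : CharZero L := charZero_of_injective_algebraMap (algebraMap k L).injective
      exact Nat.cast_ne_zero.2 hp.ne_zero
    have h3 : M.V.valuation ((p : ℕ) : L) ≠ 0 := (Valuation.ne_zero_iff _).2 h2
    exact (one_lt_inv₀ (zero_lt_iff.2 h3)).2 h1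
  obtain ⟨γ, hγ, hγ2⟩ := bt_start α e hαe _ hπ
  refine key e γ hγ hγ2 ?_ hlead
  intro i hi
  have h1 : α i = 0 := by
    rw [hα, Polynomial.coeff_eq_zero_of_natDegree_lt (lt_of_le_of_lt (he _) hi), map_zero]
  rw [h1, zero_mul]
  exact zero_le

end Pool.Agent.HSI
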