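import Pool.Agent.HSI.Tools

/-!
# The function field is algebraic over `k(x_2, …, x_(N+1), y)`

The coordinate `x_1` is a root of a polynomial of degree `N + 2` over this field.
-/

open MvPolynomial

universe u

namespace Pool.Agent.HSI

private theorem calg_coeff {k E : Type*} [Field k] [Field E] [Algebra k E] {N : ℕ}
    (F : MvPolynomial (Fin (N + 3)) k) (hF : F.IsHomogeneous (N + 2))
    (a : Fin (N + 3) → E) :
    (aeval (fun i => if i = 1 then Polynomial.X else Polynomial.C (a i)) F :
      Polynomial E).coeff (N + 2) = algebraMap k E (coeff (Finsupp.single 1 (N + 2)) F) := by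
  classical
  have hprod : ∀ m : Fin (N + 3) →₀ ℕ,
      ∏ i, (if i = 1 then (Polynomial.X : Polynomial E) else Polynomial.C (a i)) ^ m i =
        Polynomial.X ^ m 1 * Polynomial.C (∏ i ∈ Finset.univ.erase 1, a i ^ m i) := by
    intro m
    rw [← Finset.mul_prod_erase Finset.univ _ (Finset.mem_univ 1), if_pos rfl]
    congr 1
    rw [map_prod]
    refine Finset.prod_congr rfl fun i hi => ?_
    rw [if_neg (Finset.ne_of_mem_erase hi), map_pow]
  rw [aeval_def, eval₂_eq', Polynomial.finsetSum_coeff]
  have hterm : ∀ m ∈ F.support, (algebraMap k (Polynomial E) (coeff m F) *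
      ∏ i, (if i = 1 then (Polynomial.X : Polynomial E) else Polynomial.C (a i)) ^ m i).coeff
        (N + 2) = if m = Finsupp.single 1 (N + 2) then algebraMap k E (coeff m F) else 0 := by
    intro m hm
    have hdeg : ∑ i, m i = N + 2 := by
      have h2 := hF (mem_support_iff.1 hm)
      have h4 : Finsupp.degree m = N + 2 := by
        rw [Finsupp.degree_eq_weight_one]
        exact h2
      rw [Finsupp.degree_eq_sum] at h4
      exact h4
    rw [hprod, Polynomial.algebraMap_apply]
    have h1 : (Polynomial.C (algebraMap k E (coeff m F)) * (Polynomial.X ^ m 1 *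
        Polynomial.C (∏ i ∈ Finset.univ.erase 1, a i ^ m i)) : Polynomial E) =
        Polynomial.C (algebraMap k E (coeff m F) * ∏ i ∈ Finset.univ.erase 1, a i ^ m i) *
          Polynomial.X ^ m 1 := by
      rw [map_mul]
      ring
    rw [h1, Polynomial.coeff_C_mul_X_pow]
    by_cases h : m = Finsupp.single 1 (N + 2)
    · have h3 : N + 2 = m 1 := by
        rw [h, Finsupp.single_eq_same]
      rw [if_pos h3, if_pos h]
      have h4 : ∏ i ∈ Finset.univ.erase 1, a i ^ m i = 1 := by
        refine Finset.prod_eq_one fun i hi => ?_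
        rw [h, Finsupp.single_eq_of_ne (Finset.ne_of_mem_erase hi), pow_zero]
      rw [h4, mul_one]
    · have h3 : N + 2 ≠ m 1 := by
        intro h5
        apply h
        have h6 : ∑ i ∈ Finset.univ.erase 1, m i = 0 := by
          rw [← Finset.add_sum_erase Finset.univ _ (Finset.mem_univ 1)] at hdeg
          omega
        ext i
        by_cases hi : i = 1
        · rw [hi, Finsupp.single_eq_same, h5]
        · rw [Finsupp.single_eq_of_ne hi]
          exact Finset.sum_eq_zero_iff.1 h6 i (Finset.mem_erase.2 ⟨hi, Finset.mem_univ _⟩)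
      rw [if_neg h3, if_neg h]
  rw [Finset.sum_congr rfl hterm, Finset.sum_ite_eq' F.support (Finsupp.single 1 (N + 2))]
  split_ifs with h
  · rfl
  · rw [notMem_support_iff.1 h, map_zero]

private theorem calg_one {k L : Type*} [Field k] [Field L] [Algebra k L] {N : ℕ}
    (F : MvPolynomial (Fin (N + 3)) k) (hF : F.IsHomogeneous (N + 2))
    (hlead : coeff (Finsupp.single 1 (N + 2)) F ≠ 0) (x : Fin (N + 3) → L) (hx : aeval x F = 0)
    (E : IntermediateField k L) (hE : ∀ j, j ≠ 1 → x j ∈ E) : IsAlgebraic E (x 1) := by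
  classical
  let a : Fin (N + 3) → E := fun j => if h : j = 1 then 0 else ⟨x j, hE j h⟩
  refine ⟨aeval (fun i => if i = 1 then Polynomial.X else Polynomial.C (a i)) F, ?_, ?_⟩
  · intro h0
    have h1 := calg_coeff F hF a
    rw [h0, Polynomial.coeff_zero] at h1
    exact hlead ((map_eq_zero_iff _ (algebraMap k E).injective).1 h1.symm)
  · have h1 := comp_aeval_apply (fun i => if i = 1 then Polynomial.X else Polynomial.C (a i))
      ((Polynomial.aeval (R := E) (x 1)).restrictScalars k) F
    have h2 : (fun i => ((Polynomial.aeval (R := E) (x 1)).restrictScalars k)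
        (if i = 1 then Polynomial.X else Polynomial.C (a i))) = x := by
      funext i
      show Polynomial.aeval (R := E) (x 1) (if i = 1 then Polynomial.X else Polynomial.C (a i)) = _
      by_cases hi : i = 1
      · rw [if_pos hi, Polynomial.aeval_X, hi]
      · rw [if_neg hi, Polynomial.aeval_C]
        show ((a i : E) : L) = x i
        simp only [a, dif_neg hi]
    rw [h2, hx] at h1
    exact h1

theorem alg_over_z {k : Type u} [Field k] [CharZero k] {N p : ℕ} (hp : p.Prime)
    (F : MvPolynomial (Fin (N + 3)) k) (hF : F.IsHomogeneous (N + 2))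
    (hlead : coeff (Finsupp.single 1 (N + 2)) F ≠ 0) {L : Type u} [Field L] [Algebra k L] (P : Pt F L)
    (hP : P.IsGeneric) [FiniteDimensional ↥P.funField L] :
    Algebra.IsAlgebraic
      ↥(IntermediateField.adjoin k (Set.range fun i : Fin (N + 1) => scP p P.x i.succ.succ)) L := by
  have hpL : (p : L) ≠ 0 := by
    rw [← map_natCast (algebraMap k L) p]
    exact fun h => Nat.cast_ne_zero.2 hp.ne_zero
      ((map_eq_zero_iff _ (algebraMap k L).injective).1 h)
  obtain ⟨E, hEd⟩ : ∃ E, E =
    IntermediateField.adjoin k (Set.range fun i : Fin (N + 1) => scP p P.x i.succ.succ) := ⟨_, rfl⟩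
  rw [← hEd]
  have hE2 : ∀ i : Fin (N + 1), P.x i.succ.succ ∈ E := by
    intro i
    have h1 : scP p P.x i.succ.succ ∈ E := by
      rw [hEd]
      exact IntermediateField.subset_adjoin k _ ⟨i, rfl⟩
    unfold scP at h1
    split_ifs at h1 with h
    · have h2 : P.x i.succ.succ = (p : L) * ((p : L)⁻¹ * P.x i.succ.succ) := by
        rw [← mul_assoc, mul_inv_cancel₀ hpL, one_mul]
      rw [h2]
      exact E.mul_mem (natCast_mem E p) h1
    · exact h1
  have hE : ∀ j, j ≠ 1 → P.x j ∈ E := by
    intro j
    refine Fin.cases ?_ (fun j => ?_) j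
    · intro _
      rw [hP.one]
      exact E.one_mem
    · refine Fin.cases ?_ (fun i => ?_) j
      · intro h
        exact absurd rfl h
      · intro _
        exact hE2 i
  have halg1 : IsAlgebraic E (P.x 1) := calg_one F hF hlead P.x P.eq E hE
  have hle : P.funField ≤ (algebraicClosure E L).restrictScalars k := by
    unfold Pt.funField
    rw [IntermediateField.adjoin_le_iff]
    rintro _ ⟨j, rfl⟩
    show P.x j ∈ algebraicClosure E L
    rw [mem_algebraicClosure_iff']
    by_cases hj : j = 1
    · rw [hj]
      exact halg1.isIntegral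
    · exact (isAlgebraic_algebraMap (⟨P.x j, hE j hj⟩ : E)).isIntegral
  refine ⟨fun z => ?_⟩
  have h1 : IsAlgebraic P.funField z := Algebra.IsAlgebraic.isAlgebraic z
  have h2 : IsAlgebraic (algebraicClosure E L) z := by
    obtain ⟨q, hq, hz⟩ := h1
    let ι : P.funField →+* algebraicClosure E L := (IntermediateField.inclusion hle).toRingHom
    refine ⟨q.map ι, ?_, ?_⟩
    · exact (Polynomial.map_ne_zero_iff ι.injective).2 hq
    · rw [Polynomial.aeval_def, Polynomial.eval₂_map]
      exact hz
  exact (isIntegral_trans (R := E) z h2.isIntegral).isAlgebraic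

end Pool.Agent.HSI
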