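import Mathlib

/-! # Values of algebraic elements -/

namespace Pool.Agent.HSI

private lemma cva_terms {Ω : Type*} [Field Ω] (W : ValuationSubring Ω) (S : Finset ℕ) (F : ℕ → Ω)
    (hF : ∀ i ∈ S, F i ≠ 0) (hne : S.Nonempty) (hs : ∑ i ∈ S, F i = 0) :
    ∃ i ∈ S, ∃ j ∈ S, i < j ∧ W.valuation (F i) = W.valuation (F j) := by
  by_contra hcon
  have hdist : ∀ i ∈ S, ∀ j ∈ S, W.valuation (F i) = W.valuation (F j) → i = j := by
    intro i hi j hj hij
    rcases lt_trichotomy i j with h | h | h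
    · exact absurd ⟨i, hi, j, hj, h, hij⟩ hcon
    · exact h
    · exact absurd ⟨j, hj, i, hi, h, hij.symm⟩ hcon
  obtain ⟨m, hm, hmax⟩ := S.exists_max_image (fun i => W.valuation (F i)) hne
  have h1 : ∑ i ∈ S.erase m, F i = - F m := by
    have := Finset.add_sum_erase S F hm
    rw [hs] at this
    exact (neg_eq_of_add_eq_zero_right this).symm
  have h2 : W.valuation (∑ i ∈ S.erase m, F i) < W.valuation (F m) := by
    apply Valuation.map_sum_lt
    · exact (Valuation.ne_zero_iff _).2 (hF m hm)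
    · intro i hi
      obtain ⟨hi1, hi2⟩ := Finset.mem_erase.1 hi
      exact lt_of_le_of_ne (hmax i hi2) (fun h => hi1 (hdist i hi2 m hm h))
  rw [h1, Valuation.map_neg] at h2
  exact lt_irrefl _ h2

theorem value_alg {k Ω : Type*} [Field k] [IsAlgClosed k] [Field Ω] [Algebra k Ω]
    (W : ValuationSubring Ω) (E : IntermediateField k Ω)
    (hE : ∀ w ∈ E, w ≠ 0 → ∃ a : k, a ≠ 0 ∧ W.valuation w = W.valuation (algebraMap k Ω a)) (w : Ω)
    (hw0 : w ≠ 0) (hw : IsAlgebraic ↥E w) :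
    ∃ a : k, a ≠ 0 ∧ W.valuation w = W.valuation (algebraMap k Ω a) := by
  obtain ⟨p, hp0, hp⟩ := hw
  have hp1 : ∑ i ∈ p.support, algebraMap (↥E) Ω (p.coeff i) * w ^ i = 0 := by
    rw [← hp, Polynomial.aeval_def, Polynomial.eval₂_eq_sum, Polynomial.sum_def]
  obtain ⟨i, hi, j, hj, hij, hv⟩ := cva_terms W p.support
    (fun i => algebraMap (↥E) Ω (p.coeff i) * w ^ i) (by
      intro i hi
      refine mul_ne_zero ?_ (pow_ne_zero _ hw0)
      rw [Ne, map_eq_zero]
      exact Polynomial.mem_support_iff.1 hi) (Polynomial.support_nonempty.2 hp0) hp1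
  have hai : algebraMap (↥E) Ω (p.coeff i) ≠ 0 := by
    rw [Ne, map_eq_zero]
    exact Polynomial.mem_support_iff.1 hi
  have haj : algebraMap (↥E) Ω (p.coeff j) ≠ 0 := by
    rw [Ne, map_eq_zero]
    exact Polynomial.mem_support_iff.1 hj
  obtain ⟨c, hc0, hc⟩ := hE (algebraMap (↥E) Ω (p.coeff i) / algebraMap (↥E) Ω (p.coeff j))
    (E.div_mem (p.coeff i).2 (p.coeff j).2) (div_ne_zero hai haj)
  have hn : j - i ≠ 0 := by omega
  obtain ⟨b, hb⟩ := IsAlgClosed.exists_pow_nat_eq c (n := j - i) (by omega)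
  refine ⟨b, ?_, ?_⟩
  · rintro rfl
    rw [zero_pow hn] at hb
    exact hc0 hb.symm
  · have hvw : W.valuation w ≠ 0 := (Valuation.ne_zero_iff _).2 hw0
    have hvj : W.valuation (algebraMap (↥E) Ω (p.coeff j)) ≠ 0 := (Valuation.ne_zero_iff _).2 haj
    have h1 : W.valuation w ^ (j - i) = W.valuation (algebraMap k Ω b) ^ (j - i) := by
      rw [← map_pow, ← map_pow, ← map_pow, hb, ← hc, map_div₀, map_pow]
      rw [map_mul, map_mul, map_pow, map_pow] at hv
      rw [eq_div_iff hvj]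
      have h2 : W.valuation w ^ j = W.valuation w ^ (j - i) * W.valuation w ^ i := by
        rw [← pow_add]
        congr 1
        omega
      rw [h2, ← mul_assoc] at hv
      have h3 := mul_right_cancel₀ (pow_ne_zero i hvw) hv
      rw [h3, mul_comm]
    exact (pow_left_inj₀ zero_le' zero_le' hn).1 h1

end Pool.Agent.HSI
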