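import Pool.Agent.GEL.Tools

/-! Values of rational functions under a Gauss valuation (project HSI). -/

open MvPolynomial

namespace Pool.Agent.HSI

private theorem cvr_mem {k L : Type*} [Field k] [Field L] [Algebra k L] (W : ValuationSubring L)
    {n : ℕ} (z : Fin n → L) (hz : ∀ i, z i ∈ W) (g : MvPolynomial (Fin n) k)
    (hg : ∀ m, algebraMap k L (coeff m g) ∈ W) : aeval z g ∈ W := by
  rw [as_sum g, map_sum]
  refine sum_mem fun m _ => ?_
  rw [aeval_monomial, Finsupp.prod_fintype _ _ (fun i => pow_zero _)]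
  exact mul_mem (hg m) (prod_mem fun i _ => pow_mem (hz i) _)

private theorem cvr_val {k L : Type*} [Field k] [Field L] [Algebra k L] (W : ValuationSubring L)
    {n : ℕ} (z : Fin n → L) (hz : ∀ i, z i ∈ W) (hG : GEL.Gauss (k := k) W z)
    (g : MvPolynomial (Fin n) k) (hg : g ≠ 0) :
    ∃ c : k, c ≠ 0 ∧ W.valuation (aeval z g) = W.valuation (algebraMap k L c) := by
  obtain ⟨m0, hm0, hmax⟩ := Finset.exists_max_image g.support
    (fun m => W.valuation (algebraMap k L (coeff m g))) (support_nonempty.2 hg)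
  have hc : coeff m0 g ≠ 0 := mem_support_iff.1 hm0
  have hcL : algebraMap k L (coeff m0 g) ≠ 0 := by
    rw [Ne, map_eq_zero]
    exact hc
  have hin : ∀ m, algebraMap k L (coeff m (C (coeff m0 g)⁻¹ * g)) ∈ W := by
    intro m
    rw [coeff_C_mul, map_mul, map_inv₀, ← ValuationSubring.valuation_le_one_iff, map_mul, map_inv₀]
    have hv : W.valuation (algebraMap k L (coeff m0 g)) ≠ 0 := by
      rw [Ne, map_eq_zero]
      exact hcL
    by_cases hm : m ∈ g.support
    · have h2 := hmax m hm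
      calc (W.valuation (algebraMap k L (coeff m0 g)))⁻¹ * W.valuation (algebraMap k L (coeff m g))
          ≤ (W.valuation (algebraMap k L (coeff m0 g)))⁻¹ *
            W.valuation (algebraMap k L (coeff m0 g)) := mul_le_mul_right h2 _
        _ = 1 := inv_mul_cancel₀ hv
    · rw [notMem_support_iff.1 hm, map_zero, map_zero, mul_zero]
      exact zero_le_one
  have hnn : aeval z (C (coeff m0 g)⁻¹ * g) ∉ W.nonunits := by
    intro hn
    have h3 := hG _ hin hn m0
    rw [coeff_C_mul, inv_mul_cancel₀ hc, map_one, ValuationSubring.mem_nonunits_iff_or] at h3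
    rcases h3 with h3 | h3
    · exact one_ne_zero h3
    · rw [inv_one] at h3
      exact h3 W.one_mem
  have h1 : W.valuation (aeval z (C (coeff m0 g)⁻¹ * g)) = 1 := by
    refine le_antisymm ?_ ?_
    · rw [ValuationSubring.valuation_le_one_iff]
      exact cvr_mem W z hz _ hin
    · rw [← not_lt]
      exact hnn
  refine ⟨coeff m0 g, hc, ?_⟩
  rw [map_mul, aeval_C, map_inv₀, map_mul, map_inv₀] at h1
  have hv : W.valuation (algebraMap k L (coeff m0 g)) ≠ 0 := by
    rw [Ne, map_eq_zero]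
    exact hcL
  rwa [inv_mul_eq_one₀ hv, eq_comm] at h1

theorem value_rat {k Ω : Type*} [Field k] [Field Ω] [Algebra k Ω] (W : ValuationSubring Ω) {n : ℕ}
    (z : Fin n → Ω) (hz : ∀ i, z i ∈ W) (hG : GEL.Gauss (k := k) W z) (w : Ω) (hw0 : w ≠ 0)
    (hw : w ∈ IntermediateField.adjoin k (Set.range z)) :
    ∃ a : k, a ≠ 0 ∧ W.valuation w = W.valuation (algebraMap k Ω a) := by
  obtain ⟨g, h, hgh⟩ := (IntermediateField.mem_adjoin_range_iff k z w).1 hw
  have hg0 : g ≠ 0 := by
    rintro rfl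
    rw [map_zero, zero_div] at hgh
    exact hw0 hgh
  have hh0 : h ≠ 0 := by
    rintro rfl
    rw [map_zero, div_zero] at hgh
    exact hw0 hgh
  obtain ⟨c, hc, hc1⟩ := cvr_val W z hz hG g hg0
  obtain ⟨e, he, he1⟩ := cvr_val W z hz hG h hh0
  refine ⟨c / e, div_ne_zero hc he, ?_⟩
  rw [hgh, map_div₀, hc1, he1, map_div₀, map_div₀]

end Pool.Agent.HSI
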