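import Mathlib

/-!
# A coordinate whose equation has a unit as leading coefficient is integral

PLAN. Let `Q : Polynomial Ω` be `aeval (fun i => if i = 1 then X else C (pt i)) G` (coefficients of `G` mapped to `Ω`). Then
`Q.eval (pt 1) = aeval pt G = 0`; all coefficients of `Q` lie in `W`; `Q.natDegree ≤ D` (each monomial `m` of `G` gives
a polynomial of degree `m 1 ≤ m.degree = D`); `Q.coeff D = algebraMap k Ω (coeff (single 1 D) G)` (only the monomial
`single 1 D` has `m 1 = D`), which is in `W` and not in `W.nonunits` (`hW`). If `pt 1 ∉ W` then `(pt 1)⁻¹ ∈ W.nonunits`, and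
`Q.coeff D = - ∑_{i < D} Q.coeff i * (pt 1)⁻¹ ^ (D - i)` would be in `W.nonunits`. Contradiction. (Or: with valuations.)
-/

open MvPolynomial

namespace Pool.Agent.HSI

theorem x1_mem {k Ω : Type*} [Field k] [Field Ω] [Algebra k Ω] (W : ValuationSubring Ω) {M D : ℕ}
    (G : MvPolynomial (Fin (M + 2)) k) (hG : G.IsHomogeneous D)
    (hmem : ∀ m, algebraMap k Ω (coeff m G) ∈ W)
    (hlead : algebraMap k Ω (coeff (Finsupp.single 1 D) G) ∉ W.nonunits) (pt : Fin (M + 2) → Ω)
    (hpt : ∀ i, i ≠ 1 → pt i ∈ W) (h : aeval pt G = 0) : pt 1 ∈ W := by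
  classical
  by_contra ht
  have ht1 : 1 < W.valuation (pt 1) := by
    rw [← not_le, W.valuation_le_one_iff]
    exact ht
  have ht0 : W.valuation (pt 1) ≠ 0 := (zero_lt_one.trans ht1).ne'
  rw [aeval_def, eval₂_eq'] at h
  have hc : coeff (Finsupp.single 1 D) G ≠ 0 := by
    intro h0
    rw [h0, map_zero] at hlead
    apply hlead
    rw [ValuationSubring.mem_nonunits_iff, map_zero]
    exact zero_lt_one
  rw [← Finset.add_sum_erase _ _ (mem_support_iff.2 hc)] at h
  have hother : W.valuation (∑ m ∈ G.support.erase (Finsupp.single 1 D),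
      algebraMap k Ω (coeff m G) * ∏ i, pt i ^ m i) < W.valuation (pt 1) ^ D := by
    refine Valuation.map_sum_lt _ (pow_ne_zero _ ht0) fun m hm => ?_
    rw [Finset.mem_erase] at hm
    have hdeg : ∑ i, m i = D := by
      have h1 := hG (mem_support_iff.1 hm.2)
      rw [← h1, Finsupp.weight_apply, Finsupp.sum_fintype]
      · simp
      · simp
    rw [← Finset.add_sum_erase _ _ (Finset.mem_univ (1 : Fin (M + 2)))] at hdeg
    have hm1 : m 1 < D := by
      refine lt_of_le_of_ne (by omega) fun h1 => hm.1 ?_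
      have h2 : ∑ i ∈ Finset.univ.erase (1 : Fin (M + 2)), m i = 0 := by omega
      rw [Finset.sum_eq_zero_iff] at h2
      ext i
      by_cases hi : i = 1
      · rw [hi, h1, Finsupp.single_eq_same]
      · rw [h2 i (Finset.mem_erase.2 ⟨hi, Finset.mem_univ _⟩), Finsupp.single_eq_of_ne hi]
    rw [map_mul, map_prod]
    have h1 : W.valuation (algebraMap k Ω (coeff m G)) ≤ 1 := (W.valuation_le_one_iff _).2 (hmem m)
    have h2 : ∏ i, W.valuation (pt i ^ m i) ≤ W.valuation (pt 1) ^ m 1 := by
      rw [← Finset.mul_prod_erase Finset.univ _ (Finset.mem_univ (1 : Fin (M + 2))), map_pow]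
      refine mul_le_of_le_one_right' (Finset.prod_le_one' fun i hi => ?_)
      rw [map_pow]
      exact pow_le_one' ((W.valuation_le_one_iff _).2 (hpt i (Finset.mem_erase.1 hi).1)) _
    calc W.valuation (algebraMap k Ω (coeff m G)) * ∏ i, W.valuation (pt i ^ m i)
        ≤ 1 * W.valuation (pt 1) ^ m 1 := mul_le_mul' h1 h2
      _ = W.valuation (pt 1) ^ m 1 := one_mul _
      _ < W.valuation (pt 1) ^ D := pow_lt_pow_right₀ ht1 hm1
  have hlead1 : 1 ≤ W.valuation (algebraMap k Ω (coeff (Finsupp.single 1 D) G)) := by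
    rw [ValuationSubring.mem_nonunits_iff, not_lt] at hlead
    exact hlead
  have hprod : ∏ i, pt i ^ (Finsupp.single (1 : Fin (M + 2)) D) i = pt 1 ^ D := by
    rw [Finset.prod_eq_single (1 : Fin (M + 2))]
    · rw [Finsupp.single_eq_same]
    · intro i _ hi
      rw [Finsupp.single_eq_of_ne hi, pow_zero]
    · intro h1
      exact absurd (Finset.mem_univ _) h1
  rw [hprod] at h
  have h5 := congrArg W.valuation (eq_neg_of_add_eq_zero_left h)
  rw [Valuation.map_neg, map_mul, map_pow] at h5
  have h6 : W.valuation (pt 1) ^ D ≤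
      W.valuation (algebraMap k Ω (coeff (Finsupp.single 1 D) G)) * W.valuation (pt 1) ^ D :=
    le_mul_of_one_le_left' hlead1
  rw [h5] at h6
  exact absurd hother (not_lt.2 h6)

end Pool.Agent.HSI
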