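import Pool.Agent.HSI.Tools

/-!
# The equation `scF p F`

The homomorphism `X i ↦ C p * X i` for the last variable multiplies the monomial `m` by `p ^ m (last)` (`coeff_scl`).
-/

open MvPolynomial

namespace Pool.Agent.HSI

/-- the homomorphism which multiplies the last variable by `p` -/
private theorem coeff_scl (p : ℕ) {k : Type*} [Field k] {N : ℕ} (F : MvPolynomial (Fin (N + 3)) k)
    (m : Fin (N + 3) →₀ ℕ) :
    coeff m (aeval (fun i => if i = Fin.last (N + 2) then C (p : k) * X i else X i) F :
      MvPolynomial (Fin (N + 3)) k) = (p : k) ^ m (Fin.last (N + 2)) * coeff m F := by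
  classical
  induction F using MvPolynomial.induction_on' with
  | monomial u a =>
    rw [aeval_monomial]
    have h1 : (u.prod fun i n =>
        (if i = Fin.last (N + 2) then C (p : k) * X i else X i : MvPolynomial (Fin (N + 3)) k) ^ n) =
        C ((p : k) ^ u (Fin.last (N + 2))) * monomial u 1 := by
      rw [Finsupp.prod_fintype _ _ (fun i => pow_zero _)]
      have h2 : ∀ i : Fin (N + 3),
          (if i = Fin.last (N + 2) then C (p : k) * X i else X i :
            MvPolynomial (Fin (N + 3)) k) ^ u i =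
          (if i = Fin.last (N + 2) then C ((p : k) ^ u i) else 1) * X i ^ u i := by
        intro i
        by_cases hi : i = Fin.last (N + 2)
        · rw [if_pos hi, if_pos hi, mul_pow, C_pow]
        · rw [if_neg hi, if_neg hi, one_mul]
      rw [Finset.prod_congr rfl fun i _ => h2 i, Finset.prod_mul_distrib,
        Finset.prod_ite_eq' Finset.univ (Fin.last (N + 2)), if_pos (Finset.mem_univ _)]
      congr 1
      rw [monomial_eq, C_1, one_mul, Finsupp.prod_fintype _ _ (fun i => pow_zero _)]
    rw [h1, algebraMap_eq, ← mul_assoc, ← C_mul, C_mul_monomial, mul_one, coeff_monomial,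
      coeff_monomial]
    by_cases hu : u = m
    · rw [if_pos hu, if_pos hu, hu, mul_comm]
    · rw [if_neg hu, if_neg hu, mul_zero]
  | add P Q hP hQ =>
    rw [map_add, coeff_add, coeff_add, hP, hQ, mul_add]

theorem coeff_scF (p : ℕ) {k : Type*} [Field k] {N : ℕ} (F : MvPolynomial (Fin (N + 3)) k)
    (m : Fin (N + 3) →₀ ℕ) :
    coeff m (scF p F) = ((p : k) ^ p)⁻¹ * (p : k) ^ m (Fin.last (N + 2)) * coeff m F := by
  unfold scF
  rw [coeff_C_mul, coeff_scl, mul_assoc]

theorem scF_isHomogeneous (p : ℕ) {k : Type*} [Field k] {N d : ℕ} {F : MvPolynomial (Fin (N + 3)) k}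
    (hF : F.IsHomogeneous d) : (scF p F).IsHomogeneous d := by
  intro m hm
  refine hF fun h0 => hm ?_
  rw [coeff_scF, h0, mul_zero]

theorem aeval_scP {p : ℕ} {k L : Type*} [Field k] [Field L] [Algebra k L] (hp : (p : L) ≠ 0) {N : ℕ}
    (F : MvPolynomial (Fin (N + 3)) k) (x : Fin (N + 3) → L) :
    aeval (scP p x) (scF p F) = algebraMap k L (((p : k) ^ p)⁻¹) * aeval x F := by
  unfold scF
  rw [map_mul, aeval_C]
  congr 1
  rw [MvPolynomial.comp_aeval_apply]
  congr 2
  funext i
  by_cases hi : i = Fin.last (N + 2)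
  · rw [if_pos hi, map_mul, aeval_C, aeval_X, map_natCast]
    unfold scP
    rw [if_pos hi, mul_inv_cancel_left₀ hp]
  · rw [if_neg hi, aeval_X]
    unfold scP
    rw [if_neg hi]

end Pool.Agent.HSI
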