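import Pool.Agent.HSI.DSca
import Pool.Agent.HSI.PCo
import Pool.Agent.HSI.CVr
import Pool.Agent.HSI.CVa
import Pool.Agent.HSI.CX1
import Pool.Agent.HSI.CAlg
import Pool.Agent.GEL.ExA

/-!
# Existence of adapted valuation rings

PLAN. Adapt `GEL.exists_adapted` (`Pool/Agent/GEL/ExA.lean`), whose private lemmas `exa_comap_nonunits`, `exa_residue`, `exa_sep` can be
copied. `Ω = AlgebraicClosure L`, `z = fun i => algebraMap L Ω (scP p P.x i.succ.succ)` (`i : Fin (N + 1)`), algebraically independent over `k` by
`hP.indep` and `indep_scale` (`scP` divides the last coordinate by `p ≠ 0`). `GEL.gauss_exists V₀ z` gives `W` with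
`W.comap (algebraMap k Ω) = V₀`, `z i ∈ W`, `Gauss W z`. The other coordinates of `scP p P.x`: index 0 is 1, index 1 is in `W` by `x1_mem` for
`G = scF p F`, `D = N + 2` (`scF_isHomogeneous`, `hmem`, `hlead`, equation from `aeval_scP` and `P.eq`). `GEL.exists_embedding` (with
`K = P.funField`) gives `σ : L →ₐ[P.funField] Ω` with separable residue extension; `V = W.comap σ`. `σ` is the identity on `P.funField`, which
contains `k` and the `P.x i` (hence the `scP p P.x i`); so `V.comap (algebraMap k L) = V₀`, `scP p P.x i ∈ V` and the Gauss property as in ExA;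
the last claim is `exa_sep`. Values: for `w ≠ 0` in `L`, `σ w` is algebraic over `E = adjoin k (range z)` (image of `alg_over_z` under `σ`:
`w` is algebraic over `adjoin k (range (scP p P.x ·.succ.succ))`, apply `σ`, which fixes these elements); `value_rat` and `value_alg` for `W` give
`a : k` with `W.valuation (σ w) = W.valuation (algebraMap k Ω a)`, i.e. `σ w / a` is a unit of `W`, so `w / a` is a unit of `V`
(`ValuationSubring.valuation_eq_iff`, or `valuation_le_one_iff` for `w / a` and its inverse). In `alg_over_z` the coefficient of `F` is `≠ 0` by `hlead`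
and `coeff_scF`.
-/

open MvPolynomial

universe u

namespace Pool.Agent.HSI

private theorem cadp_comap_nonunits {F Ω : Type*} [Field F] [Field Ω] (g : F →+* Ω)
    (W : ValuationSubring Ω) (u : F) : u ∈ (W.comap g).nonunits ↔ g u ∈ W.nonunits := by
  rw [ValuationSubring.mem_nonunits_iff_or, ValuationSubring.mem_nonunits_iff_or,
    ValuationSubring.mem_comap, map_inv₀, map_eq_zero]

private theorem cadp_residue {Ω : Type*} [Field Ω] (W : ValuationSubring Ω) (w : W) :
    (w : Ω) ∈ W.nonunits ↔ IsLocalRing.residue W w = 0 := by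
  rw [ValuationSubring.coe_mem_nonunits_iff, IsLocalRing.residue_eq_zero_iff]

/-- the simple root of the reduction of a polynomial over the smaller field -/
private theorem cadp_sep {L Ω : Type*} [Field L] [Field Ω] (S : Subfield L) (σ : L →+* Ω)
    (W : ValuationSubring Ω) (S' : Subfield Ω) (hS : ∀ v ∈ S', ∃ s ∈ S, σ s = v) (α : L)
    (hα : σ α ∈ W)
    (hsep : IsSeparable ↥(GEL.resSub W S') (IsLocalRing.residue W ⟨σ α, hα⟩)) :
    ∃ G : Polynomial L, (∀ i, G.coeff i ∈ S ∧ σ (G.coeff i) ∈ W) ∧
      σ (G.eval α) ∈ W.nonunits ∧ σ (G.derivative.eval α) ∉ W.nonunits := by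
  obtain ⟨β, hβ⟩ : ∃ β, β = IsLocalRing.residue W ⟨σ α, hα⟩ := ⟨_, rfl⟩
  rw [← hβ] at hsep
  obtain ⟨m, hm⟩ : ∃ m, m = minpoly ↥(GEL.resSub W S') β := ⟨_, rfl⟩
  have hex : ∀ i : ℕ, ∃ (v : L) (u : W), v ∈ S ∧ σ v = (u : Ω) ∧
      IsLocalRing.residue W u = ((m.coeff i : ↥(GEL.resSub W S')) : IsLocalRing.ResidueField W) := by
    intro i
    obtain ⟨u, hu, hr⟩ := GEL.mem_resSub.1 (m.coeff i).2
    obtain ⟨s, hs, hsu⟩ := hS _ hu
    exact ⟨s, u, hs, hsu, hr⟩
  choose v u hv hvu hur using hex
  obtain ⟨G, hG⟩ : ∃ G : Polynomial L, G = ∑ i ∈ Finset.range (m.natDegree + 1),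
    Polynomial.monomial i (v i) := ⟨_, rfl⟩
  obtain ⟨H, hH⟩ : ∃ H : Polynomial W, H = ∑ i ∈ Finset.range (m.natDegree + 1),
    Polynomial.monomial i (u i) := ⟨_, rfl⟩
  have h1 : G.map σ = H.map W.subtype := by
    rw [hG, hH, Polynomial.map_sum, Polynomial.map_sum]
    refine Finset.sum_congr rfl fun i _ => ?_
    rw [Polynomial.map_monomial, Polynomial.map_monomial]
    exact congrArg (Polynomial.monomial i) (hvu i)
  have h2 : H.map (IsLocalRing.residue W) =
      m.map (algebraMap ↥(GEL.resSub W S') (IsLocalRing.ResidueField W)) := by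
    conv_rhs => rw [m.as_sum_range]
    rw [hH, Polynomial.map_sum, Polynomial.map_sum]
    refine Finset.sum_congr rfl fun i _ => ?_
    rw [Polynomial.map_monomial, Polynomial.map_monomial]
    exact congrArg (Polynomial.monomial i) (hur i)
  have h3 : ∀ (G : Polynomial L) (H : Polynomial W), G.map σ = H.map W.subtype →
      σ (G.eval α) = ((H.eval ⟨σ α, hα⟩ : W) : Ω) := by
    intro G H h
    have e1 : σ (G.eval α) = (G.map σ).eval (σ α) := (Polynomial.eval_map_apply σ α).symm
    have e2 : ((H.eval ⟨σ α, hα⟩ : W) : Ω) = (H.map W.subtype).eval (σ α) := by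
      have := (Polynomial.eval_map_apply (p := H) W.subtype (⟨σ α, hα⟩ : W)).symm
      exact this
    rw [e1, e2, h]
  have h4 : ∀ (H : Polynomial W), IsLocalRing.residue W (H.eval ⟨σ α, hα⟩) =
      (H.map (IsLocalRing.residue W)).eval β := by
    intro H
    rw [hβ, Polynomial.eval_map_apply]
  have h1' : G.derivative.map σ = H.derivative.map W.subtype := by
    rw [← Polynomial.derivative_map, ← Polynomial.derivative_map, h1]
  have h2' : H.derivative.map (IsLocalRing.residue W) =
      m.derivative.map (algebraMap ↥(GEL.resSub W S') (IsLocalRing.ResidueField W)) := by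
    rw [← Polynomial.derivative_map, ← Polynomial.derivative_map, h2]
  refine ⟨G, ?_, ?_, ?_⟩
  · intro i
    have hc : G.coeff i = if i ∈ Finset.range (m.natDegree + 1) then v i else 0 := by
      rw [hG, Polynomial.finsetSum_coeff]
      simp only [Polynomial.coeff_monomial]
      rw [Finset.sum_ite_eq' (Finset.range (m.natDegree + 1)) i v]
    rw [hc]
    split_ifs
    · exact ⟨hv i, by rw [hvu i]; exact (u i).2⟩
    · exact ⟨S.zero_mem, by rw [map_zero]; exact W.zero_mem⟩
  · rw [h3 G H h1, cadp_residue, h4, h2, Polynomial.eval_map_algebraMap, hm]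
    exact minpoly.aeval _ _
  · rw [h3 G.derivative H.derivative h1', cadp_residue, h4, h2', Polynomial.eval_map_algebraMap]
    refine Polynomial.Separable.aeval_derivative_ne_zero ?_ ?_
    · rw [hm]; exact hsep
    · rw [hm]; exact minpoly.aeval _ _

theorem exists_adp {k : Type u} [Field k] [IsAlgClosed k] [CharZero k] {N p : ℕ} (hp : p.Prime)
    (F : MvPolynomial (Fin (N + 3)) k) (hF : F.IsHomogeneous (N + 2)) (V₀ : ValuationSubring k)
    (hpV : (p : k) ∈ V₀.nonunits) (hmem : ∀ m, coeff m (scF p F) ∈ V₀)
    (hlead : coeff (Finsupp.single 1 (N + 2)) (scF p F) ∉ V₀.nonunits)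
    {L : Type u} [Field L] [Algebra k L] (P : Pt F L) (hP : P.IsGeneric)
    (hL : ¬ p ∣ Module.finrank ↥P.funField L) :
    ∃ V : ValuationSubring L, V.comap (algebraMap k L) = V₀ ∧ (∀ i, scP p P.x i ∈ V) ∧
      GEL.Gauss (k := k) V (fun i : Fin (N + 1) => scP p P.x i.succ.succ) ∧
      (∀ w : L, w ≠ 0 → ∃ a : k, a ≠ 0 ∧ V.valuation w = V.valuation (algebraMap k L a)) ∧
      ∀ α ∈ V, ∃ G : Polynomial L, (∀ i, G.coeff i ∈ P.funField ∧ G.coeff i ∈ V) ∧
        G.eval α ∈ V.nonunits ∧ G.derivative.eval α ∉ V.nonunits := by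
  classical
  have hfin : FiniteDimensional ↥P.funField L := by
    refine Module.finite_of_finrank_pos (Nat.pos_of_ne_zero fun h0 => ?_)
    exact hL (by rw [h0]; exact dvd_zero p)
  have hfact : Fact p.Prime := ⟨hp⟩
  have hpk : (p : k) ≠ 0 := Nat.cast_ne_zero.2 hp.ne_zero
  have hpL : (p : L) ≠ 0 := by
    have h1 := (map_ne_zero (algebraMap k L)).2 hpk
    rwa [map_natCast] at h1
  obtain ⟨z, hz⟩ : ∃ z : Fin (N + 1) → AlgebraicClosure L,
    z = fun i => algebraMap L (AlgebraicClosure L) (scP p P.x i.succ.succ) := ⟨_, rfl⟩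
  have hsc : (fun i : Fin (N + 1) => scP p P.x i.succ.succ) = fun i : Fin (N + 1) =>
      algebraMap k L (if i.succ.succ = Fin.last (N + 2) then (p : k)⁻¹ else 1) * P.x i.succ.succ := by
    funext i
    unfold scP
    split_ifs
    · rw [map_inv₀, map_natCast]
    · rw [map_one, one_mul]
  have hind : AlgebraicIndependent k (fun i : Fin (N + 1) => scP p P.x i.succ.succ) := by
    rw [hsc]
    refine indep_scale _ _ (fun i => ?_) hP.indep
    split_ifs
    · exact inv_ne_zero hpk
    · exact one_ne_zero
  have hzi : AlgebraicIndependent k z := by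
    rw [hz]
    exact hind.map' (f := IsScalarTower.toAlgHom k L (AlgebraicClosure L))
      (algebraMap L (AlgebraicClosure L)).injective
  obtain ⟨W, hW1, hW2, hW3⟩ := GEL.gauss_exists V₀ z hzi
  have hk : ∀ c : k, c ∈ V₀.nonunits ↔ algebraMap k (AlgebraicClosure L) c ∈ W.nonunits := by
    intro c
    rw [← hW1]
    exact cadp_comap_nonunits _ W c
  have hk' : ∀ c : k, c ∈ V₀ ↔ algebraMap k (AlgebraicClosure L) c ∈ W := by
    intro c
    rw [← hW1, ValuationSubring.mem_comap]
  have hpW : (p : AlgebraicClosure L) ∈ W.nonunits := by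
    have := (hk p).1 hpV
    rwa [map_natCast] at this
  have hchar : CharP (IsLocalRing.ResidueField W) p := GEL.residue_charP W p hpW
  -- the coordinate of index 1
  have hpt1 : algebraMap L (AlgebraicClosure L) (scP p P.x 1) ∈ W := by
    refine x1_mem (k := k) W (M := N + 1) (D := N + 2) (scF p F) (scF_isHomogeneous p hF)
      (fun m => (hk' _).1 (hmem m)) (fun h => hlead ((hk _).2 h))
      (fun i => algebraMap L (AlgebraicClosure L) (scP p P.x i)) (fun i hi => ?_) ?_
    · revert hi
      refine Fin.cases (fun _ => ?_) (fun j => ?_) i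
      · have h0 : (0 : Fin (N + 3)) ≠ Fin.last (N + 2) := by
          intro h
          have := congrArg Fin.val h
          simp at this
        show algebraMap L (AlgebraicClosure L) (scP p P.x 0) ∈ W
        unfold scP
        rw [if_neg h0, hP.one, map_one]
        exact W.one_mem
      · refine Fin.cases (fun h => absurd rfl h) (fun j _ => ?_) j
        have := hW2 j
        rw [hz] at this
        exact this
    · have h1 : aeval (fun i => algebraMap L (AlgebraicClosure L) (scP p P.x i)) (scF p F) =
          algebraMap L (AlgebraicClosure L) (aeval (scP p P.x) (scF p F)) := by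
        have h2 := MvPolynomial.comp_aeval_apply (scP p P.x)
          (IsScalarTower.toAlgHom k L (AlgebraicClosure L)) (scF p F)
        exact h2.symm
      rw [h1, aeval_scP hpL, P.eq, mul_zero, map_zero]
  have hall : ∀ i, algebraMap L (AlgebraicClosure L) (scP p P.x i) ∈ W := by
    intro i
    refine Fin.cases ?_ (fun j => ?_) i
    · have h0 : (0 : Fin (N + 3)) ≠ Fin.last (N + 2) := by
        intro h
        have := congrArg Fin.val h
        simp at this
      unfold scP
      rw [if_neg h0, hP.one, map_one]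
      exact W.one_mem
    · refine Fin.cases hpt1 (fun j => ?_) j
      have := hW2 j
      rw [hz] at this
      exact this
  have hle : (algebraMap k (AlgebraicClosure L)).fieldRange ≤
      (algebraMap ↥P.funField (AlgebraicClosure L)).fieldRange := by
    rintro _ ⟨c, rfl⟩
    exact ⟨algebraMap k ↥P.funField c,
      (IsScalarTower.algebraMap_apply k ↥P.funField (AlgebraicClosure L) c).symm⟩
  have hle2 : GEL.resSub W (algebraMap k (AlgebraicClosure L)).fieldRange ≤
      GEL.resSub W (algebraMap ↥P.funField (AlgebraicClosure L)).fieldRange := by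
    rintro _ ⟨u, hu, rfl⟩
    exact ⟨u, hle hu, rfl⟩
  have hinf : Infinite ↥(GEL.resSub W (algebraMap ↥P.funField (AlgebraicClosure L)).fieldRange) := by
    have h1 : IsAlgClosed ↥(GEL.resSub W (algebraMap k (AlgebraicClosure L)).fieldRange) :=
      GEL.resSub_isAlgClosed W
    have h2 : Infinite ↥(GEL.resSub W (algebraMap k (AlgebraicClosure L)).fieldRange) :=
      IsAlgClosed.instInfinite
    exact Infinite.of_injective (Subfield.inclusion hle2) (Subfield.inclusion hle2).injective
  obtain ⟨σ, hσ⟩ := GEL.exists_embedding (K := ↥P.funField) (L := L) (Ω := AlgebraicClosure L) W hL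
  have hσK : ∀ v ∈ P.funField, σ v = algebraMap L (AlgebraicClosure L) v := by
    intro v hv
    have h1 := σ.commutes (⟨v, hv⟩ : ↥P.funField)
    have h2 := IsScalarTower.algebraMap_apply ↥P.funField L (AlgebraicClosure L) ⟨v, hv⟩
    rw [h2] at h1
    exact h1
  have hσk : ∀ c : k, σ (algebraMap k L c) = algebraMap k (AlgebraicClosure L) c := by
    intro c
    rw [hσK _ (P.funField.algebraMap_mem c)]
    exact (IsScalarTower.algebraMap_apply k L (AlgebraicClosure L) c).symm
  have hxmem : ∀ i, scP p P.x i ∈ P.funField := by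
    intro i
    have h1 : P.x i ∈ P.funField := IntermediateField.subset_adjoin k _ (Set.mem_range_self i)
    unfold scP
    split_ifs
    · refine P.funField.mul_mem (P.funField.inv_mem ?_) h1
      have h2 := P.funField.algebraMap_mem (p : k)
      rwa [map_natCast] at h2
    · exact h1
  have hnu : ∀ u : L, u ∈ (W.comap (σ : L →+* AlgebraicClosure L)).nonunits ↔
      σ u ∈ W.nonunits := fun u => cadp_comap_nonunits _ W u
  have hmemV : ∀ u : L, u ∈ W.comap (σ : L →+* AlgebraicClosure L) ↔ σ u ∈ W := fun u =>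
    ValuationSubring.mem_comap
  refine ⟨W.comap (σ : L →+* AlgebraicClosure L), ?_, ?_, ?_, ?_, ?_⟩
  · ext c
    rw [ValuationSubring.mem_comap, hmemV, hσk, hk']
  · intro i
    rw [hmemV, hσK _ (hxmem _)]
    exact hall i
  · intro g hg1 hg2 m
    rw [hnu] at hg2
    rw [hnu, hσk]
    refine hW3 g (fun m => ?_) ?_ m
    · have := hg1 m
      rw [ValuationSubring.mem_comap] at this
      have h2 : σ (algebraMap k L (coeff m g)) ∈ W := this
      rwa [hσk] at h2
    · have h3 : σ (aeval (fun i : Fin (N + 1) => scP p P.x i.succ.succ) g) = aeval z g := by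
        have h4 : σ (aeval (fun i : Fin (N + 1) => scP p P.x i.succ.succ) g) =
            (AlgHom.restrictScalars k σ) (aeval (fun i : Fin (N + 1) => scP p P.x i.succ.succ) g) := rfl
        rw [h4, MvPolynomial.comp_aeval_apply]
        congr 2
        rw [hz]
        funext i
        exact hσK _ (hxmem _)
      rw [h3] at hg2
      exact hg2
  · intro w hw0
    have hlead0 : coeff (Finsupp.single 1 (N + 2)) F ≠ 0 := by
      intro h0
      refine hlead ?_
      rw [coeff_scF, h0, mul_zero]
      rw [ValuationSubring.mem_nonunits_iff_or]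
      exact Or.inl rfl
    have halg := (alg_over_z hp F hF hlead0 P hP).isAlgebraic w
    have hE : ∀ e ∈ IntermediateField.adjoin k (Set.range fun i : Fin (N + 1) => scP p P.x i.succ.succ),
        σ e ∈ IntermediateField.adjoin k (Set.range z) := by
      intro e he
      have h1 : (AlgHom.restrictScalars k σ) e ∈
          (IntermediateField.adjoin k (Set.range fun i : Fin (N + 1) => scP p P.x i.succ.succ)).map
            (AlgHom.restrictScalars k σ) := ⟨e, he, rfl⟩
      rw [IntermediateField.adjoin_map] at h1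
      have h2 : (AlgHom.restrictScalars k σ) '' (Set.range fun i : Fin (N + 1) => scP p P.x i.succ.succ) =
          Set.range z := by
        rw [← Set.range_comp]
        congr 1
        rw [hz]
        funext i
        exact hσK _ (hxmem _)
      rw [h2] at h1
      exact h1
    have hσw : IsAlgebraic ↥(IntermediateField.adjoin k (Set.range z)) (σ w) := by
      let τ : ↥(IntermediateField.adjoin k (Set.range fun i : Fin (N + 1) => scP p P.x i.succ.succ)) →+*
          ↥(IntermediateField.adjoin k (Set.range z)) :=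
        RingHom.codRestrict ((σ : L →+* AlgebraicClosure L).comp (algebraMap _ L))
          (IntermediateField.adjoin k (Set.range z)) (fun e => hE _ e.2)
      exact halg.ringHom_of_comp_eq τ (σ : L →+* AlgebraicClosure L) τ.injective rfl
    obtain ⟨a, ha0, ha⟩ := value_alg W (IntermediateField.adjoin k (Set.range z))
      (fun w hw h0 => value_rat W z hW2 hW3 w h0 hw) (σ w) ((map_ne_zero σ).2 hw0) hσw
    have haL : algebraMap k L a ≠ 0 := (map_ne_zero _).2 ha0
    have haΩ : algebraMap k (AlgebraicClosure L) a ≠ 0 := (map_ne_zero _).2 ha0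
    refine ⟨a, ha0, ?_⟩
    have h1 : w * (algebraMap k L a)⁻¹ ∈ W.comap (σ : L →+* AlgebraicClosure L) := by
      rw [hmemV, map_mul, map_inv₀, hσk, ← ValuationSubring.valuation_le_one_iff, map_mul, map_inv₀, ha,
        mul_inv_cancel₀ ((map_ne_zero _).2 haΩ)]
    have h2 : w⁻¹ * algebraMap k L a ∈ W.comap (σ : L →+* AlgebraicClosure L) := by
      rw [hmemV, map_mul, map_inv₀, hσk, ← ValuationSubring.valuation_le_one_iff, map_mul, map_inv₀, ha,
        inv_mul_cancel₀ ((map_ne_zero _).2 haΩ)]
    have hva : (W.comap (σ : L →+* AlgebraicClosure L)).valuation (algebraMap k L a) ≠ 0 :=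
      (map_ne_zero _).2 haL
    have hvw : (W.comap (σ : L →+* AlgebraicClosure L)).valuation w ≠ 0 := (map_ne_zero _).2 hw0
    rw [← ValuationSubring.valuation_le_one_iff, map_mul, map_inv₀] at h1 h2
    refine le_antisymm ?_ ?_
    · have h3 := mul_le_mul_left h1 ((W.comap (σ : L →+* AlgebraicClosure L)).valuation (algebraMap k L a))
      rwa [inv_mul_cancel_right₀ hva, one_mul] at h3
    · have h3 := mul_le_mul_right h2 ((W.comap (σ : L →+* AlgebraicClosure L)).valuation w)
      rwa [mul_inv_cancel_left₀ hvw, mul_one] at h3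
  · intro α hα
    have hα' : σ α ∈ W := hα
    obtain ⟨G, hG1, hG2, hG3⟩ := cadp_sep P.funField.toSubfield (σ : L →+* AlgebraicClosure L) W
      (algebraMap ↥P.funField (AlgebraicClosure L)).fieldRange (by
        rintro _ ⟨c, rfl⟩
        exact ⟨(c : L), c.2, σ.commutes c⟩) α hα' (hσ α hα')
    exact ⟨G, fun i => ⟨(hG1 i).1, (hG1 i).2⟩, (hnu _).2 hG2, fun hc => hG3 ((hnu _).1 hc)⟩

end Pool.Agent.HSI
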