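import Mathlib

/-! Powers of `x` on a curve `y ^ p + g(x) = 0`. -/

open Polynomial

namespace Pool.Agent.HSI

private theorem cbi_dvd {Λ κ : Type*} [Field Λ] [Field κ] [Algebra Λ κ] (x y : κ) {p : ℕ}
    (hp : 0 < p) (g : Λ[X]) (hy : y ^ p + aeval x g = 0)
    (hyp : ∀ c : ℕ → Λ[X], ∑ j ∈ Finset.range p, aeval x (c j) * y ^ j = 0 →
      ∀ j ∈ Finset.range p, c j = 0)
    (P : Λ[X][X]) (hP : aevalAeval x y P = 0) : (X ^ p + C g : Λ[X][X]) ∣ P := by
  have hm : (X ^ p + C g : Λ[X][X]).Monic := monic_X_pow_add_C g hp.ne'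
  have hn : (X ^ p + C g : Λ[X][X]).natDegree = p := natDegree_X_pow_add_C
  rw [← modByMonic_eq_zero_iff_dvd hm]
  obtain ⟨R, hR⟩ : ∃ R, R = P %ₘ (X ^ p + C g : Λ[X][X]) := ⟨_, rfl⟩
  have hlt : R.natDegree < p := by
    have h1 := natDegree_modByMonic_lt P hm (fun h => by
      rw [h, natDegree_one] at hn
      omega)
    rwa [hn, ← hR] at h1
  have hev : aevalAeval x y R = 0 := by
    have h1 := modByMonic_add_div P (X ^ p + C g : Λ[X][X])
    rw [← hR] at h1
    have h2 := congrArg (aevalAeval x y) h1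
    have h3 : aevalAeval x y (X ^ p + C g : Λ[X][X]) = 0 := by
      rw [map_add, map_pow]
      have h4 : aevalAeval x y (X : Λ[X][X]) = y := aevalAeval_Y x y
      have h5 : aevalAeval x y (C g : Λ[X][X]) = aeval x g := aevalAeval_C x y g
      rw [h4, h5, hy]
    rw [map_add, map_mul, h3, zero_mul, add_zero, hP] at h2
    exact h2
  have hsum := R.as_sum_range' p hlt
  have h6 := congrArg (aevalAeval x y) hsum
  rw [hev, map_sum] at h6
  have h7 : ∑ j ∈ Finset.range p, aeval x (R.coeff j) * y ^ j = 0 := by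
    rw [h6]
    refine Finset.sum_congr rfl fun j _ => ?_
    rw [← C_mul_X_pow_eq_monomial, map_mul, map_pow]
    have h4 : aevalAeval x y (X : Λ[X][X]) = y := aevalAeval_Y x y
    have h5 : aevalAeval x y (C (R.coeff j) : Λ[X][X]) = aeval x (R.coeff j) :=
      aevalAeval_C x y _
    rw [h4, h5]
  have h8 := hyp R.coeff h7
  rw [← hR, hsum]
  refine Finset.sum_eq_zero fun j hj => ?_
  rw [h8 j hj, monomial_zero_right]

private theorem cbi_frac {Λ κ : Type*} [Field Λ] [Field κ] [Algebra Λ κ] (y c : κ)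
    (hc : c ∈ IntermediateField.adjoin Λ {y}) :
    ∃ r s : Λ[X], aeval y s ≠ 0 ∧ aeval y s * c = aeval y r := by
  obtain ⟨r, s, h⟩ := (IntermediateField.mem_adjoin_simple_iff Λ c).1 hc
  by_cases hs : aeval y s = 0
  · refine ⟨0, 1, ?_, ?_⟩
    · rw [map_one]
      exact one_ne_zero
    · rw [h, hs, div_zero, mul_zero, map_zero]
  · refine ⟨r, s, hs, ?_⟩
    rw [h, mul_div_cancel₀ _ hs]

theorem pow_indep {Λ κ : Type*} [Field Λ] [Field κ] [Algebra Λ κ] (x y : κ) {D p : ℕ} (hp : 0 < p)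
    (g : Λ[X]) (hg : g.natDegree = D) (hy : y ^ p + aeval x g = 0)
    (hyp : ∀ c : ℕ → Λ[X], ∑ j ∈ Finset.range p, aeval x (c j) * y ^ j = 0 →
      ∀ j ∈ Finset.range p, c j = 0)
    (c : Fin D → κ) (hc : ∀ i, c i ∈ IntermediateField.adjoin Λ {y})
    (h : ∑ i : Fin D, c i * x ^ (i : ℕ) = 0) : ∀ i, c i = 0 := by
  classical
  choose r s hs hrs using fun i => cbi_frac y (c i) (hc i)
  obtain ⟨G, hG⟩ : ∃ G : Fin D → Λ[X], ∀ i, G i = r i * ∏ j ∈ Finset.univ.erase i, s j :=
    ⟨_, fun _ => rfl⟩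
  have hGc : ∀ i, aeval y (∏ j, s j) * c i = aeval y (G i) := by
    intro i
    rw [hG, map_mul, ← hrs i, ← Finset.mul_prod_erase Finset.univ s (Finset.mem_univ i), map_mul]
    ring
  have hq : aeval y (∏ j, s j) ≠ 0 := by
    rw [map_prod]
    exact Finset.prod_ne_zero_iff.2 fun j _ => hs j
  obtain ⟨G', hG'⟩ : ∃ G' : Λ[X][X], G' = ∑ i : Fin D, C (G i) * X ^ (i : ℕ) := ⟨_, rfl⟩
  have hev : aevalAeval y x G' = 0 := by
    have h1 : aevalAeval y x G' = aeval y (∏ j, s j) * ∑ i : Fin D, c i * x ^ (i : ℕ) := by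
      rw [hG', map_sum, Finset.mul_sum]
      refine Finset.sum_congr rfl fun i _ => ?_
      rw [map_mul, map_pow]
      have h4 : aevalAeval y x (X : Λ[X][X]) = x := aevalAeval_Y y x
      have h5 : aevalAeval y x (C (G i) : Λ[X][X]) = aeval y (G i) := aevalAeval_C y x _
      rw [h4, h5, ← hGc, mul_assoc]
    rw [h1, h, mul_zero]
  have hdvd : (X ^ p + C g : Λ[X][X]) ∣ Bivariate.swap G' :=
    cbi_dvd x y hp g hy hyp _ (by rw [Bivariate.aevalAeval_swap, hev])
  obtain ⟨Q, hQ⟩ := hdvd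
  have hQ' : G' = (C (X ^ p) + g.map C) * Bivariate.swap Q := by
    have h1 := congrArg Bivariate.swap hQ
    rw [Bivariate.swap_swap_apply, map_mul, map_add, map_pow] at h1
    rw [h1]
    congr 2
    · have h2 : Bivariate.swap (X : Λ[X][X]) = C X := Bivariate.swap_Y
      rw [h2, C_pow]
    · exact Bivariate.swap_C g
  intro i
  have hD : 0 < D := i.pos
  have hn : (C (X ^ p) + g.map C : Λ[X][X]).natDegree = D := by
    rw [add_comm, natDegree_add_C, natDegree_map_eq_of_injective C_injective, hg]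
  have hne : (C (X ^ p) + g.map C : Λ[X][X]) ≠ 0 := by
    intro h0
    rw [h0, natDegree_zero] at hn
    omega
  have hG0 : G' = 0 := by
    refine eq_zero_of_dvd_of_degree_lt ⟨_, hQ'⟩ ?_
    rw [degree_eq_natDegree hne, hn, hG']
    exact degree_sum_fin_lt G
  have hGi : G i = 0 := by
    have h1 : G'.coeff (i : ℕ) = G i := by
      rw [hG', finsetSum_coeff, Finset.sum_eq_single i]
      · rw [coeff_C_mul, coeff_X_pow, if_pos rfl, mul_one]
      · intro j _ hj
        rw [coeff_C_mul, coeff_X_pow, if_neg (fun h2 => hj (Fin.ext h2.symm)), mul_zero]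
      · intro h2
        exact absurd (Finset.mem_univ i) h2
    rw [← h1, hG0, coeff_zero]
  have h2 := hGc i
  rw [hGi, map_zero] at h2
  exact (mul_eq_zero.1 h2).resolve_left hq

end Pool.Agent.HSI
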