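import Pool.Agent.HSI.CSp
import Pool.Agent.GEL.DerA
import Pool.Agent.GEL.DerB
import Pool.Agent.GEL.DerC

/-!
# Derivations of the residue field

Assembly: a derivation of the purely transcendental subfield, extended to the last coordinate and then to the
separable extension.
-/

open MvPolynomial

namespace Pool.Agent.HSI

private theorem cder_aeval {k₀ E M : Type*} [CommRing k₀] [CommRing E] [Algebra k₀ E] [AddCommGroup M]
    [Module k₀ M] [Module E M] {σ : Type*} [Fintype σ] (δ : Derivation k₀ E M) (x : σ → E)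
    (f : MvPolynomial σ k₀) : δ (aeval x f) = ∑ j, aeval x (pderiv j f) • δ (x j) := by
  classical
  induction f using MvPolynomial.induction_on with
  | C a => simp
  | add p q hp hq =>
    rw [map_add, map_add, hp, hq, ← Finset.sum_add_distrib]
    refine Finset.sum_congr rfl fun j _ => ?_
    rw [map_add, map_add, add_smul]
  | mul_X p i hp =>
    have h1 : ∀ j, aeval x (pderiv j (p * X i)) • δ (x j) =
        x i • (aeval x (pderiv j p) • δ (x j)) + (if j = i then aeval x p • δ (x i) else 0) := by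
      intro j
      rw [pderiv_mul, map_add, map_mul, map_mul, aeval_X, add_smul, mul_comm, mul_smul]
      congr 1
      by_cases h : j = i
      · subst h
        rw [pderiv_X_self, map_one, mul_one, if_pos rfl]
      · rw [pderiv_X_of_ne (Ne.symm h), map_zero, mul_zero, zero_smul, if_neg h]
    rw [Finset.sum_congr rfl fun j _ => h1 j, Finset.sum_add_distrib, ← Finset.smul_sum, ← hp,
      Finset.sum_ite_eq', if_pos (Finset.mem_univ i), map_mul, aeval_X, Derivation.leibniz, add_comm]

theorem der_exists {k₀ κ : Type*} [Field k₀] [Field κ] [Algebra k₀ κ] {p : ℕ} [Fact p.Prime]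
    [CharP κ p] {N : ℕ} (f : MvPolynomial (Fin (N + 2)) k₀) (r : Fin (N + 3) → κ) (hr0 : r 0 = 1)
    (hind : AlgebraicIndependent k₀ fun i : Fin (N + 1) => r i.succ.castSucc)
    (hr : aeval r (spec p f) = 0)
    (hsep : Algebra.IsSeparable ↥(IntermediateField.adjoin k₀ (Set.range r)) κ)
    (v : Fin (N + 2) → κ) (hv0 : v 0 = 0)
    (hv : ∑ j, aeval (fun i : Fin (N + 2) => r i.castSucc) (pderiv j f) * v j = 0) :
    ∃ D : Derivation k₀ κ κ, ∀ j : Fin (N + 2), D (r j.castSucc) = v j := by
  obtain ⟨x, hx⟩ : ∃ x : Fin (N + 2) → κ, x = fun i => r i.castSucc := ⟨_, rfl⟩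
  have hxa : ∀ i, x i = r i.castSucc := fun i => by rw [hx]
  obtain ⟨y, hy⟩ : ∃ y, y = r (Fin.last (N + 2)) := ⟨_, rfl⟩
  have hx0 : x 0 = 1 := by
    rw [hxa, Fin.castSucc_zero, hr0]
  rw [← hx] at hv
  have hyp : y ^ p = -aeval x f := by
    rw [aeval_spec, hr0, one_pow, one_mul, ← hx, ← hy] at hr
    exact eq_neg_of_add_eq_zero_left hr
  have hmain : ∃ (E : IntermediateField k₀ κ)
      (_ : E = IntermediateField.adjoin k₀ (Set.range fun i : Fin (N + 1) => x i.succ))
      (δ : Derivation k₀ E κ), ∀ (i : Fin (N + 1)) (h : x i.succ ∈ E), δ ⟨x i.succ, h⟩ = v i.succ := by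
    have hind' : AlgebraicIndependent k₀ fun i : Fin (N + 1) => x i.succ := by
      rw [hx]
      exact hind
    obtain ⟨δ, hδ⟩ := GEL.der_pure (fun i : Fin (N + 1) => x i.succ) hind' fun i : Fin (N + 1) => v i.succ
    exact ⟨_, rfl, δ, fun i _ => hδ i⟩
  obtain ⟨E, hE, δ, hδ⟩ := hmain
  have hxE : ∀ j, x j ∈ E := by
    intro j
    refine Fin.cases ?_ (fun i => ?_) j
    · rw [hx0]
      exact E.one_mem
    · rw [hE]
      exact IntermediateField.subset_adjoin k₀ _ ⟨i, rfl⟩
  have hδx : ∀ j, δ ⟨x j, hxE j⟩ = v j := by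
    intro j
    refine Fin.cases ?_ (fun i => ?_) j
    · have h1 : (⟨x 0, hxE 0⟩ : E) = 1 := Subtype.ext hx0
      rw [h1, Derivation.map_one_eq_zero, hv0]
    · exact hδ i _
  obtain ⟨z, hz⟩ : ∃ z : Fin (N + 2) → E, z = fun j => ⟨x j, hxE j⟩ := ⟨_, rfl⟩
  have hzx : ∀ g : MvPolynomial (Fin (N + 2)) k₀, ((aeval z g : E) : κ) = aeval x g := by
    intro g
    have h1 := MvPolynomial.aeval_algebraMap_apply (A := E) κ z g
    have h2 : (algebraMap E κ ∘ z) = x := by
      rw [hz]
      rfl
    rw [h2] at h1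
    exact h1.symm
  have hb : y ^ p = ((-aeval z f : E) : κ) := by
    rw [hyp, ← hzx f]
    rfl
  have hδb : δ (-aeval z f) = 0 := by
    rw [map_neg, cder_aeval, neg_eq_zero, ← hv]
    refine Finset.sum_congr rfl fun j _ => ?_
    have h1 : δ (z j) = v j := by
      rw [hz]
      exact hδx j
    rw [h1, Algebra.smul_def]
    congr 1
    exact hzx _
  obtain ⟨δ₁, hδ₁⟩ := GEL.ext_insep E δ y _ hb hδb
  have hEq : E ⊔ IntermediateField.adjoin k₀ {y} = IntermediateField.adjoin k₀ (Set.range r) := by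
    apply le_antisymm
    · refine sup_le ?_ ?_
      · rw [hE, IntermediateField.adjoin_le_iff]
        rintro _ ⟨i, rfl⟩
        refine IntermediateField.subset_adjoin k₀ _ ⟨i.succ.castSucc, ?_⟩
        rw [← hxa]
      · rw [IntermediateField.adjoin_le_iff]
        rintro z hz
        rw [Set.mem_singleton_iff] at hz
        rw [hz, hy]
        exact IntermediateField.subset_adjoin k₀ _ ⟨_, rfl⟩
    · rw [IntermediateField.adjoin_le_iff]
      rintro _ ⟨j, rfl⟩
      refine Fin.lastCases ?_ (fun i => ?_) j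
      · rw [← hy]
        exact (le_sup_right : IntermediateField.adjoin k₀ {y} ≤ _)
          (IntermediateField.subset_adjoin k₀ _ (Set.mem_singleton y))
      · rw [← hxa]
        exact (le_sup_left : E ≤ E ⊔ IntermediateField.adjoin k₀ {y}) (hxE i)
  rw [← hEq] at hsep
  obtain ⟨D, hD⟩ := GEL.ext_sep δ₁
  refine ⟨D, fun j => ?_⟩
  rw [← hxa, ← hδx j, ← hδ₁ (x j) (hxE j)]
  exact hD ⟨x j, _⟩

end Pool.Agent.HSI
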