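import Pool.Agent.HSI.CSp

/-!
# The coefficients of the reduction are algebraically independent over the prime field

PLAN. `algebraicIndependent_iff`. Let `G : MvPolynomial S (ZMod p)` with `aeval (coeff · f) G = 0`, and `g : MvPolynomial S ℤ` with
`map (Int.castRingHom (ZMod p)) g = G` (`map_surjective`, `ZMod.intCast_surjective`). Put `c m = coeff (m.1.mapDomain castSucc) (scF p F)`. The
element `aeval c g` of `k` is in `V₀` and its image in `L` has the residue `aeval (residues) g = algebraMap (aeval (coeff · f) G) = 0`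
(`hf` and `coeff_spec_castSucc`; the residue map is a ring homomorphism `V → ResidueField V`, and `g` has integral
coefficients: compare `eval₂` along `ℤ → V → ResidueField V` and `ℤ → ZMod p → K0 k V → ResidueField V`, equal because a ring homomorphism from
`ℤ` is unique). So `aeval c g ∈ V₀.nonunits`, `hg` gives `p ∣ coeff μ g` for all `μ`, and `G = 0`.
-/

open MvPolynomial

universe u

namespace Pool.Agent.HSI

private theorem nonunits_comap {k : Type u} [Field k] {L : Type u} [Field L] [Algebra k L]
    (V : ValuationSubring L) (z : k) (hz : algebraMap k L z ∈ V.nonunits) :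
    z ∈ (V.comap (algebraMap k L)).nonunits := by
  rw [ValuationSubring.mem_nonunits_iff] at hz ⊢
  by_contra h
  rw [not_lt] at h
  have h1 : (V.comap (algebraMap k L)).valuation z⁻¹ ≤ 1 := by
    rw [map_inv₀]
    exact inv_le_one_of_one_le₀ h
  rw [ValuationSubring.valuation_le_one_iff, ValuationSubring.mem_comap, map_inv₀,
    ← ValuationSubring.valuation_le_one_iff, map_inv₀] at h1
  have hz0 : z ≠ 0 := by
    rintro rfl
    rw [map_zero] at h
    exact absurd h (not_le.mpr zero_lt_one)
  have h2 : V.valuation (algebraMap k L z) ≠ 0 := by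
    rw [Valuation.ne_zero_iff]
    exact (map_ne_zero _).mpr hz0
  have h3 : 1 ≤ V.valuation (algebraMap k L z) := by
    rwa [inv_le_one₀ (zero_lt_iff.mpr h2)] at h1
  exact absurd hz (not_lt.mpr h3)

theorem f_indep {k : Type u} [Field k] {N p : ℕ} [Fact p.Prime]
    (F : MvPolynomial (Fin (N + 3)) k) (V₀ : ValuationSubring k)
    (hg : ∀ g : MvPolynomial {m : Fin (N + 2) →₀ ℕ // m.degree = N + 2} ℤ,
      aeval (fun m => coeff (m.1.mapDomain Fin.castSucc) (scF p F)) g ∈ V₀.nonunits →
        ∀ μ, (p : ℤ) ∣ coeff μ g)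
    {L : Type u} [Field L] [Algebra k L] (V : ValuationSubring L)
    (hV : V.comap (algebraMap k L) = V₀) (mem : ∀ m, algebraMap k L (coeff m (scF p F)) ∈ V)
    [Algebra (ZMod p) (K0 k V)] (f : MvPolynomial (Fin (N + 2)) (K0 k V))
    (hf : ∀ m, IsLocalRing.residue V ⟨algebraMap k L (coeff m (scF p F)), mem m⟩ =
      algebraMap (K0 k V) (IsLocalRing.ResidueField V) (coeff m (spec p f))) :
    AlgebraicIndependent (ZMod p)
      fun m : {m : Fin (N + 2) →₀ ℕ // m.degree = N + 2} => coeff m.1 f := by
  have hp : 0 < p := (Fact.out : p.Prime).pos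
  rw [algebraicIndependent_iff]
  intro G hG
  obtain ⟨g, rfl⟩ := MvPolynomial.map_surjective (Int.castRingHom (ZMod p))
    (by intro a; obtain ⟨b, hb⟩ := ZMod.intCast_surjective a; exact ⟨b, by simpa using hb⟩) G
  set c : {m : Fin (N + 2) →₀ ℕ // m.degree = N + 2} → V := fun m =>
    ⟨algebraMap k L (coeff (m.1.mapDomain Fin.castSucc) (scF p F)), mem _⟩ with hc
  have e1 : ((IsLocalRing.residue V).comp (eval₂Hom (Int.castRingHom V) c)) =
      (algebraMap (K0 k V) (IsLocalRing.ResidueField V)).comp
        ((aeval (R := ZMod p) (fun m : {m : Fin (N + 2) →₀ ℕ // m.degree = N + 2} =>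
          coeff m.1 f)).toRingHom.comp (map (Int.castRingHom (ZMod p)))) := by
    refine MvPolynomial.ringHom_ext' (Subsingleton.elim _ _) (fun m => ?_)
    have h1 : (algebraMap (K0 k V) (IsLocalRing.ResidueField V)).comp
        ((aeval (R := ZMod p) (fun m : {m : Fin (N + 2) →₀ ℕ // m.degree = N + 2} =>
          coeff m.1 f)).toRingHom.comp (map (Int.castRingHom (ZMod p)))) (X m) =
        algebraMap (K0 k V) (IsLocalRing.ResidueField V) (coeff m.1 f) := by
      rw [RingHom.comp_apply, RingHom.comp_apply, map_X]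
      congr 1
      exact aeval_X _ _
    rw [h1, RingHom.comp_apply, coe_eval₂Hom, eval₂_X, hc, hf, coeff_spec_castSucc f hp]
  have e2 : (V.subtype).comp (eval₂Hom (Int.castRingHom V) c) =
      (algebraMap k L).comp (aeval (R := ℤ) (fun m : {m : Fin (N + 2) →₀ ℕ // m.degree = N + 2} =>
        coeff (m.1.mapDomain Fin.castSucc) (scF p F))).toRingHom := by
    refine MvPolynomial.ringHom_ext' (Subsingleton.elim _ _) (fun m => ?_)
    rw [RingHom.comp_apply, RingHom.comp_apply, coe_eval₂Hom, eval₂_X]
    have h2 : (aeval (R := ℤ) (fun m : {m : Fin (N + 2) →₀ ℕ // m.degree = N + 2} =>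
        coeff (m.1.mapDomain Fin.castSucc) (scF p F))).toRingHom (X m) =
        coeff (m.1.mapDomain Fin.castSucc) (scF p F) := aeval_X _ _
    rw [h2]
    rfl
  have h3 : IsLocalRing.residue V (eval₂Hom (Int.castRingHom V) c g) = 0 := by
    have h := RingHom.congr_fun e1 g
    rw [RingHom.comp_apply, RingHom.comp_apply, RingHom.comp_apply] at h
    rw [h]
    have h4 : (aeval (R := ZMod p) (fun m : {m : Fin (N + 2) →₀ ℕ // m.degree = N + 2} =>
          coeff m.1 f)).toRingHom (map (Int.castRingHom (ZMod p)) g) = 0 := hG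
    rw [h4, map_zero]
  have h5 : algebraMap k L (aeval (fun m : {m : Fin (N + 2) →₀ ℕ // m.degree = N + 2} =>
      coeff (m.1.mapDomain Fin.castSucc) (scF p F)) g) ∈ V.nonunits := by
    have h := RingHom.congr_fun e2 g
    rw [RingHom.comp_apply, RingHom.comp_apply] at h
    have h6 : (V.subtype (eval₂Hom (Int.castRingHom V) c g)) ∈ V.nonunits := by
      rw [IsLocalRing.residue_eq_zero_iff] at h3
      exact ValuationSubring.coe_mem_nonunits_iff.mpr h3
    rw [h] at h6
    exact h6
  have h7 := nonunits_comap V _ h5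
  rw [hV] at h7
  have h8 := hg g h7
  ext μ
  rw [coeff_map, coeff_zero]
  simpa using (ZMod.intCast_zmod_eq_zero_iff_dvd _ _).mpr (h8 μ)

end Pool.Agent.HSI
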