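import Pool.Agent.HSI.Tools

/-! The equation of the special fibre (project HSI). -/

open MvPolynomial

namespace Pool.Agent.HSI

variable {k₀ : Type*} [CommRing k₀] {N p : ℕ} (f : MvPolynomial (Fin (N + 2)) k₀)

private theorem csp_eq : spec p f = monomial (Finsupp.single 0 (N + 2 - p) +
    Finsupp.single (Fin.last (N + 2)) p) 1 + rename Fin.castSucc f := by
  unfold spec
  rw [X_pow_eq_monomial, X_pow_eq_monomial, monomial_mul, one_mul]

private theorem csp_last (m : Fin (N + 2) →₀ ℕ) :
    (m.mapDomain Fin.castSucc) (Fin.last (N + 2)) = 0 := by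
  refine Finsupp.mapDomain_notin_range _ _ ?_
  rintro ⟨i, hi⟩
  exact (Fin.castSucc_lt_last i).ne hi

private theorem csp_top_last : (Finsupp.single (0 : Fin (N + 3)) (N + 2 - p) +
    Finsupp.single (Fin.last (N + 2)) p) (Fin.last (N + 2)) = p := by
  have h : (0 : Fin (N + 3)) ≠ Fin.last (N + 2) := by
    intro h
    have := congrArg Fin.val h
    simp at this
  rw [Finsupp.add_apply, Finsupp.single_eq_same, Finsupp.single_apply, if_neg h, zero_add]

private theorem csp_ren (m : Fin (N + 3) →₀ ℕ) (h : m (Fin.last (N + 2)) ≠ 0) :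
    coeff m (rename Fin.castSucc f) = 0 := by
  refine coeff_rename_eq_zero _ _ _ ?_
  intro u hu
  exfalso
  apply h
  rw [← hu, csp_last]

theorem coeff_spec_castSucc (hp : 0 < p) (m : Fin (N + 2) →₀ ℕ) :
    coeff (m.mapDomain Fin.castSucc) (spec p f) = coeff m f := by
  rw [csp_eq, coeff_add, coeff_monomial, if_neg, zero_add,
    coeff_rename_mapDomain _ (Fin.castSucc_injective _)]
  intro h
  have h1 := DFunLike.congr_fun h (Fin.last (N + 2))
  rw [csp_last, csp_top_last] at h1
  omega

theorem coeff_spec_top (hp : 0 < p) :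
    coeff (Finsupp.single 0 (N + 2 - p) + Finsupp.single (Fin.last (N + 2)) p) (spec p f) = 1 := by
  rw [csp_eq, coeff_add, coeff_monomial, if_pos rfl, csp_ren, add_zero]
  rw [csp_top_last]
  omega

theorem coeff_spec_other (m : Fin (N + 3) →₀ ℕ) (h : m (Fin.last (N + 2)) ≠ 0)
    (hm : m ≠ Finsupp.single 0 (N + 2 - p) + Finsupp.single (Fin.last (N + 2)) p) :
    coeff m (spec p f) = 0 := by
  rw [csp_eq, coeff_add, coeff_monomial, if_neg (fun h' => hm h'.symm), csp_ren _ _ h, add_zero]

theorem spec_isHomogeneous (hpN : p ≤ N + 2) (hf : f.IsHomogeneous (N + 2)) :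
    (spec p f).IsHomogeneous (N + 2) := by
  unfold spec
  refine IsHomogeneous.add ?_ ?_
  · have h1 := ((isHomogeneous_X k₀ (0 : Fin (N + 3))).pow (N + 2 - p)).mul
      ((isHomogeneous_X k₀ (Fin.last (N + 2))).pow p)
    have h2 : 1 * (N + 2 - p) + 1 * p = N + 2 := by omega
    rwa [h2] at h1
  · exact hf.rename_isHomogeneous

theorem aeval_spec {A : Type*} [CommRing A] [Algebra k₀ A] (r : Fin (N + 3) → A) :
    aeval r (spec p f) = r 0 ^ (N + 2 - p) * r (Fin.last (N + 2)) ^ p +
      aeval (fun i : Fin (N + 2) => r i.castSucc) f := by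
  unfold spec
  rw [map_add, map_mul, map_pow, map_pow, aeval_X, aeval_X, aeval_rename]
  rfl

end Pool.Agent.HSI
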