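import Pool.Agent.HSI.DIna
import Pool.Agent.HSI.CSp

/-!
# The coordinates `x_1, …, x_(N+1)` of the reduction are algebraically independent

The algebraically independent elements `x_2, …, x_(N+1), y` are algebraic over the field generated by
`x_1, …, x_(N+1)`, as `y ^ p = - f(1, x_1, …, x_(N+1))`.
-/

open MvPolynomial

namespace Pool.Agent.HSI

private theorem cinx_mem {k₀ κ : Type*} [Field k₀] [Field κ] [Algebra k₀ κ] (K : IntermediateField k₀ κ) {n : ℕ}
    (x : Fin n → κ) (hx : ∀ i, x i ∈ K) (f : MvPolynomial (Fin n) k₀) : aeval x f ∈ K := by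
  have h1 : aeval (fun i => algebraMap K κ ⟨x i, hx i⟩) f =
      algebraMap K κ (aeval (fun i => (⟨x i, hx i⟩ : K)) f) :=
    MvPolynomial.aeval_algebraMap_apply κ _ f
  have h2 : aeval x f = algebraMap K κ (aeval (fun i => (⟨x i, hx i⟩ : K)) f) := h1
  rw [h2]
  exact (aeval (fun i => (⟨x i, hx i⟩ : K)) f).2

private theorem cinx_alg {k₀ κ : Type*} [Field k₀] [Field κ] [Algebra k₀ κ] (K : IntermediateField k₀ κ)
    (z : κ) (hz : z ∈ K) : IsAlgebraic K z :=
  isAlgebraic_algebraMap (⟨z, hz⟩ : K)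

theorem indep_x {k₀ κ : Type*} [Field k₀] [Field κ] [Algebra k₀ κ] {N p : ℕ} (hp : 0 < p)
    (f : MvPolynomial (Fin (N + 2)) k₀) (r : Fin (N + 3) → κ) (hr0 : r 0 = 1)
    (hrz : AlgebraicIndependent k₀ fun i : Fin (N + 1) => r i.succ.succ)
    (hr : aeval r (spec p f) = 0) :
    AlgebraicIndependent k₀ fun i : Fin (N + 1) => r i.succ.castSucc := by
  have hb : ∀ j : Fin (N + 1), r j.succ.castSucc ∈
      IntermediateField.adjoin k₀ (Set.range fun i : Fin (N + 1) => r i.succ.castSucc) :=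
    fun j => IntermediateField.subset_adjoin _ _ ⟨j, rfl⟩
  have hall : ∀ i : Fin (N + 2), r i.castSucc ∈
      IntermediateField.adjoin k₀ (Set.range fun i : Fin (N + 1) => r i.succ.castSucc) := by
    intro i
    refine Fin.cases ?_ (fun j => hb j) i
    rw [Fin.castSucc_zero, hr0]
    exact one_mem _
  refine indep_of_alg (fun i : Fin (N + 1) => r i.succ.succ) (fun i : Fin (N + 1) => r i.succ.castSucc) hrz ?_
  intro i
  show IsAlgebraic ↥(IntermediateField.adjoin k₀ (Set.range fun i : Fin (N + 1) => r i.succ.castSucc)) (r i.succ.succ)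
  obtain ⟨z, hz⟩ : ∃ z, z = r i.succ.succ := ⟨_, rfl⟩
  rw [← hz]
  rcases Fin.eq_castSucc_or_eq_last i with ⟨j, rfl⟩ | rfl
  · rw [Fin.succ_castSucc, Fin.succ_castSucc] at hz
    rw [hz]
    exact cinx_alg _ _ (hb j.succ)
  · have h1 : z ^ p = - aeval (fun i : Fin (N + 2) => r i.castSucc) f := by
      rw [aeval_spec, hr0, one_pow, one_mul] at hr
      rw [hz, Fin.succ_last, Fin.succ_last]
      exact eq_neg_of_add_eq_zero_left hr
    have h2 : IsAlgebraic ↥(IntermediateField.adjoin k₀ (Set.range fun i : Fin (N + 1) => r i.succ.castSucc))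
        (z ^ p) := by
      rw [h1]
      exact cinx_alg _ _ (neg_mem (cinx_mem _ _ hall f))
    exact h2.of_pow hp

end Pool.Agent.HSI
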