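import Pool.Agent.HSI.Tools

/-!
# Independent rows

The minor `GEL.mnr (rows D x) i₀.succ` is not zero.
-/

namespace Pool.Agent.HSI

theorem nd_of {k₀ κ : Type*} [CommRing k₀] [Field κ] [Algebra k₀ κ] {N : ℕ}
    (D : Fin N → Derivation k₀ κ κ) (x : Fin (N + 2) → κ) (hx0 : x 0 = 1) (g : Fin (N + 1) → κ)
    (i₀ : Fin (N + 1)) (hg : g i₀ ≠ 0)
    (hD : ∀ l j, D l (x j) = g i₀ * (Pi.single (i₀.succAbove l).succ (1 : κ) : Fin (N + 2) → κ) j -
      g (i₀.succAbove l) * (Pi.single i₀.succ (1 : κ) : Fin (N + 2) → κ) j) : ND D x := by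
  refine ⟨i₀.succ, fun hdet => ?_⟩
  obtain ⟨v, hv, hvM⟩ := Matrix.exists_vecMul_eq_zero_iff.2 hdet
  have key : ∀ i : Fin (N + 2), v 0 * (Pi.single i₀.succ (1 : κ) : Fin (N + 2) → κ) i +
      (v 1 * x i + ∑ l : Fin N, v l.succ.succ * D l (x i)) = 0 := by
    intro i
    have h2 := congrFun hvM i
    change ∑ k, v k * (Matrix.of (Fin.cons (Pi.single i₀.succ (1 : κ)) (rows D x) :
      Fin (N + 2) → Fin (N + 2) → κ)) k i = 0 at h2
    rw [Fin.sum_univ_succ, Fin.sum_univ_succ] at h2
    exact h2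
  have hv1 : v 1 = 0 := by
    have h := key 0
    have h1 : ∑ l : Fin N, v l.succ.succ * D l (x 0) = 0 := by
      refine Finset.sum_eq_zero fun l _ => ?_
      rw [hD, Pi.single_eq_of_ne (Fin.succ_ne_zero _).symm,
        Pi.single_eq_of_ne (Fin.succ_ne_zero _).symm, mul_zero, mul_zero, sub_zero, mul_zero]
    rw [Pi.single_eq_of_ne (Fin.succ_ne_zero _).symm, mul_zero, zero_add, h1, add_zero, hx0,
      mul_one] at h
    exact h
  have hvl : ∀ l : Fin N, v l.succ.succ = 0 := by
    intro l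
    have h := key (i₀.succAbove l).succ
    have hne : (i₀.succAbove l).succ ≠ i₀.succ := fun h0 =>
      Fin.succAbove_ne i₀ l (Fin.succ_injective _ h0)
    have h1 : ∑ l' : Fin N, v l'.succ.succ * D l' (x (i₀.succAbove l).succ) =
        v l.succ.succ * g i₀ := by
      rw [Finset.sum_eq_single l]
      · rw [hD, Pi.single_eq_same, Pi.single_eq_of_ne hne, mul_one, mul_zero, sub_zero]
      · intro l' _ hl'
        have hne' : (i₀.succAbove l).succ ≠ (i₀.succAbove l').succ := fun h0 =>
          hl' (Fin.succAbove_right_injective (Fin.succ_injective _ h0)).symm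
        rw [hD, Pi.single_eq_of_ne hne', Pi.single_eq_of_ne hne, mul_zero, mul_zero, sub_zero,
          mul_zero]
      · intro h5
        exact absurd (Finset.mem_univ l) h5
    rw [Pi.single_eq_of_ne hne, mul_zero, zero_add, hv1, zero_mul, zero_add, h1] at h
    exact (mul_eq_zero.1 h).resolve_right hg
  have hv0 : v 0 = 0 := by
    have h := key i₀.succ
    have h1 : ∑ l : Fin N, v l.succ.succ * D l (x i₀.succ) = 0 :=
      Finset.sum_eq_zero fun l _ => by rw [hvl l, zero_mul]
    rw [h1, hv1, zero_mul, add_zero, add_zero, Pi.single_eq_same, mul_one] at h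
    exact h
  apply hv
  funext k
  refine Fin.cases hv0 (fun k => ?_) k
  refine Fin.cases hv1 (fun l => ?_) k
  exact hvl l

end Pool.Agent.HSI
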