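import Pool.Agent.HSI.CSp
import Pool.Agent.GEL.DerC

/-!
# The powers of `y` are independent over `k₀(x)`

PLAN. Let `E = IntermediateField.adjoin k₀ (Set.range fun i : Fin (N + 1) => x i.succ)` (as `x 0 = 1`, it is equal to
`IntermediateField.adjoin k₀ (Set.range x)`). `y ^ p = - aeval x f ∈ E`. Claim `y ∉ E`: by `GEL.der_pure` there is a derivation `δ` of `E` into
`κ` over `k₀` with `δ (x i.succ) = 1` for `i = i₀` and `0` otherwise (and `δ (x 0) = δ 1 = 0`). If `y ∈ E` then
`δ (y ^ p) = p y ^ (p - 1) δ y = 0`, but `δ (aeval x f) = ∑ j, aeval x (pderiv j f) * δ (x j)` (`Derivation` and `aeval`: induction on `f`, or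
`Pool/Agent/GEL/DerD.lean`, which does this for `kl`) `= aeval x (pderiv i₀.succ f) ≠ 0`. Now the statement is the private theorem `indep` of
`Pool/Agent/GEL/GIns.lean` (copy it): `T ^ p - y ^ p` is irreducible over `E` (`X_pow_sub_C_irreducible_of_prime`; a `p`-th root of `y ^ p` in `E` is
equal to `y` in characteristic `p`).
-/

open MvPolynomial

namespace Pool.Agent.HSI

private theorem cnp_indep {κ : Type*} [Field κ] {p : ℕ} [Fact p.Prime] [CharP κ p] (E : Subfield κ)
    (y : κ) (hy : y ^ p ∈ E) (h : y ∉ E) (c : ℕ → κ) (hc : ∀ i, c i ∈ E)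
    (h0 : ∑ i ∈ Finset.range p, c i * y ^ i = 0) : ∀ i ∈ Finset.range p, c i = 0 := by
  have hp : p.Prime := Fact.out
  set q : Polynomial E := Polynomial.X ^ p - Polynomial.C ⟨y ^ p, hy⟩ with hq
  have hqm : q.Monic := Polynomial.monic_X_pow_sub_C _ hp.ne_zero
  have hqr : Polynomial.aeval y q = 0 := by
    rw [hq, map_sub, map_pow, Polynomial.aeval_X, Polynomial.aeval_C]
    exact sub_self _
  have hirr : Irreducible q := by
    apply X_pow_sub_C_irreducible_of_prime hp
    intro b hb
    apply h
    have h1 : (b : κ) ^ p = y ^ p := congrArg (Subtype.val) hb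
    have h2 : ((b : κ) - y) ^ p = 0 := by
      rw [sub_pow_char (b : κ) y, h1, sub_self]
    have h3 : (b : κ) = y := sub_eq_zero.1 (pow_eq_zero_iff hp.ne_zero |>.1 h2)
    rw [← h3]
    exact b.2
  have hmin : minpoly E y = q := (minpoly.eq_of_irreducible_of_monic hirr hqr hqm).symm
  set Q : Polynomial E := ∑ i ∈ Finset.range p, Polynomial.monomial i (⟨c i, hc i⟩ : E) with hQ
  have hQc : ∀ i ∈ Finset.range p, Q.coeff i = ⟨c i, hc i⟩ := by
    intro i hi
    rw [hQ, Polynomial.finsetSum_coeff]
    simp only [Polynomial.coeff_monomial]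
    rw [Finset.sum_ite_eq' (Finset.range p) i, if_pos hi]
  have hQd : Q.degree < p := by
    rw [hQ]
    refine lt_of_le_of_lt (Polynomial.degree_sum_le _ _) ?_
    rw [Finset.sup_lt_iff (by exact WithBot.bot_lt_coe p)]
    intro i hi
    refine lt_of_le_of_lt (Polynomial.degree_monomial_le _ _) ?_
    exact_mod_cast Finset.mem_range.1 hi
  have hQr : Polynomial.aeval y Q = 0 := by
    rw [hQ, map_sum, ← h0]
    refine Finset.sum_congr rfl fun i _ => ?_
    rw [Polynomial.aeval_monomial]
    rfl
  have hQ0 : Q = 0 := by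
    by_contra hne
    have h1 := minpoly.degree_le_of_ne_zero E y hne hQr
    rw [hmin, hq, Polynomial.degree_X_pow_sub_C hp.pos] at h1
    exact absurd (lt_of_le_of_lt h1 hQd) (lt_irrefl _)
  intro i hi
  have h1 := hQc i hi
  rw [hQ0, Polynomial.coeff_zero] at h1
  exact (congrArg (Subtype.val) h1).symm

theorem y_pow_indep {k₀ κ : Type*} [Field k₀] [Field κ] [Algebra k₀ κ] {p : ℕ} [Fact p.Prime]
    [CharP κ p] {N : ℕ} (f : MvPolynomial (Fin (N + 2)) k₀) (x : Fin (N + 2) → κ) (y : κ)
    (hx0 : x 0 = 1) (hind : AlgebraicIndependent k₀ fun i : Fin (N + 1) => x i.succ)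
    (hy : y ^ p + aeval x f = 0) (i₀ : Fin (N + 1)) (hi₀ : aeval x (pderiv i₀.succ f) ≠ 0)
    (c : ℕ → κ) (hc : ∀ i, c i ∈ IntermediateField.adjoin k₀ (Set.range x))
    (h : ∑ i ∈ Finset.range p, c i * y ^ i = 0) : ∀ i ∈ Finset.range p, c i = 0 := by
  classical
  have hle : IntermediateField.adjoin k₀ (Set.range x) ≤
      IntermediateField.adjoin k₀ (Set.range fun i : Fin (N + 1) => x i.succ) := by
    rw [IntermediateField.adjoin_le_iff]
    rintro _ ⟨i, rfl⟩
    refine Fin.cases ?_ (fun j => ?_) i
    · show x 0 ∈ _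
      rw [hx0]
      exact one_mem _
    · exact IntermediateField.subset_adjoin k₀ _ ⟨j, rfl⟩
  have hp : p.Prime := Fact.out
  have hxE : ∀ i, x i ∈ IntermediateField.adjoin k₀ (Set.range fun i : Fin (N + 1) => x i.succ) :=
    fun i => hle (IntermediateField.subset_adjoin k₀ _ ⟨i, rfl⟩)
  let x' : Fin (N + 2) → ↥(IntermediateField.adjoin k₀ (Set.range fun i : Fin (N + 1) => x i.succ)) :=
    fun i => ⟨x i, hxE i⟩
  have hcoe : ∀ g : MvPolynomial (Fin (N + 2)) k₀, ((aeval x' g :
      ↥(IntermediateField.adjoin k₀ (Set.range fun i : Fin (N + 1) => x i.succ))) : κ) = aeval x g := by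
    intro g
    exact MvPolynomial.comp_aeval_apply x'
      (IntermediateField.adjoin k₀ (Set.range fun i : Fin (N + 1) => x i.succ)).val g
  have hyf : y ^ p = -aeval x f := eq_neg_of_add_eq_zero_left hy
  have hyE : y ^ p ∈ IntermediateField.adjoin k₀ (Set.range fun i : Fin (N + 1) => x i.succ) := by
    rw [hyf, ← hcoe]
    exact neg_mem (aeval x' f).2
  have hyn : y ∉ IntermediateField.adjoin k₀ (Set.range fun i : Fin (N + 1) => x i.succ) := by
    intro hyy
    obtain ⟨δ, hδ⟩ := GEL.der_pure (fun i : Fin (N + 1) => x i.succ) hind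
      (fun i => if i = i₀ then 1 else 0)
    have hδ0 : δ (x' 0) = 0 := by
      have h1 : x' 0 = 1 := Subtype.ext hx0
      rw [h1, Derivation.map_one_eq_zero]
    have hδs : ∀ i : Fin (N + 1), δ (x' i.succ) = if i = i₀ then 1 else 0 := fun i => hδ i
    have key : ∀ g : MvPolynomial (Fin (N + 2)) k₀,
        δ (aeval x' g) = ∑ j, aeval x (pderiv j g) * δ (x' j) := by
      intro g
      induction g using MvPolynomial.induction_on with
      | C a =>
        rw [aeval_C, Derivation.map_algebraMap]
        symm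
        refine Finset.sum_eq_zero fun j _ => ?_
        rw [pderiv_C, map_zero, zero_mul]
      | add g g' h1 h2 =>
        rw [map_add, map_add, h1, h2, ← Finset.sum_add_distrib]
        refine Finset.sum_congr rfl fun j _ => ?_
        rw [map_add, map_add, add_mul]
      | mul_X g n h1 =>
        rw [map_mul, aeval_X, Derivation.leibniz, h1, IntermediateField.smul_def,
          IntermediateField.smul_def, smul_eq_mul, smul_eq_mul, hcoe]
        have h2 : ∀ j, aeval x (pderiv j (g * X n)) * δ (x' j) =
            x n * (aeval x (pderiv j g) * δ (x' j)) + (if n = j then aeval x g * δ (x' n) else 0) := by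
          intro j
          rw [pderiv_mul, map_add, map_mul, map_mul, aeval_X, pderiv_X]
          by_cases hj : n = j
          · subst hj
            rw [Pi.single_eq_same, map_one, if_pos rfl]
            ring
          · rw [Pi.single_eq_of_ne hj, map_zero, if_neg hj]
            ring
        rw [Finset.sum_congr rfl fun j _ => h2 j, Finset.sum_add_distrib, ← Finset.mul_sum,
          Finset.sum_ite_eq Finset.univ n, if_pos (Finset.mem_univ _), add_comm]
    have h1 : (⟨y, hyy⟩ : ↥(IntermediateField.adjoin k₀ (Set.range fun i : Fin (N + 1) => x i.succ))) ^ p =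
        -aeval x' f := by
      apply Subtype.ext
      show y ^ p = -((aeval x' f :
        ↥(IntermediateField.adjoin k₀ (Set.range fun i : Fin (N + 1) => x i.succ))) : κ)
      rw [hcoe]
      exact hyf
    have h2 := congrArg δ h1
    rw [Derivation.leibniz_pow, map_neg, key, ← Nat.cast_smul_eq_nsmul κ, CharP.cast_eq_zero, zero_smul,
      Fin.sum_univ_succ, hδ0, mul_zero, zero_add] at h2
    rw [Finset.sum_congr rfl fun i _ => by rw [hδs i], Finset.sum_eq_single i₀ (fun b _ hb => by
      rw [if_neg hb, mul_zero]) (fun hb => absurd (Finset.mem_univ _) hb), if_pos rfl, mul_one] at h2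
    exact hi₀ (neg_eq_zero.1 h2.symm)
  exact cnp_indep (IntermediateField.adjoin k₀ (Set.range fun i : Fin (N + 1) => x i.succ)).toSubfield y
    hyE hyn c (fun i => hle (hc i)) h

end Pool.Agent.HSI
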