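import Pool.Agent.HSI.CBi
import Pool.Agent.HSI.CNp

/-! The powers of `x_1` are independent over the field generated by the other coordinates. -/

open MvPolynomial

namespace Pool.Agent.HSI
private theorem cpow_spec {k₀ A : Type*} [CommRing k₀] [CommRing A] [Algebra k₀ A] {N : ℕ} (p : ℕ)
    (f : MvPolynomial (Fin (N + 2)) k₀) (r : Fin (N + 3) → A) :
    aeval r (spec p f) = r 0 ^ (N + 2 - p) * r (Fin.last (N + 2)) ^ p +
      aeval (fun i : Fin (N + 2) => r i.castSucc) f := by
  unfold spec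
  rw [map_add, map_mul, map_pow, map_pow, aeval_X, aeval_X, aeval_rename]
  rfl

private noncomputable def cpowG {k₀ Λ : Type*} [CommRing k₀] [CommRing Λ] [Algebra k₀ Λ] {N : ℕ}
    (w : Fin N → Λ) (f : MvPolynomial (Fin (N + 2)) k₀) : Polynomial Λ :=
  MvPolynomial.aeval (Fin.cons 1 (Fin.cons Polynomial.X fun i => Polynomial.C (w i)) :
    Fin (N + 2) → Polynomial Λ) f

private theorem cpowG_aeval {k₀ Λ κ : Type*} [CommRing k₀] [CommRing Λ] [Algebra k₀ Λ] [CommRing κ]
    [Algebra Λ κ] [Algebra k₀ κ] [IsScalarTower k₀ Λ κ] {N : ℕ} (w : Fin N → Λ)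
    (f : MvPolynomial (Fin (N + 2)) k₀) (x : Fin (N + 2) → κ) (h0 : x 0 = 1)
    (hw : ∀ i : Fin N, algebraMap Λ κ (w i) = x i.succ.succ) :
    Polynomial.aeval (x 1) (cpowG w f) = aeval x f := by
  have h : ((Polynomial.aeval (R := Λ) (x 1)).restrictScalars k₀).comp
      (MvPolynomial.aeval (Fin.cons 1 (Fin.cons Polynomial.X fun i => Polynomial.C (w i)) :
        Fin (N + 2) → Polynomial Λ)) = aeval x := by
    refine MvPolynomial.algHom_ext fun i => ?_
    rw [AlgHom.comp_apply, aeval_X, aeval_X]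
    refine Fin.cases ?_ (fun j => ?_) i
    · rw [Fin.cons_zero, map_one, h0]
    · rw [Fin.cons_succ]
      refine Fin.cases ?_ (fun l => ?_) j
      · rw [Fin.cons_zero]
        exact Polynomial.aeval_X (x 1)
      · rw [Fin.cons_succ]
        have h1 : (Polynomial.aeval (R := Λ) (x 1)) (Polynomial.C (w l)) = algebraMap Λ κ (w l) :=
          Polynomial.aeval_C (x 1) (w l)
        exact h1.trans (hw l)
  exact DFunLike.congr_fun h f

private theorem cpowG_sum {k₀ Λ : Type*} [CommRing k₀] [CommRing Λ] [Algebra k₀ Λ] {N : ℕ}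
    (w : Fin N → Λ) (f : MvPolynomial (Fin (N + 2)) k₀) :
    cpowG w f = ∑ m ∈ f.support, Polynomial.C (algebraMap k₀ Λ (coeff m f) *
      ∏ i : Fin N, w i ^ m i.succ.succ) * Polynomial.X ^ m 1 := by
  unfold cpowG
  rw [aeval_def, eval₂_eq']
  refine Finset.sum_congr rfl fun m _ => ?_
  rw [Fin.prod_univ_succ, Fin.prod_univ_succ]
  simp only [Fin.cons_zero, Fin.cons_succ, one_pow, one_mul]
  have h1 : (Fin.succ 0 : Fin (N + 2)) = 1 := rfl
  rw [h1, map_mul, map_prod]
  have h2 : algebraMap k₀ (Polynomial Λ) (coeff m f) =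
      Polynomial.C (algebraMap k₀ Λ (coeff m f)) := rfl
  rw [h2]
  simp only [map_pow]
  ring

private theorem cpow_deg {N : ℕ} (m : Fin (N + 2) →₀ ℕ) :
    m.degree = m 0 + (m 1 + ∑ i : Fin N, m i.succ.succ) := by
  rw [Finsupp.degree_eq_sum, Fin.sum_univ_succ, Fin.sum_univ_succ]
  rfl

private theorem cpow_single {N : ℕ} (m : Fin (N + 2) →₀ ℕ) (hd : m.degree = N + 2)
    (h : m 1 = N + 2) : m = Finsupp.single 1 (N + 2) := by
  rw [cpow_deg, h] at hd
  have h0 : m 0 = 0 := by omega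
  have h2 : ∑ i : Fin N, m i.succ.succ = 0 := by omega
  have h3 : ∀ i : Fin N, m i.succ.succ = 0 := fun i =>
    (Finset.sum_eq_zero_iff.1 h2) i (Finset.mem_univ i)
  refine Finsupp.ext fun i => ?_
  refine Fin.cases ?_ (fun j => ?_) i
  · rw [h0, Finsupp.single_apply, if_neg]
    exact one_ne_zero
  · refine Fin.cases ?_ (fun l => ?_) j
    · have h1 : (Fin.succ 0 : Fin (N + 2)) = 1 := rfl
      rw [h1, h, Finsupp.single_eq_same]
    · rw [h3, Finsupp.single_apply, if_neg]
      intro h4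
      have h5 := congrArg Fin.val h4
      simp at h5

private theorem cpowG_natDegree {k₀ Λ : Type*} [Field k₀] [Field Λ] [Algebra k₀ Λ] {N : ℕ}
    (w : Fin N → Λ) (f : MvPolynomial (Fin (N + 2)) k₀) (hf : f.IsHomogeneous (N + 2))
    (hlead : coeff (Finsupp.single 1 (N + 2)) f ≠ 0) : (cpowG w f).natDegree = N + 2 := by
  have hdeg : ∀ m ∈ f.support, m.degree = N + 2 := by
    intro m hm
    have h1 := hf (mem_support_iff.1 hm)
    rw [Finsupp.degree_eq_weight_one (R := ℕ)]
    exact h1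
  refine Polynomial.natDegree_eq_of_le_of_coeff_ne_zero ?_ ?_
  · rw [cpowG_sum]
    refine Polynomial.natDegree_sum_le_of_forall_le _ _ fun m hm => ?_
    refine (Polynomial.natDegree_C_mul_X_pow_le _ _).trans ?_
    have h1 := hdeg m hm
    rw [cpow_deg] at h1
    omega
  · rw [cpowG_sum, Polynomial.finsetSum_coeff]
    rw [Finset.sum_eq_single (Finsupp.single 1 (N + 2))]
    · rw [Finsupp.single_eq_same, Polynomial.coeff_C_mul_X_pow, if_pos rfl]
      have h1 : ∏ i : Fin N, w i ^ (Finsupp.single (1 : Fin (N + 2)) (N + 2)) i.succ.succ = 1 := by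
        refine Finset.prod_eq_one fun i _ => ?_
        rw [Finsupp.single_apply, if_neg, pow_zero]
        intro h4
        have h5 := congrArg Fin.val h4
        simp at h5
      rw [h1, mul_one]
      exact fun h => hlead ((map_eq_zero _).1 h)
    · intro m hm hne
      rw [Polynomial.coeff_C_mul_X_pow, if_neg]
      intro h
      exact hne (cpow_single m (hdeg m hm) h.symm)
    · intro h
      exact absurd (mem_support_iff.2 hlead) h

private theorem cpow_tr {k₀ κ : Type*} [Field k₀] [Field κ] [Algebra k₀ κ] {N : ℕ}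
    (z : Fin (N + 1) → κ) (h : AlgebraicIndependent k₀ z) :
    Transcendental (IntermediateField.adjoin k₀ (Set.range fun i : Fin N => z i.succ)) (z 0) := by
  rw [IntermediateField.transcendental_adjoin_iff]
  have h1 : (Set.range fun i : Fin N => z i.succ) = z '' {0}ᶜ := by
    ext a
    constructor
    · rintro ⟨i, rfl⟩
      exact ⟨i.succ, Fin.succ_ne_zero i, rfl⟩
    · rintro ⟨i, hi, rfl⟩
      obtain ⟨j, rfl⟩ := Fin.exists_succ_eq.2 hi
      exact ⟨j, rfl⟩
  rw [h1]
  exact h.transcendental_adjoin (s := {0}ᶜ) (i := 0) (fun h2 => h2 rfl)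

theorem x1_pow_indep {k₀ κ : Type*} [Field k₀] [Field κ] [Algebra k₀ κ] {p : ℕ} [Fact p.Prime]
    [CharP κ p] {N : ℕ} (f : MvPolynomial (Fin (N + 2)) k₀) (hf : f.IsHomogeneous (N + 2))
    (hlead : coeff (Finsupp.single 1 (N + 2)) f ≠ 0) (r : Fin (N + 3) → κ) (hr0 : r 0 = 1)
    (hind : AlgebraicIndependent k₀ fun i : Fin (N + 1) => r i.succ.castSucc)
    (hr : aeval r (spec p f) = 0) (i₀ : Fin (N + 1))
    (hi₀ : aeval (fun i : Fin (N + 2) => r i.castSucc) (pderiv i₀.succ f) ≠ 0) (c : Fin (N + 2) → κ)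
    (hc : ∀ i, c i ∈ IntermediateField.adjoin k₀ (Set.range fun i : Fin (N + 1) => r i.succ.succ))
    (h : ∑ i : Fin (N + 2), c i * r 1 ^ (i : ℕ) = 0) : ∀ i, c i = 0 := by
  have hp : 0 < p := (Fact.out : p.Prime).pos
  obtain ⟨x, hx⟩ : ∃ x : Fin (N + 2) → κ, x = fun i => r i.castSucc := ⟨_, rfl⟩
  have hxa : ∀ i : Fin (N + 2), x i = r i.castSucc := fun i => by rw [hx]
  obtain ⟨y, hy⟩ : ∃ y : κ, y = r (Fin.last (N + 2)) := ⟨_, rfl⟩
  have hx0 : x 0 = 1 := by
    rw [hxa]
    exact hr0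
  have hx1 : x 1 = r 1 := by
    rw [hxa]
    rfl
  have hxs : ∀ i : Fin (N + 1), x i.succ = r i.succ.castSucc := fun i => hxa _
  have hxss : ∀ i : Fin N, x i.succ.succ = r i.castSucc.succ.succ := fun i => hxa _
  have hind' : AlgebraicIndependent k₀ fun i : Fin (N + 1) => x i.succ := by
    have h1 : (fun i : Fin (N + 1) => x i.succ) = fun i : Fin (N + 1) => r i.succ.castSucc :=
      funext hxs
    rw [h1]
    exact hind
  have heq : y ^ p + aeval x f = 0 := by
    rw [cpow_spec, hr0, one_pow, one_mul, ← hy, ← hx] at hr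
    exact hr
  rw [← hx] at hi₀
  obtain ⟨Λ, hΛ⟩ : ∃ Λ : IntermediateField k₀ κ,
      Λ = IntermediateField.adjoin k₀ (Set.range fun i : Fin N => x i.succ.succ) := ⟨_, rfl⟩
  have hmem : ∀ i : Fin N, x i.succ.succ ∈ Λ := by
    intro i
    rw [hΛ]
    exact IntermediateField.subset_adjoin _ _ ⟨i, rfl⟩
  have htr : Transcendental Λ (x 1) := by
    have h1 := cpow_tr (fun i : Fin (N + 1) => x i.succ) hind'
    rw [hΛ]
    exact h1
  have hΛE : Λ ≤ IntermediateField.adjoin k₀ (Set.range x) := by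
    rw [hΛ]
    refine IntermediateField.adjoin.mono _ _ _ ?_
    rintro _ ⟨i, rfl⟩
    exact ⟨_, rfl⟩
  have hyp : ∀ c : ℕ → Polynomial Λ,
      ∑ j ∈ Finset.range p, Polynomial.aeval (x 1) (c j) * y ^ j = 0 →
      ∀ j ∈ Finset.range p, c j = 0 := by
    intro c hc j hj
    have h1 := y_pow_indep f x y hx0 hind' heq i₀ hi₀ (fun j => Polynomial.aeval (x 1) (c j))
      (fun j => by
        show Polynomial.aeval (x 1) (c j) ∈ IntermediateField.adjoin k₀ (Set.range x)
        rw [Polynomial.aeval_eq_sum_range]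
        refine sum_mem fun l _ => ?_
        rw [Algebra.smul_def]
        refine mul_mem (hΛE ((c j).coeff l).2) (pow_mem ?_ _)
        exact IntermediateField.subset_adjoin _ _ ⟨1, rfl⟩) hc j hj
    by_contra h2
    exact htr ⟨c j, h2, h1⟩
  have hg := cpowG_natDegree (Λ := Λ) (fun i : Fin N => ⟨x i.succ.succ, hmem i⟩) f hf hlead
  have hga : Polynomial.aeval (x 1)
      (cpowG (Λ := Λ) (fun i : Fin N => ⟨x i.succ.succ, hmem i⟩) f) = aeval x f :=
    cpowG_aeval _ f x hx0 fun i => rfl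
  have hyg : y ^ p + Polynomial.aeval (x 1)
      (cpowG (Λ := Λ) (fun i : Fin N => ⟨x i.succ.succ, hmem i⟩) f) = 0 := by
    rw [hga]
    exact heq
  have hle : IntermediateField.adjoin k₀ (Set.range fun i : Fin (N + 1) => r i.succ.succ) ≤
      (IntermediateField.adjoin Λ {y}).restrictScalars k₀ := by
    rw [IntermediateField.adjoin_le_iff]
    rintro _ ⟨i, rfl⟩
    show r i.succ.succ ∈ IntermediateField.adjoin Λ {y}
    refine Fin.lastCases ?_ (fun j => ?_) i
    · have h1 : r (Fin.last N).succ.succ = y := by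
        rw [hy]
        rfl
      rw [h1]
      exact IntermediateField.mem_adjoin_simple_self _ _
    · rw [← hxss j]
      exact (IntermediateField.adjoin Λ {y}).algebraMap_mem ⟨x j.succ.succ, hmem j⟩
  rw [← hx1] at h
  exact pow_indep (x 1) y (D := N + 2) hp _ hg hyg hyp c (fun i => hle (hc i)) h

end Pool.Agent.HSI
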