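import Pool.Agent.HSI.CSp
import Pool.Agent.HSI.PCo

/-!
# The reduction of `scF p F`

PLAN. For `c : k` with `algebraMap k L c ∈ V` let `r c : K0 k V` be its residue (`GEL.mem_resSub`; total function, `0` otherwise). Let
`f = ∑ m ∈ S, monomial m (r (coeff (m.mapDomain castSucc) (scF p F)))` over the finite set `S` of the exponents of degree `N + 2`
(for instance `(scF p F)`'s support pulled back, or `Finset.finsuppAntidiag Finset.univ (N + 2)`); its coefficient at `m` is
`r (coeff (m.mapDomain castSucc) (scF p F))` for every `m` (if `m.degree ≠ N + 2` this is `r 0 = 0` as `scF p F` is homogeneous). It is homogeneous. The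
residues of the coefficients of `scF p F`: for `m last = 0`, `m = m'.mapDomain castSucc` for an `m'` (`Finsupp.comapDomain` or
`Finsupp.equivFunOnFinite`), `coeff_spec_castSucc`; for `m = m₀`: `coeff - 1 ∈ V.nonunits`, `coeff_spec_top`; otherwise both are 0
(`coeff_spec_other`). (`V₀.nonunits` and `V.nonunits` correspond: `hV`, compare `exa_comap_nonunits` in `Pool/Agent/GEL/ExA.lean`.)
-/

open MvPolynomial

universe u

namespace Pool.Agent.HSI

private theorem cre_comap_nonunits {F Ω : Type*} [Field F] [Field Ω] (g : F →+* Ω)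
    (W : ValuationSubring Ω) (u : F) : u ∈ (W.comap g).nonunits ↔ g u ∈ W.nonunits := by
  rw [ValuationSubring.mem_nonunits_iff_or, ValuationSubring.mem_nonunits_iff_or,
    ValuationSubring.mem_comap, map_inv₀, map_eq_zero]

private theorem cre_residue {Ω : Type*} [Field Ω] (W : ValuationSubring Ω) (w : W) :
    (w : Ω) ∈ W.nonunits ↔ IsLocalRing.residue W w = 0 := by
  rw [ValuationSubring.coe_mem_nonunits_iff, IsLocalRing.residue_eq_zero_iff]

private theorem cre_deg {N : ℕ} (m : Fin (N + 2) →₀ ℕ) :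
    Finsupp.weight (1 : Fin (N + 3) → ℕ) (m.mapDomain Fin.castSucc) =
      Finsupp.weight (1 : Fin (N + 2) → ℕ) m := by
  rw [Finsupp.weight_apply, Finsupp.weight_apply, Finsupp.sum_mapDomain_index]
  · simp
  · intro i
    simp
  · intro i a b
    simp

theorem exists_f {k : Type u} [Field k] {N p : ℕ} (hp : p.Prime) (hpN : p ≤ N + 2)
    (F : MvPolynomial (Fin (N + 3)) k) (hF : F.IsHomogeneous (N + 2)) (V₀ : ValuationSubring k)
    (h1 : coeff (Finsupp.single 0 (N + 2 - p) + Finsupp.single (Fin.last (N + 2)) p) (scF p F) - 1 ∈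
      V₀.nonunits)
    (h0 : ∀ m : Fin (N + 3) →₀ ℕ, m (Fin.last (N + 2)) ≠ 0 →
      m ≠ Finsupp.single 0 (N + 2 - p) + Finsupp.single (Fin.last (N + 2)) p →
        coeff m (scF p F) ∈ V₀.nonunits)
    {L : Type u} [Field L] [Algebra k L] (V : ValuationSubring L)
    (hV : V.comap (algebraMap k L) = V₀) (mem : ∀ m, algebraMap k L (coeff m (scF p F)) ∈ V) :
    ∃ f : MvPolynomial (Fin (N + 2)) (K0 k V), f.IsHomogeneous (N + 2) ∧
      ∀ m, IsLocalRing.residue V ⟨algebraMap k L (coeff m (scF p F)), mem m⟩ =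
        algebraMap (K0 k V) (IsLocalRing.ResidueField V) (coeff m (spec p f)) := by
  classical
  obtain ⟨r, hr⟩ : ∃ r : (Fin (N + 3) →₀ ℕ) → K0 k V, ∀ m,
      algebraMap (K0 k V) (IsLocalRing.ResidueField V) (r m) =
        IsLocalRing.residue V ⟨algebraMap k L (coeff m (scF p F)), mem m⟩ :=
    ⟨fun m => ⟨IsLocalRing.residue V ⟨algebraMap k L (coeff m (scF p F)), mem m⟩,
      GEL.mem_resSub.2 ⟨_, ⟨coeff m (scF p F), rfl⟩, rfl⟩⟩, fun m => rfl⟩
  have hinj : Function.Injective (Finsupp.mapDomain (M := ℕ) (Fin.castSucc (n := N + 2))) :=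
    Finsupp.mapDomain_injective (Fin.castSucc_injective _)
  have hr0 : ∀ m, coeff m (scF p F) = 0 → r m = 0 := by
    intro m hm
    have h2 : (⟨algebraMap k L (coeff m (scF p F)), mem m⟩ : V) = 0 :=
      Subtype.ext (by
        show algebraMap k L (coeff m (scF p F)) = 0
        rw [hm, map_zero])
    apply (algebraMap (K0 k V) (IsLocalRing.ResidueField V)).injective
    rw [hr, h2, map_zero, map_zero]
  obtain ⟨f, hf⟩ : ∃ f : MvPolynomial (Fin (N + 2)) (K0 k V),
      ∀ m, coeff m f = r (m.mapDomain Fin.castSucc) := by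
    refine ⟨∑ m ∈ (scF p F).support.preimage _ (hinj.injOn),
      monomial m (r (m.mapDomain Fin.castSucc)), fun m => ?_⟩
    rw [coeff_sum]
    simp_rw [coeff_monomial]
    rw [Finset.sum_ite_eq']
    by_cases hm : m ∈ (scF p F).support.preimage _ (hinj.injOn)
    · rw [if_pos hm]
    · rw [if_neg hm]
      rw [Finset.mem_preimage, mem_support_iff, not_not] at hm
      rw [hr0 _ hm]
  refine ⟨f, fun m hm => ?_, fun m => ?_⟩
  · rw [hf] at hm
    have h2 : coeff (m.mapDomain Fin.castSucc) (scF p F) ≠ 0 := fun h3 => hm (hr0 _ h3)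
    have h3 := scF_isHomogeneous p hF h2
    rw [cre_deg] at h3
    exact h3
  · by_cases hl : m (Fin.last (N + 2)) = 0
    · obtain ⟨m', rfl⟩ : ∃ m' : Fin (N + 2) →₀ ℕ, m = m'.mapDomain Fin.castSucc := by
        refine ⟨m.comapDomain Fin.castSucc (Fin.castSucc_injective _).injOn, ?_⟩
        rw [Finsupp.mapDomain_comapDomain _ (Fin.castSucc_injective _)]
        intro i hi
        have h2 : m i ≠ 0 := Finsupp.mem_support_iff.1 (Finset.mem_coe.1 hi)
        have h3 : i ≠ Fin.last (N + 2) := fun h4 => h2 (by rw [h4, hl])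
        exact ⟨i.castPred h3, Fin.castSucc_castPred i h3⟩
      rw [coeff_spec_castSucc f hp.pos, hf, hr]
    · have key : ∀ (v : V), (v : L) ∈ V.nonunits → IsLocalRing.residue V v = 0 := fun v hv =>
        (cre_residue V v).1 hv
      by_cases hm : m = Finsupp.single 0 (N + 2 - p) + Finsupp.single (Fin.last (N + 2)) p
      · have h2 : coeff m (spec p f) = 1 := by
          rw [hm]
          exact coeff_spec_top f hp.pos
        rw [h2, map_one]
        rw [← hm, ← hV, cre_comap_nonunits, map_sub, map_one] at h1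
        have h3 := key (⟨algebraMap k L (coeff m (scF p F)), mem m⟩ - 1) h1
        rw [map_sub, map_one, sub_eq_zero] at h3
        exact h3
      · rw [coeff_spec_other f m hl hm, map_zero]
        refine key _ ?_
        have h2 := h0 m hl hm
        rw [← hV, cre_comap_nonunits] at h2
        exact h2

end Pool.Agent.HSI
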