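import Pool.Agent.GEL.Tools

/-!
# Reduction of a simple extension
-/

namespace Pool.Agent.HSI

theorem simple_gen {L : Type*} [Field L] (E : Subfield L) (x : L) {D : ℕ} (Q : Polynomial L)
    (hQ : ∀ i, Q.coeff i ∈ E) (hdeg : Q.natDegree ≤ D) (hlead : Q.coeff D ≠ 0) (hroot : Q.eval x = 0)
    (u : L) (hu : u ∈ Subfield.closure (insert x (E : Set L))) :
    ∃ c : Fin D → L, (∀ i, c i ∈ E) ∧ u = ∑ i : Fin D, c i * x ^ (i : ℕ) := by
  classical
  -- the lift of the polynomial to `E`, made monic
  set q : Polynomial E := ∑ i ∈ Finset.range (D + 1),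
    Polynomial.monomial i (⟨Q.coeff i / Q.coeff D, E.div_mem (hQ i) (hQ D)⟩ : E) with hq
  have hqc : ∀ j, j ≤ D → q.coeff j = ⟨Q.coeff j / Q.coeff D, E.div_mem (hQ j) (hQ D)⟩ := by
    intro j hj
    rw [hq, Polynomial.finsetSum_coeff]
    simp only [Polynomial.coeff_monomial]
    rw [Finset.sum_ite_eq' (Finset.range (D + 1)) j, if_pos (Finset.mem_range.2 (by omega))]
  have hqD : q.coeff D = 1 := by
    rw [hqc D le_rfl]
    exact Subtype.ext (div_self hlead)
  have hqle : q.natDegree ≤ D := by
    rw [hq]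
    refine Polynomial.natDegree_sum_le_of_forall_le _ _ fun i hi => ?_
    refine (Polynomial.natDegree_monomial_le _).trans ?_
    have := Finset.mem_range.1 hi
    omega
  have hqm : q.Monic := Polynomial.monic_of_natDegree_le_of_coeff_eq_one D hqle hqD
  have hqd : q.natDegree = D := by
    refine le_antisymm hqle (Polynomial.le_natDegree_of_ne_zero ?_)
    rw [hqD]
    exact one_ne_zero
  have hqr : Polynomial.aeval x q = 0 := by
    have h1 : Polynomial.aeval x q = Q.eval x / Q.coeff D := by
      rw [hq, map_sum, Polynomial.eval_eq_sum_range' (Nat.lt_succ_of_le hdeg), Finset.sum_div]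
      refine Finset.sum_congr rfl fun i _ => ?_
      rw [Polynomial.aeval_monomial]
      show Q.coeff i / Q.coeff D * x ^ i = Q.coeff i * x ^ i / Q.coeff D
      ring
    rw [h1, hroot, zero_div]
  have hD : 0 < D := by
    rcases Nat.eq_zero_or_pos D with h0 | h0
    · exfalso
      subst h0
      have h1 : q = 1 := by
        have := Polynomial.eq_C_of_natDegree_eq_zero hqd
        rw [this, hqD, Polynomial.C_1]
      rw [h1, map_one] at hqr
      exact one_ne_zero hqr
    · exact h0
  have hint : IsIntegral E x := ⟨q, hqm, by rw [← Polynomial.aeval_def]; exact hqr⟩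
  have h1 : Subfield.closure (insert x (E : Set L)) ≤
      (IntermediateField.adjoin E {x}).toSubfield := by
    rw [Subfield.closure_le]
    rintro z (rfl | hz)
    · exact IntermediateField.mem_adjoin_simple_self E z
    · exact (IntermediateField.adjoin E {x}).algebraMap_mem ⟨z, hz⟩
  have h3 : u ∈ Algebra.adjoin E {x} := by
    rw [← IntermediateField.adjoin_simple_toSubalgebra_of_isAlgebraic hint.isAlgebraic]
    exact h1 hu
  rw [Algebra.adjoin_singleton_eq_range_aeval] at h3
  obtain ⟨P, hP⟩ := h3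
  have hP' : Polynomial.aeval x P = u := hP
  have hR : Polynomial.aeval x (P %ₘ q) = u := by
    rw [Polynomial.aeval_modByMonic_eq_self_of_root hqr, hP']
  have hRd : (P %ₘ q).natDegree < D := by
    have := Polynomial.natDegree_modByMonic_lt P hqm (by
      intro h
      rw [h, Polynomial.natDegree_one] at hqd
      omega)
    rwa [hqd] at this
  refine ⟨fun i => ((P %ₘ q).coeff i : L), fun i => ((P %ₘ q).coeff i).2, ?_⟩
  rw [← hR, Polynomial.aeval_eq_sum_range' hRd, Finset.sum_range]
  rfl

theorem residue_simple {L : Type*} [Field L] (W : ValuationSubring L) (E : Subfield L) (x : L)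
    (hx : x ∈ W) {D : ℕ}
    (hind : ∀ c : Fin D → IsLocalRing.ResidueField W, (∀ i, c i ∈ GEL.resSub W E) →
      ∑ i : Fin D, c i * IsLocalRing.residue W ⟨x, hx⟩ ^ (i : ℕ) = 0 → ∀ i, c i = 0)
    (u : W) (c : Fin D → L) (hc : ∀ i, c i ∈ E) (hu : (u : L) = ∑ i : Fin D, c i * x ^ (i : ℕ)) :
    ∃ c' : Fin D → IsLocalRing.ResidueField W, (∀ i, c' i ∈ GEL.resSub W E) ∧
      IsLocalRing.residue W u = ∑ i : Fin D, c' i * IsLocalRing.residue W ⟨x, hx⟩ ^ (i : ℕ) := by
  set xb := IsLocalRing.residue W ⟨x, hx⟩ with hxb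
  -- residues of sums with coefficients in the valuation ring
  have hres : ∀ (d : Fin D → L) (hd : ∀ i, d i ∈ W) (v : W),
      (v : L) = ∑ i : Fin D, d i * x ^ (i : ℕ) →
      IsLocalRing.residue W v =
        ∑ i : Fin D, IsLocalRing.residue W ⟨d i, hd i⟩ * xb ^ (i : ℕ) := by
    intro d hd v hv
    have h1 : v = ∑ i : Fin D, (⟨d i, hd i⟩ : W) * (⟨x, hx⟩ : W) ^ (i : ℕ) := by
      apply Subtype.ext
      rw [hv]
      push_cast
      rfl
    rw [h1, map_sum]
    refine Finset.sum_congr rfl fun i _ => ?_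
    rw [map_mul, map_pow]
  -- all coefficients are in the valuation ring
  have hcW : ∀ i, c i ∈ W := by
    intro i₀
    obtain ⟨j, -, hmax⟩ := Finset.exists_max_image (Finset.univ : Finset (Fin D))
      (fun i => W.valuation (c i)) ⟨i₀, Finset.mem_univ _⟩
    by_cases hcj : c j = 0
    · have h1 := hmax i₀ (Finset.mem_univ _)
      rw [hcj, map_zero] at h1
      have h2 : c i₀ = 0 := (W.valuation.zero_iff).1 (le_antisymm h1 zero_le)
      rw [h2]
      exact W.zero_mem
    · have hvj : W.valuation (c j) ≠ 0 := (Valuation.ne_zero_iff _).2 hcj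
      have hd : ∀ i, c i / c j ∈ W := by
        intro i
        rw [← W.valuation_le_one_iff, map_div₀]
        exact div_le_one_of_le₀ (hmax i (Finset.mem_univ _)) zero_le
      have hvW : ∑ i : Fin D, c i / c j * x ^ (i : ℕ) ∈ W :=
        sum_mem fun i _ => W.mul_mem _ _ (hd i) (pow_mem hx i)
      have hr := hres (fun i => c i / c j) hd ⟨_, hvW⟩ rfl
      have hne : IsLocalRing.residue W ⟨_, hvW⟩ ≠ 0 := by
        intro h0
        rw [hr] at h0
        have h1 := hind _ (fun i => ?_) h0 j
        · have h2 : (⟨c j / c j, hd j⟩ : W) = 1 := Subtype.ext (div_self hcj)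
          rw [h2, map_one] at h1
          exact one_ne_zero h1
        · exact ⟨_, E.div_mem (hc i) (hc j), rfl⟩
      have hval : W.valuation (∑ i : Fin D, c i / c j * x ^ (i : ℕ)) = 1 := by
        have h1 : IsUnit (⟨_, hvW⟩ : W) := by
          by_contra hn
          exact hne ((IsLocalRing.residue_eq_zero_iff _).2 ((IsLocalRing.mem_maximalIdeal _).2 hn))
        exact (W.valuation_eq_one_iff ⟨_, hvW⟩).1 h1
      have hsum : ∑ i : Fin D, c i / c j * x ^ (i : ℕ) = u / c j := by
        rw [hu, Finset.sum_div]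
        exact Finset.sum_congr rfl fun i _ => by ring
      have hcjW : c j ∈ W := by
        rw [← W.valuation_le_one_iff]
        rw [hsum, map_div₀] at hval
        have h2 : W.valuation (u : L) = W.valuation (c j) := by
          rw [div_eq_one_iff_eq hvj] at hval
          exact hval
        rw [← h2, W.valuation_le_one_iff]
        exact u.2
      have h1 := W.mul_mem _ _ (hd i₀) hcjW
      rwa [div_mul_cancel₀ _ hcj] at h1
  exact ⟨fun i => IsLocalRing.residue W ⟨c i, hcW i⟩, fun i => ⟨_, hc i, rfl⟩, hres c hcW u hu⟩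

end Pool.Agent.HSI
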