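import Pool.Agent.HSI.PCo
import Pool.Agent.HSI.CSim
import Pool.Agent.GEL.GFr

/-!
# The residue field of `V ∩ k(X)`

PLAN. Let `E = (IntermediateField.adjoin k (Set.range fun i : Fin (N + 1) => scP p P.x i.succ.succ)).toSubfield`, `x = scP p P.x 1 = P.x 1`. `P.funField` (as a subfield) is
contained in `Subfield.closure (insert x E)` (`P.x 0 = 1`; the `P.x i` with `i ≥ 2` are in `E`, the last one is `p` times
`scP p P.x last`). `x` is a root of `Q = aeval (fun i => if i = 1 then X else C (P.x i)) F : Polynomial L`, whose coefficients are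
in `E`, of degree `≤ N + 2`, `Q.coeff (N + 2) = coeff (single 1 (N + 2)) F ≠ 0`. By `simple_gen` and `residue_simple` (`D = N + 2`; by
`GEL.gauss_fraction` `GEL.resSub V E` is contained in `adjoin (K0 k V) (range fun i => r i.succ.succ)`, so `hind` is `hpow`) the residue of `u`
is a polynomial in `r 1` with coefficients in this field, hence in `adjoin (K0 k V) (range r)`.
-/

open MvPolynomial

universe u

namespace Pool.Agent.HSI

/-- the element `P.x i` for `i ≠ 1` -/
private theorem cres_mem {k : Type u} [Field k] {N p : ℕ} {L : Type u} [Field L] [Algebra k L]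
    (hp : (p : L) ≠ 0) (x : Fin (N + 3) → L) (h0 : x 0 = 1) (i : Fin (N + 3)) (hi : i ≠ 1) :
    x i ∈ IntermediateField.adjoin k (Set.range fun i : Fin (N + 1) => scP p x i.succ.succ) := by
  induction i using Fin.cases with
  | zero => rw [h0]; exact one_mem _
  | succ i =>
    induction i using Fin.cases with
    | zero => exact absurd rfl hi
    | succ i =>
      have h1 : scP p x i.succ.succ ∈
          IntermediateField.adjoin k (Set.range fun i : Fin (N + 1) => scP p x i.succ.succ) :=
        IntermediateField.subset_adjoin _ _ ⟨i, rfl⟩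
      by_cases hl : i.succ.succ = Fin.last (N + 2)
      · have h2 : x i.succ.succ = (p : L) * scP p x i.succ.succ := by
          unfold scP
          rw [if_pos hl, mul_inv_cancel_left₀ hp]
        rw [h2]
        exact mul_mem (natCast_mem _ _) h1
      · have h2 : x i.succ.succ = scP p x i.succ.succ := by
          unfold scP
          rw [if_neg hl]
        rw [h2]
        exact h1

/-- the polynomial with root `x 1` -/
private noncomputable def cresQ {k : Type u} [Field k] {N : ℕ} (F : MvPolynomial (Fin (N + 3)) k)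
    {L : Type u} [Field L] [Algebra k L] (x : Fin (N + 3) → L) : Polynomial L :=
  ∑ m ∈ F.support, Polynomial.C (algebraMap k L (coeff m F) *
    ∏ i : Fin (N + 3), (if i = 1 then 1 else x i) ^ m i) * Polynomial.X ^ m 1

private theorem cresQ_coeff {k : Type u} [Field k] {N : ℕ} (F : MvPolynomial (Fin (N + 3)) k)
    {L : Type u} [Field L] [Algebra k L] (x : Fin (N + 3) → L) (j : ℕ) :
    (cresQ F x).coeff j = ∑ m ∈ F.support, if j = m 1 then (algebraMap k L (coeff m F) *
      ∏ i : Fin (N + 3), (if i = 1 then 1 else x i) ^ m i) else 0 := by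
  unfold cresQ
  rw [Polynomial.finsetSum_coeff]
  exact Finset.sum_congr rfl fun m _ => Polynomial.coeff_C_mul_X_pow _ _ _

private theorem cresQ_eval {k : Type u} [Field k] {N : ℕ} (F : MvPolynomial (Fin (N + 3)) k)
    {L : Type u} [Field L] [Algebra k L] (x : Fin (N + 3) → L) :
    (cresQ F x).eval (x 1) = aeval x F := by
  unfold cresQ
  rw [Polynomial.eval_finsetSum]
  conv_rhs => rw [as_sum F, map_sum]
  refine Finset.sum_congr rfl fun m _ => ?_
  rw [Polynomial.eval_mul, Polynomial.eval_C, Polynomial.eval_pow, Polynomial.eval_X, aeval_monomial,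
    Finsupp.prod_fintype _ _ (fun i => pow_zero _), mul_assoc]
  congr 1
  have h1 : ∏ i : Fin (N + 3), x i ^ m i =
      ∏ i : Fin (N + 3), ((if i = 1 then 1 else x i) ^ m i * (if i = 1 then x 1 ^ m 1 else 1)) := by
    refine Finset.prod_congr rfl fun i _ => ?_
    by_cases hi : i = 1
    · rw [if_pos hi, if_pos hi, one_pow, one_mul, hi]
    · rw [if_neg hi, if_neg hi, mul_one]
  rw [h1, Finset.prod_mul_distrib, Finset.prod_ite_eq' Finset.univ (1 : Fin (N + 3)),
    if_pos (Finset.mem_univ _)]

private theorem cres_sum {k : Type u} [Field k] {N : ℕ} (F : MvPolynomial (Fin (N + 3)) k)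
    (hF : F.IsHomogeneous (N + 2)) (m : Fin (N + 3) →₀ ℕ) (hm : m ∈ F.support) :
    ∑ i, m i = N + 2 := by
  have h1 := hF (mem_support_iff.1 hm)
  rw [Finsupp.weight_apply, Finsupp.sum_fintype _ _ (fun i => by simp)] at h1
  simpa using h1

theorem res_field {k : Type u} [Field k] [CharZero k] {N p : ℕ} (hp : p.Prime)
    (F : MvPolynomial (Fin (N + 3)) k) (hF : F.IsHomogeneous (N + 2))
    (hlead : coeff (Finsupp.single 1 (N + 2)) F ≠ 0) {L : Type u} [Field L] [Algebra k L] (P : Pt F L)
    (hP : P.IsGeneric) (V : ValuationSubring L) (mem : ∀ i, scP p P.x i ∈ V)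
    (hG : GEL.Gauss (k := k) V (fun i : Fin (N + 1) => scP p P.x i.succ.succ))
    (r : Fin (N + 3) → IsLocalRing.ResidueField V)
    (hr : ∀ i, r i = IsLocalRing.residue V ⟨scP p P.x i, mem i⟩)
    (hpow : ∀ c : Fin (N + 2) → IsLocalRing.ResidueField V,
      (∀ i, c i ∈ IntermediateField.adjoin (K0 k V)
        (Set.range fun i : Fin (N + 1) => r i.succ.succ)) →
        ∑ i : Fin (N + 2), c i * r 1 ^ (i : ℕ) = 0 → ∀ i, c i = 0)
    (u : V) (hu : (u : L) ∈ P.funField) :
    IsLocalRing.residue V u ∈ IntermediateField.adjoin (K0 k V) (Set.range r) := by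
  classical
  have hpL : (p : L) ≠ 0 := by
    have : CharZero L := charZero_of_injective_algebraMap (algebraMap k L).injective
    exact Nat.cast_ne_zero.2 hp.ne_zero
  have h1l : (1 : Fin (N + 3)) ≠ Fin.last (N + 2) := by
    intro h
    have h1 := congrArg Fin.val h
    simp at h1
  have hx1 : scP p P.x 1 = P.x 1 := by
    unfold scP
    rw [if_neg h1l]
  set K' := IntermediateField.adjoin k (Set.range fun i : Fin (N + 1) => scP p P.x i.succ.succ)
    with hK'
  have hE : ∀ i, i ≠ 1 → P.x i ∈ K' := fun i hi => cres_mem hpL P.x hP.one i hi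
  have hcoef : ∀ i, (cresQ F P.x).coeff i ∈ K'.toSubfield := by
    intro j
    rw [cresQ_coeff]
    refine sum_mem fun m _ => ?_
    split_ifs
    · refine mul_mem (K'.algebraMap_mem _) (prod_mem fun i _ => pow_mem ?_ _)
      by_cases hi : i = 1
      · rw [if_pos hi]
        exact one_mem _
      · rw [if_neg hi]
        exact hE i hi
    · exact zero_mem _
  have hdeg : (cresQ F P.x).natDegree ≤ N + 2 := by
    unfold cresQ
    refine Polynomial.natDegree_sum_le_of_forall_le _ _ fun m hm => ?_
    refine (Polynomial.natDegree_C_mul_X_pow_le _ _).trans ?_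
    rw [← cres_sum F hF m hm]
    exact Finset.single_le_sum (f := fun i => m i) (fun i _ => Nat.zero_le _) (Finset.mem_univ 1)
  have hlead' : (cresQ F P.x).coeff (N + 2) ≠ 0 := by
    rw [cresQ_coeff, Finset.sum_eq_single (Finsupp.single 1 (N + 2))]
    · rw [Finsupp.single_eq_same, if_pos rfl]
      refine mul_ne_zero ?_ ?_
      · rw [Ne, map_eq_zero]
        exact hlead
      · rw [Finset.prod_eq_one]
        · exact one_ne_zero
        · intro i _
          by_cases hi : i = 1
          · rw [if_pos hi, one_pow]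
          · rw [Finsupp.single_eq_of_ne hi, pow_zero]
    · intro m hm hne
      rw [if_neg]
      intro h1
      apply hne
      have h2 := cres_sum F hF m hm
      have h3 : ∀ i, i ≠ 1 → m i = 0 := by
        intro i hi
        have h4 := Finset.sum_le_sum_of_subset (f := fun i => m i)
          (Finset.subset_univ ({1, i} : Finset (Fin (N + 3))))
        rw [Finset.sum_pair (Ne.symm hi), h2] at h4
        have h5 : m 1 = N + 2 := h1.symm
        simp only [h5] at h4
        omega
      ext i
      by_cases hi : i = 1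
      · rw [hi, Finsupp.single_eq_same, h1]
      · rw [h3 i hi, Finsupp.single_eq_of_ne hi]
    · intro hn
      exact absurd (mem_support_iff.2 hlead) hn
  have hroot : (cresQ F P.x).eval (P.x 1) = 0 := by
    rw [cresQ_eval]
    exact P.eq
  have hcl : (u : L) ∈ Subfield.closure (insert (P.x 1) (K'.toSubfield : Set L)) := by
    have h1 : (u : L) ∈ (IntermediateField.adjoin k (Set.range P.x)).toSubfield := hu
    rw [IntermediateField.adjoin_toSubfield] at h1
    refine Subfield.closure_le.2 ?_ h1
    rintro y (⟨a, rfl⟩ | ⟨i, rfl⟩)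
    · exact Subfield.subset_closure (Set.mem_insert_of_mem _ (K'.algebraMap_mem a))
    · by_cases hi : i = 1
      · rw [hi]
        exact Subfield.subset_closure (Set.mem_insert _ _)
      · exact Subfield.subset_closure (Set.mem_insert_of_mem _ (hE i hi))
  obtain ⟨c, hc, huc⟩ := simple_gen K'.toSubfield (P.x 1) (cresQ F P.x) hcoef hdeg hlead' hroot u hcl
  have hxV : P.x 1 ∈ V := by
    rw [← hx1]
    exact mem 1
  have hr1 : IsLocalRing.residue V ⟨P.x 1, hxV⟩ = r 1 := by
    rw [hr 1]
    exact congrArg (IsLocalRing.residue V) (Subtype.ext hx1.symm)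
  have hsub : ∀ α, α ∈ GEL.resSub V K'.toSubfield → α ∈ IntermediateField.adjoin (K0 k V)
      (Set.range fun i : Fin (N + 1) => r i.succ.succ) := by
    rintro α ⟨w, hw, rfl⟩
    have h1 := GEL.gauss_fraction V (fun i : Fin (N + 1) => scP p P.x i.succ.succ)
      (fun i => mem _) hG w hw
    have h2 : (fun i : Fin (N + 1) => IsLocalRing.residue V
        (⟨scP p P.x i.succ.succ, mem i.succ.succ⟩ : V)) = fun i : Fin (N + 1) => r i.succ.succ := by
      funext i
      rw [hr]
    rw [h2] at h1
    exact h1
  obtain ⟨c', hc', hres⟩ := residue_simple V K'.toSubfield (P.x 1) hxV (D := N + 2)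
    (fun c hc h0 => hpow c (fun i => hsub _ (hc i)) (by rw [hr1] at h0; exact h0)) u c hc huc
  rw [hres, hr1]
  have hmono : IntermediateField.adjoin (K0 k V) (Set.range fun i : Fin (N + 1) => r i.succ.succ) ≤
      IntermediateField.adjoin (K0 k V) (Set.range r) := by
    refine IntermediateField.adjoin.mono _ _ _ ?_
    rintro _ ⟨i, rfl⟩
    exact ⟨i.succ.succ, rfl⟩
  refine sum_mem fun i _ => mul_mem (hmono (hsub _ (hc' i))) (pow_mem ?_ _)
  exact IntermediateField.subset_adjoin _ _ ⟨1, rfl⟩

end Pool.Agent.HSI
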