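import Pool.Agent.HSI.Tools

/-!
# The residue field of `V` is separable over the residue field of `V ∩ K`

This is `adapted_sep` in `Pool/Agent/GEL/GAs.lean` (with the private lemma `gas_sep`): let `α` be the residue of `u ∈ V`, `G` from `h2 u`;
its coefficients are in `V ∩ K`, so their residues are in `E₁` by `h1`: a polynomial `g` over `E₁` with `g(α) = 0`, `g'(α) ≠ 0`.
-/

universe u

namespace Pool.Agent.HSI

private theorem csep_sep {F κ : Type*} [Field F] [Field κ] [Algebra F κ] (α : κ) (g : Polynomial F)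
    (h0 : Polynomial.aeval α g = 0) (h1 : Polynomial.aeval α (Polynomial.derivative g) ≠ 0) :
    IsSeparable F α := by
  have hg : g ≠ 0 := by
    rintro rfl
    exact h1 (by rw [Polynomial.derivative_zero, map_zero])
  have hint : IsIntegral F α := by
    have : IsAlgebraic F α := ⟨g, hg, h0⟩
    exact this.isIntegral
  have hirr : Irreducible (minpoly F α) := minpoly.irreducible hint
  show (minpoly F α).Separable
  rw [Polynomial.separable_iff_derivative_ne_zero hirr]
  intro hm
  obtain ⟨h, hh⟩ := minpoly.dvd F α h0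
  apply h1
  rw [hh, Polynomial.derivative_mul, hm, zero_mul, zero_add, map_mul, minpoly.aeval, zero_mul]

theorem sep_of {k : Type u} [Field k] {L : Type u} [Field L] [Algebra k L] (V : ValuationSubring L)
    (K : IntermediateField k L) (E₁ : IntermediateField (K0 k V) (IsLocalRing.ResidueField V))
    (h1 : ∀ u : V, (u : L) ∈ K → IsLocalRing.residue V u ∈ E₁)
    (h2 : ∀ α ∈ V, ∃ G : Polynomial L, (∀ i, G.coeff i ∈ K ∧ G.coeff i ∈ V) ∧
      G.eval α ∈ V.nonunits ∧ G.derivative.eval α ∉ V.nonunits) :
    Algebra.IsSeparable ↥E₁ (IsLocalRing.ResidueField V) := by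
  refine ⟨fun α => ?_⟩
  obtain ⟨u, rfl⟩ := IsLocalRing.residue_surjective α
  obtain ⟨G, hG, hG0, hG1⟩ := h2 (u : L) u.2
  obtain ⟨G', hG'⟩ : ∃ G' : Polynomial V, G'.map V.subtype = G := by
    have h1 : G ∈ Polynomial.lifts V.subtype := by
      rw [Polynomial.lifts_iff_coeff_lifts]
      exact fun i => ⟨⟨G.coeff i, (hG i).2⟩, rfl⟩
    exact (Polynomial.mem_lifts G).1 h1
  have hcoe : ∀ i, ((G'.coeff i : V) : L) = G.coeff i := by
    intro i
    rw [← hG', Polynomial.coeff_map]
    rfl
  obtain ⟨g, hg⟩ : ∃ g : Polynomial ↥E₁,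
      g.map (algebraMap _ (IsLocalRing.ResidueField V)) = G'.map (IsLocalRing.residue V) := by
    have h3 : G'.map (IsLocalRing.residue V) ∈ Polynomial.lifts (algebraMap
        ↥E₁ (IsLocalRing.ResidueField V)) := by
      rw [Polynomial.lifts_iff_coeff_lifts]
      intro i
      rw [Polynomial.coeff_map]
      exact ⟨⟨_, h1 (G'.coeff i) (by rw [hcoe]; exact (hG i).1)⟩, rfl⟩
    exact (Polynomial.mem_lifts _).1 h3
  have hev : ∀ Q : Polynomial V, (Q.map (IsLocalRing.residue V)).eval (IsLocalRing.residue V u) =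
      IsLocalRing.residue V (Q.eval u) := fun Q => Polynomial.eval_map_apply _ _
  have hevL : ∀ Q : Polynomial V, ((Q.eval u : V) : L) = (Q.map V.subtype).eval (u : L) := by
    intro Q
    exact (Polynomial.eval_map_apply V.subtype u).symm
  have hres : ∀ v : V, IsLocalRing.residue V v = 0 ↔ (v : L) ∈ V.nonunits := by
    intro v
    rw [IsLocalRing.residue_eq_zero_iff, ← ValuationSubring.coe_mem_nonunits_iff]
  refine csep_sep _ g ?_ ?_
  · rw [Polynomial.aeval_def, ← Polynomial.eval_map, hg, hev, hres, hevL, hG']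
    exact hG0
  · rw [Polynomial.aeval_def, ← Polynomial.eval_map, ← Polynomial.derivative_map, hg,
      Polynomial.derivative_map, hev, Ne, hres, hevL, ← Polynomial.derivative_map, hG']
    exact hG1

end Pool.Agent.HSI
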