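import Pool.Agent.HSI.DTai

/-!
# Critical points of a form with algebraically independent coefficients

PLAN. Put `f' = MvPolynomial.map (algebraMap k₀ E) f`: homogeneous of degree `D + 2`, and its coefficients are
algebraically independent over `F₀` (`AlgebraicIndependent.map'` for `IsScalarTower.toAlgHom F₀ k₀ E`, injective). For every
`g` over `k₀`: `aeval ξ g = eval ξ (map (algebraMap k₀ E) g)` and `pderiv j (map _ g) = map _ (pderiv j g)` (`pderiv_map`). Apply
`tay_indep` to `f'` with `d = D + 2` (so `d - 1 = D + 1`); this gives the family `b`.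
* All `ξ j` are in the image of `k₀`: for `j = i` it is 1, for `j ∉ J`, `j ≠ i` it is 0, for `j ∈ J` it is `b m`
  with `m = (D + 1) e_i + e_j`, algebraic over `F₀(coefficients)`, hence over `k₀` (the coefficients are in the image of
  `k₀`), hence in the image of `k₀` (`k₀` algebraically closed; an element of `E` algebraic over `k₀` is a root of
  a split polynomial).
* `aeval ξ f = eval ξ f' = eval (Pi.single i 1) (sh i J ξ f') = coeff (single i (D + 2)) (sh i J ξ f')` (`eval_sh`,
  `eval_single_hom`), and this is `b m` as `(D + 2) e_i` is not of the form `(D + 1) e_i + e_j` with `j ∈ J`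
  (look at the coordinate `i`; `i ∉ J`); members of an algebraically independent family are `≠ 0` (`AlgebraicIndependent.ne_zero`).
* `j ∉ J`, `j ≠ i`: `aeval ξ (pderiv j f) = coeff ((D + 1) e_i + e_j) (sh i J ξ f')` (`eval_pderiv_single`, `pderiv_sh`, `eval_sh`) `= b m ≠ 0`.
* second derivatives: `eval_pderiv2_single`, `pderiv_sh` (twice), `eval_sh`; the exponent `D e_i + e_a + e_c` has
  `i`-coordinate `D`, so it is not of the form `(D + 1) e_i + e_j`.
-/

open MvPolynomial

namespace Pool.Agent.HSI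

private theorem aeval_map {k₀ E : Type*} [Field k₀] [Field E] [Algebra k₀ E] {M : ℕ} (ξ : Fin M → E)
    (g : MvPolynomial (Fin M) k₀) : aeval ξ g = eval ξ (map (algebraMap k₀ E) g) := by
  rw [aeval_def, eval_map]

private theorem in_range {k₀ E : Type*} [Field k₀] [IsAlgClosed k₀] [Field E] [Algebra k₀ E] (x : E)
    (hx : IsAlgebraic k₀ x) : ∃ a : k₀, x = algebraMap k₀ E a := by
  obtain ⟨a, ha⟩ := minpoly.mem_range_of_degree_eq_one k₀ x
    (IsAlgClosed.degree_eq_one_of_irreducible k₀ (minpoly.irreducible hx.isIntegral))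
  exact ⟨a, ha.symm⟩

theorem tay_ext {F₀ k₀ E : Type*} [Field F₀] [Field k₀] [IsAlgClosed k₀] [Field E] [Algebra F₀ k₀]
    [Algebra k₀ E] [Algebra F₀ E] [IsScalarTower F₀ k₀ E] {M D : ℕ} (f : MvPolynomial (Fin M) k₀)
    (hf : f.IsHomogeneous (D + 2))
    (h : AlgebraicIndependent F₀ fun m : {m : Fin M →₀ ℕ // m.degree = D + 2} => coeff m.1 f)
    (i : Fin M) (J : Finset (Fin M)) (hi : i ∉ J) (ξ : Fin M → E) (hξi : ξ i = 1)
    (hξ : ∀ j, j ∉ J → j ≠ i → ξ j = 0) (hcrit : ∀ j ∈ J, aeval ξ (pderiv j f) = 0) :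
    (∀ j, ∃ a : k₀, ξ j = algebraMap k₀ E a) ∧ aeval ξ f ≠ 0 ∧
      (∀ j, j ∉ J → j ≠ i → aeval ξ (pderiv j f) ≠ 0) ∧
      ∃ b : {m : Fin M →₀ ℕ // m.degree = D + 2} → E, AlgebraicIndependent F₀ b ∧
        ∀ a c, a ≠ i → c ≠ i → ∀ m, m.1 = Finsupp.single i D + Finsupp.single a 1 +
          Finsupp.single c 1 →
            aeval ξ (pderiv a (pderiv c f)) = (if a = c then 2 else 1) * b m := by
  classical
  have hf' : (map (algebraMap k₀ E) f).IsHomogeneous (D + 2) := hf.map _
  have hco : ∀ m, coeff m (map (algebraMap k₀ E) f) = algebraMap k₀ E (coeff m f) := fun m => coeff_map _ _ _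
  have hind : AlgebraicIndependent F₀
      fun m : {m : Fin M →₀ ℕ // m.degree = D + 2} => coeff m.1 (map (algebraMap k₀ E) f) := by
    have h1 := h.map' (f := IsScalarTower.toAlgHom F₀ k₀ E) (algebraMap k₀ E).injective
    have h2 : (fun m : {m : Fin M →₀ ℕ // m.degree = D + 2} => coeff m.1 (map (algebraMap k₀ E) f)) =
        (IsScalarTower.toAlgHom F₀ k₀ E) ∘
          (fun m : {m : Fin M →₀ ℕ // m.degree = D + 2} => coeff m.1 f) := by
      funext m
      exact hco m.1
    rw [h2]
    exact h1
  have hpd : ∀ (j : Fin M) (g : MvPolynomial (Fin M) k₀),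
      map (algebraMap k₀ E) (pderiv j g) = pderiv j (map (algebraMap k₀ E) g) := fun j g => pderiv_map.symm
  obtain ⟨b, hb1, hb2, hb3, hb4⟩ := tay_indep (by omega) (map (algebraMap k₀ E) f) hf' hind i J hi ξ hξi hξ
    (fun j hj => by
      rw [← hpd, ← aeval_map]
      exact hcrit j hj)
  have hJi : ∀ j ∈ J, j ≠ i := fun j hj h' => hi (h' ▸ hj)
  have hne : ∀ m, b m ≠ 0 := fun m => hb1.ne_zero m
  refine ⟨?_, ?_, ?_, b, hb1, ?_⟩
  · intro j
    by_cases hj : j ∈ J
    · have hdeg : (Finsupp.single i (D + 2 - 1) + Finsupp.single j 1 : Fin M →₀ ℕ).degree = D + 2 := by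
        rw [map_add, Finsupp.degree_single, Finsupp.degree_single]
        omega
      have h1 := hb4 j hj ⟨_, hdeg⟩ rfl
      have h2 := hb2 ⟨_, hdeg⟩
      rw [h1] at h2
      apply in_range
      have hle : ∀ y ∈ IntermediateField.adjoin F₀
          (Set.range fun m : {m : Fin M →₀ ℕ // m.degree = D + 2} => coeff m.1 (map (algebraMap k₀ E) f)),
          y ∈ (⊥ : IntermediateField k₀ E) := by
        intro y hy
        have h3 : IntermediateField.adjoin F₀
          (Set.range fun m : {m : Fin M →₀ ℕ // m.degree = D + 2} => coeff m.1 (map (algebraMap k₀ E) f)) ≤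
            (⊥ : IntermediateField k₀ E).restrictScalars F₀ := by
          rw [IntermediateField.adjoin_le_iff]
          rintro _ ⟨m, rfl⟩
          show coeff m.1 (map (algebraMap k₀ E) f) ∈ (⊥ : IntermediateField k₀ E)
          rw [hco]
          exact IntermediateField.algebraMap_mem _ _
        exact h3 hy
      obtain ⟨P, hP0, hP⟩ := h2
      let φ : ↥(IntermediateField.adjoin F₀
          (Set.range fun m : {m : Fin M →₀ ℕ // m.degree = D + 2} => coeff m.1 (map (algebraMap k₀ E) f))) →+* 
          ↥(⊥ : IntermediateField k₀ E) :=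
        { toFun := fun y => ⟨y.1, hle y.1 y.2⟩
          map_one' := rfl
          map_mul' := fun _ _ => rfl
          map_zero' := rfl
          map_add' := fun _ _ => rfl }
      have hφ : (algebraMap ↥(⊥ : IntermediateField k₀ E) E).comp φ = algebraMap _ E := rfl
      have h4 : IsAlgebraic ↥(⊥ : IntermediateField k₀ E) (ξ j) := by
        refine ⟨P.map φ, (Polynomial.map_ne_zero_iff φ.injective).2 hP0, ?_⟩
        rw [Polynomial.aeval_def, Polynomial.eval₂_map, hφ, ← Polynomial.aeval_def]
        exact hP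
      have h5 : Algebra.IsAlgebraic k₀ ↥(⊥ : IntermediateField k₀ E) :=
        (IntermediateField.botEquiv k₀ E).symm.isAlgebraic 
      exact h4.restrictScalars k₀
    · by_cases hji : j = i
      · exact ⟨1, by rw [hji, hξi, map_one]⟩
      · exact ⟨0, by rw [hξ j hj hji, map_zero]⟩
  · have hdeg : (Finsupp.single i (D + 2) : Fin M →₀ ℕ).degree = D + 2 := Finsupp.degree_single _ _
    rw [aeval_map, ← eval_sh i J ξ hi hξi hξ, eval_single_hom i (sh_isHomogeneous i J ξ hf')]
    rw [← hb3 ⟨_, hdeg⟩]
    · exact hne _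
    · intro j hj he
      have h1 := DFunLike.congr_fun he i
      have h2 : Finsupp.single j 1 i = 0 := Finsupp.single_eq_of_ne (hJi j hj).symm
      simp only [Finsupp.add_apply, Finsupp.single_eq_same, h2] at h1
      omega
  · intro j hj hji
    have hdeg : (Finsupp.single i (D + 1) + Finsupp.single j 1 : Fin M →₀ ℕ).degree = D + 2 := by
      rw [map_add, Finsupp.degree_single, Finsupp.degree_single]
    rw [aeval_map, hpd, ← eval_sh i J ξ hi hξi hξ, ← pderiv_sh i J ξ hji,
      eval_pderiv_single i (D := D + 1) (sh_isHomogeneous i J ξ hf') hji, ← hb3 ⟨_, hdeg⟩]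
    · exact hne _
    · intro j' hj' he
      have h3 : Finsupp.single i (D + 1) + Finsupp.single j 1 =
          Finsupp.single i (D + 1) + (Finsupp.single j' 1 : Fin M →₀ ℕ) := he
      have h4 := Finsupp.single_left_injective one_ne_zero (add_left_cancel h3)
      exact hj (h4 ▸ hj')
  · intro a c ha hc m hm
    rw [aeval_map, hpd, hpd, ← eval_sh i J ξ hi hξi hξ, ← pderiv_sh i J ξ ha, ← pderiv_sh i J ξ hc,
      eval_pderiv2_single i (sh_isHomogeneous i J ξ hf') ha hc, ← hm, ← hb3 m]
    intro j hj he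
    rw [hm] at he
    have h1 := DFunLike.congr_fun he i
    have h2 : Finsupp.single j 1 i = 0 := Finsupp.single_eq_of_ne (hJi j hj).symm
    have h3 : Finsupp.single a 1 i = 0 := Finsupp.single_eq_of_ne (Ne.symm ha)
    have h4 : Finsupp.single c 1 i = 0 := Finsupp.single_eq_of_ne (Ne.symm hc)
    simp only [Finsupp.add_apply, Finsupp.single_eq_same, h2, h3, h4] at h1
    omega

end Pool.Agent.HSI
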