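import Mathlib

/-!
# The adjugate of a generic symmetric matrix

The minor without the first row and the last column is the value of a polynomial which is `1` at the
point given by the edges of the path graph.
-/

open MvPolynomial

namespace Pool.Agent.HSI

theorem hes_adj {F₀ E ι : Type*} [Field F₀] [Field E] [Algebra F₀ E] (b : ι → E)
    (hb : AlgebraicIndependent F₀ b) {n : ℕ} (s : Fin (n + 1) → Fin (n + 1) → ι)
    (hs : ∀ a c, s a c = s c a)
    (hinj : ∀ a c a' c', s a c = s a' c' → (a = a' ∧ c = c') ∨ (a = c' ∧ c = a')) :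
    ∃ i j, (Matrix.of fun a c => (if a = c then 2 else 1) * b (s a c) :
      Matrix (Fin (n + 1)) (Fin (n + 1)) E).adjugate i j ≠ 0 := by
  classical
  refine ⟨Fin.last n, 0, ?_⟩
  rw [Matrix.adjugate_fin_succ_eq_det_submatrix]
  intro h0
  have h1 : ((Matrix.of fun a c => (if a = c then 2 else 1) * b (s a c) :
      Matrix (Fin (n + 1)) (Fin (n + 1)) E).submatrix (Fin.succAbove 0)
      (Fin.succAbove (Fin.last n))).det = 0 := by
    rcases mul_eq_zero.1 h0 with h | h
    · exact absurd h (pow_ne_zero _ (neg_ne_zero.2 one_ne_zero))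
    · exact h
  let M : Matrix (Fin n) (Fin n) (MvPolynomial ι F₀) := Matrix.of fun a c =>
    (if a.succ = c.castSucc then 2 else 1) * X (s a.succ c.castSucc)
  have hMd : ∀ a c, M a c = (if a.succ = c.castSucc then 2 else 1) *
      (X (s a.succ c.castSucc) : MvPolynomial ι F₀) := fun _ _ => rfl
  have h2 : aeval b M.det = 0 := by
    rw [← h1, AlgHom.map_det]
    congr 1
    ext a c
    rw [Matrix.submatrix_apply, Matrix.of_apply, Fin.succAbove_zero, Fin.succAbove_last]
    show aeval b (M a c) = _
    rw [hMd, map_mul, aeval_X]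
    congr 1
    split_ifs
    · exact map_ofNat _ 2
    · exact map_one _
  have h3 : M.det = 0 := by
    apply hb
    rw [h2, map_zero]
  let p : ι → F₀ := fun t => if ∃ e : Fin n, t = s e.castSucc e.succ then 1 else 0
  have h4 : (M.map (eval p)).det = 0 := by
    have := congrArg (eval p) h3
    rw [RingHom.map_det, map_zero] at this
    exact this
  have hM : ∀ a c, (M.map (eval p)) a c = (if a.succ = c.castSucc then 2 else 1) *
      (if ∃ e : Fin n, s a.succ c.castSucc = s e.castSucc e.succ then 1 else 0) := by
    intro a c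
    rw [Matrix.map_apply, hMd, map_mul, eval_X]
    congr 1
    split_ifs
    · exact map_ofNat _ 2
    · exact map_one _
  have h5 : (M.map (eval p)).BlockTriangular id := by
    intro a c hac
    have hac' : (c : ℕ) < a := hac
    have hne : ¬ ∃ e : Fin n, s a.succ c.castSucc = s e.castSucc e.succ := by
      rintro ⟨e, he⟩
      rcases hinj _ _ _ _ he with ⟨ha, hc⟩ | ⟨ha, hc⟩
      · have ha' := congrArg Fin.val ha
        have hc' := congrArg Fin.val hc
        simp only [Fin.val_succ, Fin.val_castSucc] at ha' hc'
        omega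
      · have ha' := congrArg Fin.val ha
        have hc' := congrArg Fin.val hc
        simp only [Fin.val_succ, Fin.val_castSucc] at ha' hc'
        omega
    rw [hM, if_neg hne, mul_zero]
  rw [Matrix.det_of_isUpperTriangular h5] at h4
  have h6 : ∀ a, (M.map (eval p)) a a = 1 := by
    intro a
    rw [hM, if_neg, if_pos, one_mul]
    · exact ⟨a, hs _ _⟩
    · intro h
      have h' := congrArg Fin.val h
      simp only [Fin.val_succ, Fin.val_castSucc] at h'
      omega
  rw [Finset.prod_congr rfl fun a _ => h6 a, Finset.prod_const_one] at h4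
  exact one_ne_zero h4

end Pool.Agent.HSI
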