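import Mathlib

/-! `n` elements over which `n` algebraically independent elements are algebraic. -/

namespace Pool.Agent.HSI

theorem indep_of_alg {F₀ E ι : Type*} [Field F₀] [Field E] [Algebra F₀ E] [Finite ι] (c b : ι → E)
    (hc : AlgebraicIndependent F₀ c)
    (h : ∀ i, IsAlgebraic ↥(IntermediateField.adjoin F₀ (Set.range b)) (c i)) :
    AlgebraicIndependent F₀ b := by
  classical
  cases nonempty_fintype ι
  have hci : (AlgebraicIndependent.matroid F₀ E).Indep (Set.range c) :=
    AlgebraicIndependent.matroid_indep_iff.2 hc.to_subtype_range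
  have hsub : Set.range c ⊆ (AlgebraicIndependent.matroid F₀ E).closure (Set.range b) := by
    rw [AlgebraicIndependent.matroid_closure_eq]
    rintro _ ⟨i, rfl⟩
    rw [SetLike.mem_coe, Subalgebra.mem_algebraicClosure]
    exact IntermediateField.isAlgebraic_adjoin_iff.1 (h i)
  have h1 : (Set.range c).encard ≤ (AlgebraicIndependent.matroid F₀ E).eRk (Set.range b) := by
    rw [← hci.eRk_eq_encard, ← Matroid.eRk_closure_eq _ (Set.range b)]
    exact Matroid.eRk_mono _ hsub
  have h2 : (Set.range c).encard = Fintype.card ι := by
    rw [← Set.image_univ, hc.injective.encard_image, Set.encard_univ]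
    simp
  have h3 : (Set.range b).encard ≤ Fintype.card ι := by
    rw [← Set.image_univ]
    refine (Set.encard_image_le _ _).trans ?_
    rw [Set.encard_univ]
    simp
  have h4 := Matroid.eRk_le_encard (AlgebraicIndependent.matroid F₀ E) (Set.range b)
  have h5 : (Set.range b).encard = Fintype.card ι := le_antisymm h3 (by rw [← h2]; exact h1.trans h4)
  have h6 : (AlgebraicIndependent.matroid F₀ E).Indep (Set.range b) := by
    rw [Matroid.indep_iff_eRk_eq_encard_of_finite (Set.finite_range b)]
    refine le_antisymm h4 ?_
    rw [h5, ← h2]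
    exact h1
  have h7 : Function.Injective b := by
    rw [← Set.injOn_univ]
    refine Set.finite_univ.injOn_of_encard_image_eq ?_
    rw [Set.image_univ, h5, Set.encard_univ]
    simp
  have h8 := AlgebraicIndependent.matroid_indep_iff.1 h6
  exact AlgebraicIndependent.of_subtype_range h7 h8

end Pool.Agent.HSI
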