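import Mathlib

/-!
# Families generating an algebraically independent family of the same size

PLAN. Let `A = Algebra.adjoin F₀ (Set.range b)`. The family `c` is algebraically independent and lies
in the field `K = IntermediateField.adjoin F₀ (Set.range b)`, so `#ι ≤ trdeg F₀ K` (`AlgebraicIndependent.cardinalMk_le_trdeg`
or the lift version), and `K` is algebraic over `F₀(b)` (equality). A family of `#ι` elements over
which `K` is algebraic, with `#ι ≤ trdeg F₀ K`, `ι` finite, is a transcendence basis: see
`isTranscendenceBasis_of_lift_le_trdeg_of_finite` (Mathlib RingTheory/AlgebraicIndependent/TranscendenceBasis). Also `c` is then a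
transcendence basis of `K` (`AlgebraicIndependent.isTranscendenceBasis_of_lift_trdeg_le_of_finite`), so that the elements
`b i` of `K` are algebraic over `F₀(c)`. (If the comparison of universes is unpleasant, `ι` may be
replaced by `Fin n` by an equivalence.) A model for this kind of argument is `Pool/Agent/GEL/AnA.lean`.
-/

namespace Pool.Agent.HSI

theorem indep_of_mem {F₀ E ι : Type*} [Field F₀] [Field E] [Algebra F₀ E] [Finite ι] (c b : ι → E)
    (hc : AlgebraicIndependent F₀ c) (h : ∀ i, c i ∈ Algebra.adjoin F₀ (Set.range b)) :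
    AlgebraicIndependent F₀ b ∧
      ∀ i, IsAlgebraic ↥(IntermediateField.adjoin F₀ (Set.range c)) (b i) := by
  classical
  let A := Algebra.adjoin F₀ (Set.range b)
  let b' : ι → A := fun i => ⟨b i, Algebra.subset_adjoin ⟨i, rfl⟩⟩
  let c' : ι → A := fun i => ⟨c i, h i⟩
  have hinj : Function.Injective A.val := Subtype.val_injective
  have hc' : AlgebraicIndependent F₀ c' :=
    (AlgHom.algebraicIndependent_iff A.val hinj).1 hc
  have htop : Algebra.adjoin F₀ (Set.range b') = ⊤ := by
    have h1 : (Algebra.adjoin F₀ (Set.range b')).map A.val = A := by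
      rw [← Algebra.adjoin_image, ← Set.range_comp]
      rfl
    rw [eq_top_iff]
    intro z _
    have h2 : (z : E) ∈ (Algebra.adjoin F₀ (Set.range b')).map A.val := by
      rw [h1]
      exact z.2
    obtain ⟨w, hw, hwz⟩ := h2
    have : w = z := hinj hwz
    rw [← this]
    exact hw
  have halg : Algebra.IsAlgebraic (Algebra.adjoin F₀ (Set.range b')) A := by
    refine ⟨fun z => ?_⟩
    exact isAlgebraic_algebraMap (⟨z, htop ▸ Algebra.mem_top⟩ : Algebra.adjoin F₀ (Set.range b'))
  have hb' : IsTranscendenceBasis F₀ b' :=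
    Algebra.IsAlgebraic.isTranscendenceBasis_of_lift_le_trdeg_of_finite F₀ b'
      hc'.lift_cardinalMk_le_trdeg
  have hc'' : IsTranscendenceBasis F₀ c' :=
    hc'.isTranscendenceBasis_of_lift_trdeg_le_of_finite hb'.lift_cardinalMk_eq_trdeg.ge
  refine ⟨(AlgHom.algebraicIndependent_iff A.val hinj).2 hb'.1, fun i => ?_⟩
  obtain ⟨P, hP, hPz⟩ := (hc''.isAlgebraic.isAlgebraic (b' i) :
    IsAlgebraic (Algebra.adjoin F₀ (Set.range c')) (b' i))
  have hle : ∀ z : Algebra.adjoin F₀ (Set.range c'), ((z : A) : E) ∈
      IntermediateField.adjoin F₀ (Set.range c) := by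
    intro z
    have h1 : ((z : A) : E) ∈ (Algebra.adjoin F₀ (Set.range c')).map A.val := ⟨z, z.2, rfl⟩
    rw [← Algebra.adjoin_image, ← Set.range_comp] at h1
    exact IntermediateField.algebra_adjoin_le_adjoin F₀ _ h1
  let g : Algebra.adjoin F₀ (Set.range c') →+* IntermediateField.adjoin F₀ (Set.range c) :=
    { toFun := fun z => ⟨((z : A) : E), hle z⟩
      map_one' := rfl
      map_mul' := fun _ _ => rfl
      map_zero' := rfl
      map_add' := fun _ _ => rfl }
  have hg : Function.Injective g := by
    intro z w hzw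
    have h1 := congrArg (fun u : IntermediateField.adjoin F₀ (Set.range c) => (u : E)) hzw
    exact Subtype.ext (Subtype.ext h1)
  refine ⟨P.map g, (Polynomial.map_ne_zero_iff hg).2 hP, ?_⟩
  have h1 : Polynomial.aeval (b i) (P.map g) = A.val (Polynomial.aeval (b' i) P) := by
    rw [Polynomial.aeval_def, Polynomial.eval₂_map, Polynomial.aeval_def]
    change _ = (A.val : A →+* E) _
    rw [Polynomial.hom_eval₂]
    rfl
  rw [h1, hPz, map_zero]

end Pool.Agent.HSI
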