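import Mathlib

/-! Rescaling an algebraically independent family. -/

open MvPolynomial

namespace Pool.Agent.HSI

theorem indep_scale {F₀ E ι : Type*} [Field F₀] [Field E] [Algebra F₀ E] (c : ι → E) (a : ι → F₀)
    (ha : ∀ i, a i ≠ 0) (h : AlgebraicIndependent F₀ c) :
    AlgebraicIndependent F₀ fun i => algebraMap F₀ E (a i) * c i := by
  have h1 : Function.Injective (aeval (fun i => C (a i) * X i) :
      MvPolynomial ι F₀ →ₐ[F₀] MvPolynomial ι F₀) := by
    have h2 : (aeval (fun i => C (a i)⁻¹ * X i) :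
        MvPolynomial ι F₀ →ₐ[F₀] MvPolynomial ι F₀).comp
        (aeval (fun i => C (a i) * X i)) = AlgHom.id F₀ _ := by
      apply MvPolynomial.algHom_ext
      intro i
      rw [AlgHom.comp_apply, aeval_X, map_mul, aeval_C, aeval_X, AlgHom.id_apply, algebraMap_eq,
        ← mul_assoc, ← C_mul, mul_inv_cancel₀ (ha i), C_1, one_mul]
    intro x y hxy
    have h3 := congrArg (aeval (fun i => C (a i)⁻¹ * X i) :
        MvPolynomial ι F₀ →ₐ[F₀] MvPolynomial ι F₀) hxy
    rwa [← AlgHom.comp_apply, ← AlgHom.comp_apply, h2] at h3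
  have h4 : (aeval (fun i => algebraMap F₀ E (a i) * c i) : MvPolynomial ι F₀ →ₐ[F₀] E) =
      (aeval c).comp (aeval (fun i => C (a i) * X i)) := by
    apply MvPolynomial.algHom_ext
    intro i
    rw [AlgHom.comp_apply, aeval_X, aeval_X, map_mul, aeval_C, aeval_X]
  have h5 : Function.Injective (aeval (fun i => algebraMap F₀ E (a i) * c i) :
      MvPolynomial ι F₀ →ₐ[F₀] E) := by
    rw [h4]
    have h6 : Function.Injective (aeval c : MvPolynomial ι F₀ →ₐ[F₀] E) := h
    intro x y hxy
    rw [AlgHom.comp_apply, AlgHom.comp_apply] at hxy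
    exact h1 (h6 hxy)
  exact h5

end Pool.Agent.HSI
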