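import Pool.Agent.HSI.DExt

/-!
# Smoothness of hypersurfaces with algebraically independent coefficients
-/

open MvPolynomial

namespace Pool.Agent.HSI

private theorem ds_eval_smul {k : Type*} [Field k] {M n : ℕ} {f : MvPolynomial (Fin M) k}
    (hf : f.IsHomogeneous n) (c : k) (x : Fin M → k) : eval (c • x) f = c ^ n * eval x f := by
  rw [eval_eq', eval_eq', Finset.mul_sum]
  refine Finset.sum_congr rfl fun d hd => ?_
  have h1 : d.degree = n := by
    by_contra h
    exact (mem_support_iff.1 hd) (hf.coeff_eq_zero h)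
  have h2 : ∏ i, (c • x) i ^ d i = c ^ n * ∏ i, x i ^ d i := by
    simp only [Pi.smul_apply, smul_eq_mul, mul_pow]
    rw [Finset.prod_mul_distrib, Finset.prod_pow_eq_pow_sum, ← h1, Finsupp.degree_eq_sum]
  rw [h2]
  ring

theorem smooth_of_indep {k : Type*} [Field k] [IsAlgClosed k] [CharZero k] {M D : ℕ}
    (F : MvPolynomial (Fin M) k) (hF : F.IsHomogeneous (D + 2))
    (h : AlgebraicIndependent ℚ fun m : {m : Fin M →₀ ℕ // m.degree = D + 2} => coeff m.1 F)
    (x : Fin M → k) (hx : x ≠ 0) : ∃ j, eval x (pderiv j F) ≠ 0 := by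
  by_contra hcon
  push Not at hcon
  obtain ⟨i, hi⟩ := Function.ne_iff.1 hx
  rw [Pi.zero_apply] at hi
  have hd : ∀ j, eval ((x i)⁻¹ • x) (pderiv j F) = 0 := by
    intro j
    rw [ds_eval_smul hF.pderiv, hcon j, mul_zero]
  have h1 := tay_ext (E := k) F hF h i (Finset.univ.erase i) (by simp) ((x i)⁻¹ • x)
    (by rw [Pi.smul_apply, smul_eq_mul, inv_mul_cancel₀ hi])
    (fun j hj hji => absurd (Finset.mem_erase.2 ⟨hji, Finset.mem_univ j⟩) hj)
    (fun j _ => by rw [aeval_eq_eval]; exact hd j)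
  refine h1.2.1 ?_
  rw [aeval_eq_eval]
  have h2 := congrArg (eval ((x i)⁻¹ • x)) hF.sum_X_mul_pderiv
  rw [map_sum, map_nsmul] at h2
  have h3 : ∑ j, eval ((x i)⁻¹ • x) (X j * pderiv j F) = 0 := by
    refine Finset.sum_eq_zero fun j _ => ?_
    rw [map_mul, hd j, mul_zero]
  rw [h3, nsmul_eq_mul] at h2
  rcases mul_eq_zero.1 h2.symm with h4 | h4
  · exact absurd h4 (by exact_mod_cast (by omega : D + 2 ≠ 0))
  · exact h4

end Pool.Agent.HSI
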