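import Mathlib

/-!
# Taylor shifts of forms

`sh i J ζ f` is the form `f` in the coordinates `x_j + ζ_j x_i` (`j ∈ J`), `x_j` (`j ∉ J`).

The shift is compatible with homogeneity, with the derivatives and with the evaluation; the values of a form and of its
derivatives at a coordinate point are coefficients.
-/

open MvPolynomial

namespace Pool.Agent.HSI

/-- the new coordinates `x_j + ζ_j x_i` for `j ∈ J` -/
noncomputable def shv {E : Type*} [CommRing E] {M : ℕ} (i : Fin M) (J : Finset (Fin M))
    (ζ : Fin M → E) (j : Fin M) : MvPolynomial (Fin M) E :=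
  if j ∈ J then X j + C (ζ j) * X i else X j

/-- the form `f` in the coordinates `x_j + ζ_j x_i` for `j ∈ J` -/
noncomputable def sh {E : Type*} [CommRing E] {M : ℕ} (i : Fin M) (J : Finset (Fin M)) (ζ : Fin M → E)
    (f : MvPolynomial (Fin M) E) : MvPolynomial (Fin M) E := aeval (shv i J ζ) f

variable {E : Type*} [Field E] {M : ℕ} (i : Fin M) (J : Finset (Fin M)) (ζ : Fin M → E)

theorem sh_isHomogeneous {f : MvPolynomial (Fin M) E} {d : ℕ} (hf : f.IsHomogeneous d) :
    (sh i J ζ f).IsHomogeneous d := by
  unfold sh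
  have h1 := hf.aeval (shv i J ζ) (n := 1) ?_
  · rw [one_mul] at h1
    exact h1
  · intro j
    unfold shv
    split_ifs
    · have h2 : (C (ζ j) * X i : MvPolynomial (Fin M) E).IsHomogeneous 1 := by
        have h3 := (isHomogeneous_C (Fin M) (ζ j)).mul (isHomogeneous_X E i)
        rw [zero_add] at h3
        exact h3
      exact (isHomogeneous_X E j).add h2
    · exact isHomogeneous_X E j

theorem sh_neg (hi : i ∉ J) (f : MvPolynomial (Fin M) E) :
    sh i J (fun j => - ζ j) (sh i J ζ f) = f := by
  have h1 : (aeval (shv i J (fun j => - ζ j)) : MvPolynomial (Fin M) E →ₐ[E] MvPolynomial (Fin M) E).comp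
      (aeval (shv i J ζ)) = AlgHom.id E (MvPolynomial (Fin M) E) := by
    apply MvPolynomial.algHom_ext
    intro j
    rw [AlgHom.comp_apply, aeval_X, AlgHom.id_apply]
    have hi2 : shv i J (fun j => - ζ j) i = X i := if_neg hi
    by_cases hj : j ∈ J
    · have h2 : shv i J ζ j = X j + C (ζ j) * X i := if_pos hj
      have h3 : shv i J (fun j => - ζ j) j = X j + C (- ζ j) * X i := if_pos hj
      rw [h2, map_add, map_mul, aeval_X, aeval_X, hi2, h3, algHom_C, algebraMap_eq, C_neg]
      ring
    · have h2 : shv i J ζ j = X j := if_neg hj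
      have h3 : shv i J (fun j => - ζ j) j = X j := if_neg hj
      rw [h2, aeval_X, h3]
  exact DFunLike.congr_fun h1 f

theorem pderiv_sh {j : Fin M} (hj : j ≠ i) (f : MvPolynomial (Fin M) E) :
    pderiv j (sh i J ζ f) = sh i J ζ (pderiv j f) := by
  classical
  have hv : ∀ l, pderiv j (shv i J ζ l) = if l = j then 1 else 0 := by
    intro l
    have h1 : pderiv j (X l : MvPolynomial (Fin M) E) = if l = j then 1 else 0 := by
      by_cases h : l = j
      · rw [if_pos h, h, pderiv_X_self]
      · rw [if_neg h, pderiv_X_of_ne h]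
    unfold shv
    split_ifs with h2 h3 h3
    · rw [map_add, pderiv_C_mul, pderiv_X_of_ne hj.symm, mul_zero, add_zero, h1, if_pos h3]
    · rw [map_add, pderiv_C_mul, pderiv_X_of_ne hj.symm, mul_zero, add_zero, h1, if_neg h3]
    · rw [h1, if_pos h3]
    · rw [h1, if_neg h3]
  induction f using MvPolynomial.induction_on with
  | C a =>
    have h1 : sh i J ζ (C a : MvPolynomial (Fin M) E) = C a := by
      unfold sh
      rw [algHom_C, algebraMap_eq]
    rw [h1, pderiv_C]
    exact (map_zero (aeval (shv i J ζ))).symm
  | add p q hp hq =>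
    have h1 : sh i J ζ (p + q) = sh i J ζ p + sh i J ζ q := map_add _ _ _
    have h2 : sh i J ζ (pderiv j p + pderiv j q) = sh i J ζ (pderiv j p) + sh i J ζ (pderiv j q) := map_add _ _ _
    rw [h1, map_add, hp, hq, map_add, h2]
  | mul_X p l hp =>
    have h1 : ∀ f g : MvPolynomial (Fin M) E, sh i J ζ (f * g) = sh i J ζ f * sh i J ζ g := fun f g => map_mul _ _ _
    have h2 : ∀ f g : MvPolynomial (Fin M) E, sh i J ζ (f + g) = sh i J ζ f + sh i J ζ g := fun f g => map_add _ _ _
    have h3 : sh i J ζ (X l : MvPolynomial (Fin M) E) = shv i J ζ l := aeval_X _ _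
    have h4 : sh i J ζ (pderiv j (X l : MvPolynomial (Fin M) E)) = pderiv j (shv i J ζ l) := by
      rw [hv]
      by_cases h : l = j
      · rw [if_pos h, h, pderiv_X_self]
        exact map_one (aeval (shv i J ζ))
      · rw [if_neg h, pderiv_X_of_ne h]
        exact map_zero (aeval (shv i J ζ))
    rw [h1, pderiv_mul, pderiv_mul, h2, h1, h1, hp, h3, h4]

theorem eval_sh (hi : i ∉ J) (hζi : ζ i = 1) (hζ : ∀ j, j ∉ J → j ≠ i → ζ j = 0)
    (f : MvPolynomial (Fin M) E) : eval (Pi.single i 1) (sh i J ζ f) = eval ζ f := by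
  have h1 : (eval (Pi.single i 1 : Fin M → E)).comp
      (aeval (shv i J ζ) : MvPolynomial (Fin M) E →ₐ[E] MvPolynomial (Fin M) E).toRingHom = eval ζ := by
    apply MvPolynomial.ringHom_ext
    · intro a
      show eval (Pi.single i 1 : Fin M → E) (aeval (shv i J ζ) (C a)) = eval ζ (C a)
      rw [algHom_C, algebraMap_eq, eval_C, eval_C]
    · intro j
      show eval (Pi.single i 1 : Fin M → E) (aeval (shv i J ζ) (X j)) = eval ζ (X j)
      rw [aeval_X, eval_X]
      by_cases hj : j ∈ J
      · have h2 : shv i J ζ j = X j + C (ζ j) * X i := if_pos hj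
        have h3 : j ≠ i := by
          rintro rfl
          exact hi hj
        rw [h2, map_add, map_mul, eval_X, eval_X, eval_C, Pi.single_eq_same, Pi.single_eq_of_ne h3, mul_one,
          zero_add]
      · have h2 : shv i J ζ j = X j := if_neg hj
        rw [h2, eval_X]
        by_cases h3 : j = i
        · rw [h3, Pi.single_eq_same, hζi]
        · rw [Pi.single_eq_of_ne h3, hζ j hj h3]
  exact DFunLike.congr_fun h1 f

theorem eval_single_hom {g : MvPolynomial (Fin M) E} {D : ℕ} (hg : g.IsHomogeneous D) :
    eval (Pi.single i 1) g = coeff (Finsupp.single i D) g := by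
  classical
  rw [eval_eq']
  by_cases h0 : coeff (Finsupp.single i D) g = 0
  · rw [h0]
    apply Finset.sum_eq_zero
    intro m hm
    have hm0 : coeff m g ≠ 0 := mem_support_iff.1 hm
    by_cases h1 : ∀ l, l ≠ i → m l = 0
    · exfalso
      apply hm0
      have h2 : m = Finsupp.single i D := by
        have h3 : m = Finsupp.single i (m i) := by
          ext l
          by_cases h4 : l = i
          · rw [h4, Finsupp.single_eq_same]
          · rw [h1 l h4, Finsupp.single_eq_of_ne h4]
        have h5 := hg hm0
        rw [h3, Finsupp.weight_single] at h5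
        rw [h3]
        congr 1
        simpa using h5
      rw [h2]
      exact h0
    · push Not at h1
      obtain ⟨l, hl, hl2⟩ := h1
      rw [Finset.prod_eq_zero (Finset.mem_univ l), mul_zero]
      rw [Pi.single_eq_of_ne hl, zero_pow hl2]
  · rw [Finset.sum_eq_single (Finsupp.single i D)]
    · rw [Finset.prod_eq_one, mul_one]
      intro l _
      by_cases h1 : l = i
      · rw [h1, Pi.single_eq_same, one_pow]
      · rw [Finsupp.single_eq_of_ne h1, pow_zero]
    · intro m hm hne
      have hm0 : coeff m g ≠ 0 := mem_support_iff.1 hm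
      have h1 : ∃ l, l ≠ i ∧ m l ≠ 0 := by
        by_contra hcon
        push Not at hcon
        apply hne
        have h3 : m = Finsupp.single i (m i) := by
          ext l
          by_cases h4 : l = i
          · rw [h4, Finsupp.single_eq_same]
          · rw [hcon l h4, Finsupp.single_eq_of_ne h4]
        have h5 := hg hm0
        rw [h3, Finsupp.weight_single] at h5
        rw [h3]
        congr 1
        simpa using h5
      obtain ⟨l, hl, hl2⟩ := h1
      rw [Finset.prod_eq_zero (Finset.mem_univ l), mul_zero]
      rw [Pi.single_eq_of_ne hl, zero_pow hl2]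
    · intro h1
      exact absurd (mem_support_iff.2 h0) h1

theorem eval_pderiv_single {g : MvPolynomial (Fin M) E} {D : ℕ} (hg : g.IsHomogeneous (D + 1))
    {j : Fin M} (hj : j ≠ i) :
    eval (Pi.single i 1) (pderiv j g) = coeff (Finsupp.single i D + Finsupp.single j 1) g := by
  have h1 : (pderiv j g).IsHomogeneous D := by
    have h2 := hg.pderiv (i := j)
    rw [Nat.add_sub_cancel] at h2
    exact h2
  rw [eval_single_hom i h1, coeff_pderiv, Finsupp.single_eq_of_ne hj]
  simp

theorem eval_pderiv2_single {g : MvPolynomial (Fin M) E} {D : ℕ} (hg : g.IsHomogeneous (D + 2))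
    {a b : Fin M} (ha : a ≠ i) (hb : b ≠ i) :
    eval (Pi.single i 1) (pderiv a (pderiv b g)) = (if a = b then 2 else 1) *
      coeff (Finsupp.single i D + Finsupp.single a 1 + Finsupp.single b 1) g := by
  have h1 : (pderiv b g).IsHomogeneous (D + 1) := by
    have h2 := hg.pderiv (i := b)
    exact h2
  rw [eval_pderiv_single i h1 ha, coeff_pderiv, Finsupp.add_apply, Finsupp.single_eq_of_ne hb]
  by_cases hab : a = b
  · rw [if_pos hab, hab, Finsupp.single_eq_same]
    push_cast
    ring
  · rw [if_neg hab, Finsupp.single_eq_of_ne (Ne.symm hab)]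
    push_cast
    ring

end Pool.Agent.HSI
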