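import Pool.Agent.HSI.DInd
import Pool.Agent.HSI.DTay

/-!
# The Taylor coefficients at a critical point, and the coordinates of this point, are independent

`b m = ζ j` if `m = (d - 1) e_i + e_j` with `j ∈ J` (such `j` is unique), and `b m = coeff m (sh i J ζ f)` otherwise. The
coefficients of `g = sh i J ζ f` lie in the algebra generated by the values of `b`: the coefficient of `(d - 1) e_i + e_j`,
`j ∈ J`, is the value of `∂f/∂x_j` at `ζ`, i.e. `0`. The coefficients of `f = sh i J (-ζ) g` are then in this algebra too.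
-/

open MvPolynomial

namespace Pool.Agent.HSI

private theorem coeff_mem {F₀ E : Type*} [Field F₀] [Field E] [Algebra F₀ E] {M : ℕ} (A : Subalgebra F₀ E)
    (v : Fin M → MvPolynomial (Fin M) E) (g : MvPolynomial (Fin M) E)
    (hv : ∀ l, v l ∈ (map A.val.toRingHom).range) (hg : g ∈ (map A.val.toRingHom).range)
    (m : Fin M →₀ ℕ) : coeff m (aeval v g) ∈ A := by
  obtain ⟨g', rfl⟩ := hg
  choose v' hv' using hv
  have h1 : aeval v (map A.val.toRingHom g') = map A.val.toRingHom (eval₂ C v' g') := by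
    rw [map_eval₂, aeval_def]
    congr 1
    funext l
    exact (hv' l).symm
  rw [h1, coeff_map]
  exact (coeff m (eval₂ C v' g')).2

theorem tay_indep {F₀ E : Type*} [Field F₀] [Field E] [Algebra F₀ E] {M d : ℕ} (hd : 2 ≤ d)
    (f : MvPolynomial (Fin M) E) (hf : f.IsHomogeneous d)
    (h : AlgebraicIndependent F₀ fun m : {m : Fin M →₀ ℕ // m.degree = d} => coeff m.1 f)
    (i : Fin M) (J : Finset (Fin M)) (hi : i ∉ J) (ζ : Fin M → E) (hζi : ζ i = 1)
    (hζ : ∀ j, j ∉ J → j ≠ i → ζ j = 0) (hcrit : ∀ j ∈ J, eval ζ (pderiv j f) = 0) :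
    ∃ b : {m : Fin M →₀ ℕ // m.degree = d} → E, AlgebraicIndependent F₀ b ∧
      (∀ m, IsAlgebraic ↥(IntermediateField.adjoin F₀
        (Set.range fun m : {m : Fin M →₀ ℕ // m.degree = d} => coeff m.1 f)) (b m)) ∧
      (∀ m, (∀ j ∈ J, m.1 ≠ Finsupp.single i (d - 1) + Finsupp.single j 1) →
        b m = coeff m.1 (sh i J ζ f)) ∧
      ∀ j ∈ J, ∀ m, m.1 = Finsupp.single i (d - 1) + Finsupp.single j 1 → b m = ζ j := by
  classical
  have hfin : Finite {m : Fin M →₀ ℕ // m.degree = d} := (Finsupp.finite_of_degree_eq d).to_subtype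
  have hJi : ∀ j ∈ J, j ≠ i := fun j hj h' => hi (h' ▸ hj)
  have huniq : ∀ j ∈ J, ∀ j' ∈ J, Finsupp.single i (d - 1) + Finsupp.single j 1 =
      Finsupp.single i (d - 1) + Finsupp.single j' 1 → j = j' := by
    intro j _ j' _ he
    exact Finsupp.single_left_injective one_ne_zero (add_left_cancel he)
  let b : {m : Fin M →₀ ℕ // m.degree = d} → E := fun m =>
    if hm : ∃ j ∈ J, m.1 = Finsupp.single i (d - 1) + Finsupp.single j 1 then ζ hm.choose
    else coeff m.1 (sh i J ζ f)
  have hb1 : ∀ m : {m : Fin M →₀ ℕ // m.degree = d},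
      (∀ j ∈ J, m.1 ≠ Finsupp.single i (d - 1) + Finsupp.single j 1) → b m = coeff m.1 (sh i J ζ f) := by
    intro m hm
    exact dif_neg fun ⟨j, hj, he⟩ => hm j hj he
  have hb2 : ∀ j ∈ J, ∀ m : {m : Fin M →₀ ℕ // m.degree = d},
      m.1 = Finsupp.single i (d - 1) + Finsupp.single j 1 → b m = ζ j := by
    intro j hj m hm
    have hex : ∃ j ∈ J, m.1 = Finsupp.single i (d - 1) + Finsupp.single j 1 := ⟨j, hj, hm⟩
    have h1 : b m = ζ hex.choose := dif_pos hex
    have h2 := hex.choose_spec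
    rw [h1, huniq _ h2.1 j hj (h2.2.symm.trans hm)]
  have hmain : ∀ m : {m : Fin M →₀ ℕ // m.degree = d}, coeff m.1 f ∈ Algebra.adjoin F₀ (Set.range b) := by
    intro m
    have hζA : ∀ j ∈ J, ζ j ∈ Algebra.adjoin F₀ (Set.range b) := by
      intro j hj
      have hdeg : (Finsupp.single i (d - 1) + Finsupp.single j 1 : Fin M →₀ ℕ).degree = d := by
        rw [map_add, Finsupp.degree_single, Finsupp.degree_single]
        omega
      rw [← hb2 j hj ⟨_, hdeg⟩ rfl]
      exact Algebra.subset_adjoin ⟨_, rfl⟩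
    have hgA : ∀ m : Fin M →₀ ℕ, coeff m (sh i J ζ f) ∈ Algebra.adjoin F₀ (Set.range b) := by
      intro m
      by_cases hm : m.degree = d
      · by_cases hex : ∃ j ∈ J, m = Finsupp.single i (d - 1) + Finsupp.single j 1
        · obtain ⟨j, hj, rfl⟩ := hex
          have hg : (sh i J ζ f).IsHomogeneous (d - 1 + 1) := by
            rw [show d - 1 + 1 = d by omega]
            exact sh_isHomogeneous i J ζ hf
          rw [← eval_pderiv_single i hg (hJi j hj), pderiv_sh i J ζ (hJi j hj), eval_sh i J ζ hi hζi hζ,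
            hcrit j hj]
          exact zero_mem _
        · rw [← hb1 ⟨m, hm⟩ fun j hj he => hex ⟨j, hj, he⟩]
          exact Algebra.subset_adjoin ⟨_, rfl⟩
      · rw [(sh_isHomogeneous i J ζ hf).coeff_eq_zero hm]
        exact zero_mem _
    rw [← sh_neg i J ζ hi f]
    refine coeff_mem _ _ _ (fun l => ?_) ?_ m.1
    · unfold shv
      by_cases hl : l ∈ J
      · rw [if_pos hl]
        have hneg : -ζ l ∈ Algebra.adjoin F₀ (Set.range b) := neg_mem (hζA l hl)
        refine ⟨X l + C ⟨-ζ l, hneg⟩ * X i, ?_⟩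
        rw [map_add, map_mul, map_X, map_X, map_C]
        rfl
      · rw [if_neg hl]
        exact ⟨X l, map_X _ _⟩
    · refine mem_range_map_iff_coeffs_subset.2 ?_
      intro c hc
      obtain ⟨m, _, rfl⟩ := MvPolynomial.mem_coeffs_iff.1 hc
      exact ⟨⟨_, hgA m⟩, rfl⟩
  obtain ⟨h1, h2⟩ := indep_of_mem (fun m : {m : Fin M →₀ ℕ // m.degree = d} => coeff m.1 f) b h hmain
  exact ⟨b, h1, h2, hb1, hb2⟩

end Pool.Agent.HSI
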