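import Mathlib

/-!
# Rational curves through the generic point of a hypersurface: definitions

Definitions for the result `MP_872d76_ag.IndexOne`.
-/

open MvPolynomial

universe u

namespace Pool.Agent.HSI

variable {k : Type u} [Field k] {n : ℕ} {F : MvPolynomial (Fin (n + 2)) k} {L : Type u} [Field L]
  [Algebra k L]

/-- The `L`-points `(x_0 : ⋯ : x_(n+1))` of the hypersurface `X : F = 0` in projective space
`P^(n+1)`, given by homogeneous coordinates. -/
structure Pt (F : MvPolynomial (Fin (n + 2)) k) (L : Type u) [Field L] [Algebra k L] where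
  x : Fin (n + 2) → L
  ne : x ≠ 0
  eq : aeval x F = 0

/-- `x` are homogeneous coordinates of the point `P`. -/
def Pt.HasCoords (P : Pt F L) (x : Fin (n + 2) → L) : Prop :=
  ∃ c : L, c ≠ 0 ∧ ∀ i, x i = c * P.x i

/-- `P` and `P'` are joined by a rational curve over `L`: there is a rational curve
`t ↦ (X_0(t) : ⋯ : X_(n+1)(t))` on `X`, defined over `L`, with value `P` at `t = 0` and `P'` at
`t = 1`. -/
def Joined (P P' : Pt F L) : Prop :=
  ∃ X : Fin (n + 2) → Polynomial L, aeval X F = 0 ∧
    P.HasCoords (fun i => (X i).eval 0) ∧ P'.HasCoords (fun i => (X i).eval 1)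

/-- R-equivalence of `L`-points: the equivalence relation generated by `Joined`. -/
def REquiv : Pt F L → Pt F L → Prop := Relation.EqvGen Joined

/-- `P` is the generic point of `X`: it has coordinates `(1, x_1, x_2, …, x_(n+1))` with
`x_2, …, x_(n+1)` algebraically independent over `k`. -/
structure Pt.IsGeneric (P : Pt F L) : Prop where
  one : P.x 0 = 1
  indep : AlgebraicIndependent k (fun i : Fin n => P.x i.succ.succ)

/-- The subfield `k(x_0, …, x_(n+1))` of `L`. If `P` is the generic point of `X`, this is the
function field `k(X)`. -/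
noncomputable def Pt.funField (P : Pt F L) : IntermediateField k L :=
  IntermediateField.adjoin k (Set.range P.x)

/-- The closure of the image of `P` in `X` has dimension at least `r`: for a suitable coordinate
`x_j ≠ 0` of `P`, there are `r` algebraically independent elements among the `x_i / x_j`. -/
def Pt.DimGE (P : Pt F L) (r : ℕ) : Prop :=
  ∃ (j : Fin (n + 2)) (s : Fin r → Fin (n + 2)), P.x j ≠ 0 ∧
    AlgebraicIndependent k fun i => P.x (s i) / P.x j

end Pool.Agent.HSI
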