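import Mathlib

/-! Independent derivations over a perfect field give algebraically independent coordinates. -/

namespace HSI

open IntermediateField Polynomial

private theorem nd_zero {k K E : Type*} [Field k] [Field K] [Field E] [Algebra k K] [Algebra k E]
    [Algebra K E] [IsScalarTower k K E] (s : Set K)
    [Algebra.IsSeparable (IntermediateField.adjoin k s) K]
    (T : Derivation k K E) (h : ∀ b ∈ s, T b = 0) (y : K) : T y = 0 := by
  have h1 : ∀ z ∈ IntermediateField.adjoin k s, T z = 0 := by
    intro z hz
    induction hz using IntermediateField.adjoin_induction with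
    | mem x hx => exact h x hx
    | algebraMap x => exact T.map_algebraMap x
    | add x y _ _ hx hy => rw [map_add, hx, hy, add_zero]
    | inv x _ hx => rw [Derivation.leibniz_inv, hx, smul_zero]
    | mul x y _ _ hx hy => rw [Derivation.leibniz, hx, hy, smul_zero, smul_zero, add_zero]
  have h2 : ∀ P : Polynomial (IntermediateField.adjoin k s),
      T (aeval y P) = (aeval y (derivative P)) • T y := by
    intro P
    induction P using Polynomial.induction_on' with
    | add p q hp hq => simp only [map_add, hp, hq, add_smul]
    | monomial n a =>
      rw [aeval_monomial, derivative_monomial, aeval_monomial, Derivation.leibniz,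
        Derivation.leibniz_pow]
      have h3 : T (algebraMap (IntermediateField.adjoin k s) K a) = 0 := h1 _ a.2
      rw [h3, smul_zero, add_zero, map_mul, map_natCast]
      simp only [mul_smul, Nat.cast_smul_eq_nsmul]
  have h3 := h2 (minpoly (IntermediateField.adjoin k s) y)
  rw [minpoly.aeval, map_zero] at h3
  have h4 := (Algebra.IsSeparable.isSeparable (IntermediateField.adjoin k s) y).aeval_derivative_ne_zero
    (minpoly.aeval _ y)
  rcases smul_eq_zero.1 h3.symm with h5 | h5
  · exact absurd h5 h4
  · exact h5

private theorem nd_sum {k K E : Type*} [Field k] [Field K] [Field E] [Algebra k K] [Algebra k E]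
    [Algebra K E] {κ : Type*} [Fintype κ] (c : κ → E) (D : κ → Derivation k K E) (y : K) :
    (∑ l, c l • D l) y = ∑ l, c l * D l y := by
  have h := congrFun (map_sum (Derivation.coeFnAddMonoidHom (R := k) (A := K) (M := E))
    (fun l => c l • D l) Finset.univ) y
  rw [Finset.sum_apply] at h
  exact h

/-- Independent rows of derivatives: as many algebraically independent coordinates. -/
theorem nd {k E : Type*} [Field k] [Field E] [Algebra k E] [PerfectField k] {ι κ : Type*}
    [Finite ι] [Finite κ] (x : ι → E) (D : κ → Derivation k E E)
    (h : LinearIndependent E (fun l i => D l (x i))) :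
    ∃ s : κ → ι, Function.Injective s ∧ AlgebraicIndependent k (fun l => x (s l)) := by
  classical
  cases nonempty_fintype κ
  set K := IntermediateField.adjoin k (Set.range x) with hK
  have hx : ∀ i, x i ∈ K := fun i => IntermediateField.subset_adjoin k _ ⟨i, rfl⟩
  have hfg : (⊤ : IntermediateField k K).FG := by
    have h0 : K.FG := ⟨(Set.finite_range x).toFinset, by rw [Set.Finite.coe_toFinset]⟩
    exact (IntermediateField.fg_top_iff).2 (IntermediateField.essFiniteType_iff.2 h0)
  have hes : Algebra.EssFiniteType k K := IntermediateField.fg_top_iff.1 hfg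
  obtain ⟨s, hs, hsep⟩ := exists_isTranscendenceBasis_and_isSeparable_of_perfectField k K
  let φ : (κ → E) →ₗ[E] (s → E) :=
    { toFun := fun c b => ∑ l, c l * D l ((b : K) : E)
      map_add' := by
        intro c d
        funext b
        simp only [Pi.add_apply, add_mul, Finset.sum_add_distrib]
      map_smul' := by
        intro a c
        funext b
        simp only [Pi.smul_apply, smul_eq_mul, RingHom.id_apply, Finset.mul_sum, mul_assoc] }
  have hφ : Function.Injective φ := by
    rw [← LinearMap.ker_eq_bot, LinearMap.ker_eq_bot']
    intro c hc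
    have h0 : ∀ y : K, (∑ l, c l • (D l).compAlgebraMap K) y = 0 := by
      refine nd_zero (s : Set K) _ ?_
      intro b hb
      have := congrFun hc ⟨b, hb⟩
      simp only [Pi.zero_apply] at this
      rw [← this, nd_sum]
      rfl
    have h1 := Fintype.linearIndependent_iff.1 h c (by
      funext i
      have := h0 ⟨x i, hx i⟩
      rw [Pi.zero_apply, ← this, nd_sum]
      simp [Finset.sum_apply])
    funext l
    exact h1 l
  have hcard : Fintype.card κ ≤ s.card := by
    have := LinearMap.finrank_le_finrank_of_injective hφ
    simpa using this
  have htop : IntermediateField.adjoin k (Set.range fun i => (⟨x i, hx i⟩ : K)) = ⊤ := by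
    have h1 : (IntermediateField.adjoin k (Set.range fun i => (⟨x i, hx i⟩ : K))).map K.val =
        (⊤ : IntermediateField k K).map K.val := by
      rw [IntermediateField.adjoin_map, ← Set.range_comp]
      have h2 : (⇑K.val ∘ fun i => (⟨x i, hx i⟩ : K)) = x := rfl
      rw [h2, ← hK]
      ext z
      rw [IntermediateField.mem_map]
      exact ⟨fun hz => ⟨⟨z, hz⟩, trivial, rfl⟩, fun ⟨y, _, hy⟩ => hy ▸ y.2⟩
    exact IntermediateField.map_injective K.val h1
  have halg : Algebra.IsAlgebraic (Algebra.adjoin k (Set.range fun i => (⟨x i, hx i⟩ : K))) K := by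
    rw [← isAlgebraic_adjoin_iff_top, htop, Algebra.isAlgebraic_iff_isIntegral]
    exact Algebra.isIntegral_of_surjective IntermediateField.topEquiv.surjective
  obtain ⟨t, ht1, ht2⟩ := exists_isTranscendenceBasis_subset (R := k)
    (Set.range fun i => (⟨x i, hx i⟩ : K))
  have htc : Cardinal.mk t = Cardinal.mk s := ht2.cardinalMk_eq hs
  have hfin : Finite t := (Set.finite_range _).subset ht1
  cases nonempty_fintype t
  have htc2 : Fintype.card t = s.card := by
    have h1 := congrArg Cardinal.toNat htc
    simpa using h1
  obtain ⟨f⟩ : Nonempty (κ ↪ t) := Function.Embedding.nonempty_of_card_le (by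
    rw [htc2]
    exact hcard)
  choose g hg using fun l => ht1 (f l).2
  have hgi : Function.Injective g := by
    intro a b hab
    apply f.injective
    apply Subtype.ext
    rw [← hg a, ← hg b, hab]
  refine ⟨g, hgi, ?_⟩
  have h1 : AlgebraicIndependent k (fun l => ((f l : t) : K)) := ht2.1.comp f f.injective
  have h2 := h1.map' (f := K.val) K.val.injective
  have h3 : (⇑K.val ∘ fun l => ((f l : t) : K)) = fun l => x (g l) := by
    funext l
    have := hg l
    simp only [Function.comp_apply, ← this]
    rfl
  rw [h3] at h2
  exact h2

/-- The same with homogeneous coordinates. -/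
theorem nd_hom {k E : Type*} [Field k] [Field E] [Algebra k E] [PerfectField k] {ι κ : Type*}
    [Finite ι] [Finite κ] (x : ι → E) (D : κ → Derivation k E E)
    (h : LinearIndependent E (fun (l : Option κ) (i : Option ι) =>
      l.elim (i.elim 1 x) fun l => D l (i.elim 1 x))) :
    ∃ s : κ → ι, Function.Injective s ∧ AlgebraicIndependent k (fun l => x (s l)) := by
  classical
  cases nonempty_fintype κ
  refine nd x D ?_
  rw [Fintype.linearIndependent_iff] at h ⊢
  intro c hc l
  refine h (fun o => o.elim 0 c) ?_ (some l)
  funext i
  rw [Fintype.sum_option]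
  rcases i with _ | i
  · simp
  · have := congrFun hc i
    simpa using this

end HSI
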