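import Pool.Agent.HSI.Tools
import Pool.Agent.GEL.GAC
import Pool.Agent.HSI.AScl
import Pool.Agent.HSI.ND

/-!
# The dimension of the image

PLAN. `nd_indep`: helper97's theorem `HSI.nd` (file HSI/ND.lean: the rows `D_l(x_i)` independent => algebraically independent elements `x_(s l)`; `k₀` is algebraically closed, so perfect). Some `z j ≠ 0` (`mnr_zero`). With
`y i = z i / z j`: `ND D z` iff `ND D y` (`ND_smul`), `y j = 1`, `D_l y j = 0`; the rows `y, D_1 y, …, D_N y` are linearly independent (`mnr ≠ 0`), so the rows `D_1 y, …, D_N y` are. `nd` gives `s`.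
`lift_indep`: suppose `g(y) = 0`, `g ≠ 0` with coefficients in `k`; divide by a coefficient of maximal valuation (`V` restricted to `k`): all coefficients in `V`, one of them a unit; reduction gives a nonzero polynomial over `K0 k V` vanishing at the
residues (`reduce_pt` with `Gb` = the reduction of `g`). Compare GEL/Dom.lean.
`dimGE`: `NDred` for `scP p P'.x` with scalar `c`; `nd_indep` for the residues `z i` of `c * scP p P'.x i.castSucc = c * P'.x i.castSucc`: `j`, `s`; `c P'.x j.castSucc` is a unit, the quotients `P'.x (s i) / P'.x j` are in `V` and have residues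
`z (s i) / z j`; `lift_indep`.
-/

open MvPolynomial

universe u

namespace Pool.Agent.HSI

theorem nd_indep {k₀ κ : Type u} [Field k₀] [IsAlgClosed k₀] [Field κ] [Algebra k₀ κ] {N : ℕ}
    (D : Fin N → Derivation k₀ κ κ) (z : Fin (N + 2) → κ) (h : ND D z) :
    ∃ (j : Fin (N + 2)) (s : Fin N → Fin (N + 2)), z j ≠ 0 ∧
      AlgebraicIndependent k₀ fun i => z (s i) / z j := by
  classical
  have hz : ∃ j, z j ≠ 0 := by
    by_contra hne
    push Not at hne
    obtain ⟨i, hi⟩ := h
    apply hi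
    have h1 : z = fun _ => 0 := funext hne
    rw [h1]
    exact mnr_zero D i
  obtain ⟨j, hj⟩ := hz
  have hy : ND D (fun i => (z j)⁻¹ * z i) := (ND_smul D (z j)⁻¹ (inv_ne_zero hj) z).2 h
  obtain ⟨i, hi⟩ := hy
  have h1 : LinearIndependent κ (fun k => (Matrix.of (Fin.cons (Pi.single i (1 : κ))
      (rows D fun i => (z j)⁻¹ * z i) : Fin (N + 2) → Fin (N + 2) → κ)) k) := by
    have h2 := Matrix.linearIndependent_rows_of_det_ne_zero (A := (Matrix.of
      (Fin.cons (Pi.single i (1 : κ)) (rows D fun i => (z j)⁻¹ * z i) :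
        Fin (N + 2) → Fin (N + 2) → κ))) hi
    exact h2
  have h3 := h1.comp (fun l : Fin N => l.succ.succ) (by
    intro a b hab
    exact Fin.succ_injective _ (Fin.succ_injective _ hab))
  obtain ⟨s, -, hs⟩ := _root_.HSI.nd (k := k₀) (fun i => (z j)⁻¹ * z i) D h3
  refine ⟨j, s, hj, ?_⟩
  have h4 : (fun i => z (s i) / z j) = fun l => (z j)⁻¹ * z (s l) := by
    funext l
    rw [div_eq_inv_mul]
  rw [h4]
  exact hs

theorem lift_indep {k L : Type u} [Field k] [Field L] [Algebra k L] (V : ValuationSubring L)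
    {r : ℕ} (y : Fin r → V)
    (h : AlgebraicIndependent (K0 k V) fun i => IsLocalRing.residue V (y i)) :
    AlgebraicIndependent k fun i => ((y i : V) : L) := by
  classical
  rw [algebraicIndependent_iff]
  intro g hg
  by_contra hg0
  obtain ⟨m0, hm0, hmax⟩ := g.support.exists_max_image
    (fun m => V.valuation (algebraMap k L (coeff m g))) (support_nonempty.2 hg0)
  have ha0 : coeff m0 g ≠ 0 := mem_support_iff.1 hm0
  have hval0 : V.valuation (algebraMap k L (coeff m0 g)) ≠ 0 := by
    rw [Ne, map_eq_zero, map_eq_zero]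
    exact ha0
  have hcoV : ∀ m, algebraMap k L ((coeff m0 g)⁻¹ * coeff m g) ∈ V := by
    intro m
    by_cases hm : m ∈ g.support
    · rw [← V.valuation_le_one_iff, map_mul, map_inv₀, map_mul, map_inv₀]
      calc (V.valuation (algebraMap k L (coeff m0 g)))⁻¹ * V.valuation (algebraMap k L (coeff m g))
          ≤ (V.valuation (algebraMap k L (coeff m0 g)))⁻¹ *
            V.valuation (algebraMap k L (coeff m0 g)) := mul_le_mul_right (hmax m hm) _
        _ = 1 := inv_mul_cancel₀ hval0
    · rw [notMem_support_iff.1 hm, mul_zero, map_zero]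
      exact V.zero_mem
  obtain ⟨co, hco⟩ : ∃ co : (Fin r →₀ ℕ) → V,
      ∀ m, (co m : L) = algebraMap k L ((coeff m0 g)⁻¹ * coeff m g) :=
    ⟨fun m => ⟨_, hcoV m⟩, fun _ => rfl⟩
  have hmem : ∀ m, IsLocalRing.residue V (co m) ∈ K0 k V := by
    intro m
    refine GEL.mem_resSub.2 ⟨co m, ?_, rfl⟩
    rw [hco m]
    exact ⟨_, rfl⟩
  have hsum : ∑ m ∈ g.support, co m * ∏ i, y i ^ m i = 0 := by
    apply Subtype.ext
    have h1 : ∀ w : V, (w : L) = V.subtype w := fun _ => rfl
    rw [h1, h1 0, map_sum, map_zero]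
    have h2 : ∀ m ∈ g.support, V.subtype (co m * ∏ i, y i ^ m i) =
        algebraMap k L (coeff m0 g)⁻¹ * (algebraMap k L (coeff m g) * ∏ i, ((y i : V) : L) ^ m i) := by
      intro m _
      rw [map_mul, map_prod, ← h1, hco m, map_mul, mul_assoc]
      congr 2
    rw [Finset.sum_congr rfl h2, ← Finset.mul_sum]
    rw [aeval_def, eval₂_eq'] at hg
    rw [hg, mul_zero]
  have hred := congrArg (IsLocalRing.residue V) hsum
  rw [map_sum, map_zero] at hred
  obtain ⟨q, hq⟩ : ∃ q : MvPolynomial (Fin r) (K0 k V),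
      q = ∑ m ∈ g.support, monomial m ⟨IsLocalRing.residue V (co m), hmem m⟩ := ⟨_, rfl⟩
  have hq0 : aeval (fun i => IsLocalRing.residue V (y i)) q = 0 := by
    rw [hq, map_sum, ← hred]
    refine Finset.sum_congr rfl fun m _ => ?_
    rw [aeval_monomial, map_mul, map_prod, Finsupp.prod_fintype]
    · congr 1
    · intro i
      exact pow_zero _
  have hq1 := (algebraicIndependent_iff.1 h) q hq0
  have hq2 : coeff m0 q = ⟨IsLocalRing.residue V (co m0), hmem m0⟩ := by
    rw [hq, coeff_sum, Finset.sum_eq_single m0]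
    · rw [coeff_monomial, if_pos rfl]
    · intro m _ hne
      rw [coeff_monomial, if_neg hne]
    · intro h1
      exact absurd hm0 h1
  rw [hq1, coeff_zero] at hq2
  have hone : co m0 = 1 := by
    apply Subtype.ext
    rw [hco m0, inv_mul_cancel₀ ha0, map_one]
    rfl
  have hq3 : (0 : IsLocalRing.ResidueField V) = IsLocalRing.residue V (co m0) :=
    congrArg (Subtype.val) hq2
  rw [hone, map_one] at hq3
  exact zero_ne_one hq3

theorem dimGE {k : Type u} [Field k] [IsAlgClosed k] {N p : ℕ} {F : MvPolynomial (Fin (N + 3)) k}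
    {L : Type u} [Field L] [Algebra k L] (M : Model p F L) (P' : Pt F L)
    (h : NDred M.V M.D (scP p P'.x)) : P'.DimGE N := by
  classical
  obtain ⟨c, hc, hc0, hnd⟩ := h
  have hsc : ∀ i : Fin (N + 2), scP p P'.x i.castSucc = P'.x i.castSucc := by
    intro i
    unfold scP
    rw [if_neg (Fin.castSucc_lt_last i).ne]
  have : IsAlgClosed (K0 k M.V) := GEL.resSub_isAlgClosed M.V
  obtain ⟨j, s, hj, hind⟩ := nd_indep M.D _ hnd
  obtain ⟨u, hu⟩ : ∃ u : Fin (N + 2) → M.V, ∀ i, u i = ⟨c * scP p P'.x i.castSucc, hc i.castSucc⟩ :=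
    ⟨_, fun _ => rfl⟩
  have huL : ∀ i, ((u i : M.V) : L) = c * P'.x i.castSucc := by
    intro i
    rw [hu i]
    show c * scP p P'.x i.castSucc = _
    rw [hsc i]
  have huj : IsUnit (u j) := by
    rw [← IsLocalRing.residue_ne_zero_iff_isUnit, hu j]
    exact hj
  obtain ⟨v, hv⟩ := huj
  have hvL : ((v⁻¹ : (M.V)ˣ) : M.V) * u j = 1 := by
    rw [← hv]
    exact Units.inv_mul v
  have hujL : ((u j : M.V) : L) ≠ 0 := by
    intro h0
    have h1 := congrArg (Subtype.val) hvL
    have h2 : (((v⁻¹ : (M.V)ˣ) : M.V) : L) * ((u j : M.V) : L) = 1 := h1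
    rw [h0, mul_zero] at h2
    exact zero_ne_one h2
  have hPj : P'.x j.castSucc ≠ 0 := by
    intro h0
    apply hujL
    rw [huL j, h0, mul_zero]
  have hvinv : (((v⁻¹ : (M.V)ˣ) : M.V) : L) = ((u j : M.V) : L)⁻¹ := by
    refine eq_inv_of_mul_eq_one_left ?_
    have h1 := congrArg (Subtype.val) hvL
    exact h1
  have hfin := lift_indep (k := k) M.V (fun i => u (s i) * ((v⁻¹ : (M.V)ˣ) : M.V)) (by
    have h1 : (fun i => IsLocalRing.residue M.V (u (s i) * ((v⁻¹ : (M.V)ˣ) : M.V))) =
        fun i => IsLocalRing.residue M.V ⟨c * scP p P'.x (s i).castSucc, hc (s i).castSucc⟩ /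
          IsLocalRing.residue M.V ⟨c * scP p P'.x j.castSucc, hc j.castSucc⟩ := by
      funext i
      rw [map_mul, div_eq_mul_inv, hu (s i)]
      congr 1
      refine eq_inv_of_mul_eq_one_left ?_
      rw [← hu j, ← map_mul, hvL, map_one]
    rw [h1]
    exact hind)
  refine ⟨j.castSucc, fun i => (s i).castSucc, hPj, ?_⟩
  have h2 : (fun i => P'.x (s i).castSucc / P'.x j.castSucc) =
      fun i => ((u (s i) * ((v⁻¹ : (M.V)ˣ) : M.V) : M.V) : L) := by
    funext i
    show _ = ((u (s i) : M.V) : L) * (((v⁻¹ : (M.V)ˣ) : M.V) : L)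
    rw [hvinv, huL, huL, div_eq_mul_inv, mul_inv]
    field_simp
  rw [h2]
  exact hfin

end Pool.Agent.HSI
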