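import Pool.Agent.HSI.Tools
import Pool.Agent.HSI.DSca
import Pool.Agent.HSI.PCo
import Pool.Agent.GEL.Plc

/-! A place over `p` at which a hypersurface with algebraically independent coefficients becomes an
inseparable covering. -/

open MvPolynomial

universe u

namespace Pool.Agent.HSI

/-- restriction of an exponent to the first coordinates -/
private noncomputable def plcR {N : ℕ} (m : Fin (N + 3) →₀ ℕ) : Fin (N + 2) →₀ ℕ :=
  Finsupp.equivFunOnFinite.symm fun i => m i.castSucc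

private theorem plcR_degree {N : ℕ} (m : Fin (N + 3) →₀ ℕ) (h : m (Fin.last (N + 2)) = 0) :
    (plcR m).degree = m.degree := by
  have h1 : m.degree = ∑ i : Fin (N + 2), m i.castSucc := by
    rw [Finsupp.degree_eq_sum, Fin.sum_univ_castSucc, h, add_zero]
  rw [h1, Finsupp.degree_eq_sum]
  rfl

private theorem plc_md_apply {N : ℕ} (m : Fin (N + 2) →₀ ℕ) (i : Fin (N + 2)) :
    (m.mapDomain Fin.castSucc) (i.castSucc : Fin (N + 3)) = m i :=
  Finsupp.mapDomain_apply (Fin.castSucc_injective _) _ _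

private theorem plc_md_last {N : ℕ} (m : Fin (N + 2) →₀ ℕ) :
    (m.mapDomain Fin.castSucc) (Fin.last (N + 2)) = 0 := by
  apply Finsupp.mapDomain_of_notMem_range
  rintro ⟨i, hi⟩
  exact (Fin.castSucc_lt_last i).ne hi

private theorem plc_md_degree {N : ℕ} (m : Fin (N + 2) →₀ ℕ) :
    ((m.mapDomain Fin.castSucc : Fin (N + 3) →₀ ℕ)).degree = m.degree := by
  rw [Finsupp.degree_eq_sum, Finsupp.degree_eq_sum, Fin.sum_univ_castSucc, plc_md_last, add_zero]
  exact Finset.sum_congr rfl fun i _ => plc_md_apply m i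

private theorem plcR_md {N : ℕ} (m : Fin (N + 2) →₀ ℕ) : plcR (m.mapDomain Fin.castSucc) = m := by
  ext i
  exact plc_md_apply m i

theorem exists_place {k : Type u} [Field k] [CharZero k] {N p : ℕ} (hp : p.Prime) (hpN : p ≤ N + 2)
    (F : MvPolynomial (Fin (N + 3)) k) (hF : F.IsHomogeneous (N + 2))
    (hgen : AlgebraicIndependent ℚ
      fun m : {m : Fin (N + 3) →₀ ℕ // m.degree = N + 2} => coeff m.1 F) :
    ∃ V₀ : ValuationSubring k, (p : k) ∈ V₀.nonunits ∧ (∀ m, coeff m (scF p F) ∈ V₀) ∧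
      coeff (Finsupp.single 0 (N + 2 - p) + Finsupp.single (Fin.last (N + 2)) p) (scF p F) - 1 ∈
        V₀.nonunits ∧
      (∀ m : Fin (N + 3) →₀ ℕ, m (Fin.last (N + 2)) ≠ 0 →
        m ≠ Finsupp.single 0 (N + 2 - p) + Finsupp.single (Fin.last (N + 2)) p →
          coeff m (scF p F) ∈ V₀.nonunits) ∧
      ∀ g : MvPolynomial {m : Fin (N + 2) →₀ ℕ // m.degree = N + 2} ℤ,
        aeval (fun m => coeff (m.1.mapDomain Fin.castSucc) (scF p F)) g ∈ V₀.nonunits →
          ∀ μ, (p : ℤ) ∣ coeff μ g := by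
  classical
  have hfact : Fact p.Prime := ⟨hp⟩
  -- the coefficients of `scF p F` are algebraically independent
  have hgen' : AlgebraicIndependent ℚ
      fun m : {m : Fin (N + 3) →₀ ℕ // m.degree = N + 2} => coeff m.1 (scF p F) := by
    have h1 := indep_scale (F₀ := ℚ) (fun m : {m : Fin (N + 3) →₀ ℕ // m.degree = N + 2} =>
      coeff m.1 F) (fun m => ((p : ℚ) ^ p)⁻¹ * (p : ℚ) ^ m.1 (Fin.last (N + 2))) (fun m => by
        have : (p : ℚ) ≠ 0 := Nat.cast_ne_zero.2 hp.ne_zero
        positivity) hgen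
    have h2 : (fun m : {m : Fin (N + 3) →₀ ℕ // m.degree = N + 2} => coeff m.1 (scF p F)) =
        fun m => algebraMap ℚ k (((p : ℚ) ^ p)⁻¹ * (p : ℚ) ^ m.1 (Fin.last (N + 2))) *
          coeff m.1 F := by
      funext m
      rw [coeff_scF, map_mul, map_inv₀, map_pow, map_pow, map_natCast]
    rw [h2]
    exact h1
  obtain ⟨φ, hφ⟩ : ∃ φ : MvPolynomial {m : Fin (N + 3) →₀ ℕ // m.degree = N + 2} ℤ →ₐ[ℤ] k,
      φ = aeval fun m => coeff m.1 (scF p F) := ⟨_, rfl⟩
  have hinj : Function.Injective φ := by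
    have h1 : Function.Injective (aeval (R := ℚ) fun m : {m : Fin (N + 3) →₀ ℕ //
        m.degree = N + 2} => coeff m.1 (scF p F)) := hgen'
    have h2 : Function.Injective (MvPolynomial.map (σ := {m : Fin (N + 3) →₀ ℕ //
        m.degree = N + 2}) (algebraMap ℤ ℚ)) := map_injective _ Int.cast_injective
    intro P Q hPQ
    apply h2
    apply h1
    rw [aeval_map_algebraMap, aeval_map_algebraMap]
    rw [hφ] at hPQ
    exact hPQ
  obtain ⟨m₀, hm₀⟩ : ∃ m₀ : Fin (N + 3) →₀ ℕ, m₀ = Finsupp.single 0 (N + 2 - p) +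
      Finsupp.single (Fin.last (N + 2)) p := ⟨_, rfl⟩
  have hm₀l : m₀ (Fin.last (N + 2)) = p := by
    have h0 : (0 : Fin (N + 3)) ≠ Fin.last (N + 2) := (Fin.last_pos).ne
    rw [hm₀, Finsupp.add_apply, Finsupp.single_eq_same, Finsupp.single_apply, if_neg h0, zero_add]
  have hm₀d : m₀.degree = N + 2 := by
    rw [hm₀, map_add, Finsupp.degree_single, Finsupp.degree_single]
    omega
  obtain ⟨ψ, hψ⟩ : ∃ ψ : MvPolynomial {m : Fin (N + 3) →₀ ℕ // m.degree = N + 2} ℤ →+*
      MvPolynomial {m : Fin (N + 2) →₀ ℕ // m.degree = N + 2} (ZMod p),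
      ψ = eval₂Hom (Int.castRingHom _) fun m => if h : m.1 (Fin.last (N + 2)) = 0 then
        X ⟨plcR m.1, (plcR_degree m.1 h).trans m.2⟩ else if m.1 = m₀ then 1 else 0 := ⟨_, rfl⟩
  have hψX : ∀ m, ψ (X m) = if h : m.1 (Fin.last (N + 2)) = 0 then
        X ⟨plcR m.1, (plcR_degree m.1 h).trans m.2⟩ else if m.1 = m₀ then 1 else 0 := by
    intro m
    rw [hψ, coe_eval₂Hom, eval₂_X]
  have hprime : (RingHom.ker ψ).IsPrime := RingHom.ker_isPrime ψ
  obtain ⟨V, hV0, hV⟩ := GEL.exists_valuation (φ : _ →+* k) hinj (RingHom.ker ψ)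
  have hV' : ∀ P, φ P ∈ V.nonunits ↔ ψ P = 0 := fun P => (hV P).trans RingHom.mem_ker
  have hz : (0 : k) ∈ V.nonunits := by
    have h1 := (hV' 0).2 (map_zero ψ)
    rwa [map_zero] at h1
  have hcoe : ∀ m (hm : m.degree = N + 2), φ (X ⟨m, hm⟩) = coeff m (scF p F) := by
    intro m hm
    rw [hφ, aeval_X]
  have hhom := scF_isHomogeneous p hF
  refine ⟨V, ?_, fun m => ?_, ?_, fun m hml hmm => ?_, fun g hg μ => ?_⟩
  · have h1 := (hV' (p : MvPolynomial {m : Fin (N + 3) →₀ ℕ // m.degree = N + 2} ℤ)).2 (by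
      rw [map_natCast, ← map_natCast (C : ZMod p →+* _), ZMod.natCast_self, map_zero])
    rwa [map_natCast] at h1
  · by_cases hm : m.degree = N + 2
    · rw [← hcoe m hm]
      exact hV0 _
    · rw [hhom.coeff_eq_zero hm]
      exact V.zero_mem
  · rw [← hm₀, ← hcoe m₀ hm₀d]
    have h1 := (hV' (X ⟨m₀, hm₀d⟩ - 1)).2 (by
      rw [map_sub, map_one, hψX, dif_neg (by rw [hm₀l]; exact hp.ne_zero), if_pos rfl, sub_self])
    rwa [map_sub, map_one] at h1
  · by_cases hm : m.degree = N + 2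
    · rw [← hcoe m hm]
      refine (hV' _).2 ?_
      rw [hψX, dif_neg hml, if_neg (by rw [hm₀]; exact hmm)]
    · rw [hhom.coeff_eq_zero hm]
      exact hz
  · have h1 : aeval (fun m : {m : Fin (N + 2) →₀ ℕ // m.degree = N + 2} =>
        coeff (m.1.mapDomain Fin.castSucc) (scF p F)) g =
        φ (rename (fun m : {m : Fin (N + 2) →₀ ℕ // m.degree = N + 2} =>
          (⟨m.1.mapDomain Fin.castSucc, (plc_md_degree m.1).trans m.2⟩ :
            {m : Fin (N + 3) →₀ ℕ // m.degree = N + 2})) g) := by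
      rw [hφ, aeval_rename]
      rfl
    rw [h1, hV'] at hg
    have h2 : ψ.comp (rename (fun m : {m : Fin (N + 2) →₀ ℕ // m.degree = N + 2} =>
          (⟨m.1.mapDomain Fin.castSucc, (plc_md_degree m.1).trans m.2⟩ :
            {m : Fin (N + 3) →₀ ℕ // m.degree = N + 2}))).toRingHom =
        MvPolynomial.map (Int.castRingHom (ZMod p)) := by
      apply MvPolynomial.ringHom_ext
      · intro a
        exact (map_intCast _ a).trans (map_intCast _ a).symm
      · intro m
        rw [RingHom.comp_apply, map_X]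
        show ψ (rename _ (X m)) = X m
        rw [rename_X, hψX, dif_pos (plc_md_last m.1)]
        congr 1
        exact Subtype.ext (plcR_md m.1)
    have h3 : MvPolynomial.map (Int.castRingHom (ZMod p)) g = 0 := by
      rw [← h2]
      exact hg
    have h4 := congrArg (coeff μ) h3
    rw [coeff_map, coeff_zero] at h4
    exact (CharP.intCast_eq_zero_iff (ZMod p) p _).1 h4

end Pool.Agent.HSI
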