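import Pool.Agent.HSI.GAll
import Pool.Agent.HSI.Plc
import Pool.Agent.HSI.CAdp
import Pool.Agent.HSI.CRed
import Pool.Agent.HSI.CFin
import Pool.Agent.HSI.CInx
import Pool.Agent.HSI.CPow
import Pool.Agent.HSI.CRes
import Pool.Agent.HSI.CSep
import Pool.Agent.HSI.CDer
import Pool.Agent.HSI.CMin
import Pool.Agent.GEL.GAC
import Pool.Agent.GEL.VRoot

/-!
# Existence of a model over an extension of degree prime to `p`
-/

open MvPolynomial

universe u

namespace Pool.Agent.HSI

private theorem mod_nonunits {F Ω : Type*} [Field F] [Field Ω] (g : F →+* Ω)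
    (W : ValuationSubring Ω) (u : F) : u ∈ (W.comap g).nonunits ↔ g u ∈ W.nonunits := by
  rw [ValuationSubring.mem_nonunits_iff_or, ValuationSubring.mem_nonunits_iff_or,
    ValuationSubring.mem_comap, map_inv₀, map_eq_zero]

/-- the residue of a polynomial in elements of `V` -/
private theorem mod_residue {k L : Type u} [Field k] [Field L] [Algebra k L] (V : ValuationSubring L)
    {M : ℕ} (G : MvPolynomial (Fin M) k) (g : MvPolynomial (Fin M) (K0 k V)) (x : Fin M → L)
    (mem : ∀ m, algebraMap k L (coeff m G) ∈ V) (hx : ∀ i, x i ∈ V)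
    (h : ∀ m, IsLocalRing.residue V ⟨algebraMap k L (coeff m G), mem m⟩ =
      algebraMap (K0 k V) (IsLocalRing.ResidueField V) (coeff m g)) :
    ∃ u : V, (u : L) = aeval x G ∧
      IsLocalRing.residue V u = aeval (fun i => IsLocalRing.residue V ⟨x i, hx i⟩) g := by
  classical
  have h1 : (aeval x G : L) = ∑ m ∈ G.support ∪ g.support,
      algebraMap k L (coeff m G) * ∏ i, x i ^ m i := by
    rw [aeval_def, eval₂_eq']
    refine Finset.sum_subset Finset.subset_union_left fun m _ hm => ?_
    rw [notMem_support_iff.1 hm, map_zero, zero_mul]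
  have h2 : aeval (fun i => IsLocalRing.residue V ⟨x i, hx i⟩) g = ∑ m ∈ G.support ∪ g.support,
      algebraMap (K0 k V) (IsLocalRing.ResidueField V) (coeff m g) *
        ∏ i, IsLocalRing.residue V ⟨x i, hx i⟩ ^ m i := by
    rw [aeval_def, eval₂_eq']
    refine Finset.sum_subset Finset.subset_union_right fun m _ hm => ?_
    rw [notMem_support_iff.1 hm, map_zero, zero_mul]
  refine ⟨∑ m ∈ G.support ∪ g.support, ⟨algebraMap k L (coeff m G), mem m⟩ *
    ∏ i, (⟨x i, hx i⟩ : V) ^ m i, ?_, ?_⟩
  · rw [h1]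
    have h3 : ∀ (s : Finset (Fin M →₀ ℕ)) (e : (Fin M →₀ ℕ) → V),
        ((∑ m ∈ s, e m : V) : L) = ∑ m ∈ s, ((e m : V) : L) := fun s e => map_sum V.subtype e s
    rw [h3]
    refine Finset.sum_congr rfl fun m _ => ?_
    have h4 : ((∏ i, (⟨x i, hx i⟩ : V) ^ m i : V) : L) = ∏ i, x i ^ m i := by
      have h5 := map_prod V.subtype (fun i => (⟨x i, hx i⟩ : V) ^ m i) Finset.univ
      exact h5
    show algebraMap k L (coeff m G) * ((∏ i, (⟨x i, hx i⟩ : V) ^ m i : V) : L) = _
    rw [h4]
  · rw [h2, map_sum]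
    refine Finset.sum_congr rfl fun m _ => ?_
    rw [map_mul, map_prod, h m]
    congr 1

theorem exists_model {k : Type u} [Field k] [IsAlgClosed k] [CharZero k] {N p : ℕ} (hp : p.Prime)
    (hpN : p ≤ N + 2) (hN : 2 ≤ N) (F : MvPolynomial (Fin (N + 3)) k) (hF : F.IsHomogeneous (N + 2))
    (hgen : AlgebraicIndependent ℚ
      fun m : {m : Fin (N + 3) →₀ ℕ // m.degree = N + 2} => coeff m.1 F)
    {L : Type u} [Field L] [Algebra k L] (P : Pt F L) (hP : P.IsGeneric)
    (hL : ¬ p ∣ Module.finrank ↥P.funField L) :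
    ∃ M : Model p F L, NDred M.V M.D (scP p P.x) := by
  have hfact : Fact p.Prime := ⟨hp⟩
  obtain ⟨V₀, hpV, hmem, h1, h0, hg⟩ := exists_place hp hpN F hF hgen
  have hlead : coeff (Finsupp.single 1 (N + 2)) (scF p F) ∉ V₀.nonunits := by
    intro hc
    have hS : (Finsupp.single (1 : Fin (N + 2)) (N + 2)).degree = N + 2 := by
      rw [Finsupp.degree_single]
    have h2 := hg (X ⟨Finsupp.single 1 (N + 2), hS⟩) (by
      rw [aeval_X, Finsupp.mapDomain_single]
      exact hc) (Finsupp.single ⟨Finsupp.single 1 (N + 2), hS⟩ 1)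
    rw [coeff_X, if_pos rfl] at h2
    have h3 := Int.natAbs_dvd_natAbs.2 h2
    rw [Int.natAbs_natCast, Int.natAbs_one, Nat.dvd_one] at h3
    exact hp.one_lt.ne' h3
  have hlead0 : coeff (Finsupp.single 1 (N + 2)) F ≠ 0 := by
    intro hc
    apply hlead
    rw [coeff_scF, hc, mul_zero]
    exact (ValuationSubring.mem_nonunits_iff_or V₀).2 (Or.inl rfl)
  obtain ⟨V, hV, mem, hG, hval, hsep⟩ := exists_adp hp F hF V₀ hpV hmem hlead P hP hL
  have hpL : (p : L) ∈ V.nonunits := by
    rw [← hV, mod_nonunits, map_natCast] at hpV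
    exact hpV
  have hchar := GEL.residue_charP V p hpL
  have hac : IsAlgClosed ↥(K0 k V) := GEL.resSub_isAlgClosed V
  have hchar0 : CharP ↥(K0 k V) p :=
    (RingHom.charP_iff (algebraMap ↥(K0 k V) (IsLocalRing.ResidueField V))
      (algebraMap ↥(K0 k V) (IsLocalRing.ResidueField V)).injective p).2 hchar
  have hmemL : ∀ m, algebraMap k L (coeff m (scF p F)) ∈ V := by
    intro m
    have h2 := hmem m
    rw [← hV] at h2
    exact h2
  obtain ⟨f, hf, hfred⟩ := exists_f hp hpN F hF V₀ h1 h0 V hV hmemL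
  let _ : Algebra (ZMod p) ↥(K0 k V) := ZMod.algebra _ p
  have hfi := f_indep (p := p) F V₀ hg V hV hmemL f hfred
  have hgood : Good f := good_of_indep (p := p) (by omega) f hf hfi
  -- the residues of the coordinates
  obtain ⟨r, hr⟩ : ∃ r : Fin (N + 3) → IsLocalRing.ResidueField V,
      ∀ i, r i = IsLocalRing.residue V ⟨scP p P.x i, mem i⟩ := ⟨_, fun _ => rfl⟩
  have hr' : r = fun i => IsLocalRing.residue V ⟨scP p P.x i, mem i⟩ := funext hr
  have hr0 : r 0 = 1 := by
    rw [hr]
    have h2 : (⟨scP p P.x 0, mem 0⟩ : V) = 1 := by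
      apply Subtype.ext
      show scP p P.x 0 = 1
      unfold scP
      rw [if_neg (by
        intro h
        have := congrArg Fin.val h
        simp at this)]
      exact hP.one
    rw [h2, map_one]
  have hreq : aeval r (spec p f) = 0 := by
    obtain ⟨u, hu, hu'⟩ := mod_residue V (scF p F) (spec p f) (scP p P.x) hmemL mem hfred
    have h2 : (u : L) = 0 := by
      rw [hu, aeval_scP (by
        intro h
        have h3 : (p : L) ≠ 0 := by
          have h4 : algebraMap k L (p : k) ≠ 0 := by
            rw [map_ne_zero]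
            exact Nat.cast_ne_zero.2 hp.ne_zero
          rwa [map_natCast] at h4
        exact h3 h), P.eq, mul_zero]
    have h3 : u = 0 := Subtype.ext h2
    rw [hr', ← hu', h3, map_zero]
  have hrz : AlgebraicIndependent ↥(K0 k V) fun i : Fin (N + 1) => r i.succ.succ := by
    have h2 := GEL.gauss_indep V (fun i : Fin (N + 1) => scP p P.x i.succ.succ)
      (fun i => mem i.succ.succ) hG
    have h3 : (fun i : Fin (N + 1) => r i.succ.succ) = fun i : Fin (N + 1) =>
        IsLocalRing.residue V ⟨scP p P.x i.succ.succ, mem i.succ.succ⟩ := funext fun i => hr _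
    rw [h3]
    exact h2
  have hind := indep_x hp.pos f r hr0 hrz hreq
  -- a coordinate with nonzero derivative
  obtain ⟨i₀, hi₀⟩ : ∃ i₀ : Fin (N + 1),
      aeval (fun i : Fin (N + 2) => r i.castSucc) (pderiv i₀.succ f) ≠ 0 := by
    by_contra hcon
    push Not at hcon
    obtain ⟨⟨ζ, hζ⟩, -⟩ := hgood.crit (IsLocalRing.ResidueField V) (fun i => r i.castSucc) hr0
      (fun j hj => by
        obtain ⟨j', rfl⟩ := Fin.exists_succ_eq.2 hj
        exact hcon j')
    have h2 := hind.transcendental 0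
    apply h2
    have h3 : r (Fin.castSucc (Fin.succ 0)) = algebraMap _ _ (ζ (Fin.succ 0)) := hζ (Fin.succ 0)
    rw [h3]
    exact isAlgebraic_algebraMap _
  have hpow := x1_pow_indep f hf hgood.lead r hr0 hind hreq i₀ hi₀
  have hres : ∀ u : V, (u : L) ∈ P.funField →
      IsLocalRing.residue V u ∈ IntermediateField.adjoin (K0 k V) (Set.range r) :=
    fun u hu => res_field hp F hF hlead0 P hP V mem hG r hr hpow u hu
  have hsep' := sep_of V P.funField (IntermediateField.adjoin (K0 k V) (Set.range r)) hres hsep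
  obtain ⟨x, hx⟩ : ∃ x : Fin (N + 2) → IsLocalRing.ResidueField V, x = fun i => r i.castSucc :=
    ⟨_, rfl⟩
  obtain ⟨g, hgd⟩ : ∃ g : Fin (N + 1) → IsLocalRing.ResidueField V,
      ∀ i, g i = aeval x (pderiv i.succ f) := ⟨_, fun _ => rfl⟩
  rw [← hx] at hi₀
  have hder : ∀ l : Fin N, ∃ D : Derivation (K0 k V) (IsLocalRing.ResidueField V)
      (IsLocalRing.ResidueField V), ∀ j : Fin (N + 2), D (r j.castSucc) =
        g i₀ * (Pi.single (i₀.succAbove l).succ 1 : Fin (N + 2) → IsLocalRing.ResidueField V) j -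
        g (i₀.succAbove l) *
          (Pi.single i₀.succ 1 : Fin (N + 2) → IsLocalRing.ResidueField V) j := by
    intro l
    refine der_exists f r hr0 hind hreq hsep' _ ?_ ?_
    · rw [Pi.single_eq_of_ne (Fin.succ_ne_zero _).symm, Pi.single_eq_of_ne
        (Fin.succ_ne_zero _).symm, mul_zero, mul_zero, sub_zero]
    · rw [← hx]
      simp only [mul_sub, Finset.sum_sub_distrib]
      rw [Finset.sum_eq_single (i₀.succAbove l).succ, Finset.sum_eq_single i₀.succ]
      · rw [Pi.single_eq_same, Pi.single_eq_same, mul_one, mul_one, ← hgd, ← hgd]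
        ring
      · intro j _ hj
        rw [Pi.single_eq_of_ne hj, mul_zero, mul_zero]
      · intro h
        exact absurd (Finset.mem_univ _) h
      · intro j _ hj
        rw [Pi.single_eq_of_ne hj, mul_zero, mul_zero]
      · intro h
        exact absurd (Finset.mem_univ _) h
  choose D hD using hder
  have hx0 : x 0 = 1 := by rw [hx]; exact hr0
  have hnd : ND D x := nd_of D x hx0 g i₀ (by rw [hgd]; exact hi₀) (fun l j => by
    rw [hx]
    exact hD l j)
  refine ⟨⟨V, f, D, hpL, hgood, hmemL, hfred, hval⟩, 1, fun i => ?_, one_ne_zero, ?_⟩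
  · rw [one_mul]
    exact mem i
  · have h2 : (fun i : Fin (N + 2) => IsLocalRing.residue V
        ⟨1 * scP p P.x i.castSucc, by rw [one_mul]; exact mem i.castSucc⟩) = x := by
      funext i
      rw [hx]
      show _ = r i.castSucc
      rw [hr]
      congr 1
      apply Subtype.ext
      exact one_mul _
    show ND D _
    rw [h2]
    exact hnd

end Pool.Agent.HSI
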