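import Pool.Agent.HSI.EPt
import Pool.Agent.HSI.EDm
import Pool.Agent.HSI.Mod
import Pool.Agent.GEL.AnA

/-!
# The degree of a rational map from affine space

`T = FractionRing (MvPolynomial (Fin (N + 1)) k)`, `x i = φ_i / φ_0`. Suppose `p ∤ finrank E T`, `E = adjoin k (range x)`. Then
`P = (x_i)` is the generic point (`eaf_indep`: `x_1` is algebraic over `k(x_2, …, x_(N+2))`, `eaf_coeff`), and it is joined with a
constant point: contradiction to `exists_model`, `ndred_joined`, `dimGE`.
-/

open MvPolynomial

universe u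

namespace Pool.Agent.HSI

private theorem eaf_aeval_smul {k A : Type*} [Field k] [CommRing A] [Algebra k A] {m N : ℕ}
    (f : MvPolynomial (Fin m) k) (hf : f.IsHomogeneous N) (c : A) (z : Fin m → A) :
    aeval (fun i => c * z i) f = c ^ N * aeval z f := by
  rw [aeval_def, aeval_def, eval₂_eq', eval₂_eq', Finset.mul_sum]
  refine Finset.sum_congr rfl fun d hd => ?_
  have h1 : ∑ i, d i = N := by
    rw [← Finsupp.degree_eq_sum]
    by_contra hne
    exact (mem_support_iff.1 hd) (hf.coeff_eq_zero hne)
  simp only [mul_pow, Finset.prod_mul_distrib, Finset.prod_pow_eq_pow_sum, h1]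
  ring

private theorem eaf_aeval_eval {k : Type*} [Field k] {m : ℕ} (c : Fin m → k)
    (g : MvPolynomial (Fin m) k) : aeval c g = eval c g :=
  DFunLike.congr_fun (coe_aeval_eq_eval c) g

private theorem eaf_coeff {k A : Type*} [Field k] [Field A] [Algebra k A] {m D : ℕ} (l : Fin m)
    {F : MvPolynomial (Fin m) k} (hF : F.IsHomogeneous D) (h : coeff (Finsupp.single l D) F ≠ 0)
    (y : Fin m → A) :
    aeval (fun i => if i = l then Polynomial.X else Polynomial.C (y i)) F ≠ (0 : Polynomial A) := by
  classical
  intro h0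
  have h1 : (aeval (fun i => if i = l then Polynomial.X else Polynomial.C (y i)) F :
      Polynomial A).coeff D = algebraMap k A (coeff (Finsupp.single l D) F) := by
    rw [aeval_def, eval₂_eq', Polynomial.finsetSum_coeff]
    rw [Finset.sum_eq_single (Finsupp.single l D)]
    · have h2 : (∏ i, (if i = l then Polynomial.X else Polynomial.C (y i) : Polynomial A) ^
          (Finsupp.single l D) i) = Polynomial.X ^ D := by
        rw [Finset.prod_eq_single l]
        · rw [if_pos rfl, Finsupp.single_eq_same]
        · intro i _ hi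
          rw [Finsupp.single_eq_of_ne hi, pow_zero]
        · intro hl
          exact absurd (Finset.mem_univ l) hl
      rw [h2, Polynomial.algebraMap_apply]
      simp
    · intro d hd hne
      have hdeg : d.degree = D := by
        by_contra hne'
        exact (mem_support_iff.1 hd) (hF.coeff_eq_zero hne')
      have h2 : (∏ i, (if i = l then Polynomial.X else Polynomial.C (y i) : Polynomial A) ^ d i) =
          Polynomial.X ^ (d l) * Polynomial.C (∏ i ∈ Finset.univ.erase l, y i ^ d i) := by
        rw [← Finset.mul_prod_erase Finset.univ _ (Finset.mem_univ l), if_pos rfl, map_prod]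
        congr 1
        refine Finset.prod_congr rfl fun i hi => ?_
        rw [if_neg (Finset.ne_of_mem_erase hi), map_pow]
      have h3 : d l ≠ D := by
        intro hl
        refine hne ?_
        ext i
        by_cases hi : i = l
        · rw [hi, Finsupp.single_eq_same, hl]
        · rw [Finsupp.single_eq_of_ne hi]
          rw [Finsupp.degree_eq_sum, ← Finset.add_sum_erase Finset.univ _ (Finset.mem_univ l), hl] at hdeg
          have h4 : ∑ i ∈ Finset.univ.erase l, d i = 0 := by omega
          exact (Finset.sum_eq_zero_iff.1 h4) i (Finset.mem_erase.2 ⟨hi, Finset.mem_univ i⟩)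
      rw [h2, Polynomial.algebraMap_apply]
      rw [← mul_assoc, Polynomial.coeff_mul_C, Polynomial.coeff_C_mul,
        Polynomial.coeff_X_pow, if_neg fun h => h3 h.symm]
      ring
    · intro hns
      exact absurd (mem_support_iff.2 h) hns
  rw [h0, Polynomial.coeff_zero] at h1
  exact h ((algebraMap k A).injective (h1.symm.trans (map_zero _).symm))

private theorem eaf_indep {k : Type u} [Field k] {N : ℕ} {T : Type u} [Field T]
    [Algebra k T] (H : ∀ x : Fin (N + 1) → T,
      Algebra.IsAlgebraic ↥(IntermediateField.adjoin k (Set.range x)) T → AlgebraicIndependent k x)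
    (x : Fin (N + 3) → T) (hx0 : x 0 = 1)
    {F : MvPolynomial (Fin (N + 3)) k} (hF : F.IsHomogeneous (N + 2))
    (hcF : coeff (Finsupp.single 1 (N + 2)) F ≠ 0) (hx : aeval x F = 0)
    (hfin : FiniteDimensional ↥(IntermediateField.adjoin k (Set.range x)) T) :
    AlgebraicIndependent k fun i : Fin (N + 1) => x i.succ.succ := by
  apply H
  let E₀ : IntermediateField k T := IntermediateField.adjoin k (Set.range fun i : Fin (N + 1) => x i.succ.succ)
  let E : IntermediateField k T := IntermediateField.adjoin k (Set.range x)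
  let M : IntermediateField E₀ T := algebraicClosure E₀ T
  have hxE : ∀ i, i ≠ 1 → x i ∈ E₀ := by
    intro i
    refine Fin.cases (fun _ => ?_) (fun j => ?_) i
    · rw [hx0]
      exact E₀.one_mem
    · refine Fin.cases (fun h => absurd rfl h) (fun j _ => ?_) j
      exact IntermediateField.subset_adjoin k _ ⟨j, rfl⟩
  classical
  let y : Fin (N + 3) → E₀ := fun i => if h : i ≠ 1 then ⟨x i, hxE i h⟩ else 0
  have h1M : x 1 ∈ M := by
    have h1 := eaf_coeff 1 hF hcF y
    refine mem_algebraicClosure_iff.2 ⟨_, h1, ?_⟩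
    have h2 : (Polynomial.aeval (x 1)) (aeval (fun i => if i = 1 then Polynomial.X else Polynomial.C (y i)) F :
        Polynomial E₀) = aeval x F := by
      have h3 := comp_aeval_apply (fun i => if i = 1 then Polynomial.X else Polynomial.C (y i))
        (((Polynomial.aeval (x 1) : Polynomial E₀ →ₐ[E₀] T)).restrictScalars k) F
      refine Eq.trans h3 ?_
      refine congrArg (fun v : Fin (N + 3) → T => aeval v F) (funext fun i => ?_)
      show Polynomial.aeval (x 1) (if i = 1 then Polynomial.X else Polynomial.C (y i) : Polynomial E₀) = x i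
      by_cases hi : i = 1
      · rw [if_pos hi, Polynomial.aeval_X, hi]
      · rw [if_neg hi, Polynomial.aeval_C]
        show ((y i : E₀) : T) = x i
        have h4 : y i = ⟨x i, hxE i hi⟩ := dif_pos hi
        rw [h4]
    rw [h2, hx]
  have hEM : ∀ e : T, e ∈ E → e ∈ M := by
    intro e he
    have h1 : E ≤ M.restrictScalars k := by
      show IntermediateField.adjoin k (Set.range x) ≤ M.restrictScalars k
      rw [IntermediateField.adjoin_le_iff]
      rintro z ⟨i, rfl⟩
      by_cases hi : i = 1
      · rw [hi]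
        exact h1M
      · exact (M.algebraMap_mem (⟨x i, hxE i hi⟩ : E₀))
    exact h1 he
  let ι : E →+* M :=
    { toFun := fun e => ⟨e, hEM e e.2⟩
      map_one' := rfl
      map_mul' := fun _ _ => rfl
      map_zero' := rfl
      map_add' := fun _ _ => rfl }
  have hEalg : Algebra.IsAlgebraic E T := by
    have : FiniteDimensional E T := hfin
    infer_instance
  have h2 : Algebra.IsAlgebraic M T := by
    refine ⟨fun t => ?_⟩
    have h3 : IsAlgebraic E t := hEalg.isAlgebraic t
    obtain ⟨g, hg0, hg⟩ := h3
    refine ⟨g.map ι, (Polynomial.map_ne_zero_iff ι.injective).2 hg0, ?_⟩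
    rw [Polynomial.aeval_def, Polynomial.eval₂_map]
    exact hg
  have h4 : Algebra.IsAlgebraic E₀ M := algebraicClosure.isAlgebraic E₀ T
  exact Algebra.IsAlgebraic.trans E₀ M T

private theorem eaf_core {k : Type u} [Field k] [IsAlgClosed k] [CharZero k] {N p : ℕ} (hp : p.Prime)
    (hpN : p ≤ N + 2) (hN : 2 ≤ N) (F : MvPolynomial (Fin (N + 3)) k) (hF : F.IsHomogeneous (N + 2))
    (hgen : AlgebraicIndependent ℚ
      fun m : {m : Fin (N + 3) →₀ ℕ // m.degree = N + 2} => coeff m.1 F) {T : Type u} [Field T]
    [Algebra k T] (H : ∀ x : Fin (N + 1) → T,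
      Algebra.IsAlgebraic ↥(IntermediateField.adjoin k (Set.range x)) T → AlgebraicIndependent k x)
    (q : MvPolynomial (Fin (N + 1)) k →ₐ[k] T) (hqinj : Function.Injective q)
    (φ : Fin (N + 3) → MvPolynomial (Fin (N + 1)) k) (hφ : φ 0 ≠ 0) (hφF : aeval φ F = 0) :
    p ∣ Module.finrank
      ↥(IntermediateField.adjoin k (Set.range fun i => q (φ i) / q (φ 0))) T := by
  by_contra hdvd
  have hq0 : q (φ 0) ≠ 0 := by
    intro h0
    exact hφ (hqinj (h0.trans (map_zero q).symm))
  let x : Fin (N + 3) → T := fun i => q (φ i) / q (φ 0)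
  have hx0 : x 0 = 1 := div_self hq0
  have hx : aeval x F = 0 := by
    have h1 : x = fun i => (q (φ 0))⁻¹ * q (φ i) := by
      funext i
      show q (φ i) / q (φ 0) = _
      rw [div_eq_inv_mul]
    have h2 : q (aeval φ F) = aeval (fun i => q (φ i)) F := comp_aeval_apply φ q F
    rw [h1, eaf_aeval_smul F hF, ← h2, hφF, map_zero, mul_zero]
  let P : Pt F T := ⟨x, fun h0 => by
    have := congrFun h0 0
    rw [hx0] at this
    exact one_ne_zero this, hx⟩
  have hfin : FiniteDimensional ↥(IntermediateField.adjoin k (Set.range x)) T := by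
    refine Module.finite_of_finrank_pos ?_
    refine Nat.pos_of_ne_zero fun h0 => hdvd ?_
    have h1 : Module.finrank ↥(IntermediateField.adjoin k (Set.range fun i => q (φ i) / q (φ 0))) T = 0 := h0
    rw [h1]
    exact dvd_zero p
  have hcF : coeff (Finsupp.single 1 (N + 2)) F ≠ 0 := by
    have h1 := hgen.ne_zero ⟨Finsupp.single 1 (N + 2), Finsupp.degree_single 1 (N + 2)⟩
    exact h1
  have hP : P.IsGeneric := ⟨hx0, eaf_indep H x hx0 hF hcF hx hfin⟩
  obtain ⟨c, hc⟩ : ∃ c : Fin (N + 1) → k, eval c (φ 0) ≠ 0 := by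
    by_contra hall
    push Not at hall
    exact hφ (MvPolynomial.funext fun c => by rw [hall c, map_zero])
  let θ : MvPolynomial (Fin (N + 1)) k →ₐ[k] Polynomial T := aeval fun i =>
    Polynomial.C (q (X i)) + Polynomial.X * Polynomial.C (algebraMap k T (c i) - q (X i))
  have hθ0 : ∀ g : MvPolynomial (Fin (N + 1)) k, (θ g).eval 0 = q g := by
    intro g
    have h1 : ((Polynomial.aeval (0 : T)).restrictScalars k).comp θ = q := by
      refine MvPolynomial.algHom_ext fun i => ?_
      simp [θ]
    have h2 := DFunLike.congr_fun h1 g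
    simpa [Polynomial.aeval_def] using h2
  have hθ1 : ∀ g : MvPolynomial (Fin (N + 1)) k, (θ g).eval 1 = algebraMap k T (eval c g) := by
    intro g
    have h1 : ((Polynomial.aeval (1 : T)).restrictScalars k).comp θ =
        (Algebra.ofId k T).comp (aeval c) := by
      refine MvPolynomial.algHom_ext fun i => ?_
      simp [θ, Algebra.ofId_apply]
    have h2 := DFunLike.congr_fun h1 g
    have h3 : (aeval c) g = eval c g := eaf_aeval_eval c g
    have h4 : ((Algebra.ofId k T).comp (aeval c)) g = algebraMap k T (eval c g) := by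
      show algebraMap k T (aeval c g) = _
      rw [h3]
    rw [h4] at h2
    rw [← h2]
    simp
  have hθF : aeval (fun i => θ (φ i)) F = 0 := by
    have h1 : θ (aeval φ F) = aeval (fun i => θ (φ i)) F := comp_aeval_apply φ θ F
    rw [← h1, hφF, map_zero]
  have hQ : aeval (fun i => algebraMap k T (eval c (φ i))) F = 0 := by
    have h1 : aeval (fun i => eval c (φ i)) F = (0 : k) := by
      have h2 := comp_aeval_apply φ (aeval c : MvPolynomial (Fin (N + 1)) k →ₐ[k] k) F
      rw [hφF, map_zero] at h2
      simpa only [eaf_aeval_eval] using h2.symm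
    have h3 := aeval_algebraMap_apply T (fun i => eval c (φ i)) F
    exact h3.trans (by rw [h1, map_zero])
  let Q : Pt F T := ⟨fun i => algebraMap k T (eval c (φ i)), fun h0 => hc (by
      have := congrFun h0 0
      exact (algebraMap k T).injective (this.trans (map_zero _).symm)), hQ⟩
  have hJ : Joined P Q := by
    refine ⟨fun i => θ (φ i), hθF, ⟨q (φ 0), hq0, fun i => ?_⟩, ⟨1, one_ne_zero, fun i => ?_⟩⟩
    · show (θ (φ i)).eval 0 = q (φ 0) * (q (φ i) / q (φ 0))
      rw [hθ0, mul_div_cancel₀ _ hq0]
    · show (θ (φ i)).eval 1 = 1 * algebraMap k T (eval c (φ i))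
      rw [hθ1, one_mul]
  obtain ⟨M, hM⟩ := exists_model hp hpN hN F hF hgen P hP hdvd
  obtain ⟨j, s, _, hs⟩ := dimGE M Q (ndred_joined hN hp hpN hF M P Q hJ hM)
  have h1 := hs.transcendental ⟨0, by omega⟩
  refine h1 ?_
  have h2 : Q.x (s ⟨0, by omega⟩) / Q.x j = algebraMap k T (eval c (φ (s ⟨0, by omega⟩)) / eval c (φ j)) := by
    show algebraMap k T _ / algebraMap k T _ = _
    rw [map_div₀]
  rw [h2]
  exact isAlgebraic_algebraMap _

theorem affine_degree {k : Type u} [Field k] [IsAlgClosed k] [CharZero k] {N p : ℕ} (hp : p.Prime)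
    (hpN : p ≤ N + 2) (hN : 2 ≤ N) (F : MvPolynomial (Fin (N + 3)) k) (hF : F.IsHomogeneous (N + 2))
    (hgen : AlgebraicIndependent ℚ
      fun m : {m : Fin (N + 3) →₀ ℕ // m.degree = N + 2} => coeff m.1 F)
    (φ : Fin (N + 3) → MvPolynomial (Fin (N + 1)) k) (hφ : φ 0 ≠ 0) (hφF : aeval φ F = 0) :
    p ∣ Module.finrank
      ↥(IntermediateField.adjoin k (Set.range fun i =>
        algebraMap (MvPolynomial (Fin (N + 1)) k) (FractionRing (MvPolynomial (Fin (N + 1)) k)) (φ i) /
        algebraMap (MvPolynomial (Fin (N + 1)) k) (FractionRing (MvPolynomial (Fin (N + 1)) k)) (φ 0)))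
      (FractionRing (MvPolynomial (Fin (N + 1)) k)) :=
  eaf_core hp hpN hN F hF hgen (fun x hx => GEL.indep_of_algebraic x hx)
    (IsScalarTower.toAlgHom k (MvPolynomial (Fin (N + 1)) k) (FractionRing (MvPolynomial (Fin (N + 1)) k)))
    (IsFractionRing.injective (MvPolynomial (Fin (N + 1)) k) (FractionRing (MvPolynomial (Fin (N + 1)) k)))
    φ hφ hφF

end Pool.Agent.HSI
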