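import Pool.Agent.HSI.Defs

/-!
# Degrees over function fields
-/

universe u

namespace Pool.Agent.HSI


theorem finrank_ext {k L L' : Type u} [Field k] [Field L] [Field L'] [Algebra k L] [Algebra k L']
    [Algebra L L'] [IsScalarTower k L L'] (S : Set L) :
    Module.finrank ↥(IntermediateField.adjoin k (algebraMap L L' '' S)) L' =
      Module.finrank ↥(IntermediateField.adjoin k S) L * Module.finrank L L' := by
  rw [Module.finrank_mul_finrank]
  have h1 : IntermediateField.adjoin k (algebraMap L L' '' S) =
      (IntermediateField.adjoin k S).map (IsScalarTower.toAlgHom k L L') :=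
    (IntermediateField.adjoin_map (F := k) (S := S) (IsScalarTower.toAlgHom k L L')).symm
  rw [h1]
  symm
  refine Algebra.finrank_eq_of_equiv_equiv
    (IntermediateField.equivMap (IntermediateField.adjoin k S)
      (IsScalarTower.toAlgHom k L L')).toRingEquiv (RingEquiv.refl L') ?_
  ext t
  rfl

private theorem efn_fac {F : Type*} [Field F] (p : ℕ) (q : Polynomial F) : q ≠ 0 →
    (∀ r : Polynomial F, Irreducible r → r ∣ q → p ∣ r.natDegree) → p ∣ q.natDegree := by
  induction q using WfDvdMonoid.induction_on_irreducible with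
  | zero => exact fun h => absurd rfl h
  | unit u hu =>
    intro _ _
    rw [Polynomial.natDegree_eq_zero_of_isUnit hu]
    exact dvd_zero p
  | mul a i ha hi ih =>
    intro _ h
    rw [Polynomial.natDegree_mul hi.ne_zero ha]
    exact dvd_add (h i hi (dvd_mul_right i a)) (ih ha fun r hr hra => h r hr (hra.mul_left i))

theorem exists_factor_not_dvd {L : Type*} [Field L] (p : ℕ) (P : Polynomial L) (hP : P ≠ 0)
    (h : ¬ p ∣ P.natDegree) : ∃ q : Polynomial L, Irreducible q ∧ q ∣ P ∧ ¬ p ∣ q.natDegree := by
  by_contra hcon
  push Not at hcon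
  exact h (efn_fac p P hP hcon)

end Pool.Agent.HSI
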