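import Pool.Agent.HSI.ANdv
import Pool.Agent.HSI.BRe
import Pool.Agent.HSI.BRt

/-!
# The hyperplane `x_0 = 0`

The reduction of the scaled point is on the special fibre and has independent rows, so its coordinate `0` is not `0`.
-/

open MvPolynomial

universe u

namespace Pool.Agent.HSI

theorem ndred_ne {k : Type u} [Field k] [CharZero k] {N p : ℕ} (hN : 1 ≤ N) (hp : p.Prime)
    (hpN : p ≤ N + 2) {F : MvPolynomial (Fin (N + 3)) k} (hF : F.IsHomogeneous (N + 2))
    {L : Type u} [Field L] [Algebra k L] (M : Model p F L) (P' : Pt F L)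
    (h : NDred M.V M.D (scP p P'.x)) : P'.x 0 ≠ 0 := by
  intro hx0
  obtain ⟨c, hV, hc, hnd⟩ := h
  have hL : CharZero L := charZero_of_injective_algebraMap (algebraMap k L).injective
  have hpL : (p : L) ≠ 0 := Nat.cast_ne_zero.2 hp.ne_zero
  have h1 : aeval (scP p P'.x) (scF p F) = 0 := by
    rw [aeval_scF]
    have h2 : (fun i : Fin (N + 3) => if i = Fin.last (N + 2) then (p : L) * scP p P'.x i
        else scP p P'.x i) = P'.x := by
      funext i
      unfold scP
      split_ifs with hi
      · rw [mul_inv_cancel_left₀ hpL]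
      · rfl
    rw [h2, P'.eq, mul_zero]
  have h3 : aeval (fun i => c * scP p P'.x i) (scF p F) = 0 := by
    rw [aeval_smul (scF_hom p hF), h1, mul_zero]
  have h4 := reduce_pt M.V (scF p F) M.mem (spec p M.f) M.red
    (fun i => (⟨c * scP p P'.x i, hV i⟩ : M.V)) h3
  have h5 : (fun i => IsLocalRing.residue M.V (⟨c * scP p P'.x i, hV i⟩ : M.V)) =
      Fin.snoc (α := fun _ => IsLocalRing.ResidueField M.V)
        (fun i : Fin (N + 2) => IsLocalRing.residue M.V
          (⟨c * scP p P'.x i.castSucc, hV i.castSucc⟩ : M.V))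
        (IsLocalRing.residue M.V (⟨c * scP p P'.x (Fin.last (N + 2)), hV _⟩ : M.V)) := by
    funext i
    refine Fin.lastCases ?_ (fun j => ?_) i
    · rw [Fin.snoc_last]
    · rw [Fin.snoc_castSucc]
  rw [h5, aeval_spec_snoc] at h4
  have hκ : (p : IsLocalRing.ResidueField M.V) = 0 := by
    obtain ⟨h6, h7⟩ := ValuationSubring.mem_nonunits_iff_exists_mem_maximalIdeal.1 M.char
    have h8 : IsLocalRing.residue M.V (⟨(p : L), h6⟩ : M.V) = 0 :=
      (IsLocalRing.residue_eq_zero_iff _).2 h7
    have h9 : (⟨(p : L), h6⟩ : M.V) = (p : M.V) := rfl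
    rw [h9, map_natCast] at h8
    exact h8
  have h10 := hyp_ne hN hp.one_le hpN hκ M.good M.D _ _ h4 hnd
  apply h10
  rw [IsLocalRing.residue_eq_zero_iff]
  have h11 : (⟨c * scP p P'.x (Fin.castSucc 0), hV _⟩ : M.V) = 0 := by
    apply Subtype.ext
    change c * scP p P'.x (Fin.castSucc 0) = 0
    have h12 : scP p P'.x (Fin.castSucc 0) = 0 := by
      unfold scP
      rw [if_neg (Fin.castSucc_lt_last _).ne]
      exact hx0
    rw [h12, mul_zero]
  rw [h11]
  exact Submodule.zero_mem _

end Pool.Agent.HSI
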