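import Pool.Agent.HSI.EPt
import Pool.Agent.HSI.EHy
import Pool.Agent.HSI.EFn
import Pool.Agent.HSI.Mod
import Pool.Agent.GEL.Moe

/-!
# The degree of a rational curve through the generic point

PLAN. (Follow `curve_degree`, `cdg_ext` in GEL/CDg.lean.) `e` = the degree, `c ≠ 0` (otherwise `X ∣ X i` for all `i`). `P.x 0 = 1`, so `(X 0).eval 0 = c ≠ 0`.
`x0_ne`: for `Q : Pt F L` with `REquiv P Q`: `Q.x 0 ≠ 0`: `exists_model`, `ndred_requiv`, `ndred_ne`.
Suppose `¬ p ∣ e`. (1) `(X 0).coeff e ≠ 0`: otherwise the point at infinity: the curve `revs 0 e (X i)` … simpler: `Y i = moeb`-like curve joining `P` and the point `Q` with `Q.x i = (X i).coeff e` (not all `0` as `e` is the maximal degree): the polynomials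
`Y i = revs 1 e ((revs 0 e (X i)).comp (1 - X))`-like; or use `GEL.moeb (-1) e` (GEL/Moe.lean: `moeb_eval_zero`, `moeb_eval_one`, and the proof of `moeb_curve` for the equation, here: `aeval Y F = 0` by evaluation at infinitely many points).
Alternatively avoid `Joined`: apply `transport` directly to `Y j = revs 0 e (if j = last then C p⁻¹ * X j else X j)` (coefficients at `e`: `c * scP p P.x j`; at `0`: `scP p Q.x j`) and then `ndred_ne` for `Q`.
(2) So `(X 0).natDegree = e`; `exists_factor_not_dvd`: `q ∣ X 0` irreducible with `¬ p ∣ q.natDegree`; `L' = AdjoinRoot q`, `τ` = the root (`τ ≠ 0` since `(X 0).coeff 0 ≠ 0`); `P' ∈ X(L')` = the image of `P`, generic (`AlgebraicIndependent.map'`), `P'.funField` has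
`finrank = finrank P.funField L * q.natDegree` (`finrank_ext`), not divisible by `p`. The curve `t ↦ X (τ t)` joins `P'` and `Q = X(τ)` (nonzero: otherwise `q ∣ X i` for all `i`), `Q.x 0 = 0`: contradiction to `x0_ne` over `L'`.
-/

open MvPolynomial

universe u

namespace Pool.Agent.HSI

private theorem edg_moeb {R F : Type*} [CommRing R] [Field F] [Infinite F] [Algebra R F] {n d : ℕ}
    (hd : 0 < d) (f : MvPolynomial (Fin (n + 1)) R) (hf : f.IsHomogeneous d)
    (X : Fin (n + 1) → Polynomial F) (hX : aeval X f = 0) (e : ℕ)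
    (he : ∀ i, (X i).natDegree ≤ e) (b : F) :
    aeval (fun i => GEL.moeb b e (X i)) f = 0 := by
  have h1 := (GEL.moeb_curve (p := d) (a := 1) hd f (by rw [mul_one]; exact hf) X 0
    (by rw [hX, zero_pow hd.ne']) e he b).2
  rw [← h1]
  have h2 : GEL.moeb b (1 * e) (0 : Polynomial F) = 0 := by
    unfold GEL.moeb
    simp
  rw [h2, zero_pow hd.ne']

theorem x0_ne {k : Type u} [Field k] [IsAlgClosed k] [CharZero k] {N p : ℕ} (hp : p.Prime)
    (hpN : p ≤ N + 2) (hN : 2 ≤ N) (F : MvPolynomial (Fin (N + 3)) k) (hF : F.IsHomogeneous (N + 2))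
    (hgen : AlgebraicIndependent ℚ
      fun m : {m : Fin (N + 3) →₀ ℕ // m.degree = N + 2} => coeff m.1 F)
    {L : Type u} [Field L] [Algebra k L] (P : Pt F L) (hP : P.IsGeneric)
    (hL : ¬ p ∣ Module.finrank ↥P.funField L) (Q : Pt F L) (h : REquiv P Q) : Q.x 0 ≠ 0 := by
  obtain ⟨M, hM⟩ := exists_model hp hpN hN F hF hgen P hP hL
  exact ndred_ne (by omega) hp hpN hF M Q (ndred_requiv hN hp hpN hF M P Q h hM)

private theorem edg_ext {k : Type u} [Field k] [IsAlgClosed k] [CharZero k] {N p : ℕ}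
    (hp : p.Prime) (hpN : p ≤ N + 2) (hN : 2 ≤ N) (F : MvPolynomial (Fin (N + 3)) k)
    (hF : F.IsHomogeneous (N + 2))
    (hgen : AlgebraicIndependent ℚ
      fun m : {m : Fin (N + 3) →₀ ℕ // m.degree = N + 2} => coeff m.1 F)
    {L : Type u} [Field L] [Algebra k L] (P : Pt F L) (hP : P.IsGeneric)
    (hL : ¬ p ∣ Module.finrank ↥P.funField L) (X : Fin (N + 3) → Polynomial L)
    (hX : aeval X F = 0) (hcop : ∀ q, (∀ i, q ∣ X i) → IsUnit q)
    (c : L) (hc : c ≠ 0) (h0 : ∀ i, (X i).eval 0 = c * P.x i)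
    (q : Polynomial L) (hq : Irreducible q) (hq0 : q ∣ X 0) : p ∣ q.natDegree := by
  by_contra hcon
  have : Fact (Irreducible q) := ⟨hq⟩
  obtain ⟨Φ, hΦ⟩ : ∃ Φ : Polynomial L →ₐ[L] Polynomial (AdjoinRoot q), Φ =
      Polynomial.aeval (Polynomial.C (AdjoinRoot.root q) * Polynomial.X) := ⟨_, rfl⟩
  have hev : ∀ (s : AdjoinRoot q) (R : Polynomial L), (Φ R).eval s =
      Polynomial.aeval (AdjoinRoot.root q * s) R := by
    intro s R
    have h1 : ((Polynomial.aeval s : Polynomial (AdjoinRoot q) →ₐ[AdjoinRoot q]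
        AdjoinRoot q).restrictScalars L).comp Φ =
        Polynomial.aeval (AdjoinRoot.root q * s) := by
      refine Polynomial.algHom_ext ?_
      rw [hΦ]
      simp
    have h2 := congrArg (fun ψ => ψ R) h1
    simpa using h2
  have hev0 : ∀ R : Polynomial L, (Φ R).eval 0 = algebraMap L (AdjoinRoot q) (R.eval 0) := by
    intro R
    rw [hev, mul_zero, ← Polynomial.coeff_zero_eq_eval_zero, Polynomial.coeff_zero_eq_aeval_zero']
  have hev1 : ∀ R : Polynomial L, (Φ R).eval 1 = AdjoinRoot.mk q R := by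
    intro R
    rw [hev, mul_one, AdjoinRoot.aeval_eq]
  have hΦX : aeval (fun i => Φ (X i)) F = 0 := by
    have h1 := comp_aeval_apply X (Φ.restrictScalars k) F
    rw [hX, map_zero] at h1
    exact h1.symm
  have hmap : ∀ z : Fin (N + 3) → L, aeval (fun i => algebraMap L (AdjoinRoot q) (z i)) F =
      algebraMap L (AdjoinRoot q) (aeval z F) := fun z =>
    (comp_aeval_apply z (IsScalarTower.toAlgHom k L (AdjoinRoot q)) F).symm
  have hinj : Function.Injective (algebraMap L (AdjoinRoot q)) :=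
    (algebraMap L (AdjoinRoot q)).injective
  obtain ⟨P', hP'x⟩ : ∃ P' : Pt F (AdjoinRoot q),
      ∀ i, P'.x i = algebraMap L (AdjoinRoot q) (P.x i) :=
    ⟨⟨fun i => algebraMap L (AdjoinRoot q) (P.x i), fun h1 => P.ne
      (funext fun i => hinj (by rw [Pi.zero_apply, map_zero]; exact congrFun h1 i)),
      by rw [hmap, P.eq, map_zero]⟩, fun i => rfl⟩
  have hgen' : P'.IsGeneric := by
    refine ⟨by rw [hP'x, hP.one, map_one], ?_⟩
    have h1 := hP.indep.map' (f := IsScalarTower.toAlgHom k L (AdjoinRoot q)) hinj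
    have h2 : (fun i : Fin (N + 1) => P'.x i.succ.succ) =
        (IsScalarTower.toAlgHom k L (AdjoinRoot q)) ∘ fun i : Fin (N + 1) => P.x i.succ.succ :=
      funext fun i => hP'x _
    rw [h2]
    exact h1
  have hfin : ¬ p ∣ Module.finrank ↥P'.funField (AdjoinRoot q) := by
    have h1 := finrank_ext (k := k) (L := L) (L' := AdjoinRoot q) (Set.range P.x)
    have h2 : algebraMap L (AdjoinRoot q) '' (Set.range P.x) = Set.range P'.x := by
      rw [← Set.range_comp]
      congr 1
      funext i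
      exact (hP'x i).symm
    rw [h2] at h1
    have h3 : P'.funField = IntermediateField.adjoin k (Set.range P'.x) := rfl
    have h4 : P.funField = IntermediateField.adjoin k (Set.range P.x) := rfl
    rw [h3, h1, (AdjoinRoot.powerBasis hq.ne_zero).finrank, AdjoinRoot.powerBasis_dim,
      hp.dvd_mul, ← h4]
    exact not_or.2 ⟨hL, hcon⟩
  obtain ⟨i₁, hi₁⟩ : ∃ i, ¬ q ∣ X i := by
    by_contra hall
    push Not at hall
    exact hq.not_isUnit (hcop q hall)
  obtain ⟨Q, hQx⟩ : ∃ Q : Pt F (AdjoinRoot q), ∀ i, Q.x i = (Φ (X i)).eval 1 := by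
    refine ⟨⟨fun i => (Φ (X i)).eval 1, fun h1 => hi₁ ?_, ?_⟩, fun i => rfl⟩
    · have h2 : (Φ (X i₁)).eval 1 = 0 := congrFun h1 i₁
      rw [hev1, AdjoinRoot.mk_eq_zero] at h2
      exact h2
    · have h2 := comp_aeval_apply (fun i => Φ (X i)) ((Polynomial.aeval (1 : AdjoinRoot q) :
        Polynomial (AdjoinRoot q) →ₐ[AdjoinRoot q] AdjoinRoot q).restrictScalars k) F
      rw [hΦX, map_zero] at h2
      exact h2.symm
  have hjoin : Joined P' Q := by
    refine ⟨fun i => Φ (X i), hΦX, ⟨algebraMap L (AdjoinRoot q) c,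
      fun h1 => hc (hinj (by rw [h1, map_zero])), fun i => ?_⟩, ⟨1, one_ne_zero, fun i => ?_⟩⟩
    · show (Φ (X i)).eval 0 = _
      rw [hev0, h0, map_mul, hP'x]
    · show (Φ (X i)).eval 1 = _
      rw [hQx, one_mul]
  refine x0_ne hp hpN hN F hF hgen P' hgen' hfin Q (Relation.EqvGen.rel _ _ hjoin) ?_
  rw [hQx, hev1, AdjoinRoot.mk_eq_zero]
  exact hq0

theorem curve_degree {k : Type u} [Field k] [IsAlgClosed k] [CharZero k] {N p : ℕ} (hp : p.Prime)
    (hpN : p ≤ N + 2) (hN : 2 ≤ N) (F : MvPolynomial (Fin (N + 3)) k) (hF : F.IsHomogeneous (N + 2))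
    (hgen : AlgebraicIndependent ℚ
      fun m : {m : Fin (N + 3) →₀ ℕ // m.degree = N + 2} => coeff m.1 F)
    {L : Type u} [Field L] [Algebra k L] (P : Pt F L) (hP : P.IsGeneric)
    (hL : ¬ p ∣ Module.finrank ↥P.funField L) (X : Fin (N + 3) → Polynomial L)
    (hX : aeval X F = 0) (hcop : ∀ q, (∀ i, q ∣ X i) → IsUnit q)
    (h0 : ∃ c : L, ∀ i, (X i).eval 0 = c * P.x i) :
    p ∣ Finset.univ.sup fun i => (X i).natDegree := by
  have hinf : Infinite L := by
    have : Infinite k := inferInstance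
    exact Infinite.of_injective _ (algebraMap k L).injective
  obtain ⟨c, h0⟩ := h0
  by_contra hcon
  have he : ∀ i, (X i).natDegree ≤ Finset.univ.sup fun i => (X i).natDegree := fun i =>
    Finset.le_sup (f := fun i => (X i).natDegree) (Finset.mem_univ i)
  obtain ⟨i₀, -, hi₀⟩ := Finset.exists_mem_eq_sup Finset.univ Finset.univ_nonempty
    fun i => (X i).natDegree
  obtain ⟨e, hee⟩ : ∃ e, e = Finset.univ.sup fun i => (X i).natDegree := ⟨_, rfl⟩
  rw [← hee] at hcon he hi₀
  have he0 : e ≠ 0 := fun h1 => hcon (by rw [h1]; exact dvd_zero p)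
  have hc : c ≠ 0 := by
    intro h1
    refine Polynomial.not_isUnit_X (hcop Polynomial.X fun i => ?_)
    rw [Polynomial.X_dvd_iff, Polynomial.coeff_zero_eq_eval_zero, h0, h1, zero_mul]
  by_cases hXe : (X 0).coeff e = 0
  · -- the point at infinity
    have hY := edg_moeb (by omega) F hF X hX e he (-1)
    obtain ⟨Q, hQx⟩ : ∃ Q : Pt F L, ∀ i, Q.x i = (GEL.moeb (-1) e (X i)).eval 1 := by
      refine ⟨⟨fun i => (GEL.moeb (-1) e (X i)).eval 1, fun h1 => ?_, ?_⟩, fun i => rfl⟩
      · have h2 : (GEL.moeb (-1) e (X i₀)).eval 1 = 0 := congrFun h1 i₀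
        rw [GEL.moeb_eval_one, hi₀, ← Polynomial.leadingCoeff,
          Polynomial.leadingCoeff_eq_zero] at h2
        rw [h2, Polynomial.natDegree_zero] at hi₀
        exact he0 hi₀
      · have h2 := comp_aeval_apply (fun i => GEL.moeb (-1) e (X i)) ((Polynomial.aeval (1 : L) :
          Polynomial L →ₐ[L] L).restrictScalars k) F
        rw [hY, map_zero] at h2
        exact h2.symm
    have hjoin : Joined P Q := by
      refine ⟨fun i => GEL.moeb (-1) e (X i), hY, ⟨c, hc, fun i => ?_⟩,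
        ⟨1, one_ne_zero, fun i => ?_⟩⟩
      · show (GEL.moeb (-1) e (X i)).eval 0 = _
        rw [GEL.moeb_eval_zero, h0]
      · show (GEL.moeb (-1) e (X i)).eval 1 = _
        rw [hQx, one_mul]
    refine x0_ne hp hpN hN F hF hgen P hP hL Q (Relation.EqvGen.rel _ _ hjoin) ?_
    rw [hQx, GEL.moeb_eval_one, hXe]
  · have hX0 : (X 0).natDegree = e := le_antisymm (he 0) (Polynomial.le_natDegree_of_ne_zero hXe)
    rw [← hX0] at hcon
    obtain ⟨q, hq, hq0, hqp⟩ := exists_factor_not_dvd p (X 0)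
      (fun h1 => hXe (by rw [h1, Polynomial.coeff_zero])) hcon
    exact hqp (edg_ext hp hpN hN F hF hgen P hP hL X hX hcop c hc h0 q hq hq0)

end Pool.Agent.HSI
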