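import Pool.Agent.HSI.BTr
import Pool.Agent.HSI.BMo

/-!
# R-equivalence and reduction

`NDred` does not depend on the scalar, a curve through `P` (at `0`) and `P'` (at `1`) gives after `revs 1` a curve with
leading coefficients `P` and value `P'` at `0`, and `transport` applies. So `NDred` is invariant under R-equivalence.
-/

open MvPolynomial

universe u

namespace Pool.Agent.HSI

theorem joined_symm {k : Type u} [Field k] {n : ℕ} {F : MvPolynomial (Fin (n + 2)) k} {L : Type u}
    [Field L] [Algebra k L] {P P' : Pt F L} (h : Joined P P') : Joined P' P := by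
  obtain ⟨X, hX, hP, hP'⟩ := h
  obtain ⟨φ, hφ⟩ : ∃ φ : Polynomial L →ₐ[k] Polynomial L, ∀ Q,
      φ Q = Polynomial.aeval (1 - Polynomial.X : Polynomial L) Q :=
    ⟨(Polynomial.aeval (1 - Polynomial.X : Polynomial L)).restrictScalars k, fun Q => rfl⟩
  have he0 : ∀ Q : Polynomial L, (φ Q).eval 0 = Q.eval 1 := by
    intro Q
    rw [hφ, Polynomial.aeval_def, Polynomial.algebraMap_eq, ← Polynomial.comp, Polynomial.eval_comp]
    simp
  have he1 : ∀ Q : Polynomial L, (φ Q).eval 1 = Q.eval 0 := by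
    intro Q
    rw [hφ, Polynomial.aeval_def, Polynomial.algebraMap_eq, ← Polynomial.comp, Polynomial.eval_comp]
    simp
  refine ⟨fun i => φ (X i), ?_, ?_, ?_⟩
  · rw [← MvPolynomial.comp_aeval_apply, hX, map_zero]
  · simp only [he0]
    exact hP'
  · simp only [he1]
    exact hP

private theorem ept_of {k : Type u} [Field k] {L : Type u} [Field L] [Algebra k L] {N : ℕ}
    {V : ValuationSubring L}
    {D : Fin N → Derivation (K0 k V) (IsLocalRing.ResidueField V) (IsLocalRing.ResidueField V)}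
    {ξ ξ' : Fin (N + 3) → L} (c c' : L) (hc' : c' ≠ 0) (h : ∀ i, c * ξ i ∈ V)
    (he : ∀ i, c' * ξ' i = c * ξ i)
    (hND : ND D fun i : Fin (N + 2) => IsLocalRing.residue V ⟨c * ξ i.castSucc, h i.castSucc⟩) :
    NDred V D ξ' := by
  have h' : ∀ i, c' * ξ' i ∈ V := fun i => by
    rw [he]
    exact h i
  refine ⟨c', h', hc', ?_⟩
  have h1 : (fun i : Fin (N + 2) => IsLocalRing.residue V ⟨c' * ξ' i.castSucc, h' i.castSucc⟩) =
      fun i : Fin (N + 2) => IsLocalRing.residue V ⟨c * ξ i.castSucc, h i.castSucc⟩ := by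
    funext i
    exact congrArg (IsLocalRing.residue V) (Subtype.ext (he _))
  rw [h1]
  exact hND

theorem ndred_smul {k : Type u} [Field k] {L : Type u} [Field L] [Algebra k L] {N : ℕ}
    (V : ValuationSubring L)
    (D : Fin N → Derivation (K0 k V) (IsLocalRing.ResidueField V) (IsLocalRing.ResidueField V))
    (ξ : Fin (N + 3) → L) (b : L) (hb : b ≠ 0) : NDred V D (fun i => b * ξ i) ↔ NDred V D ξ := by
  constructor
  · rintro ⟨c, h, hc, hND⟩
    exact ept_of c (c * b) (mul_ne_zero hc hb) h (fun i => mul_assoc _ _ _) hND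
  · rintro ⟨c, h, hc, hND⟩
    exact ept_of c (c * b⁻¹) (mul_ne_zero hc (inv_ne_zero hb)) h
      (fun i => by rw [mul_assoc, inv_mul_cancel_left₀ hb]) hND

private theorem ept_p {k : Type u} [Field k] [CharZero k] {p : ℕ} (hp : p ≠ 0) {L : Type u} [Field L]
    [Algebra k L] : (p : L) ≠ 0 := by
  have h1 : (p : k) ≠ 0 := Nat.cast_ne_zero.2 hp
  have h2 : algebraMap k L (p : k) ≠ 0 := (map_ne_zero_iff _ (algebraMap k L).injective).2 h1
  rwa [map_natCast] at h2

theorem scP_curve {k : Type u} [Field k] [CharZero k] {N p : ℕ} (hp : p ≠ 0)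
    {F : MvPolynomial (Fin (N + 3)) k} {L : Type u} [Field L] [Algebra k L]
    (X : Fin (N + 3) → Polynomial L) (hX : aeval X F = 0) :
    aeval (fun j => if j = Fin.last (N + 2) then Polynomial.C (p : L)⁻¹ * X j else X j)
      (scF p F) = 0 := by
  have hpL : (p : L) ≠ 0 := ept_p (k := k) hp
  have h1 : (fun i : Fin (N + 3) => if i = Fin.last (N + 2) then
      (p : Polynomial L) * (if i = Fin.last (N + 2) then Polynomial.C (p : L)⁻¹ * X i else X i)
      else (if i = Fin.last (N + 2) then Polynomial.C (p : L)⁻¹ * X i else X i)) = X := by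
    funext i
    by_cases hi : i = Fin.last (N + 2)
    · rw [if_pos hi, if_pos hi, ← Polynomial.C_eq_natCast, ← mul_assoc, ← Polynomial.C_mul,
        mul_inv_cancel₀ hpL, Polynomial.C_1, one_mul]
    · rw [if_neg hi, if_neg hi]
  rw [aeval_scF, h1, hX, mul_zero]

theorem ndred_joined {k : Type u} [Field k] [IsAlgClosed k] [CharZero k] {N p : ℕ} (hN : 2 ≤ N)
    (hp : p.Prime) (hpN : p ≤ N + 2) {F : MvPolynomial (Fin (N + 3)) k}
    (hF : F.IsHomogeneous (N + 2)) {L : Type u} [Field L] [Algebra k L] (M : Model p F L)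
    (P P' : Pt F L) (h : Joined P P') (hP : NDred M.V M.D (scP p P.x)) :
    NDred M.V M.D (scP p P'.x) := by
  have : Infinite k := IsAlgClosed.instInfinite
  have : Infinite L := Infinite.of_injective (algebraMap k L) (algebraMap k L).injective
  have hpL : (p : L) ≠ 0 := ept_p (k := k) hp.ne_zero
  obtain ⟨X, hX, ⟨c, hc, hX0⟩, ⟨c', hc', hX1⟩⟩ := h
  obtain ⟨e, he⟩ : ∃ e, ∀ i, (X i).natDegree ≤ e :=
    ⟨Finset.univ.sup fun i => (X i).natDegree, fun i =>
      Finset.le_sup (f := fun i => (X i).natDegree) (Finset.mem_univ i)⟩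
  obtain ⟨Y0, hY0⟩ : ∃ Y0 : Fin (N + 3) → Polynomial L,
      Y0 = fun j => if j = Fin.last (N + 2) then Polynomial.C (p : L)⁻¹ * X j else X j := ⟨_, rfl⟩
  have hY0e : ∀ j, (Y0 j).natDegree ≤ e := by
    intro j
    rw [hY0]
    show (if j = Fin.last (N + 2) then Polynomial.C (p : L)⁻¹ * X j else X j).natDegree ≤ e
    split_ifs
    · exact (Polynomial.natDegree_C_mul_le _ _).trans (he j)
    · exact he j
  have hc0 : aeval Y0 (scF p F) = 0 := by
    rw [hY0]
    exact scP_curve hp.ne_zero X hX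
  have hcurve := revs_curve (scF_hom p hF) Y0 hc0 e hY0e (1 : L)
  have hlead : ∀ j, (revs 1 e (Y0 j)).coeff e = c * scP p P.x j := by
    intro j
    have h1 : (X j).coeff 0 = c * P.x j := by
      rw [Polynomial.coeff_zero_eq_eval_zero]
      exact hX0 j
    rw [revs_coeff, hY0]
    show (if j = Fin.last (N + 2) then Polynomial.C (p : L)⁻¹ * X j else X j).coeff 0 =
      c * (if j = Fin.last (N + 2) then (p : L)⁻¹ * P.x j else P.x j)
    split_ifs
    · rw [Polynomial.coeff_C_mul, h1]
      ring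
    · exact h1
  have hend : ∀ j, (revs 1 e (Y0 j)).coeff 0 = c' * scP p P'.x j := by
    intro j
    have h1 : (X j).eval 1 = c' * P'.x j := hX1 j
    rw [revs_one e (Y0 j) (hY0e j), hY0]
    show (if j = Fin.last (N + 2) then Polynomial.C (p : L)⁻¹ * X j else X j).eval 1 =
      c' * (if j = Fin.last (N + 2) then (p : L)⁻¹ * P'.x j else P'.x j)
    split_ifs
    · rw [Polynomial.eval_mul, Polynomial.eval_C, h1]
      ring
    · exact h1
  have ht := transport hN hp hpN hF M (fun j => revs 1 e (Y0 j)) hcurve e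
    (fun j => revs_natDegree_le 1 e (Y0 j)) (by
      have h1 : (fun j => (revs 1 e (Y0 j)).coeff e) = fun j => c * scP p P.x j := funext hlead
      show NDred M.V M.D (fun j => (revs 1 e (Y0 j)).coeff e)
      rw [h1]
      exact (ndred_smul M.V M.D _ c hc).2 hP) (by
      obtain ⟨j, hj⟩ : ∃ j, P'.x j ≠ 0 := by
        by_contra hcon
        push Not at hcon
        exact P'.ne (funext hcon)
      refine ⟨j, ?_⟩
      show (revs 1 e (Y0 j)).coeff 0 ≠ 0
      rw [hend]
      refine mul_ne_zero hc' ?_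
      unfold scP
      split_ifs
      · exact mul_ne_zero (inv_ne_zero hpL) hj
      · exact hj)
  have h1 : (fun j => (revs 1 e (Y0 j)).coeff 0) = fun j => c' * scP p P'.x j := funext hend
  have h2 : NDred M.V M.D (fun j => (revs 1 e (Y0 j)).coeff 0) := ht
  rw [h1] at h2
  exact (ndred_smul M.V M.D _ c' hc').1 h2

theorem ndred_requiv {k : Type u} [Field k] [IsAlgClosed k] [CharZero k] {N p : ℕ} (hN : 2 ≤ N)
    (hp : p.Prime) (hpN : p ≤ N + 2) {F : MvPolynomial (Fin (N + 3)) k}
    (hF : F.IsHomogeneous (N + 2)) {L : Type u} [Field L] [Algebra k L] (M : Model p F L)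
    (P P' : Pt F L) (h : REquiv P P') (hP : NDred M.V M.D (scP p P.x)) :
    NDred M.V M.D (scP p P'.x) := by
  have key : ∀ A B : Pt F L, REquiv A B → (NDred M.V M.D (scP p A.x) ↔ NDred M.V M.D (scP p B.x)) := by
    intro A B hAB
    induction hAB with
    | rel A B hAB =>
      exact ⟨ndred_joined hN hp hpN hF M A B hAB, ndred_joined hN hp hpN hF M B A (joined_symm hAB)⟩
    | refl A => exact Iff.rfl
    | symm A B _ ih => exact ih.symm
    | trans A B C _ _ ih1 ih2 => exact ih1.trans ih2
  exact (key P P' h).1 hP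

end Pool.Agent.HSI
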