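import Pool.Agent.HSI.Nln
import Pool.Agent.HSC.Fnk

/-!
# HSI/Fns: the theorem for knot groups, without integrality
-/

set_option autoImplicit false

noncomputable section

namespace Pool.Agent.HSI

open Pool.Agent.HSK Pool.Agent.HSG Pool.Agent.HSC Matrix
open scoped MatrixGroups commutatorElement

variable {Γ Δ : Subgroup PSL(2, ℂ)} {μ : PSL(2, ℂ)}

theorem short_all (hΓ : IsKnotGroup Γ μ) (h1 : Γ ≤ Δ) (h2 : Δ ≤ Subgroup.Commensurable.commensurator Γ)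
    (hd : DiscreteTopology Δ) (hn : ¬ Δ ≤ Subgroup.normalizer (Γ : Set PSL(2, ℂ)))
    {n : ℕ} (hn3 : n = 3 ∨ n = 6) (hc : IsCuspOrder Δ μ n)
    {δ : PSL(2, ℂ)} (hδ : δ ∈ Δ) {A B : SL(2, ℂ)} (hA : cls A = μ) (hB : cls B = δ * μ * δ⁻¹) (hA2 : A.1.trace = 2) (hB2 : B.1.trace = 2)
    (h0 : (A * B).1.trace ≠ 2) (h3 : ‖(A * B).1.trace - 2‖ ≤ 3) :
    ∃ (q : PSL(2, ℂ)) (w : ℂ), w ^ 2 + w + 1 = 0 ∧ q * t 1 * q⁻¹ = μ ∧
      ((Γ = (F8 w).map (MulAut.conj q).toMonoidHom) ∨ (n = 3 ∧ Δ = (dod (w ^ 2)).map (MulAut.conj q).toMonoidHom) ∨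
        (n = 6 ∧ Δ = (dod (Complex.I * w ^ 2)).map (MulAut.conj q).toMonoidHom)) :=
  short_meridian hΓ h1 h2 hd hn (Or.inr (mg_of_short hΓ h1 h2 hd hn hn3 hc hδ hA hB hA2 hB2 h0 h3)) hn3 hc hδ hA hB hA2 hB2 h0 h3

end Pool.Agent.HSI
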