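import Pool.Agent.HSI.Tools
import Pool.Agent.HSI.DExt
import Pool.Agent.HSI.DHes

/-!
# Forms with algebraically independent coefficients are good

Everything follows from `tay_ext` (after scaling the point) and `hes_adj`.
-/

open MvPolynomial

universe u

namespace Pool.Agent.HSI

private theorem ga_scale {k₀ E : Type*} [Field k₀] [Field E] [Algebra k₀ E] {M e : ℕ}
    {g : MvPolynomial (Fin M) k₀} (hg : g.IsHomogeneous e) (c : E) (ξ : Fin M → E) :
    aeval (fun i => c * ξ i) g = c ^ e * aeval ξ g := by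
  rw [aeval_def, aeval_def, eval₂_eq', eval₂_eq', Finset.mul_sum]
  refine Finset.sum_congr rfl fun m hm => ?_
  have h1 : m.degree = e := by
    by_contra h
    exact (mem_support_iff.1 hm) (hg.coeff_eq_zero h)
  have h2 : ∏ i, (c * ξ i) ^ m i = c ^ e * ∏ i, ξ i ^ m i := by
    rw [Finset.prod_congr rfl fun i _ => mul_pow c (ξ i) (m i), Finset.prod_mul_distrib,
      Finset.prod_pow_eq_pow_sum, ← h1, Finsupp.degree_eq_sum]
  rw [h2]
  ring

private theorem ga_ext {p : ℕ} [Fact p.Prime] {k₀ : Type u} [Field k₀] [IsAlgClosed k₀]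
    [Algebra (ZMod p) k₀] {N : ℕ} (f : MvPolynomial (Fin (N + 2)) k₀)
    (hf : f.IsHomogeneous (N + 2))
    (h : AlgebraicIndependent (ZMod p)
      fun m : {m : Fin (N + 2) →₀ ℕ // m.degree = N + 2} => coeff m.1 f)
    (E : Type u) [Field E] [Algebra k₀ E] (i : Fin (N + 2)) (J : Finset (Fin (N + 2))) (hi : i ∉ J)
    (ξ : Fin (N + 2) → E) (hξi : ξ i = 1)
    (hξ : ∀ j, j ∉ J → j ≠ i → ξ j = 0) (hcrit : ∀ j ∈ J, aeval ξ (pderiv j f) = 0) :
    (∀ j, ∃ a : k₀, ξ j = algebraMap k₀ E a) ∧ aeval ξ f ≠ 0 ∧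
      (∀ j, j ∉ J → j ≠ i → aeval ξ (pderiv j f) ≠ 0) ∧
      ∃ (_ : Algebra (ZMod p) E) (b : {m : Fin (N + 2) →₀ ℕ // m.degree = N + 2} → E),
        AlgebraicIndependent (ZMod p) b ∧
        ∀ a c, a ≠ i → c ≠ i → ∀ m, m.1 = Finsupp.single i N + Finsupp.single a 1 +
          Finsupp.single c 1 →
            aeval ξ (pderiv a (pderiv c f)) = (if a = c then 2 else 1) * b m := by
  let _ : Algebra (ZMod p) E := ((algebraMap k₀ E).comp (algebraMap (ZMod p) k₀)).toAlgebra
  have ht : IsScalarTower (ZMod p) k₀ E := IsScalarTower.of_algebraMap_eq fun _ => rfl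
  obtain ⟨h1, h2, h3, b, hb, h4⟩ := tay_ext (F₀ := ZMod p) (k₀ := k₀) (E := E) (D := N) f hf h i J
    hi ξ hξi hξ hcrit
  exact ⟨h1, h2, h3, inferInstance, b, hb, h4⟩

private theorem ga_deg {N : ℕ} (a c : Fin (N + 1)) :
    (Finsupp.single (0 : Fin (N + 2)) N + Finsupp.single a.succ 1 +
      Finsupp.single c.succ 1).degree = N + 2 := by
  rw [map_add, map_add, Finsupp.degree_single, Finsupp.degree_single, Finsupp.degree_single]

private theorem ga_inj {N : ℕ} {a c a' c' : Fin (N + 1)}
    (h : Finsupp.single (0 : Fin (N + 2)) N + Finsupp.single a.succ 1 + Finsupp.single c.succ 1 =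
      Finsupp.single (0 : Fin (N + 2)) N + Finsupp.single a'.succ 1 + Finsupp.single c'.succ 1) :
    (a = a' ∧ c = c') ∨ (a = c' ∧ c = a') := by
  have h5 := add_left_cancel ((add_assoc _ _ _).symm.trans (h.trans (add_assoc _ _ _)))
  rw [Finsupp.single_add_single_eq_single_add_single one_ne_zero one_ne_zero] at h5
  rcases h5 with h6 | h6 | h6
  · exact Or.inl ⟨Fin.succ_injective _ h6.1, Fin.succ_injective _ h6.2⟩
  · exact Or.inr ⟨Fin.succ_injective _ h6.2.1, Fin.succ_injective _ h6.2.2⟩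
  · exact absurd h6.1 (by norm_num)

theorem good_of_indep {p : ℕ} [Fact p.Prime] {k₀ : Type u} [Field k₀] [IsAlgClosed k₀] [CharP k₀ p]
    [Algebra (ZMod p) k₀] {N : ℕ} (hN : 1 ≤ N) (f : MvPolynomial (Fin (N + 2)) k₀)
    (hf : f.IsHomogeneous (N + 2))
    (h : AlgebraicIndependent (ZMod p)
      fun m : {m : Fin (N + 2) →₀ ℕ // m.degree = N + 2} => coeff m.1 f) : Good f := by
  have hpd : ∀ j : Fin (N + 2), (pderiv j f).IsHomogeneous (N + 1) := fun j => hf.pderiv
  refine ⟨hf, ?_, ?_, ?_⟩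
  · have h1 := h.ne_zero ⟨Finsupp.single 1 (N + 2), by rw [Finsupp.degree_single]⟩
    exact h1
  · intro E _ _ ξ hξ0 hξ hcrit
    obtain ⟨i, hi⟩ := Function.ne_iff.1 hξ0
    have hi : ξ i ≠ 0 := hi
    have hi0 : i ≠ 0 := by
      rintro rfl
      exact hi hξ
    obtain ⟨h1, h2, h3, -⟩ := ga_ext f hf h E i ((Finset.univ.erase 0).erase i)
      (Finset.notMem_erase _ _) (fun j => (ξ i)⁻¹ * ξ j) (inv_mul_cancel₀ hi) (by
        intro j hj hji
        have hj0 : j = 0 := by
          by_contra h0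
          exact hj (Finset.mem_erase.2 ⟨hji, Finset.mem_erase.2 ⟨h0, Finset.mem_univ _⟩⟩)
        rw [hj0, hξ, mul_zero]) (by
        intro j hj
        rw [ga_scale (hpd j), hcrit j (Finset.mem_erase.1 (Finset.mem_erase.1 hj).2).1, mul_zero])
    refine ⟨fun h0 => ?_, fun h0 => ?_, ?_⟩
    · refine h3 0 (fun h4 => (Finset.mem_erase.1 (Finset.mem_erase.1 h4).2).1 rfl) hi0.symm ?_
      rw [ga_scale (hpd 0), h0, mul_zero]
    · refine h2 ?_
      rw [ga_scale hf, h0, mul_zero]
    · choose a ha using h1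
      refine ⟨ξ i, a, fun j => ?_⟩
      rw [← ha j, mul_inv_cancel_left₀ hi]
  · intro E _ _ ξ hξ hcrit
    obtain ⟨h1, -, -, hA, b, hb, h4⟩ := ga_ext f hf h E 0 (Finset.univ.erase 0)
      (Finset.notMem_erase _ _) ξ hξ (by
        intro j hj hj0
        exact absurd (Finset.mem_erase.2 ⟨hj0, Finset.mem_univ _⟩) hj) (by
        intro j hj
        exact hcrit j (Finset.mem_erase.1 hj).1)
    refine ⟨?_, ?_⟩
    · choose a ha using h1
      exact ⟨a, ha⟩
    · obtain ⟨i, j, hij⟩ := hes_adj b hb (n := N)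
        (fun a c => ⟨_, ga_deg a c⟩) (by
          intro a c
          refine Subtype.ext ?_
          show Finsupp.single (0 : Fin (N + 2)) N + Finsupp.single a.succ 1 +
            Finsupp.single c.succ 1 = Finsupp.single (0 : Fin (N + 2)) N +
            Finsupp.single c.succ 1 + Finsupp.single a.succ 1
          abel) (by
          intro a c a' c' he
          have h5 : Finsupp.single (0 : Fin (N + 2)) N + Finsupp.single a.succ 1 +
            Finsupp.single c.succ 1 = Finsupp.single (0 : Fin (N + 2)) N +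
            Finsupp.single a'.succ 1 + Finsupp.single c'.succ 1 := congrArg Subtype.val he
          exact ga_inj h5)
      refine ⟨i, j, ?_⟩
      have h7 : hess f ξ = (Matrix.of fun a c => (if a = c then 2 else 1) * b ⟨_, ga_deg a c⟩ :
          Matrix (Fin (N + 1)) (Fin (N + 1)) E) := by
        refine Matrix.ext fun a c => ?_
        show aeval ξ (pderiv c.succ (pderiv a.succ f)) =
          (if a = c then 2 else 1) * b ⟨_, ga_deg a c⟩
        rw [h4 c.succ a.succ (Fin.succ_ne_zero _) (Fin.succ_ne_zero _) ⟨_, ga_deg a c⟩ (by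
          show Finsupp.single (0 : Fin (N + 2)) N + Finsupp.single a.succ 1 +
            Finsupp.single c.succ 1 = Finsupp.single (0 : Fin (N + 2)) N +
            Finsupp.single c.succ 1 + Finsupp.single a.succ 1
          abel)]
        congr 1
        by_cases hac : a = c
        · rw [hac, if_pos rfl, if_pos rfl]
        · rw [if_neg hac, if_neg fun h => hac (Fin.succ_injective _ h).symm]
      rw [h7]
      exact hij

end Pool.Agent.HSI
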