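import Pool.Agent.HSG.Nf

/-!
# HSI/Nlk: the normal form without integrality

Copied from HSC/Nk, HSC/Shk, HSC/Mnk with a weaker structure.
-/

set_option autoImplicit false

noncomputable section

namespace Pool.Agent.HSI

open Pool.Agent.HSK Pool.Agent.HSG Matrix
open scoped MatrixGroups commutatorElement

/-- normal form without integrality: the meridian is `T 1`, the Eisenstein integers are translations of `Δ` -/
structure NL (Γ Δ : Subgroup PSL(2, ℂ)) (w : ℂ) : Prop where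
  w2 : w ^ 2 + w + 1 = 0
  le : Γ ≤ Δ
  one : t 1 ∈ Γ
  gen : NGen Γ (t 1)
  lat : ∀ β ∈ Oz w, t β ∈ Δ
  up : ∀ A : SL(2, ℂ), cls A ∈ Δ → A.1 1 0 = 0 → (A.1 0 0 ^ 2) ^ 6 = 1
  cusp : ∀ A : SL(2, ℂ), cls A ∈ Δ → ∃ B : SL(2, ℂ), cls B ∈ Γ ∧ (B * A).1 1 0 = 0
  fin : ∀ R : ℝ, {x : ℝ | x ≤ R ∧ ∃ A : SL(2, ℂ), cls A ∈ Δ ∧ Complex.normSq (A.1 1 0) = x}.Finite
  ex : ∃ A : SL(2, ℂ), cls A ∈ Δ ∧ A.1 1 0 ≠ 0
  rot : ∃ U : SL(2, ℂ), cls U ∈ Δ ∧ U.1 1 0 = 0 ∧ U.1 0 0 ^ 2 = w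

variable {Γ Δ : Subgroup PSL(2, ℂ)} {w : ℂ} {A B U : SL(2, ℂ)}

theorem NL.up_norm (h : NL Γ Δ w) (hU : cls U ∈ Δ) (hc : U.1 1 0 = 0) : Complex.normSq (U.1 0 0) = 1 := by
  have h1 := h.up U hU hc
  have h2 : Complex.normSq (U.1 0 0) ^ 12 = 1 := by
    rw [← map_pow, show U.1 0 0 ^ 12 = (U.1 0 0 ^ 2) ^ 6 by ring, h1, map_one]
  exact (pow_eq_one_iff_of_nonneg (Complex.normSq_nonneg _) (by norm_num)).1 h2

theorem NL.c_mul_up (h : NL Γ Δ w) (hU : cls U ∈ Δ) (hc : U.1 1 0 = 0) (A : SL(2, ℂ)) :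
    Complex.normSq ((A * U).1 1 0) = Complex.normSq (A.1 1 0) ∧ Complex.normSq ((U * A).1 1 0) = Complex.normSq (A.1 1 0) := by
  have h1 := h.up_norm hU hc
  have h2 : Complex.normSq (U.1 1 1) = 1 := by
    have h3 := congrArg Complex.normSq (up_mul hc)
    rw [map_mul, h1, one_mul, map_one] at h3
    exact h3
  constructor
  · rw [nf_e10, hc, mul_zero, add_zero, map_mul, h1, mul_one]
  · rw [nf_e10, hc, zero_mul, zero_add, map_mul, h2, one_mul]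

/-- the lower left entry is determined, up to modulus, by the value at infinity -/
theorem NL.same_pt (h : NL Γ Δ w) (hA : cls A ∈ Δ) (hB : cls B ∈ Δ) (hA0 : A.1 1 0 ≠ 0) (hB0 : B.1 1 0 ≠ 0) (hp : pt A = pt B) :
    Complex.normSq (A.1 1 0) = Complex.normSq (B.1 1 0) := by
  have h1 : (A⁻¹ * B).1 1 0 = 0 := by rw [c_inv_mul hA0 hB0, hp, sub_self, mul_zero]
  have h2 : cls (A⁻¹ * B) ∈ Δ := by
    rw [cls_mul, cls_inv]
    exact Δ.mul_mem (Δ.inv_mem hA) hB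
  have h3 := (h.c_mul_up h2 h1 A).1
  rw [mul_inv_cancel_left] at h3
  exact h3.symm

theorem NL.t_mem (h : NL Γ Δ w) {β : ℂ} (hβ : β ∈ Oz w) : cls (T β) ∈ Δ := h.lat β hβ

private theorem shk_conj (p β : ℂ) : t p * t β * (t p)⁻¹ = t β := by
  rw [(t_comm p β).eq]
  group

private theorem shk_t {S : Subgroup PSL(2, ℂ)} (p β : ℂ) : t β ∈ cj (t p) S ↔ t β ∈ S := by
  rw [mem_cj, shk_conj]

private theorem shk_T (p : ℂ) (B : SL(2, ℂ)) : T p * (T (-p) * B * T p) * T (-p) = B := by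
  rw [T_neg]
  group

private theorem shk_mem {S : Subgroup PSL(2, ℂ)} (p : ℂ) {B : SL(2, ℂ)} (hB : cls B ∈ S) :
    cls (T (-p) * B * T p) ∈ cj (t p) S := by
  rw [mem_shift, shk_T]
  exact hB

private theorem shk_c (p : ℂ) (B : SL(2, ℂ)) : (T (-p) * B * T p).1 1 0 = B.1 1 0 := by
  have h := (shift_c (-p) B).1
  rwa [neg_neg] at h

private theorem shk_gen {p : ℂ} (h : NGen Γ (t 1)) : NGen (cj (t p) Γ) (t 1) := by
  intro x hx
  have key : ∀ y ∈ Subgroup.closure {x | ∃ γ ∈ Γ, x = γ * t 1 * γ⁻¹},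
      (t p)⁻¹ * y * t p ∈ Subgroup.closure {x | ∃ γ ∈ cj (t p) Γ, x = γ * t 1 * γ⁻¹} := by
    intro y hy
    refine Subgroup.closure_induction (p := fun y _ => (t p)⁻¹ * y * t p ∈
      Subgroup.closure {x | ∃ γ ∈ cj (t p) Γ, x = γ * t 1 * γ⁻¹}) ?_ ?_ ?_ ?_ hy
    · rintro _ ⟨γ, hγ, rfl⟩
      refine Subgroup.subset_closure ⟨(t p)⁻¹ * γ * t p, mem_cj' hγ, ?_⟩
      have h1 := shk_conj p 1
      calc (t p)⁻¹ * (γ * t 1 * γ⁻¹) * t p
          = (t p)⁻¹ * (γ * (t p * t 1 * (t p)⁻¹) * γ⁻¹) * t p := by rw [h1]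
        _ = (t p)⁻¹ * γ * t p * t 1 * ((t p)⁻¹ * γ * t p)⁻¹ := by group
    · have h1 : (t p)⁻¹ * 1 * t p = 1 := by group
      show (t p)⁻¹ * 1 * t p ∈ _
      rw [h1]
      exact Subgroup.one_mem _
    · intro y z _ _ hy hz
      have h1 : (t p)⁻¹ * (y * z) * t p = ((t p)⁻¹ * y * t p) * ((t p)⁻¹ * z * t p) := by group
      rw [h1]
      exact Subgroup.mul_mem _ hy hz
    · intro y _ hy
      have h1 : (t p)⁻¹ * y⁻¹ * t p = ((t p)⁻¹ * y * t p)⁻¹ := by group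
      rw [h1]
      exact Subgroup.inv_mem _ hy
  have h3 := key _ (h (mem_cj.1 hx))
  have h4 : (t p)⁻¹ * (t p * x * (t p)⁻¹) * t p = x := by group
  rwa [h4] at h3

theorem NL.shift (h : NL Γ Δ w) (p : ℂ) : NL (cj (t p) Γ) (cj (t p) Δ) w where
  w2 := h.w2
  le := Subgroup.comap_mono h.le
  one := (shk_t p 1).2 h.one
  gen := shk_gen h.gen
  lat := fun β hβ => (shk_t p β).2 (h.lat β hβ)
  up := by
    intro A hA hc
    have h1 := (shift_c p A).1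
    rw [hc] at h1
    have h2 := h.up _ (mem_shift.1 hA) h1
    have h3 : (T p * A * T (-p)).1 0 0 = A.1 0 0 := by
      rw [mul_T_coe, T_mul_coe]
      simp [hc]
    rwa [h3] at h2
  cusp := by
    intro A hA
    obtain ⟨B, hB, hB0⟩ := h.cusp _ (mem_shift.1 hA)
    refine ⟨T (-p) * B * T p, shk_mem p hB, ?_⟩
    have h1 : T (-p) * B * T p * A = T (-p) * (B * (T p * A * T (-p))) * T p := by
      rw [T_neg]
      group
    rw [h1, shk_c]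
    exact hB0
  fin := by
    intro R
    refine (h.fin R).subset ?_
    rintro x ⟨hx, A, hA, hAx⟩
    refine ⟨hx, T p * A * T (-p), mem_shift.1 hA, ?_⟩
    rw [(shift_c p A).1]
    exact hAx
  ex := by
    obtain ⟨A, hA, hA0⟩ := h.ex
    refine ⟨T (-p) * A * T p, shk_mem p hA, ?_⟩
    rw [shk_c]
    exact hA0
  rot := by
    obtain ⟨U, hU, hU0, hU1⟩ := h.rot
    refine ⟨T (-p) * U * T p, shk_mem p hU, ?_, ?_⟩
    · rw [shk_c]
      exact hU0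
    · have h3 : (T (-p) * U * T p).1 0 0 = U.1 0 0 := by
        rw [mul_T_coe, T_mul_coe]
        simp [hU0]
      rw [h3]
      exact hU1

private theorem Shf_conj (A : SL(2, ℂ)) : (A * T 1 * A⁻¹).1 1 0 = -(A.1 1 0) ^ 2 := by
  have h1 : (A * T 1 * A⁻¹).1 = A.1 * (T 1).1 * A.1.adjugate := by
    rw [Matrix.SpecialLinearGroup.coe_mul, Matrix.SpecialLinearGroup.coe_mul,
      Matrix.SpecialLinearGroup.coe_inv]
  rw [h1, T_coe, Matrix.adjugate_fin_two]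
  simp only [Matrix.mul_apply, Fin.sum_univ_two, Matrix.of_apply, Matrix.cons_val', Matrix.cons_val_zero,
    Matrix.cons_val_one, Matrix.cons_val_fin_one]
  ring

private theorem Shf_mul {A B : SL(2, ℂ)} (hA : cls A ∈ Δ) (hB : cls B ∈ Δ) : cls (A * B) ∈ Δ := by
  rw [cls_mul]
  exact Δ.mul_mem hA hB

private theorem Shf_seq (h : NL Γ Δ w) {A : SL(2, ℂ)} (hA : cls A ∈ Δ) (k : ℕ) :
    ∃ B : SL(2, ℂ), cls B ∈ Δ ∧ Complex.normSq (B.1 1 0) = Complex.normSq (A.1 1 0) ^ (2 ^ k) := by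
  induction k with
  | zero => exact ⟨A, hA, by simp⟩
  | succ k ih =>
    obtain ⟨B, hB, hB1⟩ := ih
    refine ⟨B * T 1 * B⁻¹, ?_, ?_⟩
    · rw [cls_mul, cls_mul, cls_inv]
      exact Δ.mul_mem (Δ.mul_mem hB (h.le h.one)) (Δ.inv_mem hB)
    · rw [Shf_conj, Complex.normSq_neg, map_pow, hB1, ← pow_mul, pow_succ]

theorem NL.shimizu (h : NL Γ Δ w) {A : SL(2, ℂ)} (hA : cls A ∈ Δ) (h0 : A.1 1 0 ≠ 0) : 1 ≤ Complex.normSq (A.1 1 0) := by
  by_contra hlt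
  rw [not_le] at hlt
  have hpos : 0 < Complex.normSq (A.1 1 0) := Complex.normSq_pos.2 h0
  have h1 : Function.Injective fun k : ℕ => Complex.normSq (A.1 1 0) ^ (2 ^ k) := by
    intro i j hij
    have h2 := (pow_right_strictAnti₀ hpos hlt).injective hij
    exact Nat.pow_right_injective le_rfl h2
  refine Set.infinite_of_injective_forall_mem h1 (s := {x : ℝ | x ≤ 1 ∧ ∃ A : SL(2, ℂ), cls A ∈ Δ ∧
    Complex.normSq (A.1 1 0) = x}) (fun k => ⟨pow_le_one₀ hpos.le hlt.le, ?_⟩) (h.fin 1)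
  exact Shf_seq h hA k

theorem NL.exists_min (h : NL Γ Δ w) : ∃ A : SL(2, ℂ), cls A ∈ Δ ∧ A.1 1 0 ≠ 0 ∧
    ∀ B : SL(2, ℂ), cls B ∈ Δ → B.1 1 0 ≠ 0 → Complex.normSq (A.1 1 0) ≤ Complex.normSq (B.1 1 0) := by
  obtain ⟨A₀, hA₀, h₀⟩ := h.ex
  have hfin : {x : ℝ | (x ≤ Complex.normSq (A₀.1 1 0) ∧ ∃ A : SL(2, ℂ), cls A ∈ Δ ∧
      Complex.normSq (A.1 1 0) = x) ∧ 0 < x}.Finite :=
    (h.fin (Complex.normSq (A₀.1 1 0))).subset fun x hx => hx.1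
  obtain ⟨x, ⟨⟨hx1, A, hA, hAx⟩, hx2⟩, hmin⟩ := Set.exists_min_image _ (fun x : ℝ => x) hfin
    ⟨Complex.normSq (A₀.1 1 0), ⟨le_rfl, A₀, hA₀, rfl⟩, Complex.normSq_pos.2 h₀⟩
  refine ⟨A, hA, ?_, fun B hB hB0 => ?_⟩
  · rw [← hAx] at hx2
    exact Complex.normSq_pos.1 hx2
  · rw [hAx]
    rcases le_total (Complex.normSq (B.1 1 0)) (Complex.normSq (A₀.1 1 0)) with h1 | h1
    · exact hmin _ ⟨⟨h1, B, hB, rfl⟩, Complex.normSq_pos.2 hB0⟩
    · exact hx1.trans h1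

theorem NL.descent (h : NL Γ Δ w) (P : SL(2, ℂ) → Prop) (hup : ∀ A, cls A ∈ Δ → A.1 1 0 = 0 → P A)
    (hstep : ∀ A, cls A ∈ Δ → A.1 1 0 ≠ 0 → ∃ B, cls B ∈ Δ ∧ Complex.normSq ((A * B).1 1 0) < Complex.normSq (A.1 1 0) ∧ (P (A * B) → P A)) :
    ∀ A, cls A ∈ Δ → P A := by
  have key : ∀ (n : ℕ) (A : SL(2, ℂ)), cls A ∈ Δ →
      {x : ℝ | x < Complex.normSq (A.1 1 0) ∧ ∃ B : SL(2, ℂ), cls B ∈ Δ ∧ Complex.normSq (B.1 1 0) = x}.ncard = n →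
      P A := by
    intro n
    induction n using Nat.strong_induction_on with
    | _ n ih =>
      intro A hA hn
      by_cases h0 : A.1 1 0 = 0
      · exact hup A hA h0
      obtain ⟨B, hB, hlt, hP⟩ := hstep A hA h0
      refine hP (ih _ ?_ (A * B) (Shf_mul hA hB) rfl)
      rw [← hn]
      refine Set.ncard_lt_ncard ?_ ?_
      · refine ⟨fun x hx => ⟨hx.1.trans hlt, hx.2⟩, fun hsub => ?_⟩
        have h1 := hsub (a := Complex.normSq ((A * B).1 1 0)) ⟨hlt, A * B, Shf_mul hA hB, rfl⟩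
        exact lt_irrefl _ h1.1
      · exact (h.fin (Complex.normSq (A.1 1 0))).subset fun x hx => ⟨hx.1.le, hx.2⟩
  exact fun A hA => key _ A hA rfl

end Pool.Agent.HSI
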