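import Pool.Agent.HSI.Tql

/-!
# HSI/Nlm: if the translations of `Δ` are not the Eisenstein integers, then the meridian is long

`nlm_L`: the additive group of the translations of `Δ`; it is a module over `Oz w`.
`nlm_shim`: the lemma of Shimizu for a translation `t l` of `Δ`.
`nlm_min`: the translations are the multiples of a shortest one.
`nlm_div`: an Eisenstein integer of norm `3` is divisible by `1 - w`.
`nlm_nu`: the normal form with minimal entry `√3`, which is impossible (`NU.false`).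
-/

set_option autoImplicit false

noncomputable section

namespace Pool.Agent.HSI

open Pool.Agent.HSK Pool.Agent.HSG Matrix
open scoped MatrixGroups commutatorElement

variable {Γ Δ : Subgroup PSL(2, ℂ)} {w : ℂ}

private theorem nlm_conj (A : SL(2, ℂ)) (l : ℂ) : (A * T l * A⁻¹).1 1 0 = -(l * (A.1 1 0) ^ 2) := by
  have h1 : (A * T l * A⁻¹).1 = A.1 * (T l).1 * A.1.adjugate := by
    rw [Matrix.SpecialLinearGroup.coe_mul, Matrix.SpecialLinearGroup.coe_mul,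
      Matrix.SpecialLinearGroup.coe_inv]
  rw [h1, T_coe, Matrix.adjugate_fin_two]
  simp only [Matrix.mul_apply, Fin.sum_univ_two, Matrix.of_apply, Matrix.cons_val', Matrix.cons_val_zero,
    Matrix.cons_val_one, Matrix.cons_val_fin_one]
  ring

private theorem nlm_conj_mem {A : SL(2, ℂ)} {l : ℂ} (hl : t l ∈ Δ) (hA : cls A ∈ Δ) :
    cls (A * T l * A⁻¹) ∈ Δ := by
  rw [cls_mul, cls_mul, cls_inv]
  exact Δ.mul_mem (Δ.mul_mem hA hl) (Δ.inv_mem hA)

/-- the translations of `Δ` -/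
private def nlm_L (Δ : Subgroup PSL(2, ℂ)) : AddSubgroup ℂ where
  carrier := {β | t β ∈ Δ}
  zero_mem' := by
    have h : t 0 = 1 := by
      have h1 := t_add 0 0
      rw [add_zero] at h1
      exact (left_eq_mul.1 h1)
    show t 0 ∈ Δ
    rw [h]
    exact Δ.one_mem
  add_mem' := by
    intro a b ha hb
    show t (a + b) ∈ Δ
    rw [t_add]
    exact Δ.mul_mem ha hb
  neg_mem' := by
    intro a ha
    show t (-a) ∈ Δ
    rw [t_neg]
    exact Δ.inv_mem ha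

private theorem nlm_w (h : NL Γ Δ w) {β : ℂ} (hβ : β ∈ nlm_L Δ) : w * β ∈ nlm_L Δ := by
  obtain ⟨U, hU, hU0, hU1⟩ := h.rot
  have h1 := cls_mul_up hU0 β
  rw [hU1] at h1
  show t (w * β) ∈ Δ
  rw [← h1]
  exact Δ.mul_mem (Δ.mul_mem hU hβ) (Δ.inv_mem hU)

private theorem nlm_mul (h : NL Γ Δ w) {α β : ℂ} (hα : α ∈ Oz w) (hβ : β ∈ nlm_L Δ) :
    α * β ∈ nlm_L Δ := by
  obtain ⟨x, y, rfl⟩ := hα
  have h1 : ((x : ℂ) + y * w) * β = x • β + y • (w * β) := by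
    rw [zsmul_eq_mul, zsmul_eq_mul]
    ring
  rw [h1]
  exact (nlm_L Δ).add_mem ((nlm_L Δ).zsmul_mem hβ x) ((nlm_L Δ).zsmul_mem (nlm_w h hβ) y)

private theorem nlm_seq {A : SL(2, ℂ)} {l : ℂ} (hl : t l ∈ Δ) (hA : cls A ∈ Δ) (k : ℕ) :
    ∃ B : SL(2, ℂ), cls B ∈ Δ ∧ Complex.normSq l * Complex.normSq (B.1 1 0) =
      (Complex.normSq l * Complex.normSq (A.1 1 0)) ^ (2 ^ k) := by
  induction k with
  | zero => exact ⟨A, hA, by simp⟩
  | succ k ih =>
    obtain ⟨B, hB, hB1⟩ := ih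
    refine ⟨B * T l * B⁻¹, nlm_conj_mem hl hB, ?_⟩
    have e : (Complex.normSq l * Complex.normSq (A.1 1 0)) ^ (2 ^ (k + 1)) =
        ((Complex.normSq l * Complex.normSq (A.1 1 0)) ^ (2 ^ k)) ^ 2 := by
      rw [← pow_mul, ← pow_succ]
    rw [nlm_conj, Complex.normSq_neg, map_mul, map_pow, e, ← hB1]
    ring

/-- the lemma of Shimizu for the translation by `l` -/
private theorem nlm_shim (h : NL Γ Δ w) {A : SL(2, ℂ)} {l : ℂ} (hl : t l ∈ Δ) (hl0 : l ≠ 0)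
    (hA : cls A ∈ Δ) (h0 : A.1 1 0 ≠ 0) : 1 ≤ Complex.normSq l * Complex.normSq (A.1 1 0) := by
  by_contra hlt
  rw [not_le] at hlt
  have hlp : 0 < Complex.normSq l := Complex.normSq_pos.2 hl0
  have hpos : 0 < Complex.normSq l * Complex.normSq (A.1 1 0) :=
    mul_pos hlp (Complex.normSq_pos.2 h0)
  have h1 : Function.Injective fun k : ℕ =>
      (Complex.normSq l * Complex.normSq (A.1 1 0)) ^ (2 ^ k) / Complex.normSq l := by
    intro i j hij
    have h2 := (div_left_inj' hlp.ne').1 hij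
    have h3 := (pow_right_strictAnti₀ hpos hlt).injective h2
    exact Nat.pow_right_injective le_rfl h3
  refine Set.infinite_of_injective_forall_mem h1 (s := {x : ℝ | x ≤ 1 / Complex.normSq l ∧
    ∃ A : SL(2, ℂ), cls A ∈ Δ ∧ Complex.normSq (A.1 1 0) = x}) (fun k => ⟨?_, ?_⟩)
    (h.fin (1 / Complex.normSq l))
  · exact div_le_div_of_nonneg_right (pow_le_one₀ hpos.le hlt.le) hlp.le
  · obtain ⟨B, hB, hB1⟩ := nlm_seq hl hA k
    refine ⟨B, hB, ?_⟩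
    rw [← hB1, mul_div_cancel_left₀ _ hlp.ne']

/-- a shortest translation -/
private theorem nlm_short (h : NL Γ Δ w) : ∃ l : ℂ, l ∈ nlm_L Δ ∧ l ≠ 0 ∧
    ∀ l' : ℂ, l' ∈ nlm_L Δ → l' ≠ 0 → Complex.normSq l ≤ Complex.normSq l' := by
  obtain ⟨A, hA, hA0⟩ := h.ex
  have hc : 0 < Complex.normSq (A.1 1 0) := Complex.normSq_pos.2 hA0
  have hfin : {x : ℝ | ∃ l : ℂ, l ∈ nlm_L Δ ∧ l ≠ 0 ∧ Complex.normSq l ≤ 1 ∧
      Complex.normSq l = x}.Finite := by
    refine ((h.fin (Complex.normSq (A.1 1 0) ^ 2)).image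
      fun x => x / Complex.normSq (A.1 1 0) ^ 2).subset ?_
    rintro x ⟨l, hl, -, hl1, rfl⟩
    refine ⟨Complex.normSq l * Complex.normSq (A.1 1 0) ^ 2, ⟨?_, A * T l * A⁻¹,
      nlm_conj_mem hl hA, ?_⟩, ?_⟩
    · exact mul_le_of_le_one_left (pow_pos hc 2).le hl1
    · rw [nlm_conj, Complex.normSq_neg, map_mul, map_pow]
    · exact mul_div_cancel_right₀ _ (pow_pos hc 2).ne'
  have h1 : (1 : ℂ) ∈ nlm_L Δ := h.lat 1 oz_one
  obtain ⟨x, ⟨l, hl, hl0, hl1, hlx⟩, hmin⟩ := Set.exists_min_image _ (fun x : ℝ => x) hfin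
    ⟨1, 1, h1, one_ne_zero, by rw [map_one], by rw [map_one]⟩
  refine ⟨l, hl, hl0, fun l' hl' hl0' => ?_⟩
  rcases le_total (Complex.normSq l') 1 with h2 | h2
  · rw [hlx]
    exact hmin _ ⟨l', hl', hl0', h2, rfl⟩
  · exact hl1.trans h2

/-- the translations are the multiples of a shortest one -/
private theorem nlm_min (h : NL Γ Δ w) : ∃ l : ℂ, l ∈ nlm_L Δ ∧ l ≠ 0 ∧
    ∀ β : ℂ, β ∈ nlm_L Δ → ∃ α ∈ Oz w, β = α * l := by
  obtain ⟨l, hl, hl0, hmin⟩ := nlm_short h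
  refine ⟨l, hl, hl0, fun β hβ => ?_⟩
  obtain ⟨α, hα, hn⟩ := oz_near h.w2 (β / l)
  refine ⟨α, hα, ?_⟩
  by_contra hne
  have h1 : β - α * l ≠ 0 := sub_ne_zero.2 hne
  have h2 := hmin _ ((nlm_L Δ).sub_mem hβ (nlm_mul h hα hl)) h1
  have h3 : β - α * l = (β / l - α) * l := by
    field_simp
  have hlp : 0 < Complex.normSq l := Complex.normSq_pos.2 hl0
  rw [h3, map_mul] at h2
  have h4 : Complex.normSq (β / l - α) * Complex.normSq l ≤ 1 / 3 * Complex.normSq l :=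
    mul_le_mul_of_nonneg_right hn hlp.le
  linarith

/-- an Eisenstein integer of norm `3` is divisible by `1 - w` -/
private theorem nlm_div (hw : w ^ 2 + w + 1 = 0) {ν : ℂ} (hν : ν ∈ Oz w)
    (hn : Complex.normSq ν = 3) : ∃ μ ∈ Oz w, ν = (1 - w) * μ := by
  obtain ⟨a, b, rfl⟩ := hν
  rw [oz_norm hw] at hn
  have h1 : a ^ 2 - a * b + b ^ 2 = 3 := by exact_mod_cast hn
  have h2 : (3 : ℤ) ∣ (a + b) ^ 2 := ⟨1 + a * b, by linear_combination h1⟩
  have h3 : (3 : ℤ) ∣ a + b := Int.prime_three.dvd_of_dvd_pow h2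
  obtain ⟨d, hd⟩ := h3
  refine ⟨((a - d : ℤ) : ℂ) + (d : ℤ) * w, ⟨a - d, d, rfl⟩, ?_⟩
  have h4 : (a : ℂ) + b = 3 * d := by exact_mod_cast hd
  push_cast
  linear_combination w * h4 + (d : ℂ) * hw

private theorem nlm_T (p : ℂ) (B : SL(2, ℂ)) : T p * (T (-p) * B * T p) * T (-p) = B := by
  rw [T_neg]
  group

/-- the normal form with minimal entry `√3` -/
private theorem nlm_nu (h : NL Γ Δ w)
    (hmin : ∀ A : SL(2, ℂ), cls A ∈ Δ → A.1 1 0 ≠ 0 → 3 ≤ Complex.normSq (A.1 1 0))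
    (hdiv : ∀ β ∈ Oz w, t (β / (1 - w)) ∈ Δ) {A₀ : SL(2, ℂ)} (hA₀ : cls A₀ ∈ Δ)
    (h3 : Complex.normSq (A₀.1 1 0) = 3) : NU (cj (t (pt A₀)) Γ) (cj (t (pt A₀)) Δ) w := by
  have hw := h.w2
  have hl : 1 - w ≠ 0 := by
    intro h0
    have h1 : w = 1 := (sub_eq_zero.1 h0).symm
    rw [h1] at hw
    norm_num at hw
  have hA0 : A₀.1 1 0 ≠ 0 := by
    intro h0
    rw [h0, map_zero] at h3
    norm_num at h3
  have hT : ∀ β ∈ Oz w, cls (T (β / (1 - w)) * A₀) ∈ Δ ∧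
      (T (β / (1 - w)) * A₀).1 1 0 = A₀.1 1 0 := by
    intro β hβ
    refine ⟨?_, ?_⟩
    · rw [cls_mul]
      exact Δ.mul_mem (hdiv β hβ) hA₀
    · rw [T_mul_coe]
      rfl
  refine ⟨h.shift (pt A₀), ?_, ?_, ?_⟩
  · intro A hA h0
    have h1 := (shift_c (pt A₀) A).1
    rw [← h1] at h0 ⊢
    exact hmin _ (mem_shift.1 hA) h0
  · intro A hA hn
    have h0 : A.1 1 0 ≠ 0 := by
      intro h0
      rw [h0, map_zero] at hn
      norm_num at hn
    obtain ⟨h1, h2⟩ := shift_c (pt A₀) A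
    have h2 := h2 h0
    have hA' := mem_shift.1 hA
    obtain ⟨A', hA'e⟩ : ∃ A', A' = T (pt A₀) * A * T (-(pt A₀)) := ⟨_, rfl⟩
    rw [← hA'e] at h1 h2 hA'
    obtain ⟨β, hβ, hb⟩ := oz_near3 hw (pt A' - pt A₀)
    obtain ⟨m1, m2⟩ := hT β hβ
    have hB0 : (T (β / (1 - w)) * A₀).1 1 0 ≠ 0 := by
      rw [m2]
      exact hA0
    have hA'0 : A'.1 1 0 ≠ 0 := by
      rw [h1]
      exact h0
    have h4 := c_inv_mul hA'0 hB0
    rw [m2, pt_T _ hA0] at h4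
    have h5 : cls (A'⁻¹ * (T (β / (1 - w)) * A₀)) ∈ Δ := by
      rw [cls_mul, cls_inv]
      exact Δ.mul_mem (Δ.inv_mem hA') m1
    have h6 : (A'⁻¹ * (T (β / (1 - w)) * A₀)).1 1 0 = 0 := by
      by_contra hne
      have h7 := hmin _ h5 hne
      rw [h4, map_mul, map_mul, h1, hn, h3] at h7
      have h8 : pt A' - (pt A₀ + β / (1 - w)) = pt A' - pt A₀ - β / (1 - w) := by ring
      rw [h8] at h7
      linarith
    rw [h6] at h4
    have h7 : pt A' - (pt A₀ + β / (1 - w)) = 0 :=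
      (mul_eq_zero.1 h4.symm).resolve_left (mul_ne_zero hA'0 hA0)
    have h8 : pt A = β / (1 - w) := by linear_combination h7 - h2
    rw [h8, mul_div_cancel₀ _ hl]
    exact hβ
  · intro β hβ
    obtain ⟨m1, m2⟩ := hT β hβ
    have hB0 : (T (β / (1 - w)) * A₀).1 1 0 ≠ 0 := by
      rw [m2]
      exact hA0
    obtain ⟨s1, s2⟩ := shift_c (-(pt A₀)) (T (β / (1 - w)) * A₀)
    rw [neg_neg] at s1 s2
    refine ⟨T (-(pt A₀)) * (T (β / (1 - w)) * A₀) * T (pt A₀), ?_, ?_, ?_⟩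
    · rw [mem_shift, nlm_T]
      exact m1
    · rw [s1, m2, h3]
    · rw [s2 hB0, pt_T _ hA0]
      field_simp
      ring

theorem NL.long (h : NL Γ Δ w) (hb : ∃ β, t β ∈ Δ ∧ β ∉ Oz w)
    (hr : ∃ A : SL(2, ℂ), cls A ∈ Δ ∧ A.1 1 0 ≠ 0 ∧ Complex.normSq (A.1 1 0) ≤ 3) : False := by
  have hw := h.w2
  obtain ⟨l, hl, hl0, hmul⟩ := nlm_min h
  obtain ⟨ν, hν, h1⟩ := hmul 1 (h.lat 1 oz_one)
  have hν0 : ν ≠ 0 := by
    rintro rfl
    rw [zero_mul] at h1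
    exact one_ne_zero h1
  have hn := congrArg Complex.normSq h1
  rw [map_one, map_mul] at hn
  have hνp : 0 < Complex.normSq ν := Complex.normSq_pos.2 hν0
  have hν1 : Complex.normSq ν ≠ 1 := by
    intro hone
    have h6 := oz_unit hw hν hone
    have h7 : l = ν ^ 5 := by
      linear_combination (-l) * h6 + ν ^ 5 * (-h1)
    obtain ⟨β, hβ, hβo⟩ := hb
    obtain ⟨α, hα, h8⟩ := hmul β hβ
    apply hβo
    rw [h8, h7]
    exact oz_mul hw hα (oz_pow hw hν 5)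
  have hν3 : 3 ≤ Complex.normSq ν :=
    oz_three hw hν (lt_of_le_of_ne (oz_one_le hw hν hν0) (Ne.symm hν1))
  have key : ∀ A : SL(2, ℂ), cls A ∈ Δ → A.1 1 0 ≠ 0 → Complex.normSq ν ≤ Complex.normSq (A.1 1 0) := by
    intro A hA h0
    have h2 := nlm_shim h hl hl0 hA h0
    calc Complex.normSq ν = Complex.normSq ν * 1 := (mul_one _).symm
      _ ≤ Complex.normSq ν * (Complex.normSq l * Complex.normSq (A.1 1 0)) :=
        mul_le_mul_of_nonneg_left h2 hνp.le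
      _ = Complex.normSq (A.1 1 0) := by rw [← mul_assoc, ← hn, one_mul]
  obtain ⟨A₀, hA₀, h0, hle⟩ := hr
  have hk := key A₀ hA₀ h0
  have hν3' : Complex.normSq ν = 3 := le_antisymm (hk.trans hle) hν3
  have h3 : Complex.normSq (A₀.1 1 0) = 3 := le_antisymm hle (hν3.trans hk)
  obtain ⟨μ, hμ, hμ1⟩ := nlm_div hw hν hν3'
  have hl' : 1 - w ≠ 0 := by
    intro h0
    rw [h0, zero_mul] at hμ1
    exact hν0 hμ1
  refine (nlm_nu h (fun A hA h0 => hν3.trans (key A hA h0)) ?_ hA₀ h3).false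
  intro β hβ
  have h4 : β / (1 - w) = β * (μ * l) := by
    rw [div_eq_iff hl']
    linear_combination β * h1 + β * l * hμ1
  rw [h4]
  exact nlm_mul h hβ (nlm_mul h hμ hl)

end Pool.Agent.HSI
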