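import Pool.Agent.HSI.Nlm
import Pool.Agent.HSC.Nfk

/-!
# HSI/Nln: a short meridian generates

PROOF PLAN.  `nl_of`: as `nk_of` in HSC/Nfk (only the direction `Oz w ⊆ Λ` of `lat`: `1 ∈ Λ` and `w = z` or `z ^ 2` times it, `ND.mult`; no hypothesis `MeridianGenerates`).  `lat'`: if all `β` with `t β ∈ cj (cls P) Δ` are in `Oz w` then `MeridianGenerates Δ μ`: `x ∈ Δ` commuting with
`μ` is `cls P * t β * (cls P)⁻¹` (`comm_t1`), `β = a + b w`, `t β = t 1 ^ a * t w ^ b`, and `t w = U t 1 U⁻¹` for the element `U` of `rot`; so `x` is a product of powers of `μ` and of `δ μ δ⁻¹`, `δ = cls P * cls U * (cls P)⁻¹`.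
`mg_of_short`: by contradiction, `NL.long`; the element of `hr` is `D = P⁻¹ δ P` as in HSC/Fnk: `A * B` is conjugate to `T 1 * D * T 1 * D⁻¹`, of trace `2 - (D.1 1 0) ^ 2`.
-/

set_option autoImplicit false

noncomputable section

namespace Pool.Agent.HSI

open Pool.Agent.HSK Pool.Agent.HSG Matrix
open scoped MatrixGroups commutatorElement

open Pool.Agent.HSC

variable {Γ Δ : Subgroup PSL(2, ℂ)} {μ : PSL(2, ℂ)}

private theorem nln_rot {U : SL(2, ℂ)} {w : ℂ} (h0 : U.1 1 0 = 0) (h1 : U.1 0 0 ^ 2 = w) : cls U * t 1 * (cls U)⁻¹ = t w := by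
  have hd := up_mul h0
  have h2 : U * T 1 = T w * U := by
    apply Subtype.ext
    have e1 : (U * T 1).1 1 0 = (T w * U).1 1 0 := by
      rw [nf_e10, nf_e10, nf_t00, nf_t10, nf_t10, nf_t11, h0]
      ring
    have e2 : (U * T 1).1 0 0 = (T w * U).1 0 0 := by
      rw [nf_e00, nf_e00, nf_t00, nf_t10, nf_t00, nf_t01, h0]
      ring
    have e3 : (U * T 1).1 1 1 = (T w * U).1 1 1 := by
      rw [nf_e11, nf_e11, nf_t01, nf_t11, nf_t10, nf_t11, h0]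
      ring
    have e4 : (U * T 1).1 0 1 = (T w * U).1 0 1 := by
      rw [Matrix.SpecialLinearGroup.coe_mul, Matrix.SpecialLinearGroup.coe_mul, Matrix.mul_apply, Matrix.mul_apply,
        Fin.sum_univ_two, Fin.sum_univ_two, nf_t01, nf_t11, nf_t00, nf_t01, ← h1]
      linear_combination (-(U.1 0 0)) * hd
    ext i j
    fin_cases i <;> fin_cases j
    · exact e2
    · exact e4
    · exact e1
    · exact e3
  have h3 : cls U * t 1 = t w * cls U := by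
    show cls (U * T 1) = cls (T w * U)
    rw [h2]
  rw [h3]
  group

private theorem nln_mg {P U : SL(2, ℂ)} {w : ℂ} (hp : cls P * t 1 * (cls P)⁻¹ = μ) (hU : cls U ∈ cj (cls P) Δ)
    (h0 : U.1 1 0 = 0) (h1 : U.1 0 0 ^ 2 = w) (hz : ∀ β, t β ∈ cj (cls P) Δ → β ∈ Oz w) : MeridianGenerates Δ μ := by
  intro g hg hgc
  set K := Subgroup.closure {x | (∃ δ ∈ Δ, x = δ * μ * δ⁻¹) ∧ Commute x μ} with hK
  have hone : (1 : ℂ) ∈ Lt (cj (cls P) K) := by
    show cls P * t 1 * (cls P)⁻¹ ∈ K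
    rw [hp]
    refine Subgroup.subset_closure ⟨⟨1, Δ.one_mem, by group⟩, Commute.refl _⟩
  have hw : w ∈ Lt (cj (cls P) K) := by
    show cls P * t w * (cls P)⁻¹ ∈ K
    refine Subgroup.subset_closure ⟨⟨cls P * cls U * (cls P)⁻¹, mem_cj.1 hU, ?_⟩, ?_⟩
    · rw [← nln_rot h0 h1, ← hp]
      group
    · rw [← hp]
      exact comm_conj_iff.2 (t_comm _ _)
  obtain ⟨C, hC⟩ := cls_surj ((cls P)⁻¹ * g * cls P)
  have hC1 : cls P * cls C * (cls P)⁻¹ = g := by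
    rw [hC]
    group
  have hCc : Commute (cls C) (t 1) := by
    rw [← comm_conj_iff (p := cls P), hC1, hp]
    exact hgc
  obtain ⟨β, hβ⟩ := comm_t1 hCc
  have hβΔ : t β ∈ cj (cls P) Δ := by
    rw [← hβ, mem_cj, hC1]
    exact hg
  obtain ⟨x, y, rfl⟩ := hz β hβΔ
  have h3 : (x : ℂ) + y * w ∈ Lt (cj (cls P) K) := by
    refine (Lt (cj (cls P) K)).add_mem ?_ ?_
    · have h3 := (Lt (cj (cls P) K)).zsmul_mem hone x
      rwa [zsmul_eq_mul, mul_one] at h3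
    · have h3 := (Lt (cj (cls P) K)).zsmul_mem hw y
      rwa [zsmul_eq_mul] at h3
  have h4 : cls P * t ((x : ℂ) + y * w) * (cls P)⁻¹ ∈ K := h3
  rw [← hβ, hC1] at h4
  exact h4

private theorem Fn_tr_mul (A B : SL(2, ℂ)) : (A * B).1.trace = (B * A).1.trace := by
  rw [Matrix.SpecialLinearGroup.coe_mul, Matrix.SpecialLinearGroup.coe_mul, Matrix.trace_mul_comm]

private theorem Fn_tr_conj (P A : SL(2, ℂ)) : (P * A * P⁻¹).1.trace = A.1.trace := by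
  rw [Fn_tr_mul, inv_mul_cancel_left]

private theorem Fn_T1 : (T 1).1.trace = 2 := by
  rw [Matrix.trace_fin_two, nf_t00, nf_t11]
  norm_num

private theorem Fn_eq {A B : SL(2, ℂ)} (h : cls A = cls B) (hA : A.1.trace = 2) (hB : B.1.trace = 2) : A = B := by
  rcases cls_eq.1 h with h1 | h1
  · exact Subtype.ext h1
  · rw [h1, Matrix.trace_neg, hB] at hA
    norm_num at hA

private theorem Fn_tr (D : SL(2, ℂ)) : (T 1 * (D * T 1 * D⁻¹)).1.trace = 2 - D.1 1 0 ^ 2 := by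
  have hd := det_eq D
  have e01 : ∀ A B : SL(2, ℂ), (A * B).1 0 1 = A.1 0 0 * B.1 0 1 + A.1 0 1 * B.1 1 1 := by
    intro A B
    rw [Matrix.SpecialLinearGroup.coe_mul, Matrix.mul_apply, Fin.sum_univ_two]
  have i01 : (D⁻¹).1 0 1 = -D.1 0 1 := by
    rw [inv_coe]
    simp
  simp only [Matrix.trace_fin_two, nf_e00, nf_e10, nf_e11, e01, nf_i00, nf_i10, nf_i11, i01, nf_t00, nf_t01, nf_t10, nf_t11]
  linear_combination 2 * hd

theorem nl_of (hΓ : IsKnotGroup Γ μ) (h1 : Γ ≤ Δ) (h2 : Δ ≤ Subgroup.Commensurable.commensurator Γ)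
    (hd : DiscreteTopology Δ) (hn : ¬ Δ ≤ Subgroup.normalizer (Γ : Set PSL(2, ℂ))) {P : SL(2, ℂ)} (hp : cls P * t 1 * (cls P)⁻¹ = μ)
    {n : ℕ} (hn0 : 0 < n) (hc : IsCuspOrder Δ μ n) (hn4 : n ≠ 4) :
    ∃ w : ℂ, NL (cj (cls P) Γ) (cj (cls P) Δ) w ∧
      ((∀ β, t β ∈ cj (cls P) Δ → β ∈ Oz w) → MeridianGenerates Δ μ) := by
  have h := nd_of hΓ h1 h2 hd hn hp
  obtain ⟨z, n', hz, hzj, hz1, htype⟩ := h.type
  obtain ⟨hn346, hprim⟩ := type_prim htype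
  have hzne1 : z ≠ 1 := by
    rintro rfl
    rcases htype with ⟨-, h3⟩ | ⟨-, h3⟩ | ⟨-, h3⟩ <;> norm_num at h3
  have hzne2 : z ≠ -1 := by
    rintro rfl
    rcases htype with ⟨-, h3⟩ | ⟨-, h3⟩ | ⟨-, h3⟩ <;> norm_num at h3
  have hn0' : 0 < n' := by omega
  have hn1' : 1 < n' := by omega
  have hco := cuspOrder_cj hp (h.cuspOrder hn0' hz hzj hz1 hprim.pow_eq_one (fun h0 => hz1 1 one_pos hn1' (by rw [pow_one, h0])))
  have hnn : n' = n := cuspOrder_unique ⟨P, hp⟩ hn0' hn0 hco hc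
  subst hnn
  have hzz : z * z ∈ Mu (cj (cls P) Δ) := mu_mul hz hz
  have hz5 : z ^ 5 ∈ Mu (cj (cls P) Δ) := by
    have h3 := mu_mul (mu_mul hzz hzz) hz
    have h4 : z * z * (z * z) * z = z ^ 5 := by ring
    rwa [h4] at h3
  obtain ⟨w, e, hw, hze, hwM, hw3, hw6⟩ : ∃ (w : ℂ) (e : ℤ), w ^ 2 + w + 1 = 0 ∧ z = w + e ∧ w ∈ Mu (cj (cls P) Δ) ∧
      (n' = 3 → z ^ 3 = 1) ∧ (n' = 6 → z ^ 5 = -w) := by
    rcases htype with ⟨h3, -⟩ | ⟨h3, h4⟩ | ⟨h3, h4⟩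
    · exact absurd h3 hn4
    · refine ⟨z, 0, h4, by simp, hz, fun _ => by linear_combination (z - 1) * h4, fun h5 => ?_⟩
      omega
    · refine ⟨z - 1, 1, by linear_combination h4, by simp, ?_, fun h5 => ?_, fun _ => ?_⟩
      · have h5 : z - 1 = z * z := by linear_combination -h4
        rw [h5]
        exact hzz
      · omega
      · linear_combination (z ^ 3 + z ^ 2 - 1) * h4
  have hz6 : z ^ 6 = 1 := by
    rcases htype with ⟨h3, -⟩ | ⟨-, h3⟩ | ⟨-, h3⟩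
    · exact absurd h3 hn4
    · have h4 : z ^ 3 = 1 := by linear_combination (z - 1) * h3
      have h5 : z ^ 6 = (z ^ 3) ^ 2 := by ring
      rw [h5, h4, one_pow]
    · have h4 : z ^ 3 = -1 := by linear_combination (z + 1) * h3
      have h5 : z ^ 6 = (z ^ 3) ^ 2 := by ring
      rw [h5, h4]
      norm_num
  have hone : (1 : ℂ) ∈ Lt (cj (cls P) Δ) := h.one_mem
  have hint : ∀ m : ℤ, (m : ℂ) ∈ Lt (cj (cls P) Δ) := by
    intro m
    have h3 := (Lt (cj (cls P) Δ)).zsmul_mem hone m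
    rwa [zsmul_eq_mul, mul_one] at h3
  have hwL : w ∈ Lt (cj (cls P) Δ) := by
    obtain ⟨A, hA, hAΔ, hAz⟩ := hz
    have h3 := h.mult hA hAΔ h.one_mem
    rw [hAz, mul_one] at h3
    have h4 : w = z - e := by rw [hze]; ring
    rw [h4]
    exact (Lt (cj (cls P) Δ)).sub_mem h3 (hint e)
  have hlat : ∀ β ∈ Oz w, t β ∈ cj (cls P) Δ := by
    rintro β ⟨x, y, rfl⟩
    have h3 : (x : ℂ) + y * w ∈ Lt (cj (cls P) Δ) := by
      refine (Lt (cj (cls P) Δ)).add_mem (hint x) ?_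
      have h4 := (Lt (cj (cls P) Δ)).zsmul_mem hwL y
      rwa [zsmul_eq_mul] at h4
    exact h3
  obtain ⟨U, hU0, hU, hUw⟩ := hwM
  refine ⟨w, ?_, fun hz => nln_mg hp hU hU0 hUw hz⟩
  refine
    { w2 := hw
      le := h.le
      one := h.mem
      gen := h.gen
      lat := hlat
      up := ?_
      cusp := ?_
      fin := fun R => val_fin (bdd_fin hd (cls P)) hw hlat R
      ex := ?_
      rot := ⟨U, hU, hU0, hUw⟩ }
  · intro A hA hA0
    obtain ⟨j, -, hj⟩ := hzj _ ⟨A, hA0, hA, rfl⟩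
    rw [hj, ← pow_mul, mul_comm, pow_mul, hz6, one_pow]
  · intro A hA
    obtain ⟨γ, hγ, A', hA', hA2⟩ := h.up hA
    obtain ⟨B, rfl⟩ := cls_surj γ
    refine ⟨B, hγ, ?_⟩
    rw [← cls_mul] at hA2
    rcases cls_eq.1 hA2 with h3 | h3
    · rw [← h3]
      exact hA'
    · rw [h3, Matrix.neg_apply, neg_eq_zero] at hA'
      exact hA'
  · obtain ⟨A, hA, hA0⟩ := h.exists_base
    exact ⟨A, h.le hA, hA0⟩

theorem mg_of_short (hΓ : IsKnotGroup Γ μ) (h1 : Γ ≤ Δ) (h2 : Δ ≤ Subgroup.Commensurable.commensurator Γ)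
    (hd : DiscreteTopology Δ) (hn : ¬ Δ ≤ Subgroup.normalizer (Γ : Set PSL(2, ℂ)))
    {n : ℕ} (hn3 : n = 3 ∨ n = 6) (hc : IsCuspOrder Δ μ n)
    {δ : PSL(2, ℂ)} (hδ : δ ∈ Δ) {A B : SL(2, ℂ)} (hA : cls A = μ) (hB : cls B = δ * μ * δ⁻¹) (hA2 : A.1.trace = 2) (hB2 : B.1.trace = 2)
    (h0 : (A * B).1.trace ≠ 2) (h3 : ‖(A * B).1.trace - 2‖ ≤ 3) : MeridianGenerates Δ μ := by
  obtain ⟨hμ1, M, hM, htr⟩ := hΓ.parabolic
  have hM1 : M ≠ 1 := by
    rintro rfl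
    exact hμ1 (by rw [← hM, cls_one])
  obtain ⟨P, hP⟩ := par_form htr hM1
  have hp : cls P * t 1 * (cls P)⁻¹ = μ := by
    rw [← hM]
    have h3 : cls M * cls P = cls P * t 1 := by
      show cls (M * P) = cls (P * T 1)
      rw [hP]
    rw [← h3]
    group
  have hn0 : 0 < n := by rcases hn3 with rfl | rfl <;> norm_num
  have hn4 : n ≠ 4 := by rcases hn3 with rfl | rfl <;> norm_num
  obtain ⟨w, hnl, hmg⟩ := nl_of hΓ h1 h2 hd hn hp hn0 hc hn4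
  by_contra hno
  have hb : ∃ β, t β ∈ cj (cls P) Δ ∧ β ∉ Oz w := by
    by_contra hb
    push Not at hb
    exact hno (hmg hb)
  -- an element with small lower left entry
  obtain ⟨D, hD⟩ := cls_surj ((cls P)⁻¹ * δ * cls P)
  have hAe : A = P * T 1 * P⁻¹ := by
    refine Fn_eq ?_ hA2 (by rw [Fn_tr_conj, Fn_T1])
    rw [hA, cls_mul, cls_mul, cls_inv]
    exact hp.symm
  have hBe : B = P * (D * T 1 * D⁻¹) * P⁻¹ := by
    refine Fn_eq ?_ hB2 (by rw [Fn_tr_conj, Fn_tr_conj, Fn_T1])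
    rw [hB, cls_mul, cls_mul, cls_mul, cls_mul, cls_inv, cls_inv, hD, ← hp]
    show δ * (cls P * t 1 * (cls P)⁻¹) * δ⁻¹ = cls P * ((cls P)⁻¹ * δ * cls P * t 1 * ((cls P)⁻¹ * δ * cls P)⁻¹) * (cls P)⁻¹
    group
  have hAB : (A * B).1.trace = 2 - D.1 1 0 ^ 2 := by
    have e : A * B = P * (T 1 * (D * T 1 * D⁻¹)) * P⁻¹ := by
      rw [hAe, hBe]
      group
    rw [e, Fn_tr_conj, Fn_tr]
  have hr : ∃ A : SL(2, ℂ), cls A ∈ cj (cls P) Δ ∧ A.1 1 0 ≠ 0 ∧ Complex.normSq (A.1 1 0) ≤ 3 := by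
    refine ⟨D, ?_, ?_, ?_⟩
    · rw [hD]
      exact mem_cj' hδ
    · intro h
      apply h0
      rw [hAB, h]
      norm_num
    · rw [hAB] at h3
      have e : (2 : ℂ) - D.1 1 0 ^ 2 - 2 = -(D.1 1 0 ^ 2) := by ring
      rw [e, norm_neg, norm_pow, ← Complex.normSq_eq_norm_sq] at h3
      exact h3
  exact hnl.long hb hr

end Pool.Agent.HSI
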