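import Pool.Agent.HSI.Fns
import Pool.Agent.HSG.Nfo

/-!
# HSI/Sls: a slope of length at most six makes the meridian short

PROOF PLAN.  As HSN/Kfn.  `P` with `cls P * t 1 * (cls P)⁻¹ = μ` (`par_form`); `main3` gives `IntegralTraces → MeridianGenerates`; `nf_of` (HSG/Nfo) gives `w` and `per` with `4 ≤ |y|`.  `(cls P)⁻¹ * l * cls P` commutes with `t 1`, so it is `t τ` (`comm_t1`) and lies in
`cj (cls P) Γ`; by `per` `τ = m + k (x + y w)` with integers `m`, `k`; `k = 0` would give `l = μ ^ m`; so `4 ≤ |k y|` and `12 ≤ normSq τ` (`oz_twelve`).  `A = P * T τ * P⁻¹` (sign by the trace), `D := P⁻¹ * (lift of δ) * P`, `c := D.1 1 0`; `A * B` is conjugate to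
`T τ * D * T τ * D⁻¹`, of trace `2 - τ ^ 2 c ^ 2`; so `c ≠ 0` and `normSq τ * normSq c ≤ 36`, `normSq c ≤ 3`.  `A' = P * T 1 * P⁻¹`, `B' = (P D) * T 1 * (P D)⁻¹` with trace of `A' * B'` equal to `2 - c ^ 2` (see HSC/Fnk, which does the converse).
-/

set_option autoImplicit false

noncomputable section

namespace Pool.Agent.HSI

open Pool.Agent.HSK Pool.Agent.HSG Pool.Agent.HSC Matrix
open scoped MatrixGroups commutatorElement

variable {Γ Δ : Subgroup PSL(2, ℂ)} {μ : PSL(2, ℂ)}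

private theorem sls_tr_mul (A B : SL(2, ℂ)) : (A * B).1.trace = (B * A).1.trace := by
  rw [Matrix.SpecialLinearGroup.coe_mul, Matrix.SpecialLinearGroup.coe_mul, Matrix.trace_mul_comm]

private theorem sls_tr_conj (P A : SL(2, ℂ)) : (P * A * P⁻¹).1.trace = A.1.trace := by
  rw [sls_tr_mul, inv_mul_cancel_left]

private theorem sls_T (τ : ℂ) : (T τ).1.trace = 2 := by
  rw [Matrix.trace_fin_two, nf_t00, nf_t11]
  norm_num

private theorem sls_eq {A B : SL(2, ℂ)} (h : cls A = cls B) (hA : A.1.trace = 2) (hB : B.1.trace = 2) :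
    A = B := by
  rcases cls_eq.1 h with h1 | h1
  · exact Subtype.ext h1
  · rw [h1, Matrix.trace_neg, hB] at hA
    norm_num at hA

private theorem sls_tr (τ : ℂ) (D : SL(2, ℂ)) :
    (T τ * (D * T τ * D⁻¹)).1.trace = 2 - τ ^ 2 * D.1 1 0 ^ 2 := by
  have hd := D.2
  rw [Matrix.det_fin_two] at hd
  have e01 : ∀ A B : SL(2, ℂ), (A * B).1 0 1 = A.1 0 0 * B.1 0 1 + A.1 0 1 * B.1 1 1 := by
    intro A B
    rw [Matrix.SpecialLinearGroup.coe_mul, Matrix.mul_apply, Fin.sum_univ_two]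
  have i01 : (D⁻¹).1 0 1 = -D.1 0 1 := by
    rw [inv_coe]
    simp
  simp only [Matrix.trace_fin_two, nf_e00, nf_e10, nf_e11, e01, nf_i00, nf_i10, nf_i11, i01, nf_t00, nf_t01, nf_t10, nf_t11]
  linear_combination 2 * hd

theorem slope_short (hΓ : IsKnotGroup Γ μ) (h1 : Γ ≤ Δ) (h2 : Δ ≤ Subgroup.Commensurable.commensurator Γ)
    (hd : DiscreteTopology Δ) (hn : ¬ Δ ≤ Subgroup.normalizer (Γ : Set PSL(2, ℂ)))
    (hi : (∀ A : SL(2, ℂ), cls A ∈ Γ → IsIntegral ℤ A.1.trace) ∨ MeridianGenerates Δ μ) {n : ℕ} (hn3 : n = 3 ∨ n = 6) (hc : IsCuspOrder Δ μ n)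
    (h12 : 4 * n ≤ Γ.relIndex Δ) {l : PSL(2, ℂ)} (hl : l ∈ Γ) (hlm : Commute l μ) (hlz : l ∉ Subgroup.zpowers μ)
    {δ : PSL(2, ℂ)} (hδ : δ ∈ Δ) {A B : SL(2, ℂ)} (hA : cls A = l) (hB : cls B = δ * l * δ⁻¹) (hA2 : A.1.trace = 2) (hB2 : B.1.trace = 2)
    (h0 : (A * B).1.trace ≠ 2) (h3 : ‖(A * B).1.trace - 2‖ ≤ 36) :
    ∃ A' B' : SL(2, ℂ), cls A' = μ ∧ cls B' = δ * μ * δ⁻¹ ∧ A'.1.trace = 2 ∧ B'.1.trace = 2 ∧ (A' * B').1.trace ≠ 2 ∧
      ‖(A' * B').1.trace - 2‖ ≤ 3 := by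
  obtain ⟨hμ1, M, hM, htr⟩ := hΓ.parabolic
  have hM1 : M ≠ 1 := by
    rintro rfl
    exact hμ1 (by rw [← hM, cls_one])
  obtain ⟨P, hP⟩ := par_form htr hM1
  have hp : cls P * t 1 * (cls P)⁻¹ = μ := by
    rw [← hM]
    have h3 : cls M * cls P = cls P * t 1 := by
      show cls (M * P) = cls (P * T 1)
      rw [hP]
    rw [← h3]
    group
  have hMG : MeridianGenerates Δ μ := by
    rcases hi with hi | hi
    · obtain ⟨n', -, -, -, -, -, -, -, -, h5, -⟩ := main3 hΓ h1 h2 hd hn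
      exact h5 hi
    · exact hi
  have hn0 : 0 < n := by omega
  have hn4 : n ≠ 4 := by omega
  obtain ⟨w', hnf⟩ := nf_of hΓ h1 h2 hd hn hp hMG hn0 hc hn4 h12
  -- the slope is a translation
  obtain ⟨K, hK⟩ := cls_surj ((cls P)⁻¹ * l * cls P)
  have hcK : Commute (cls K) (t 1) := by
    rw [hK, ← comm_conj_iff (p := cls P), hp]
    have e : cls P * ((cls P)⁻¹ * l * cls P) * (cls P)⁻¹ = l := by group
    rw [e]
    exact hlm
  obtain ⟨τ, hτ⟩ := comm_t1 hcK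
  have hkt : (cls P)⁻¹ * l * cls P = t τ := hK.symm.trans hτ
  have hkt' : l = cls P * t τ * (cls P)⁻¹ := by
    rw [← hkt]
    group
  have hτΓ : t τ ∈ cj (cls P) Γ := by
    rw [← hkt]
    exact mem_cj' hl
  obtain ⟨x, y, hy, hper⟩ := hnf.per
  obtain ⟨m, k, hml⟩ := (hper τ).1 hτΓ
  have hk : k ≠ 0 := by
    rintro rfl
    apply hlz
    refine Subgroup.mem_zpowers_iff.2 ⟨m, ?_⟩
    have e : τ = (m : ℂ) := by
      rw [hml]
      push_cast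
      ring
    rw [hkt', e, ← hp, conj_zpow, t_one_pow]
  have hly : 4 ≤ |k * y| := by
    rw [abs_mul]
    have h3 : 1 ≤ |k| := Int.one_le_abs hk
    nlinarith [abs_nonneg y]
  have hτn : 12 ≤ Complex.normSq τ := by
    have h3 := (oz_twelve hnf.w2 (x := m + k * x) hly).1
    have e : ((m + k * x : ℤ) : ℂ) + ((k * y : ℤ) : ℂ) * w' = τ := by
      rw [hml]
      push_cast
      ring
    rw [e] at h3
    exact h3
  -- the matrices
  obtain ⟨D, hD⟩ := cls_surj ((cls P)⁻¹ * δ * cls P)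
  have hAe : A = P * T τ * P⁻¹ := by
    refine sls_eq ?_ hA2 (by rw [sls_tr_conj, sls_T])
    rw [hA, cls_mul, cls_mul, cls_inv]
    exact hkt'
  have hBe : B = P * (D * T τ * D⁻¹) * P⁻¹ := by
    refine sls_eq ?_ hB2 (by rw [sls_tr_conj, sls_tr_conj, sls_T])
    rw [hB, cls_mul, cls_mul, cls_mul, cls_mul, cls_inv, cls_inv, hD, hkt']
    show δ * (cls P * t τ * (cls P)⁻¹) * δ⁻¹ = cls P * ((cls P)⁻¹ * δ * cls P * t τ * ((cls P)⁻¹ * δ * cls P)⁻¹) * (cls P)⁻¹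
    group
  have hAB : (A * B).1.trace = 2 - τ ^ 2 * D.1 1 0 ^ 2 := by
    have e : A * B = P * (T τ * (D * T τ * D⁻¹)) * P⁻¹ := by
      rw [hAe, hBe]
      group
    rw [e, sls_tr_conj, sls_tr]
  have hAB' : (P * T 1 * P⁻¹ * (P * (D * T 1 * D⁻¹) * P⁻¹)).1.trace = 2 - D.1 1 0 ^ 2 := by
    have e : P * T 1 * P⁻¹ * (P * (D * T 1 * D⁻¹) * P⁻¹) = P * (T 1 * (D * T 1 * D⁻¹)) * P⁻¹ := by
      group
    rw [e, sls_tr_conj, sls_tr]
    ring
  have hc0 : D.1 1 0 ≠ 0 := by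
    intro h
    apply h0
    rw [hAB, h]
    ring
  have hc3 : Complex.normSq (D.1 1 0) ≤ 3 := by
    rw [hAB] at h3
    have e : (2 : ℂ) - τ ^ 2 * D.1 1 0 ^ 2 - 2 = -((τ * D.1 1 0) ^ 2) := by ring
    rw [e, norm_neg, norm_pow, ← Complex.normSq_eq_norm_sq, Complex.normSq_mul] at h3
    have h5 := Complex.normSq_nonneg (D.1 1 0)
    nlinarith
  refine ⟨P * T 1 * P⁻¹, P * (D * T 1 * D⁻¹) * P⁻¹, hp, ?_, ?_, ?_, ?_, ?_⟩
  · rw [cls_mul, cls_mul, cls_mul, cls_mul, cls_inv, cls_inv, hD, ← hp]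
    show cls P * ((cls P)⁻¹ * δ * cls P * t 1 * ((cls P)⁻¹ * δ * cls P)⁻¹) * (cls P)⁻¹ = δ * (cls P * t 1 * (cls P)⁻¹) * δ⁻¹
    group
  · rw [sls_tr_conj, sls_T]
  · rw [sls_tr_conj, sls_tr_conj, sls_T]
  · rw [hAB']
    intro h
    apply hc0
    have h5 : D.1 1 0 ^ 2 = 0 := by linear_combination -h
    exact pow_eq_zero_iff (two_ne_zero) |>.1 h5
  · rw [hAB']
    have e : (2 : ℂ) - D.1 1 0 ^ 2 - 2 = -(D.1 1 0 ^ 2) := by ring
    rw [e, norm_neg, norm_pow, ← Complex.normSq_eq_norm_sq]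
    exact hc3


end Pool.Agent.HSI
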