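import Pool.Agent.HSI.Defs
import Pool.Agent.GEL.Tools

/-!
# Auxiliary definitions for the proofs (not used in the statement of the result)

`n = N + 1` throughout; `d = N + 2` is the degree.
-/

open MvPolynomial

universe u

namespace Pool.Agent.HSI

/-- the Hessian matrix (rows and columns `1, …, N + 1`) -/
noncomputable def hess {k₀ : Type*} [Field k₀] {N : ℕ} (f : MvPolynomial (Fin (N + 2)) k₀)
    {A : Type*} [CommRing A] [Algebra k₀ A] (ξ : Fin (N + 2) → A) :
    Matrix (Fin (N + 1)) (Fin (N + 1)) A :=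
  Matrix.of fun i j => aeval ξ (pderiv j.succ (pderiv i.succ f))

/-- The conditions on the form `f` of degree `d = N + 2` in `N + 2` variables. -/
structure Good {k₀ : Type u} [Field k₀] {N : ℕ} (f : MvPolynomial (Fin (N + 2)) k₀) : Prop where
  hom : f.IsHomogeneous (N + 2)
  lead : coeff (Finsupp.single 1 (N + 2)) f ≠ 0
  inf : ∀ (E : Type u) [Field E] [Algebra k₀ E] (ξ : Fin (N + 2) → E), ξ ≠ 0 → ξ 0 = 0 →
    (∀ j, j ≠ 0 → aeval ξ (pderiv j f) = 0) →
      aeval ξ (pderiv 0 f) ≠ 0 ∧ aeval ξ f ≠ 0 ∧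
        ∃ (c : E) (ζ : Fin (N + 2) → k₀), ∀ i, ξ i = c * algebraMap k₀ E (ζ i)
  crit : ∀ (E : Type u) [Field E] [Algebra k₀ E] (ξ : Fin (N + 2) → E), ξ 0 = 1 →
    (∀ j, j ≠ 0 → aeval ξ (pderiv j f) = 0) →
      (∃ ζ : Fin (N + 2) → k₀, ∀ i, ξ i = algebraMap k₀ E (ζ i)) ∧
        ∃ a b, (hess f ξ).adjugate a b ≠ 0

/-- the rows `x, D_1 x, …, D_N x` -/
def rows {k₀ : Type*} [CommRing k₀] {A : Type*} [CommRing A] [Algebra k₀ A] {N : ℕ}
    (D : Fin N → Derivation k₀ A A) (x : Fin (N + 2) → A) : Fin (N + 1) → Fin (N + 2) → A :=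
  Fin.cons x fun l i => D l (x i)

/-- the rows `x, D_1 x, …, D_N x` are linearly independent -/
def ND {k₀ : Type*} [CommRing k₀] {κ : Type*} [Field κ] [Algebra k₀ κ] {N : ℕ}
    (D : Fin N → Derivation k₀ κ κ) (x : Fin (N + 2) → κ) : Prop :=
  ∃ i, GEL.mnr (rows D x) i ≠ 0

/-- the equation `x_0^(d - p) w^p + f(x) = 0` of the special fibre; the coordinates are
`(x_0, …, x_(N+1), w)` -/
noncomputable def spec (p : ℕ) {k₀ : Type*} [CommRing k₀] {N : ℕ}
    (f : MvPolynomial (Fin (N + 2)) k₀) : MvPolynomial (Fin (N + 3)) k₀ :=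
  X 0 ^ (N + 2 - p) * X (Fin.last (N + 2)) ^ p + rename Fin.castSucc f

/-- the gradient of the equation of the special fibre -/
noncomputable def grd (p : ℕ) {k₀ : Type*} [CommRing k₀] {N : ℕ} (f : MvPolynomial (Fin (N + 2)) k₀)
    {A : Type*} [CommRing A] [Algebra k₀ A] (x : Fin (N + 2) → A) (w : A) (j : Fin (N + 2)) : A :=
  aeval x (pderiv j f) +
    if j = 0 then ((N + 2 - p : ℕ) : A) * x 0 ^ (N + 2 - p - 1) * w ^ p else 0

/-- `G(x_0, …, x_(N+1), y) = p^(-p) F(x_0, …, x_(N+1), p y)` -/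
noncomputable def scF (p : ℕ) {k : Type*} [Field k] {N : ℕ} (F : MvPolynomial (Fin (N + 3)) k) :
    MvPolynomial (Fin (N + 3)) k :=
  C (((p : k) ^ p)⁻¹) * aeval (fun i => if i = Fin.last (N + 2) then C (p : k) * X i else X i) F

/-- the coordinates `(x_0, …, x_(N+1), y)` with `x_(N+2) = p y` -/
def scP (p : ℕ) {L : Type*} [Field L] {N : ℕ} (x : Fin (N + 3) → L) (i : Fin (N + 3)) : L :=
  if i = Fin.last (N + 2) then (p : L)⁻¹ * x i else x i

/-- The residue field of `V ∩ k`. -/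
noncomputable abbrev K0 (k : Type u) [Field k] {L : Type u} [Field L] [Algebra k L] (V : ValuationSubring L) :
    Subfield (IsLocalRing.ResidueField V) := GEL.resSub V (algebraMap k L).fieldRange

/-- the reduction of the point `(ξ_0 : ⋯ : ξ_(N+2))` satisfies `ND` -/
def NDred {k : Type u} [Field k] {L : Type u} [Field L] [Algebra k L] {N : ℕ} (V : ValuationSubring L)
    (D : Fin N → Derivation (K0 k V) (IsLocalRing.ResidueField V) (IsLocalRing.ResidueField V))
    (ξ : Fin (N + 3) → L) : Prop :=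
  ∃ (c : L) (h : ∀ i, c * ξ i ∈ V), c ≠ 0 ∧
    ND D fun i : Fin (N + 2) => IsLocalRing.residue V ⟨c * ξ i.castSucc, h i.castSucc⟩

/-- Everything needed for the residue characteristic `p`: a valuation ring `V` of `L` such that
`G = scF p F` reduces to `spec p f` with `f` good, such that the value groups of `k` and `L` are equal,
and derivations of the residue field of `V`. -/
structure Model {k : Type u} [Field k] {N : ℕ} (p : ℕ) (F : MvPolynomial (Fin (N + 3)) k)
    (L : Type u) [Field L] [Algebra k L] where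
  V : ValuationSubring L
  f : MvPolynomial (Fin (N + 2)) (K0 k V)
  D : Fin N → Derivation (K0 k V) (IsLocalRing.ResidueField V) (IsLocalRing.ResidueField V)
  char : (p : L) ∈ V.nonunits
  good : Good f
  mem : ∀ m, algebraMap k L (coeff m (scF p F)) ∈ V
  red : ∀ m, IsLocalRing.residue V ⟨algebraMap k L (coeff m (scF p F)), mem m⟩ =
    algebraMap (K0 k V) (IsLocalRing.ResidueField V) (coeff m (spec p f))
  val : ∀ z : L, z ≠ 0 → ∃ a : k, a ≠ 0 ∧ V.valuation z = V.valuation (algebraMap k L a)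

end Pool.Agent.HSI
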